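import Pool.Agent.Lib_helper61.DN.Defs2
import Pool.Agent.Lib_helper61.BXF.GK3

/-!
# Block CU: the cutoff and its Mellin form
-/

set_option autoImplicit false

namespace Pool.Agent.DN

open MeasureTheory Complex Finset
open Pool.Agent.SGN Pool.Agent.BX
open Pool.Agent.QG (ew)
open scoped ENNReal

noncomputable section

/-- CU -/
theorem cut_facts_pr (x : ℝ) : 0 ≤ cut x ∧ cut x ≤ 1 ∧ (|x| ≤ 1 / 2 → cut x = 1) ∧
    (1 ≤ |x| → cut x = 0) := by
  refine ⟨cutB.nonneg, cutB.le_one, fun h => ?_, fun h => ?_⟩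
  · refine cutB.one_of_mem_closedBall ?_
    rw [Metric.mem_closedBall, dist_zero_right, Real.norm_eq_abs]
    exact h
  · refine cutB.zero_of_le_dist ?_
    rw [dist_zero_right, Real.norm_eq_abs]
    exact h

/-- the function `cut (2 π y) e^(2 π y)` -/
def cu_F (y : ℝ) : ℂ :=
  ((cut (2 * Real.pi * y) * Real.exp (2 * Real.pi * y) : ℝ) : ℂ)

theorem cu_F_smooth : ContDiff ℝ (⊤ : ℕ∞) cu_F := by
  have h1 : ContDiff ℝ (⊤ : ℕ∞) fun y : ℝ => 2 * Real.pi * y := contDiff_const.mul contDiff_id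
  have h2 : ContDiff ℝ (⊤ : ℕ∞) fun y : ℝ => cut (2 * Real.pi * y) :=
    (cutB.contDiff (n := (⊤ : ℕ∞))).comp h1
  have h3 : ContDiff ℝ (⊤ : ℕ∞) fun y : ℝ => Real.exp (2 * Real.pi * y) :=
    Real.contDiff_exp.comp h1
  exact Complex.ofRealCLM.contDiff.comp (h2.mul h3)

theorem cu_F_supp : HasCompactSupport cu_F := by
  refine HasCompactSupport.intro (K := Set.Icc (-1) 1) isCompact_Icc fun y hy => ?_
  have h1 : 1 ≤ |2 * Real.pi * y| := by
    have h2 : 1 < |y| := by
      by_contra h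
      exact hy (abs_le.1 (not_lt.1 h))
    rw [abs_mul, abs_of_pos Real.two_pi_pos]
    have h3 : 1 ≤ 2 * Real.pi := by
      have := Real.pi_gt_three
      linarith
    nlinarith
  unfold cu_F
  rw [(cut_facts_pr _).2.2.2 h1, zero_mul, Complex.ofReal_zero]

/-- CU: `cut(x) e^x` is a smooth function with compact support; Fourier inversion -/
theorem cut_rep_pr : ∃ φ : ℝ → ℂ, Continuous φ ∧
    (∀ B : ℕ, Integrable fun u : ℝ => ‖φ u‖ * (1 + |u|) ^ B) ∧
    ∀ x : ℝ, ((cut x : ℝ) : ℂ) = ∫ u : ℝ, φ u * cexp (-((1 + u * I) * x)) := by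
  let F : SchwartzMap ℝ ℂ := cu_F_supp.toSchwartzMap cu_F_smooth
  let φ : SchwartzMap ℝ ℂ := FourierTransformInv.fourierInv F
  have hF : FourierTransform.fourier φ = F := FourierTransform.fourier_fourierInv_eq F
  refine ⟨φ, φ.continuous, fun B => ?_, fun x => ?_⟩
  · have h1 : (fun u : ℝ => ‖φ u‖ * (1 + |u|) ^ B) = fun u : ℝ =>
        ∑ j ∈ Finset.range (B + 1), (B.choose j : ℝ) * (‖u‖ ^ j * ‖φ u‖) := by
      funext u
      rw [add_comm (1 : ℝ) |u|, add_pow, Finset.mul_sum]
      refine Finset.sum_congr rfl fun j _ => ?_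
      rw [Real.norm_eq_abs, one_pow]
      ring
    rw [h1]
    refine integrable_finsetSum _ fun j _ => ?_
    exact (φ.integrable_pow_mul volume j).const_mul _
  · have h1 : (FourierTransform.fourier φ : SchwartzMap ℝ ℂ) (x / (2 * Real.pi)) =
        cu_F (x / (2 * Real.pi)) := by
      rw [hF]
      rfl
    have h2 : (FourierTransform.fourier φ : SchwartzMap ℝ ℂ) (x / (2 * Real.pi)) =
        ∫ u : ℝ, cexp (((-2 * Real.pi * (u * (x / (2 * Real.pi)))) : ℝ) * I) * φ u := by
      rw [SchwartzMap.fourier_coe, Real.fourier_eq']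
      refine integral_congr_ae (Filter.Eventually.of_forall fun u => ?_)
      show cexp (((-2 * Real.pi * (inner ℝ u (x / (2 * Real.pi)))) : ℝ) * I) • φ u = _
      rw [smul_eq_mul]
      congr 4
      rw [real_inner_comm]
      rfl
    have h3 : cu_F (x / (2 * Real.pi)) = ((cut x : ℝ) : ℂ) * cexp x := by
      unfold cu_F
      have h4 : 2 * Real.pi * (x / (2 * Real.pi)) = x := by
        have := Real.two_pi_pos.ne'
        field_simp
      rw [h4]
      push_cast
      rfl
    rw [h1, h3] at h2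
    have h5 : ((cut x : ℝ) : ℂ) = (((cut x : ℝ) : ℂ) * cexp x) * cexp (-x) := by
      rw [mul_assoc, ← Complex.exp_add, add_neg_cancel, Complex.exp_zero, mul_one]
    rw [h5, h2, ← integral_mul_const]
    refine integral_congr_ae (Filter.Eventually.of_forall fun u => ?_)
    have h6 : ((-2 * Real.pi * (u * (x / (2 * Real.pi))) : ℝ) : ℂ) = -((u : ℂ) * x) := by
      have h7 : -2 * Real.pi * (u * (x / (2 * Real.pi))) = -(u * x) := by
        have := Real.two_pi_pos.ne'
        field_simp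
      rw [h7]
      push_cast
      ring
    show cexp (((-2 * Real.pi * (u * (x / (2 * Real.pi))) : ℝ) : ℂ) * I) * φ u * cexp (-x) =
      φ u * cexp (-((1 + u * I) * x))
    rw [h6]
    have h8 : cexp (-((1 + u * I) * x)) = cexp (-((u : ℂ) * x) * I) * cexp (-x) := by
      rw [← Complex.exp_add]
      congr 1
      ring
    rw [h8]
    ring

end

end Pool.Agent.DN

namespace Pool.Agent.DN

theorem cut_facts : type_of% @cut_facts_pr := @cut_facts_pr
theorem cut_rep : type_of% @cut_rep_pr := @cut_rep_pr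

end Pool.Agent.DN
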