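import Pool.Agent.Lib_helper61.DNF.ME4

set_option autoImplicit false

namespace Pool.Agent.DN

open MeasureTheory Complex Finset
open Pool.Agent.SGN Pool.Agent.BX
open Pool.Agent.QG (ew)
open scoped ENNReal

noncomputable section

theorem fi1_gam_ne {n : ℕ} (μ : Fin n → ℂ) (s : ℂ) (h : ∀ j, 0 < (s + μ j).re) :
    gam μ s ≠ 0 := by
  unfold gam
  exact Finset.prod_ne_zero_iff.2 fun j _ => Gammaℝ_ne_zero_of_re_pos (h j)

theorem fi1_gam_inv {n : ℕ} (μ : Fin n → ℂ) : Differentiable ℂ fun s => (gam μ s)⁻¹ := by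
  have : (fun s => (gam μ s)⁻¹) = fun s => ∏ j, (Gammaℝ (s + μ j))⁻¹ := by
    funext s
    unfold gam
    rw [Finset.prod_inv_distrib]
  rw [this]
  refine Differentiable.fun_finsetProd fun j _ => ?_
  exact differentiable_Gammaℝ_inv.comp (differentiable_id.add_const _)

theorem fi1_Mol (lam : ℕ → ℂ) (y : ℕ) : Differentiable ℂ (Mol lam y) := by
  unfold Mol
  refine Differentiable.fun_sum fun k hk => ?_
  have hk0 : (k : ℂ) ≠ 0 := by
    have := (Finset.mem_Icc.1 hk).1
    exact_mod_cast (by omega : k ≠ 0)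
  intro s
  exact ((differentiableAt_id.neg).const_cpow (Or.inl hk0)).const_mul _

theorem fi1_rt (k : ℕ) (hk : 1 ≤ k) (s : ℂ) :
    rt k * ew s (-(1 * Real.log k)) = (k : ℂ) ^ (-s) := by
  have hk0 : (k : ℂ) ≠ 0 := by exact_mod_cast (by omega : k ≠ 0)
  have h1 : rt k = (k : ℂ) ^ (-(1 / 2) : ℂ) := by
    unfold rt
    rw [Complex.ofReal_cpow (Nat.cast_nonneg k)]
    push_cast
    rfl
  have h2 : ew s (-(1 * Real.log k)) = (k : ℂ) ^ (-(s - 1 / 2)) := by
    unfold ew
    rw [Complex.cpow_def_of_ne_zero hk0, ← Complex.natCast_log]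
    congr 1
    push_cast
    ring
  rw [h1, h2, ← Complex.cpow_add _ _ hk0]
  congr 1
  ring

theorem fI_facts_pr {n : ℕ} (hn : 1 ≤ n) (μ : Fin n → ℂ) (h : ∀ j, |(μ j).re| < 1 / 2)
    (lam : ℕ → ℂ) (hl : Triv n lam) (q : ℕ) (hq : 1 ≤ q) (e : ℂ) (he : FEq q μ lam e)
    (y : ℕ) : DifferentiableOn ℂ (fI μ lam y) {s | 1 / 2 < s.re} ∧
      ∀ s : ℂ, 1 / 2 ≤ s.re → Integrable (fun v => hd μ lam y v * ew s v) ∧
        Lap (hd μ lam y) s = gam μ s * (fI μ lam y s - 1) := by
  constructor
  · have h1 : Differentiable ℂ (fI μ lam y) := by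
      have : fI μ lam y = fun s => Lap (D0 μ lam) s * (gam μ s)⁻¹ * Mol lam y s := by
        funext s
        unfold fI
        rw [div_eq_mul_inv]
      rw [this]
      exact ((D0_entire μ h lam hl q hq e he).mul (fi1_gam_inv μ)).mul (fi1_Mol lam y)
    exact h1.differentiableOn
  · intro s hs
    have hpos : ∀ j, 0 < (s + μ j).re := by
      intro j
      have := (abs_lt.1 (h j)).1
      rw [Complex.add_re]
      linarith
    have hg := gmu_lap hn μ s hpos
    have hD := D0_int μ h lam hl q hq e he s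
    have hsh : ∀ k : ℕ, Integrable (fun x => D0 μ lam (x + 1 * Real.log k) * ew s x) ∧
        ∫ x, D0 μ lam (x + 1 * Real.log k) * ew s x =
          ew s (-(1 * Real.log k)) * Lap (D0 μ lam) s := fun k =>
      Pool.Agent.QG.laplace_shift hD rfl (1 * Real.log k)
    have e1 : (fun v => hd μ lam y v * ew s v) = fun v =>
        (∑ k ∈ Icc 1 y, bk lam y k * rt k * (D0 μ lam (v + 1 * Real.log k) * ew s v)) -
          gmu μ v * ew s v := by
      funext v
      unfold hd MG
      rw [sub_mul, Finset.sum_mul]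
      congr 1
      exact Finset.sum_congr rfl fun k _ => by ring
    have hI : ∀ k ∈ Icc 1 y, Integrable fun v =>
        bk lam y k * rt k * (D0 μ lam (v + 1 * Real.log k) * ew s v) := fun k _ =>
      (hsh k).1.const_mul _
    refine ⟨?_, ?_⟩
    · rw [e1]
      exact (integrable_finsetSum _ hI).sub hg.1
    · have hne := fi1_gam_ne μ s hpos
      have e2 : Lap (hd μ lam y) s = Lap (D0 μ lam) s * Mol lam y s - gam μ s := by
        show ∫ v, hd μ lam y v * ew s v = _
        rw [e1, integral_sub (integrable_finsetSum _ hI) hg.1, integral_finsetSum _ hI, hg.2]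
        congr 1
        unfold Mol
        rw [Finset.mul_sum]
        refine Finset.sum_congr rfl fun k hk => ?_
        rw [integral_const_mul, (hsh k).2, ← fi1_rt k (Finset.mem_Icc.1 hk).1 s]
        ring
      rw [e2]
      unfold fI
      field_simp

end

end Pool.Agent.DN

namespace Pool.Agent.DN

theorem fI_facts : type_of% @fI_facts_pr := @fI_facts_pr

end Pool.Agent.DN
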