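import Pool.Agent.Lib_helper61.DNF.FI1

/-!
# DN, block FI2: the mollified `L`-function far to the right
-/

set_option autoImplicit false

namespace Pool.Agent.DN

open MeasureTheory Complex Finset
open Pool.Agent.SGN Pool.Agent.BX
open Pool.Agent.QG (ew)
open scoped ENNReal

noncomputable section

theorem fi2_term {f : ℕ → ℂ} {s : ℂ} {a b : ℕ} (k : ℕ) (hk : 1 ≤ k) (hf : ‖f k‖ ≤ (k : ℝ) ^ a)
    (hs : (a : ℝ) + b ≤ s.re) : ‖LSeries.term f s k‖ ≤ 1 / (k : ℝ) ^ b := by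
  have hk0 : (0 : ℝ) < k := by exact_mod_cast hk
  have hk1 : (1 : ℝ) ≤ k := by exact_mod_cast hk
  rw [LSeries.norm_term_eq, if_neg (by omega),
    div_le_iff₀ (Real.rpow_pos_of_pos hk0 _)]
  have h1 : (k : ℝ) ^ a * (k : ℝ) ^ b ≤ (k : ℝ) ^ s.re := by
    rw [← pow_add, ← Real.rpow_natCast]
    apply Real.rpow_le_rpow_of_exponent_le hk1
    push_cast
    exact hs
  have hkb : (0 : ℝ) < (k : ℝ) ^ b := by positivity
  calc ‖f k‖ ≤ (k : ℝ) ^ a := hf
    _ = 1 / (k : ℝ) ^ b * ((k : ℝ) ^ a * (k : ℝ) ^ b) := by field_simp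
    _ ≤ 1 / (k : ℝ) ^ b * (k : ℝ) ^ s.re := by gcongr

/-- `∑ k^(-2)` -/
def fi2_Z : ℝ := ∑' k : ℕ, 1 / (k : ℝ) ^ 2

theorem fi2_sq : Summable fun k : ℕ => 1 / (k : ℝ) ^ 2 :=
  Real.summable_one_div_nat_pow.2 (by norm_num)

theorem fi2_Z0 : 0 ≤ fi2_Z := tsum_nonneg fun k => by positivity

/-- a Dirichlet series with coefficients `≤ k^a` -/
theorem fi2_L {f : ℕ → ℂ} {s : ℂ} {a b : ℕ} (hb : 2 ≤ b)
    (hf : ∀ k, 1 ≤ k → ‖f k‖ ≤ (k : ℝ) ^ a)
    (hs : (a : ℝ) + b ≤ s.re) : LSeriesSummable f s ∧ ‖LSeries f s‖ ≤ fi2_Z := by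
  have h : ∀ k : ℕ, ‖LSeries.term f s k‖ ≤ 1 / (k : ℝ) ^ 2 := by
    intro k
    rcases Nat.eq_zero_or_pos k with rfl | hk
    · simp
    · refine (fi2_term k hk (hf k hk) hs).trans ?_
      have hk1 : (1 : ℝ) ≤ k := by exact_mod_cast hk
      have : (k : ℝ) ^ 2 ≤ (k : ℝ) ^ b := pow_le_pow_right₀ hk1 hb
      gcongr
  refine ⟨Summable.of_norm_bounded fi2_sq h, ?_⟩
  unfold LSeries
  exact tsum_of_norm_bounded fi2_sq.hasSum h

theorem fi2_conv (lam : ℕ → ℂ) (h : lam 1 = 1) :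
    LSeries.convolution lam (minv lam) = LSeries.delta := by
  funext r
  rw [LSeries.convolution_def]
  unfold LSeries.delta
  rcases Nat.eq_zero_or_pos r with rfl | hr
  · simp
  · simp only
    rw [Nat.sum_divisorsAntidiagonal' (fun a b => lam a * minv lam b)]
    exact minv_conv lam h r hr

theorem fi2_bk (lam : ℕ → ℂ) (y k : ℕ) (hy : 2 ≤ y) (hk : y < k) : bk lam y k = 0 := by
  unfold bk
  have hy1 : (1 : ℝ) < y := by exact_mod_cast hy
  have hl : 0 < Real.log y := Real.log_pos hy1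
  have h1 : 1 ≤ |Real.log k / Real.log y| := by
    refine le_trans ?_ (le_abs_self _)
    rw [le_div_iff₀ hl, one_mul]
    exact Real.log_le_log (by linarith) (by exact_mod_cast hk.le)
  rw [(cut_facts _).2.2.2 h1, Complex.ofReal_zero, mul_zero]

theorem fi2_bk1 (lam : ℕ → ℂ) (y k : ℕ) (hy : 2 ≤ y) (hk1 : 1 ≤ k) (hk : k ^ 2 ≤ y) :
    bk lam y k = minv lam k := by
  unfold bk
  have hy1 : (1 : ℝ) < y := by exact_mod_cast hy
  have hl : 0 < Real.log y := Real.log_pos hy1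
  have hk1' : (1 : ℝ) ≤ k := by exact_mod_cast hk1
  have h1 : |Real.log k / Real.log y| ≤ 1 / 2 := by
    rw [abs_of_nonneg (div_nonneg (Real.log_nonneg hk1') hl.le), div_le_iff₀ hl]
    have : 2 * Real.log k ≤ Real.log y := by
      have e : Real.log ((k : ℝ) ^ 2) = 2 * Real.log k := by rw [Real.log_pow]; norm_num
      rw [← e]
      exact Real.log_le_log (by positivity) (by exact_mod_cast hk)
    linarith
  rw [(cut_facts _).2.2.1 h1, Complex.ofReal_one, mul_one]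

theorem fi2_bk_bd {n : ℕ} (lam : ℕ → ℂ) (hl : Triv n lam) (y k : ℕ) (hk : 1 ≤ k) :
    ‖bk lam y k‖ ≤ (k : ℝ) ^ (n + 2) := by
  unfold bk
  rw [norm_mul, Complex.norm_real, Real.norm_eq_abs]
  have h1 := cut_facts (Real.log k / Real.log y)
  have h2 : |cut (Real.log k / Real.log y)| ≤ 1 := by
    rw [abs_of_nonneg h1.1]; exact h1.2.1
  calc ‖minv lam k‖ * |cut (Real.log k / Real.log y)| ≤ (k : ℝ) ^ (n + 2) * 1 := by
        gcongr
        exact minv_bd lam hl k hk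
    _ = _ := mul_one _

theorem fi2_Mol (lam : ℕ → ℂ) (y : ℕ) (hy : 2 ≤ y) (s : ℂ) :
    Mol lam y s = LSeries (bk lam y) s := by
  unfold Mol LSeries
  rw [tsum_eq_sum (s := Icc 1 y)]
  · refine Finset.sum_congr rfl fun k hk => ?_
    have hk1 : k ≠ 0 := by have := (Finset.mem_Icc.1 hk).1; omega
    rw [LSeries.term_of_ne_zero hk1, Complex.cpow_neg, div_eq_mul_inv]
  · intro k hk
    rcases Nat.eq_zero_or_pos k with rfl | hk1
    · simp
    · have hk2 : y < k := by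
        by_contra h
        exact hk (Finset.mem_Icc.2 ⟨hk1, not_lt.1 h⟩)
      rw [LSeries.term_of_ne_zero hk1.ne', fi2_bk lam y k hy hk2, zero_div]

/-- FI2: `|LM - 1|` is small far to the right -/
theorem fI_far_pr {n : ℕ} (hn : 1 ≤ n) : ∃ y₀ : ℕ, ∀ μ : Fin n → ℂ, (∀ j, |(μ j).re| < 1 / 2) →
    ∀ lam : ℕ → ℂ, Triv n lam → ∀ y : ℕ, y₀ ≤ y → ∀ s : ℂ, (n : ℝ) + 10 ≤ s.re →
      ‖fI μ lam y s - 1‖ ≤ 1 / 2 := by
  obtain ⟨N, hN⟩ := exists_nat_ge (4 * fi2_Z ^ 2)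
  refine ⟨N + 2, fun μ hμ lam hl y hy s hs => ?_⟩
  have hy2 : 2 ≤ y := by omega
  have hyN : 4 * fi2_Z ^ 2 ≤ (y : ℝ) := by
    have : (N : ℝ) + 2 ≤ y := by exact_mod_cast hy
    linarith
  obtain ⟨h1, h2, h3⟩ := D0_lap hn μ hμ lam hl s (by linarith)
  have hgam : gam μ s ≠ 0 := by
    unfold gam
    refine Finset.prod_ne_zero_iff.2 fun j _ => Gammaℝ_ne_zero_of_re_pos ?_
    have := (abs_lt.1 (hμ j)).1
    have hn' : (0 : ℝ) ≤ n := Nat.cast_nonneg n
    rw [Complex.add_re]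
    linarith
  have hfI : fI μ lam y s = LSeries lam s * LSeries (bk lam y) s := by
    unfold fI
    rw [h3, mul_div_cancel_left₀ _ hgam, fi2_Mol lam y hy2]
  obtain ⟨ha, hb⟩ := fi2_L (f := lam) (s := s) (a := n) (b := 10) (by norm_num)
    (fun k _ => hl.2 k) (by push_cast; exact hs)
  obtain ⟨hc, _⟩ := fi2_L (f := minv lam) (s := s) (a := n + 2) (b := 8) (by norm_num)
    (fun k hk => minv_bd lam hl k hk) (by push_cast; linarith)
  obtain ⟨hd, _⟩ := fi2_L (f := bk lam y) (s := s) (a := n + 2) (b := 8) (by norm_num)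
    (fun k hk => fi2_bk_bd lam hl y k hk) (by push_cast; linarith)
  have hone : LSeries lam s * LSeries (minv lam) s = 1 := by
    rw [← LSeries_convolution' ha hc, fi2_conv lam hl.1, LSeries_delta]
    rfl
  have hdiff : ‖LSeries (bk lam y) s - LSeries (minv lam) s‖ ≤ 2 / y * fi2_Z := by
    unfold LSeries
    rw [← hd.tsum_sub hc]
    refine tsum_of_norm_bounded (fi2_sq.hasSum.mul_left (2 / (y : ℝ))) fun k => ?_
    have hy0 : (0 : ℝ) < y := by exact_mod_cast (by omega : 0 < y)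
    rcases Nat.eq_zero_or_pos k with rfl | hk
    · simp
    · have hk0 : (0 : ℝ) < k := by exact_mod_cast hk
      have hk1 : (1 : ℝ) ≤ k := by exact_mod_cast hk
      by_cases hky : k ^ 2 ≤ y
      · rw [LSeries.term_of_ne_zero hk.ne', LSeries.term_of_ne_zero hk.ne',
          fi2_bk1 lam y k hy2 hk hky, sub_self, norm_zero]
        positivity
      · have hky' : (y : ℝ) ≤ (k : ℝ) ^ 2 := by exact_mod_cast (not_le.1 hky).le
        have e1 := fi2_term (f := bk lam y) (s := s) (a := n + 2) (b := 8) k hk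
          (fi2_bk_bd lam hl y k hk) (by push_cast; linarith)
        have e2 := fi2_term (f := minv lam) (s := s) (a := n + 2) (b := 8) k hk
          (minv_bd lam hl k hk) (by push_cast; linarith)
        have e3 : 1 / (k : ℝ) ^ 8 ≤ 1 / (y : ℝ) * (1 / (k : ℝ) ^ 2) := by
          rw [one_div_mul_one_div]
          apply one_div_le_one_div_of_le (by positivity)
          have h4 : (1 : ℝ) ≤ (k : ℝ) ^ 4 := one_le_pow₀ hk1
          calc (y : ℝ) * (k : ℝ) ^ 2 ≤ (k : ℝ) ^ 2 * (k : ℝ) ^ 2 := by gcongr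
            _ = (k : ℝ) ^ 4 * 1 := by ring
            _ ≤ (k : ℝ) ^ 4 * (k : ℝ) ^ 4 := by gcongr
            _ = (k : ℝ) ^ 8 := by ring
        calc ‖LSeries.term (bk lam y) s k - LSeries.term (minv lam) s k‖
            ≤ 1 / (k : ℝ) ^ 8 + 1 / (k : ℝ) ^ 8 := (norm_sub_le _ _).trans (add_le_add e1 e2)
          _ ≤ 2 / (y : ℝ) * (1 / (k : ℝ) ^ 2) := by
            have : 2 / (y : ℝ) * (1 / (k : ℝ) ^ 2) = 2 * (1 / (y : ℝ) * (1 / (k : ℝ) ^ 2)) := by
              ring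
            rw [this]
            linarith
  have hfin : fI μ lam y s - 1 =
      LSeries lam s * (LSeries (bk lam y) s - LSeries (minv lam) s) := by
    rw [hfI, ← hone]; ring
  rw [hfin, norm_mul]
  have hy0 : (0 : ℝ) < y := by exact_mod_cast (by omega : 0 < y)
  calc ‖LSeries lam s‖ * ‖LSeries (bk lam y) s - LSeries (minv lam) s‖
      ≤ fi2_Z * (2 / y * fi2_Z) := by
        gcongr
        exact fi2_Z0
    _ = (2 * fi2_Z ^ 2) / y := by ring
    _ ≤ 1 / 2 := by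
        rw [div_le_iff₀ hy0]
        linarith

end

end Pool.Agent.DN

namespace Pool.Agent.DN

theorem fI_far : type_of% @fI_far_pr := @fI_far_pr

end Pool.Agent.DN
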