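import Pool.Agent.Lib_helper61.DNF.FI2

set_option autoImplicit false

namespace Pool.Agent.DN

open MeasureTheory Complex Finset
open Pool.Agent.SGN Pool.Agent.BX
open Pool.Agent.QG (ew)
open scoped ENNReal

noncomputable section

theorem fi3_gam_inv {n : ℕ} (μ : Fin n → ℂ) : Differentiable ℂ fun s => (gam μ s)⁻¹ := by
  have : (fun s => (gam μ s)⁻¹) = fun s => ∏ j, (Gammaℝ (s + μ j))⁻¹ := by
    funext s
    unfold gam
    rw [Finset.prod_inv_distrib]
  rw [this]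
  refine Differentiable.fun_finsetProd fun j _ => ?_
  exact differentiable_Gammaℝ_inv.comp (differentiable_id.add_const _)

theorem fi3_Mol (lam : ℕ → ℂ) (y : ℕ) : Differentiable ℂ (Mol lam y) := by
  unfold Mol
  refine Differentiable.fun_sum fun k hk => ?_
  have hk0 : (k : ℂ) ≠ 0 := by
    have := (Finset.mem_Icc.1 hk).1
    exact_mod_cast (by omega : k ≠ 0)
  intro s
  exact ((differentiableAt_id.neg).const_cpow (Or.inl hk0)).const_mul _

/-- FI3: the zeros of `Λ` to the right of the critical line are zeros of `L M` -/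
theorem fI_zeros_pr {n : ℕ} (hn : 1 ≤ n) (μ : Fin n → ℂ) (h : ∀ j, |(μ j).re| < 1 / 2)
    (lam : ℕ → ℂ) (hl : Triv n lam) (q : ℕ) (hq : 1 ≤ q) (e : ℂ) (he : FEq q μ lam e)
    (y : ℕ) (hy : ∃ s : ℂ, 1 / 2 < s.re ∧ fI μ lam y s ≠ 0) (ρ : ℂ) (hρ : 1 / 2 < ρ.re)
    (h0 : Lap (D0 μ lam) ρ = 0) :
    fI μ lam y ρ = 0 ∧ analyticOrderNatAt (fun s => (q : ℂ) ^ (s / 2) * Lap (D0 μ lam) s) ρ ≤
      analyticOrderNatAt (fI μ lam y) ρ := by
  have hD := D0_entire μ h lam hl q hq e he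
  have hG := fi3_gam_inv μ
  have hM := fi3_Mol lam y
  have hH : Differentiable ℂ (fun s => (gam μ s)⁻¹ * Mol lam y s) := hG.mul hM
  have hf : fI μ lam y = Lap (D0 μ lam) * fun s => (gam μ s)⁻¹ * Mol lam y s := by
    funext s
    simp only [Pi.mul_apply]
    unfold fI
    rw [div_eq_mul_inv, mul_assoc]
  have hfe : Differentiable ℂ (fI μ lam y) := by
    rw [hf]
    exact hD.mul hH
  refine ⟨by unfold fI; rw [h0]; simp, ?_⟩
  have hq0 : (q : ℂ) ≠ 0 := by exact_mod_cast (by omega : q ≠ 0)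
  have hQ : Differentiable ℂ (fun s : ℂ => (q : ℂ) ^ (s / 2)) := by
    intro s
    exact (differentiableAt_id.div_const 2).const_cpow (Or.inl hq0)
  have aL : AnalyticAt ℂ (Lap (D0 μ lam)) ρ := hD.analyticAt ρ
  have aH : AnalyticAt ℂ (fun s => (gam μ s)⁻¹ * Mol lam y s) ρ := hH.analyticAt ρ
  have aQ : AnalyticAt ℂ (fun s : ℂ => (q : ℂ) ^ (s / 2)) ρ := hQ.analyticAt ρ
  have hQ0 : (q : ℂ) ^ (ρ / 2) ≠ 0 := by
    rw [Complex.cpow_def_of_ne_zero hq0]
    exact Complex.exp_ne_zero _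
  have e1 : analyticOrderAt (fun s => (q : ℂ) ^ (s / 2) * Lap (D0 μ lam) s) ρ =
      analyticOrderAt (Lap (D0 μ lam)) ρ := by
    have : (fun s => (q : ℂ) ^ (s / 2) * Lap (D0 μ lam) s) =
        (fun s : ℂ => (q : ℂ) ^ (s / 2)) * Lap (D0 μ lam) := rfl
    rw [this, analyticOrderAt_mul aQ aL, aQ.analyticOrderAt_eq_zero.2 hQ0, zero_add]
  have e2 : analyticOrderAt (fI μ lam y) ρ = analyticOrderAt (Lap (D0 μ lam)) ρ +
      analyticOrderAt (fun s => (gam μ s)⁻¹ * Mol lam y s) ρ := by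
    rw [hf]
    exact analyticOrderAt_mul aL aH
  have e3 : analyticOrderAt (fI μ lam y) ρ ≠ ⊤ := by
    intro ht
    obtain ⟨s, hs, hs0⟩ := hy
    apply hs0
    have h1 := analyticOrderAt_eq_top.1 ht
    have h2 : AnalyticOnNhd ℂ (fI μ lam y) Set.univ := fun z _ => hfe.analyticAt z
    have h3 := h2.eqOn_zero_of_preconnected_of_eventuallyEq_zero isPreconnected_univ
      (Set.mem_univ ρ) h1
    exact h3 (Set.mem_univ s)
  unfold analyticOrderNatAt
  refine ENat.toNat_le_toNat ?_ e3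
  rw [e1, e2]
  exact le_self_add


end

end Pool.Agent.DN

namespace Pool.Agent.DN

theorem fI_zeros : type_of% @fI_zeros_pr := @fI_zeros_pr

end Pool.Agent.DN
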