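import Pool.Agent.Lib_helper61.DNF.FI3

/-! Block FI4 of the project DN: zeros on both sides of the critical line. -/

set_option autoImplicit false

namespace Pool.Agent.DN

open MeasureTheory Complex Finset
open Pool.Agent.SGN Pool.Agent.BX
open Pool.Agent.QG (ew)
open scoped ENNReal Topology

noncomputable section

theorem fi4_refl_tendsto (ρ : ℂ) : Filter.Tendsto (fun s : ℂ => 1 - (starRingEnd ℂ) s) (𝓝 ρ)
    (𝓝 (1 - (starRingEnd ℂ) ρ)) :=
  ((continuous_const.sub Complex.continuous_conj).tendsto ρ)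

theorem fi4_order_refl {f : ℂ → ℂ} (hf : Differentiable ℂ f) {e : ℂ} (he : e ≠ 0)
    (hfe : ∀ s, f s = e * (starRingEnd ℂ) (f (1 - (starRingEnd ℂ) s))) (ρ : ℂ) :
    analyticOrderNatAt f (1 - (starRingEnd ℂ) ρ) = analyticOrderNatAt f ρ := by
  have hct := fi4_refl_tendsto ρ
  unfold analyticOrderNatAt
  congr 1
  symm
  have hfa : AnalyticAt ℂ f (1 - (starRingEnd ℂ) ρ) := hf.analyticAt _
  have hga : AnalyticAt ℂ f ρ := hf.analyticAt _
  rcases h : analyticOrderAt f (1 - (starRingEnd ℂ) ρ) with _ | n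
  · change _ = (⊤ : ℕ∞)
    replace h : analyticOrderAt f (1 - (starRingEnd ℂ) ρ) = ⊤ := h
    rw [analyticOrderAt_eq_top] at h ⊢
    filter_upwards [hct.eventually h] with s hs
    rw [hfe s, hs, map_zero, mul_zero]
  · change _ = ((n : ℕ) : ℕ∞)
    replace h : analyticOrderAt f (1 - (starRingEnd ℂ) ρ) = (n : ℕ∞) := h
    rw [hfa.analyticOrderAt_eq_natCast] at h
    rw [hga.analyticOrderAt_eq_natCast]
    obtain ⟨g, hg, hg0, hfg⟩ := h
    refine ⟨fun s => e * (-1) ^ n * (starRingEnd ℂ) (g (1 - (starRingEnd ℂ) s)), ?_, ?_, ?_⟩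
    · refine AnalyticAt.mul analyticAt_const ?_
      have h1 : ∀ᶠ w in 𝓝 (1 - (starRingEnd ℂ) ρ), DifferentiableAt ℂ g w :=
        hg.eventually_analyticAt.mono fun w hw => hw.differentiableAt
      refine Complex.analyticAt_iff_eventually_differentiableAt.mpr ?_
      filter_upwards [hct.eventually h1] with s hs
      have h3 : DifferentiableAt ℂ (fun w : ℂ => g (1 - w)) ((starRingEnd ℂ) s) :=
        DifferentiableAt.comp (f := fun w : ℂ => 1 - w) ((starRingEnd ℂ) s) hs (by fun_prop)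
      have h2 := h3.conj_conj
      rw [Complex.conj_conj] at h2
      exact h2
    · exact mul_ne_zero (mul_ne_zero he (pow_ne_zero _ (by norm_num))) ((map_ne_zero _).mpr hg0)
    · filter_upwards [hct.eventually hfg] with s hs
      rw [hfe s, hs]
      simp only [smul_eq_mul, map_mul, map_pow, map_sub, map_one, Complex.conj_conj]
      have : (1 - s - (1 - ρ)) = (-1) * (s - ρ) := by ring
      rw [this, mul_pow]
      ring

/-- FI4: the zeros of `Λ` in both directions -/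
theorem farZ_right_pr {q : ℕ} {n : ℕ} {μ : Fin n → ℂ} {lam : ℕ → ℂ} {Λ : ℂ → ℂ}
    (hL : IsLambda q μ lam Λ) (hne : ∃ s, Λ s ≠ 0) {ε a b k : ℝ} (hε : 0 < ε) (hk : 0 ≤ k)
    (hf : ¬ farZ Λ ε a b < ENNReal.ofReal k) :
    ∃ S : Finset ℂ, (∀ ρ ∈ S, 1 / 2 + ε ≤ ρ.re ∧ a ≤ ρ.im ∧ ρ.im ≤ b ∧ Λ ρ = 0) ∧
      k / 4 ≤ ∑ ρ ∈ S, (analyticOrderNatAt Λ ρ : ℝ) := by
  classical
  obtain ⟨hd, -, e, he1, hFE⟩ := hL
  have he0 : e ≠ 0 := by
    intro h
    rw [h, norm_zero] at he1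
    exact zero_ne_one he1
  rcases hk.eq_or_lt with h0 | hk0
  · exact ⟨∅, by simp, by simp [← h0]⟩
  have hlt : ENNReal.ofReal (k / 2) < farZ Λ ε a b :=
    lt_of_lt_of_le ((ENNReal.ofReal_lt_ofReal_iff hk0).mpr (by linarith)) (not_lt.mp hf)
  unfold farZ at hlt
  rw [ENNReal.tsum_eq_iSup_sum, lt_iSup_iff] at hlt
  obtain ⟨F, hF⟩ := hlt
  -- the finite set of the points of `F` with a positive order
  set G : Finset ℂ := F.image Subtype.val with hG
  have hGm : ∀ ρ ∈ G, ε ≤ |ρ.re - 1 / 2| ∧ a ≤ ρ.im ∧ ρ.im ≤ b := by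
    intro ρ hρ
    obtain ⟨x, -, rfl⟩ := Finset.mem_image.mp hρ
    exact x.2
  have hsum : k / 2 < ∑ ρ ∈ G, (analyticOrderNatAt Λ ρ : ℝ) := by
    have h1 : (∑ x ∈ F, (analyticOrderNatAt Λ x.1 : ℝ≥0∞)) =
        ENNReal.ofReal (∑ ρ ∈ G, (analyticOrderNatAt Λ ρ : ℝ)) := by
      rw [hG, Finset.sum_image fun x _ y _ h => Subtype.ext h,
        ENNReal.ofReal_sum_of_nonneg fun _ _ => Nat.cast_nonneg _]
      exact Finset.sum_congr rfl fun x _ => by rw [ENNReal.ofReal_natCast]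
    rw [h1] at hF
    exact (ENNReal.ofReal_lt_ofReal_iff' .. |>.mp hF).1
  have ord_ne : ∀ ρ : ℂ, analyticOrderNatAt Λ ρ ≠ 0 → Λ ρ = 0 := by
    intro ρ h
    by_contra hcon
    exact h (by
      unfold analyticOrderNatAt
      rw [(hd.analyticAt ρ).analyticOrderAt_eq_zero.mpr hcon]
      rfl)
  -- right and left parts
  set R : Finset ℂ := G.filter fun ρ => 0 ≤ ρ.re - 1 / 2 with hR
  set L : Finset ℂ := G.filter fun ρ => ¬ 0 ≤ ρ.re - 1 / 2 with hLd
  have hsplit : ∑ ρ ∈ G, (analyticOrderNatAt Λ ρ : ℝ) =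
      ∑ ρ ∈ R, (analyticOrderNatAt Λ ρ : ℝ) + ∑ ρ ∈ L, (analyticOrderNatAt Λ ρ : ℝ) :=
    (Finset.sum_filter_add_sum_filter_not _ _ _).symm
  rcases le_or_gt (k / 4) (∑ ρ ∈ R, (analyticOrderNatAt Λ ρ : ℝ)) with hr | hr
  · refine ⟨R.filter fun ρ => Λ ρ = 0, ?_, ?_⟩
    · intro ρ hρ
      rw [Finset.mem_filter, hR, Finset.mem_filter] at hρ
      obtain ⟨⟨hρG, hρ0⟩, hρz⟩ := hρ
      obtain ⟨h1, h2, h3⟩ := hGm ρ hρG
      rw [abs_of_nonneg hρ0] at h1
      exact ⟨by linarith, h2, h3, hρz⟩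
    · rw [Finset.sum_filter_of_ne]
      · exact hr
      · intro ρ _ h
        exact ord_ne ρ (by exact_mod_cast h)
  · have hl : k / 4 ≤ ∑ ρ ∈ L, (analyticOrderNatAt Λ ρ : ℝ) := by linarith
    have hinj : ∀ x ∈ L, ∀ y ∈ L, (1 - (starRingEnd ℂ) x) = (1 - (starRingEnd ℂ) y) → x = y := by
      intro x _ y _ h
      have h' : (starRingEnd ℂ) x = (starRingEnd ℂ) y := by linear_combination -h
      exact (starRingEnd ℂ).injective h'
    refine ⟨(L.filter fun ρ => Λ ρ = 0).image fun ρ => 1 - (starRingEnd ℂ) ρ, ?_, ?_⟩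
    · intro w hw
      obtain ⟨ρ, hρ, rfl⟩ := Finset.mem_image.mp hw
      rw [Finset.mem_filter, hLd, Finset.mem_filter] at hρ
      obtain ⟨⟨hρG, hρ0⟩, hρz⟩ := hρ
      obtain ⟨h1, h2, h3⟩ := hGm ρ hρG
      rw [abs_of_neg (not_le.mp hρ0)] at h1
      refine ⟨?_, ?_, ?_, ?_⟩
      · simp only [sub_re, one_re, conj_re]; linarith
      · simpa using h2
      · simpa using h3
      · rw [hFE (1 - (starRingEnd ℂ) ρ)]
        simp [hρz]
    · rw [Finset.sum_image]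
      · simp only [fi4_order_refl hd he0 hFE]
        rw [Finset.sum_filter_of_ne]
        · exact hl
        · intro ρ _ h
          exact ord_ne ρ (by exact_mod_cast h)
      · intro x hx y hy h
        exact hinj x (Finset.mem_of_mem_filter x hx) y (Finset.mem_of_mem_filter y hy) h

end

end Pool.Agent.DN

namespace Pool.Agent.DN

theorem farZ_right : type_of% @farZ_right_pr := @farZ_right_pr

end Pool.Agent.DN
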