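import Pool.Agent.Lib_helper61.DNF.ME6

/-! # DN, block FIN: the density theorem -/

set_option autoImplicit false

namespace Pool.Agent.DN

open MeasureTheory Complex Finset
open Pool.Agent.SGN Pool.Agent.BX
open Pool.Agent.QG (ew)
open scoped ENNReal

noncomputable section

/-- the systems with parameter in `K` are finite in number -/
theorem fin_sys {n q : ℕ} [NeZero q] (K : Set (Fin n → ℂ)) (X : ℝ)
    (h : ∀ (β : Type) [Fintype β] (lam : β → ℕ → ℂ) (μ : β → Fin n → ℂ),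
      Function.Injective lam → (∀ b, μ b ∈ K) → (∀ b, Att n q (μ b) (lam b)) →
      (Fintype.card β : ℝ) ≤ X) : {lam : ℕ → ℂ | ∃ μ ∈ K, Att n q μ lam}.Finite := by
  by_contra hinf
  obtain ⟨t, ht, hc⟩ := Set.Infinite.exists_subset_card_eq hinf (⌊X⌋₊ + 1)
  have h1 : ∀ b : t, ∃ μ ∈ K, Att n q μ b.1 := fun b => ht b.2
  choose μ hμ hA using h1
  have h2 := h t (fun b => b.1) μ Subtype.val_injective hμ hA
  rw [Fintype.card_coe, hc] at h2
  have h3 := Nat.lt_floor_add_one X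
  push_cast at h2
  linarith

/-- FIN: the density theorem -/
theorem density_pr {n : ℕ} (hn : 2 ≤ n) (K : Set (Fin n → ℂ)) (hK : Kok K) (h1 : HA n)
    (h2 : HFE n) (h3 : HB n K) (h4 : HM n) (a b : ℝ) (hab : a ≤ b) :
    ∃ c C : ℝ, 0 < c ∧ 0 < C ∧ ∃ q₀ : ℕ, ∀ (q : ℕ) [NeZero q], q.Prime → q₀ ≤ q →
      ∀ ε : ℝ, 0 < ε → ε ≤ 1 → ∀ k : ℝ, 1 ≤ k → k ≤ Real.log q →
        (Bad n q K (Few k ε a b)).Finite ∧ ((Bad n q K (Few k ε a b)).ncard : ℝ) ≤
          C * (Real.log q / k) * (q : ℝ) ^ ((n : ℝ) - c * ε) := by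
  obtain ⟨C₀, κ, η, δ, q₁, hC₀, hκ, hκ4, hη, hηκ, hδ, hfam⟩ := h3
  set R : ℝ := (n : ℝ) + 10 with hR
  have hn0 : (0 : ℝ) ≤ n := Nat.cast_nonneg n
  have hR4 : 4 ≤ R := by linarith
  set T : ℝ := |a| + |b| + R + 1 with hT
  have hT0 : 0 < T := by
    have := abs_nonneg a
    have := abs_nonneg b
    linarith
  obtain ⟨c₁, C₁, q₂, hc₁, hC₁, hmean⟩ := fI_mean hn K hK h4 C₀ κ η δ (2 * R + 1) T hC₀ hκ hη hηκ
    hκ4 hδ hT0
  obtain ⟨C₂, hC₂, hcount⟩ := count_fam (R := R) (κ := c₁) hR4 hc₁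
  obtain ⟨y₀, hfar⟩ := fI_far (n := n) (by omega)
  -- the parameter q₀
  have hlim : Filter.Tendsto (fun q : ℕ => (q : ℝ) ^ (η / 3)) Filter.atTop Filter.atTop :=
    (tendsto_rpow_atTop (by positivity)).comp tendsto_natCast_atTop_atTop
  obtain ⟨q₃, hq₃⟩ := Filter.eventually_atTop.mp (hlim.eventually_ge_atTop ((y₀ : ℝ) + 2))
  set c : ℝ := min (c₁ / 2) δ with hcdef
  have hc0 : 0 < c := lt_min (by positivity) hδ
  have hcc₁ : c ≤ c₁ / 2 := min_le_left _ _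
  have hcδ : c ≤ δ := min_le_right _ _
  refine ⟨c, C₀ + 8 * C₂ * C₁ + C₀ * Real.exp (2 * c), hc0, by positivity,
    max (max (max q₁ q₂) q₃) 8, ?_⟩
  intro q _ hq hq0 ε hε hε1 k hk1 hkq
  have hqq₁ : q₁ ≤ q := le_trans (by simp) hq0
  have hqq₂ : q₂ ≤ q := le_trans (by simp) hq0
  have hqq₃ : q₃ ≤ q := le_trans (by simp) hq0
  have hq8 : 8 ≤ q := le_trans (by simp) hq0
  have hq8' : (8 : ℝ) ≤ q := by exact_mod_cast hq8
  have hqpos : (0 : ℝ) < q := by linarith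
  have hq1 : (1 : ℝ) ≤ q := by linarith
  have hlog2 : 2 ≤ Real.log q := by
    rw [Real.le_log_iff_exp_le hqpos]
    have h5 := Real.exp_one_lt_d9
    have h6 : Real.exp 2 = Real.exp 1 * Real.exp 1 := by
      rw [← Real.exp_add]
      norm_num
    rw [h6]
    have h7 := Real.exp_pos 1
    nlinarith
  have hlogpos : 0 < Real.log q := by linarith
  have hk0 : 0 < k := by linarith
  have hLk : 1 ≤ Real.log q / k := by
    rw [le_div_iff₀ hk0]
    linarith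
  set y : ℕ := ⌊(q : ℝ) ^ (η / 3)⌋₊ with hydef
  have hyy₀ : y₀ ≤ y := by
    refine Nat.le_floor ?_
    have := hq₃ q hqq₃
    linarith
  -- finiteness
  have hfin0 : {lam : ℕ → ℂ | ∃ μ ∈ K, Att n q μ lam}.Finite :=
    fin_sys K (C₀ * (q : ℝ) ^ (n : ℝ)) fun β _ lam μ hi hμ hA =>
      (hfam q hq hqq₁ β lam μ hi hμ hA).1
  have hfin : (Bad n q K (Few k ε a b)).Finite := by
    refine hfin0.subset ?_
    rintro lam ⟨μ, hμ, hA, -⟩
    exact ⟨μ, hμ, hA⟩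
  refine ⟨hfin, ?_⟩
  set F := hfin.toFinset with hF
  have hmem : ∀ b' : F, ∃ μ ∈ K, Att n q μ b'.1 ∧
      ¬ ∃ Λ : ℂ → ℂ, IsLambda q μ b'.1 Λ ∧ Few k ε a b Λ := fun b' =>
    (Set.Finite.mem_toFinset hfin).1 b'.2
  choose μ hμ hA hNo using hmem
  obtain ⟨hcard, om, hLS⟩ := hfam q hq hqq₁ F (fun b' => b'.1) μ Subtype.val_injective hμ hA
  have hTF : ∀ i : F, Triv n i.1 ∧ ∃ e : ℂ, FEq q (μ i) i.1 e := by
    intro i
    obtain ⟨χ, hχ, f, hf⟩ := hA i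
    exact ⟨h1 q χ (μ i) f i.1 hf, h2 q hq χ hχ (μ i) (hK.2 _ (hμ i)) f i.1 hf⟩
  choose hTr e he using hTF
  have hncard : ((Bad n q K (Few k ε a b)).ncard : ℝ) = (Fintype.card F : ℝ) := by
    rw [Set.ncard_eq_toFinset_card _ hfin, Fintype.card_coe]
  rw [hncard]
  have hqX : 0 ≤ (q : ℝ) ^ ((n : ℝ) - c * ε) := by positivity
  -- the case of very small `ε`
  rcases lt_or_ge ε (2 / Real.log q) with hsm | hlg
  · have h5 : (q : ℝ) ^ (n : ℝ) ≤ Real.exp (2 * c) * (q : ℝ) ^ ((n : ℝ) - c * ε) := by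
      have h6 : (q : ℝ) ^ (n : ℝ) = (q : ℝ) ^ (c * ε) * (q : ℝ) ^ ((n : ℝ) - c * ε) := by
        rw [← Real.rpow_add hqpos]
        congr 1
        ring
      rw [h6]
      refine mul_le_mul_of_nonneg_right ?_ hqX
      rw [Real.rpow_def_of_pos hqpos]
      refine Real.exp_le_exp.mpr ?_
      have h7 : ε * Real.log q ≤ 2 := by
        rw [lt_div_iff₀ hlogpos] at hsm
        exact hsm.le
      nlinarith
    calc (Fintype.card F : ℝ) ≤ C₀ * (q : ℝ) ^ (n : ℝ) := hcard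
      _ ≤ C₀ * (Real.exp (2 * c) * (q : ℝ) ^ ((n : ℝ) - c * ε)) :=
          mul_le_mul_of_nonneg_left h5 hC₀.le
      _ = (C₀ * Real.exp (2 * c)) * 1 * (q : ℝ) ^ ((n : ℝ) - c * ε) := by ring
      _ ≤ (C₀ + 8 * C₂ * C₁ + C₀ * Real.exp (2 * c)) * (Real.log q / k) *
          (q : ℝ) ^ ((n : ℝ) - c * ε) := by
          have h8 : 0 ≤ C₀ + 8 * C₂ * C₁ := by positivity
          gcongr
          linarith
  -- the main case
  classical
  have hlam : ∀ i : F, IsLambda q (μ i) i.1 fun s => (q : ℂ) ^ (s / 2) * Lap (D0 (μ i) i.1) s :=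
    fun i => lambda_exists (by omega) (μ i) (hK.2 _ (hμ i)) i.1 (hTr i) q (by omega) (e i) (he i)
  have hqc : ((q : ℂ)) ≠ 0 := by exact_mod_cast hqpos.ne'
  have hqs : ∀ s : ℂ, (q : ℂ) ^ (s / 2) ≠ 0 := by
    intro s
    rw [Complex.cpow_def_of_ne_zero hqc]
    exact Complex.exp_ne_zero _
  have hzer : ∀ i : F, ∃ S : Finset ℂ, (∀ ρ ∈ S, 1 / 2 + ε ≤ ρ.re ∧ a ≤ ρ.im ∧ ρ.im ≤ b ∧
      (q : ℂ) ^ (ρ / 2) * Lap (D0 (μ i) i.1) ρ = 0) ∧
      k / 4 ≤ ∑ ρ ∈ S, (analyticOrderNatAt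
        (fun s => (q : ℂ) ^ (s / 2) * Lap (D0 (μ i) i.1) s) ρ : ℝ) := by
    intro i
    refine farZ_right (hlam i) ?_ hε hk0.le ?_
    · refine ⟨((n : ℝ) + 3 : ℝ), mul_ne_zero (hqs _) ?_⟩
      exact Lap_ne (by omega) (μ i) (hK.2 _ (hμ i)) i.1 (hTr i) _ (by simp)
    · intro hf
      exact hNo i ⟨_, hlam i, hf⟩
  choose S hS hSk using hzer
  have hfy : ∀ i : F, ∃ s : ℂ, 1 / 2 < s.re ∧ fI (μ i) i.1 y s ≠ 0 := by
    intro i
    refine ⟨((n : ℝ) + 10 : ℝ), ?_, ?_⟩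
    · rw [Complex.ofReal_re]
      linarith
    · intro h0
      have h5 := hfar (μ i) (hK.2 _ (hμ i)) i.1 (hTr i) y hyy₀ (((n : ℝ) + 10 : ℝ) : ℂ)
        (by rw [Complex.ofReal_re])
      rw [h0] at h5
      norm_num at h5
  have hord : ∀ i : F, ∀ ρ ∈ S i, fI (μ i) i.1 y ρ = 0 ∧
      analyticOrderNatAt (fun s => (q : ℂ) ^ (s / 2) * Lap (D0 (μ i) i.1) s) ρ ≤
        analyticOrderNatAt (fI (μ i) i.1 y) ρ := by
    intro i ρ hρ
    obtain ⟨h5, -, -, h6⟩ := hS i ρ hρ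
    exact fI_zeros (by omega) (μ i) (hK.2 _ (hμ i)) i.1 (hTr i) q (by omega) (e i) (he i) y
      (hfy i) ρ (by linarith) ((mul_eq_zero.mp h6).resolve_left (hqs ρ))
  have key := hcount F om (fun i => fI (μ i) i.1 y) a b T (Real.log q)
    (C₁ * (q : ℝ) ^ (n : ℝ)) (fun i => (hLS.1 i).1)
    (fun i => (fI_facts (by omega) (μ i) (hK.2 _ (hμ i)) i.1 (hTr i) q (by omega) (e i)
      (he i) y).1) hab le_rfl hlog2 (by positivity)
    (fun i s hs => hfar (μ i) (hK.2 _ (hμ i)) i.1 (hTr i) y hyy₀ s (by linarith))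
    (fun σ hσ1 hσ2 => hmean q hq hqq₂ F (fun b' => b'.1) μ om e hμ hTr he hcard hLS σ hσ1 hσ2)
    ε hlg hε1 S (fun i ρ hρ => by
      obtain ⟨h5, h6, h7, -⟩ := hS i ρ hρ
      exact ⟨h5, h6, h7, (hord i ρ hρ).1⟩)
  set P : Finset F := univ.filter fun b' => ¬ om b' < 1 / 2 with hP
  have hlow : (P.card : ℝ) * (k / 8) ≤
      ∑ i, om i * ∑ ρ ∈ S i, (analyticOrderNatAt (fI (μ i) i.1 y) ρ : ℝ) := by
    calc (P.card : ℝ) * (k / 8) = ∑ i ∈ P, k / 8 := by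
          rw [Finset.sum_const, nsmul_eq_mul]
      _ ≤ ∑ i ∈ P, om i * ∑ ρ ∈ S i, (analyticOrderNatAt (fI (μ i) i.1 y) ρ : ℝ) := by
          refine Finset.sum_le_sum fun i hi => ?_
          have h5 : 1 / 2 ≤ om i := not_lt.mp (Finset.mem_filter.mp hi).2
          have h6 : k / 4 ≤ ∑ ρ ∈ S i, (analyticOrderNatAt (fI (μ i) i.1 y) ρ : ℝ) := by
            refine (hSk i).trans (Finset.sum_le_sum fun ρ hρ => ?_)
            exact_mod_cast (hord i ρ hρ).2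
          nlinarith
      _ ≤ _ := by
          refine Finset.sum_le_sum_of_subset_of_nonneg (Finset.filter_subset _ _) ?_
          intro i _ _
          have := (hLS.1 i).1
          positivity
  have hPcard : (P.card : ℝ) ≤ 8 * C₂ * C₁ * (Real.log q / k) *
      (q : ℝ) ^ ((n : ℝ) - c * ε) := by
    have h5 := hlow.trans key
    have h6 : Real.exp (-(c₁ / 2 * ε * Real.log q)) ≤ (q : ℝ) ^ (-(c * ε)) := by
      rw [Real.rpow_def_of_pos hqpos]
      refine Real.exp_le_exp.mpr ?_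
      have h7 : 0 ≤ ε * Real.log q := by positivity
      nlinarith
    have h7 : (P.card : ℝ) * (k / 8) ≤ C₂ * Real.log q * (C₁ * (q : ℝ) ^ (n : ℝ)) *
        (q : ℝ) ^ (-(c * ε)) :=
      h5.trans (mul_le_mul_of_nonneg_left h6 (by positivity))
    have h8 : (q : ℝ) ^ ((n : ℝ) - c * ε) = (q : ℝ) ^ (n : ℝ) * (q : ℝ) ^ (-(c * ε)) := by
      rw [← Real.rpow_add hqpos]
      congr 1
    rw [h8]
    have h9 : (P.card : ℝ) ≤ C₂ * Real.log q * (C₁ * (q : ℝ) ^ (n : ℝ)) *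
        (q : ℝ) ^ (-(c * ε)) / (k / 8) := by
      rw [le_div_iff₀ (by positivity)]
      exact h7
    refine h9.trans (le_of_eq ?_)
    generalize (q : ℝ) ^ (n : ℝ) = u3
    generalize (q : ℝ) ^ (-(c * ε)) = u4
    generalize Real.log q = u5
    have hk' : k ≠ 0 := hk0.ne'
    field_simp
  have hcardF : (Fintype.card F : ℝ) =
      ((univ.filter fun b' : F => om b' < 1 / 2).card : ℝ) + (P.card : ℝ) := by
    have h5 := Finset.card_filter_add_card_filter_not (s := (univ : Finset F))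
      (fun b' : F => om b' < 1 / 2)
    rw [Finset.card_univ] at h5
    rw [← h5, Nat.cast_add]
  have hsmall : ((univ.filter fun b' : F => om b' < 1 / 2).card : ℝ) ≤
      C₀ * (q : ℝ) ^ ((n : ℝ) - c * ε) := by
    refine hLS.2.1.trans ?_
    refine mul_le_mul_of_nonneg_left (Real.rpow_le_rpow_of_exponent_le hq1 ?_) hC₀.le
    nlinarith
  rw [hcardF]
  calc ((univ.filter fun b' : F => om b' < 1 / 2).card : ℝ) + (P.card : ℝ)
      ≤ C₀ * (q : ℝ) ^ ((n : ℝ) - c * ε) + 8 * C₂ * C₁ * (Real.log q / k) *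
        (q : ℝ) ^ ((n : ℝ) - c * ε) := add_le_add hsmall hPcard
    _ ≤ C₀ * (Real.log q / k) * (q : ℝ) ^ ((n : ℝ) - c * ε) +
        8 * C₂ * C₁ * (Real.log q / k) * (q : ℝ) ^ ((n : ℝ) - c * ε) := by
        gcongr
        nlinarith
    _ ≤ _ := by
        have h5 : 0 ≤ C₀ * Real.exp (2 * c) * (Real.log q / k) *
            (q : ℝ) ^ ((n : ℝ) - c * ε) := by positivity
        nlinarith

end

end Pool.Agent.DN

namespace Pool.Agent.DN

theorem density : type_of% @density_pr := @density_pr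

end Pool.Agent.DN
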