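import Pool.Agent.Lib_helper61.DNF.ME2

/-! # DN, block HT: the tail of the mollified density -/

set_option autoImplicit false

namespace Pool.Agent.DN

open MeasureTheory Complex Finset
open Pool.Agent.SGN Pool.Agent.BX
open Pool.Agent.QG (ew)
open scoped ENNReal

noncomputable section

/-- the terms of the double series, indexed by `k` and `r + 1 = m k` -/
def ht_f {n : ℕ} (μ : Fin n → ℂ) (lam : ℕ → ℂ) (y : ℕ) (x : ℝ) (k r : ℕ) : ℂ :=
  if k ∣ r + 1 then bk lam y k * lam ((r + 1) / k) * (rt (r + 1) *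
    gmu μ (x + Real.log ((r + 1 : ℕ) : ℝ))) else 0

theorem ht_rt_mul (a b : ℕ) : rt (a * b) = rt a * rt b := by
  unfold rt
  rw [← Complex.ofReal_mul, Nat.cast_mul, Real.mul_rpow (Nat.cast_nonneg _) (Nat.cast_nonneg _)]

theorem ht_rt_le (k : ℕ) (hk : 1 ≤ k) : ‖rt k‖ ≤ 1 := by
  unfold rt
  rw [Complex.norm_real, Real.norm_of_nonneg (by positivity)]
  refine Real.rpow_le_one_of_one_le_of_nonpos (by exact_mod_cast hk) (by norm_num)

theorem ht_D0 {n : ℕ} (μ : Fin n → ℂ) (lam : ℕ → ℂ) (y : ℕ) (x : ℝ) (k : ℕ) (hk : 1 ≤ k) :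
    bk lam y k * rt k * D0 μ lam (x + 1 * Real.log k) = ∑' r, ht_f μ lam y x k r := by
  have hinj : Function.Injective fun m : ℕ => k * (m + 1) - 1 := by
    intro m m' h
    simp only at h
    have h1 : 1 ≤ k * (m + 1) := Nat.mul_pos hk (Nat.succ_pos _)
    have h2 : 1 ≤ k * (m' + 1) := Nat.mul_pos hk (Nat.succ_pos _)
    have h3 : k * (m + 1) = k * (m' + 1) := by omega
    have := Nat.eq_of_mul_eq_mul_left hk h3
    omega
  have hsupp : Function.support (ht_f μ lam y x k) ⊆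
      Set.range fun m : ℕ => k * (m + 1) - 1 := by
    intro r hr
    rw [Function.mem_support] at hr
    unfold ht_f at hr
    split_ifs at hr with h
    · obtain ⟨j, hj⟩ := h
      have hj0 : j ≠ 0 := by
        rintro rfl
        simp at hj
      obtain ⟨m, rfl⟩ := Nat.exists_eq_succ_of_ne_zero hj0
      refine ⟨m, ?_⟩
      simp only
      rw [Nat.succ_eq_add_one] at hj
      omega
    · exact absurd rfl hr
  rw [← hinj.tsum_eq hsupp]
  unfold D0
  rw [← tsum_mul_left]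
  refine tsum_congr fun m => ?_
  have h1 : k * (m + 1) - 1 + 1 = k * (m + 1) := by
    have : 1 ≤ k * (m + 1) := Nat.mul_pos hk (Nat.succ_pos _)
    omega
  have hk0 : (k : ℝ) ≠ 0 := by
    have : (0 : ℝ) < k := by exact_mod_cast hk
    exact this.ne'
  have hm0 : ((m : ℝ) + 1) ≠ 0 := by positivity
  unfold ht_f
  rw [h1, if_pos (Dvd.intro _ rfl), Nat.mul_div_cancel_left _ hk, ht_rt_mul, Nat.cast_mul,
    Nat.cast_add, Nat.cast_one, Real.log_mul hk0 hm0]
  have h2 : rt (m + 1) = ((((m : ℝ) + 1) ^ (-(1 / 2) : ℝ) : ℝ) : ℂ) := by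
    unfold rt
    push_cast
    rfl
  rw [h2, one_mul, add_assoc]
  ring

theorem ht_bk_bd {n : ℕ} (lam : ℕ → ℂ) (hl : Triv n lam) (y k : ℕ) (hk : 1 ≤ k) :
    ‖bk lam y k‖ ≤ (k : ℝ) ^ (n + 2) := by
  unfold bk
  obtain ⟨h1, h2, -, -⟩ := cut_facts (Real.log k / Real.log y)
  rw [norm_mul, Complex.norm_real, Real.norm_of_nonneg h1]
  calc ‖minv lam k‖ * cut (Real.log k / Real.log y) ≤ ‖minv lam k‖ * 1 :=
        mul_le_mul_of_nonneg_left h2 (norm_nonneg _)
    _ ≤ _ := by rw [mul_one]; exact minv_bd lam hl k hk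

theorem ht_c_bd {n : ℕ} (lam : ℕ → ℂ) (hl : Triv n lam) (y k r : ℕ) (hk : 1 ≤ k)
    (hd : k ∣ r + 1) : ‖bk lam y k * lam ((r + 1) / k)‖ ≤ ((r : ℝ) + 1) ^ (n + 2) := by
  obtain ⟨j, hj⟩ := hd
  have hj1 : 1 ≤ j := by
    rcases Nat.eq_zero_or_pos j with h | h
    · rw [h] at hj
      simp at hj
    · exact h
  have hj' : ((r : ℝ) + 1) = k * j := by exact_mod_cast hj
  rw [hj, Nat.mul_div_cancel_left _ hk, norm_mul, hj', mul_pow]
  have h1 := ht_bk_bd lam hl y k hk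
  have h2 := hl.2 j
  have h3 : (j : ℝ) ^ n ≤ (j : ℝ) ^ (n + 2) := by
    refine pow_le_pow_right₀ (by exact_mod_cast hj1) (by omega)
  exact mul_le_mul h1 (h2.trans h3) (norm_nonneg _) (by positivity)

theorem ht_bd {n : ℕ} (μ : Fin n → ℂ) (lam : ℕ → ℂ) (hl : Triv n lam) (y : ℕ) (x B C : ℝ)
    (hC : 0 ≤ C) (hg : ∀ v : ℝ, ‖gmu μ v‖ ≤ C * Real.exp (-(B * v))) (k r : ℕ) (hk : 1 ≤ k) :
    ‖ht_f μ lam y x k r‖ ≤ C * Real.exp (-(B * x)) * ((r : ℝ) + 1) ^ ((n : ℝ) + 2 - B) := by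
  have hr : (0 : ℝ) < (r : ℝ) + 1 := by positivity
  unfold ht_f
  split_ifs with h
  · have h1 := ht_c_bd lam hl y k r hk h
    have h2 := ht_rt_le (r + 1) (by omega)
    have h3 := hg (x + Real.log ((r + 1 : ℕ) : ℝ))
    have h4 : Real.exp (-(B * (x + Real.log ((r + 1 : ℕ) : ℝ)))) =
        Real.exp (-(B * x)) * ((r : ℝ) + 1) ^ (-B) := by
      rw [Real.rpow_def_of_pos hr, ← Real.exp_add]
      congr 1
      push_cast
      ring
    rw [h4] at h3
    have h5 : ((r : ℝ) + 1) ^ ((n : ℝ) + 2 - B) = ((r : ℝ) + 1) ^ (n + 2) *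
        ((r : ℝ) + 1) ^ (-B) := by
      rw [sub_eq_add_neg, Real.rpow_add hr, ← Real.rpow_natCast]
      push_cast
      ring
    rw [norm_mul, norm_mul (rt (r + 1))]
    calc ‖bk lam y k * lam ((r + 1) / k)‖ * (‖rt (r + 1)‖ *
          ‖gmu μ (x + Real.log ((r + 1 : ℕ) : ℝ))‖)
        ≤ ((r : ℝ) + 1) ^ (n + 2) * (1 * (C * (Real.exp (-(B * x)) * ((r : ℝ) + 1) ^ (-B)))) := by
          gcongr
      _ = _ := by
          rw [h5]
          ring
  · rw [norm_zero]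
    positivity

theorem ht_sq : Summable fun r : ℕ => ((r : ℝ) + 1) ^ (-2 : ℝ) := by
  have h1 : Summable fun r : ℕ => ((r : ℝ)) ^ (-2 : ℝ) := by
    rw [Real.summable_nat_rpow]
    norm_num
  have h2 := (summable_nat_add_iff 1).mpr h1
  refine h2.congr fun r => ?_
  push_cast
  rfl

/-- HT -/
theorem hd_bd_pr {n : ℕ} (hn : 1 ≤ n) (K : Set (Fin n → ℂ)) (hK : Kok K) (B : ℝ)
    (hB : (n : ℝ) + 5 ≤ B) : ∃ C : ℝ, 0 ≤ C ∧ ∀ μ ∈ K, ∀ lam : ℕ → ℂ, Triv n lam →
      ∀ y : ℕ, 2 ≤ y → ∀ v : ℝ,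
        ‖hd μ lam y v‖ ≤ C * (y : ℝ) ^ (((n : ℝ) + 5 - B) / 2) * Real.exp (-(B * v)) := by
  obtain ⟨c₀, hc₀, hbd⟩ := gmu_bd K hK
  obtain ⟨C, hC, hg⟩ := hbd B (by
    have : (0 : ℝ) ≤ n := Nat.cast_nonneg n
    linarith)
  set Z : ℝ := ∑' r : ℕ, ((r : ℝ) + 1) ^ (-2 : ℝ) with hZ
  have hZ0 : 0 ≤ Z := tsum_nonneg fun r => by positivity
  refine ⟨C * Z, by positivity, fun μ hμ lam hl y hy x => ?_⟩
  have hg' : ∀ v : ℝ, ‖gmu μ v‖ ≤ C * Real.exp (-(B * v)) := fun v => (hg μ hμ v).2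
  have hy0 : (0 : ℝ) < y := by
    have : 0 < y := by omega
    exact_mod_cast this
  set E : ℝ := C * Real.exp (-(B * x)) with hE
  have hE0 : 0 ≤ E := by positivity
  -- summability
  have hsumk : ∀ k ∈ Icc 1 y, Summable (ht_f μ lam y x k) := by
    intro k hk
    refine Summable.of_norm_bounded (g := fun r : ℕ => E * ((r : ℝ) + 1) ^ (-2 : ℝ))
      (ht_sq.mul_left E) fun r => ?_
    refine (ht_bd μ lam hl y x B C hC hg' k r (Finset.mem_Icc.mp hk).1).trans ?_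
    refine mul_le_mul_of_nonneg_left (Real.rpow_le_rpow_of_exponent_le ?_ (by linarith)) hE0
    have : (0 : ℝ) ≤ r := Nat.cast_nonneg r
    linarith
  have h1 : MG μ lam (bk lam y) 1 y x = ∑' r, ∑ k ∈ Icc 1 y, ht_f μ lam y x k r := by
    unfold MG
    rw [Summable.tsum_finsetSum hsumk]
    exact Finset.sum_congr rfl fun k hk => ht_D0 μ lam y x k (Finset.mem_Icc.mp hk).1
  have h2 : gmu μ x = ∑' r : ℕ, if r = 0 then gmu μ x else 0 := by
    rw [tsum_ite_eq 0 fun _ => gmu μ x]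
  have hs2 : Summable fun r : ℕ => if r = 0 then gmu μ x else 0 :=
    (hasSum_ite_eq 0 (gmu μ x)).summable
  have h3 : hd μ lam y x = ∑' r : ℕ, (∑ k ∈ Icc 1 y, ht_f μ lam y x k r -
      if r = 0 then gmu μ x else 0) := by
    unfold hd
    rw [(summable_sum hsumk).tsum_sub hs2, ← h1, ← h2]
  rw [h3]
  have h4 : HasSum (fun r : ℕ => E * (y : ℝ) ^ (((n : ℝ) + 5 - B) / 2) * ((r : ℝ) + 1) ^ (-2 : ℝ))
      (E * (y : ℝ) ^ (((n : ℝ) + 5 - B) / 2) * Z) := ht_sq.hasSum.mul_left _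
  have h5 : C * Z * (y : ℝ) ^ (((n : ℝ) + 5 - B) / 2) * Real.exp (-(B * x)) =
      E * (y : ℝ) ^ (((n : ℝ) + 5 - B) / 2) * Z := by
    rw [hE]
    ring
  rw [h5]
  refine tsum_of_norm_bounded h4 fun r => ?_
  have hr : (0 : ℝ) < (r : ℝ) + 1 := by positivity
  -- the coefficient
  have h6 : ∑ k ∈ Icc 1 y, ht_f μ lam y x k r =
      (∑ k ∈ (Icc 1 y).filter (· ∣ r + 1), lam ((r + 1) / k) * bk lam y k) *
        (rt (r + 1) * gmu μ (x + Real.log ((r + 1 : ℕ) : ℝ))) := by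
    rw [Finset.sum_filter, Finset.sum_mul]
    refine Finset.sum_congr rfl fun k _ => ?_
    unfold ht_f
    split_ifs
    · ring
    · ring
  rcases lt_or_ge y ((r + 1) ^ 2) with hyr | hyr
  · -- `(r + 1)^2 > y`
    have hr0 : r ≠ 0 := by
      rintro rfl
      norm_num at hyr
      omega
    rw [if_neg hr0, sub_zero]
    have h7 : ‖∑ k ∈ Icc 1 y, ht_f μ lam y x k r‖ ≤
        ∑ k ∈ (Icc 1 y).filter (· ∣ r + 1), E * ((r : ℝ) + 1) ^ ((n : ℝ) + 2 - B) := by
      have h8 : ∑ k ∈ Icc 1 y, ht_f μ lam y x k r =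
          ∑ k ∈ (Icc 1 y).filter (· ∣ r + 1), ht_f μ lam y x k r := by
        rw [Finset.sum_filter]
        refine Finset.sum_congr rfl fun k _ => ?_
        split_ifs with h
        · rfl
        · unfold ht_f
          rw [if_neg h]
      rw [h8]
      refine norm_sum_le_of_le _ fun k hk => ?_
      exact ht_bd μ lam hl y x B C hC hg' k r (Finset.mem_Icc.mp (Finset.mem_filter.mp hk).1).1
    have h9 : (((Icc 1 y).filter (· ∣ r + 1)).card : ℝ) ≤ (r : ℝ) + 1 := by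
      have h10 : ((Icc 1 y).filter (· ∣ r + 1)).card ≤ r + 1 := by
        calc ((Icc 1 y).filter (· ∣ r + 1)).card ≤ (Nat.divisors (r + 1)).card := by
              refine Finset.card_le_card fun k hk => ?_
              rw [Finset.mem_filter] at hk
              exact Nat.mem_divisors.mpr ⟨hk.2, by omega⟩
          _ ≤ r + 1 := Nat.card_divisors_le_self _
      exact_mod_cast h10
    refine h7.trans ?_
    rw [Finset.sum_const, nsmul_eq_mul]
    have h11 : ((r : ℝ) + 1) ^ ((n : ℝ) + 2 - B) * ((r : ℝ) + 1) =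
        ((r : ℝ) + 1) ^ (-2 : ℝ) * ((r : ℝ) + 1) ^ ((n : ℝ) + 5 - B) := by
      rw [← Real.rpow_add_one hr.ne', ← Real.rpow_add hr]
      congr 1
      ring
    have h12 : ((r : ℝ) + 1) ^ ((n : ℝ) + 5 - B) ≤ (y : ℝ) ^ (((n : ℝ) + 5 - B) / 2) := by
      have e1 : ((r : ℝ) + 1) ^ ((n : ℝ) + 5 - B) =
          (((r : ℝ) + 1) ^ 2) ^ (((n : ℝ) + 5 - B) / 2) := by
        rw [← Real.rpow_natCast, ← Real.rpow_mul hr.le]
        congr 1
        push_cast
        ring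
      rw [e1]
      refine Real.rpow_le_rpow_of_nonpos hy0 ?_ (by linarith)
      exact_mod_cast hyr.le
    calc (((Icc 1 y).filter (· ∣ r + 1)).card : ℝ) * (E * ((r : ℝ) + 1) ^ ((n : ℝ) + 2 - B))
        ≤ ((r : ℝ) + 1) * (E * ((r : ℝ) + 1) ^ ((n : ℝ) + 2 - B)) :=
          mul_le_mul_of_nonneg_right h9 (by positivity)
      _ = E * (((r : ℝ) + 1) ^ ((n : ℝ) + 2 - B) * ((r : ℝ) + 1)) := by ring
      _ = E * (((r : ℝ) + 1) ^ (-2 : ℝ) * ((r : ℝ) + 1) ^ ((n : ℝ) + 5 - B)) := by rw [h11]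
      _ ≤ E * (((r : ℝ) + 1) ^ (-2 : ℝ) * (y : ℝ) ^ (((n : ℝ) + 5 - B) / 2)) := by gcongr
      _ = _ := by ring
  · -- `(r + 1)^2 ≤ y`: the coefficient vanishes
    have hyr1 : r + 1 ≤ y := by nlinarith
    have h7 : (Icc 1 y).filter (· ∣ r + 1) = Nat.divisors (r + 1) := by
      ext k
      rw [Finset.mem_filter, Finset.mem_Icc, Nat.mem_divisors]
      constructor
      · rintro ⟨-, h⟩
        exact ⟨h, by omega⟩
      · rintro ⟨h, -⟩
        exact ⟨⟨Nat.pos_of_dvd_of_pos h (by omega), (Nat.le_of_dvd (by omega) h).trans hyr1⟩, h⟩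
    have h7b : ∑ k ∈ (r + 1).divisors, lam ((r + 1) / k) * bk lam y k =
        ∑ k ∈ (r + 1).divisors, lam ((r + 1) / k) * minv lam k := by
      refine Finset.sum_congr rfl fun k hk => ?_
      have hk1 : 1 ≤ k := Nat.pos_of_mem_divisors hk
      have hkr : k ≤ r + 1 := Nat.divisor_le hk
      have hlk : 0 ≤ Real.log k := Real.log_nonneg (by exact_mod_cast hk1)
      have hly : 0 < Real.log y := Real.log_pos (by
        have : 1 < y := by omega
        exact_mod_cast this)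
      have hlog : 2 * Real.log k ≤ Real.log y := by
        have e1 : (k : ℝ) ^ 2 ≤ y := by
          have : k ^ 2 ≤ y := (Nat.pow_le_pow_left hkr 2).trans hyr
          exact_mod_cast this
        have e2 := Real.log_le_log (by positivity) e1
        rw [Real.log_pow] at e2
        exact_mod_cast e2
      have hc := (cut_facts (Real.log k / Real.log y)).2.2.1 (by
        rw [abs_of_nonneg (by positivity), div_le_iff₀ hly]
        linarith)
      unfold bk
      rw [hc]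
      simp
    have h8 : ∑ k ∈ Icc 1 y, ht_f μ lam y x k r - (if r = 0 then gmu μ x else 0) = 0 := by
      rw [h6, h7, h7b, minv_conv lam hl.1 (r + 1) (by omega)]
      by_cases hr0 : r = 0
      · subst hr0
        simp [rt]
      · rw [if_neg (by omega), if_neg hr0]
        ring
    rw [h8, norm_zero]
    positivity

end

end Pool.Agent.DN

namespace Pool.Agent.DN

theorem hd_bd : type_of% @hd_bd_pr := @hd_bd_pr

end Pool.Agent.DN
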