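import Pool.Agent.Lib_helper61.DNF.MO5

/-!
# DN, block LSA: the large sieve in terms of the model, natural numbers
-/

set_option autoImplicit false

namespace Pool.Agent.DN

open MeasureTheory Complex Finset
open Pool.Agent.SGN Pool.Agent.BX
open Pool.Agent.QG (ew)
open scoped ENNReal

noncomputable section

/-! ### sums of words with different charges are orthogonal in the model -/

theorem lsa_X_bd {n : ℕ} (M : Model n) (m : ℕ) : ∃ B : ℝ, ∀ w, ‖M.X m w‖ ≤ B := by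
  induction m using Nat.recOnPosPrimePosCoprime with
  | prime_pow p j hp hj => exact ⟨Nat.choose (j + n - 1) j, fun w => M.bdd p hp j w⟩
  | zero => exact ⟨0, fun w => by rw [M.zero, norm_zero]⟩
  | one => exact ⟨1, fun w => by rw [M.one, norm_one]⟩
  | coprime a b ha hb hab iha ihb =>
    obtain ⟨A, hA⟩ := iha
    obtain ⟨B, hB⟩ := ihb
    refine ⟨A * B, fun w => ?_⟩
    rw [M.mul a b hab, norm_mul]
    exact mul_le_mul (hA w) (hB w) (norm_nonneg _) ((norm_nonneg _).trans (hA w))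

theorem lsa_prod_bd {n : ℕ} (M : Model n) (l : List ℕ) :
    (∃ B : ℝ, ∀ w, ‖(l.map fun m => M.X m w).prod‖ ≤ B) ∧
      @Measurable M.Om ℂ M.ms _ (fun w => (l.map fun m => M.X m w).prod) := by
  let _ := M.ms
  induction l with
  | nil => exact ⟨⟨1, fun w => by simp⟩, by simp⟩
  | cons a l ih =>
    obtain ⟨⟨B, hB⟩, hm⟩ := ih
    obtain ⟨A, hA⟩ := lsa_X_bd M a
    refine ⟨⟨A * B, fun w => ?_⟩, ?_⟩
    · rw [List.map_cons, List.prod_cons, norm_mul]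
      exact mul_le_mul (hA w) (hB w) (norm_nonneg _) ((norm_nonneg _).trans (hA w))
    · simp only [List.map_cons, List.prod_cons]
      exact (M.meas a).mul hm

theorem lsa_lw_bd {n : ℕ} (M : Model n) (W : Wd) :
    (∃ B : ℝ, ∀ w, ‖lw (fun m => M.X m w) W‖ ≤ B) ∧
      @Measurable M.Om ℂ M.ms _ (fun w => lw (fun m => M.X m w) W) := by
  let _ := M.ms
  obtain ⟨⟨A, hA⟩, hm⟩ := lsa_prod_bd M W.1
  obtain ⟨⟨B, hB⟩, hm'⟩ := lsa_prod_bd M W.2
  have h : ∀ w, (W.2.map fun b => (starRingEnd ℂ) (M.X b w)).prod =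
      (starRingEnd ℂ) ((W.2.map fun m => M.X m w).prod) := by
    intro w
    rw [map_list_prod, List.map_map]
    rfl
  refine ⟨⟨A * B, fun w => ?_⟩, ?_⟩
  · rw [lw, norm_mul, h, RCLike.norm_conj]
    exact mul_le_mul (hA w) (hB w) (norm_nonneg _) ((norm_nonneg _).trans (hA w))
  · simp only [lw, h]
    exact hm.mul (Complex.continuous_conj.measurable.comp hm')

/-- bounded measurable functions on the model -/
def lsa_BM {n : ℕ} (M : Model n) (f : M.Om → ℂ) : Prop :=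
  (∃ B : ℝ, ∀ w, ‖f w‖ ≤ B) ∧ @Measurable M.Om ℂ M.ms _ f

theorem lsa_BM_int {n : ℕ} {M : Model n} {f : M.Om → ℂ} (h : lsa_BM M f) :
    @Integrable ℂ _ _ M.Om M.ms f M.P := by
  let _ := M.ms
  have _ := M.pr
  obtain ⟨⟨B, hB⟩, hm⟩ := h
  exact Integrable.of_bound hm.aestronglyMeasurable B (Filter.Eventually.of_forall hB)

theorem lsa_BM_mul {n : ℕ} {M : Model n} {f g : M.Om → ℂ} (hf : lsa_BM M f) (hg : lsa_BM M g) :
    lsa_BM M fun w => f w * g w := by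
  let _ := M.ms
  obtain ⟨⟨A, hA⟩, hm⟩ := hf
  obtain ⟨⟨B, hB⟩, hm'⟩ := hg
  refine ⟨⟨A * B, fun w => ?_⟩, hm.mul hm'⟩
  rw [norm_mul]
  exact mul_le_mul (hA w) (hB w) (norm_nonneg _) ((norm_nonneg _).trans (hA w))

theorem lsa_BM_conj {n : ℕ} {M : Model n} {f : M.Om → ℂ} (hf : lsa_BM M f) :
    lsa_BM M fun w => (starRingEnd ℂ) (f w) := by
  let _ := M.ms
  obtain ⟨⟨A, hA⟩, hm⟩ := hf
  exact ⟨⟨A, fun w => by rw [RCLike.norm_conj]; exact hA w⟩,
    Complex.continuous_conj.measurable.comp hm⟩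

theorem lsa_BM_sum {n : ℕ} {M : Model n} {ι : Type*} (R : Finset ι) {f : ι → M.Om → ℂ}
    (hf : ∀ i ∈ R, lsa_BM M (f i)) : lsa_BM M fun w => ∑ i ∈ R, f i w := by
  let _ := M.ms
  classical
  induction R using Finset.induction_on with
  | empty => exact ⟨⟨0, fun w => by simp⟩, by simp⟩
  | insert i R hi ih =>
    obtain ⟨⟨A, hA⟩, hm⟩ := hf i (mem_insert_self _ _)
    obtain ⟨⟨B, hB⟩, hm'⟩ := ih fun j hj => hf j (mem_insert_of_mem hj)
    refine ⟨⟨A + B, fun w => ?_⟩, ?_⟩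
    · show ‖∑ i ∈ insert i R, f i w‖ ≤ A + B
      rw [sum_insert hi]
      exact (norm_add_le _ _).trans (add_le_add (hA w) (hB w))
    · simp only [sum_insert hi]
      exact hm.add hm'

theorem lsa_BM_smul {n : ℕ} {M : Model n} {f : M.Om → ℂ} (c : ℂ) (hf : lsa_BM M f) :
    lsa_BM M fun w => c * f w := by
  let _ := M.ms
  obtain ⟨⟨A, hA⟩, hm⟩ := hf
  refine ⟨⟨‖c‖ * A, fun w => ?_⟩, hm.const_mul c⟩
  rw [norm_mul]
  exact mul_le_mul_of_nonneg_left (hA w) (norm_nonneg _)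

theorem lsa_lw_BM {n : ℕ} (M : Model n) (W : Wd) : lsa_BM M fun w => lw (fun m => M.X m w) W :=
  lsa_lw_bd M W

/-- sums of words with different charges are orthogonal -/
theorem lsa_orth {n : ℕ} (hM : HM n) (M : Model n) {ι τ : Type*} (R : Finset ι)
    (V : ι → Finset τ) (Wt : ι → τ → Wd) (a : ι → τ → ℂ) (f : ι → M.Om → ℂ)
    (hf : ∀ i ∈ R, ∀ w, f i w = ∑ t ∈ V i, a i t * lw (fun m => M.X m w) (Wt i t))
    (hV : ∀ i ∈ R, ∀ t ∈ V i, (∀ b ∈ (Wt i t).1, 1 ≤ b) ∧ ∀ b ∈ (Wt i t).2, 1 ≤ b)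
    (ho : ∀ i ∈ R, ∀ j ∈ R, i ≠ j → ∀ t ∈ V i, ∀ t' ∈ V j,
      (Wt i t).1.prod * (Wt j t').2.prod ≠ (Wt j t').1.prod * (Wt i t).2.prod) :
    M.EE (fun w => ‖∑ i ∈ R, f i w‖ ^ 2) = ∑ i ∈ R, M.EE (fun w => ‖f i w‖ ^ 2) := by
  let _ := M.ms
  have _ := M.pr
  have hB : ∀ i ∈ R, lsa_BM M (f i) := by
    intro i hi
    have h : f i = fun w => ∑ t ∈ V i, a i t * lw (fun m => M.X m w) (Wt i t) :=
      funext (hf i hi)
    rw [h]
    exact lsa_BM_sum _ fun t _ => lsa_BM_smul _ (lsa_lw_BM M (Wt i t))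
  have h0 : ∀ i ∈ R, ∀ j ∈ R, i ≠ j → ∫ w, f i w * (starRingEnd ℂ) (f j w) ∂M.P = 0 := by
    intro i hi j hj hij
    have h1 : ∀ w, f i w * (starRingEnd ℂ) (f j w) = ∑ t ∈ V i, ∑ t' ∈ V j,
        a i t * (starRingEnd ℂ) (a j t') * (lw (fun m => M.X m w) (Wt i t) *
          (starRingEnd ℂ) (lw (fun m => M.X m w) (Wt j t'))) := by
      intro w
      rw [hf i hi w, hf j hj w, map_sum, sum_mul]
      refine sum_congr rfl fun t _ => ?_
      rw [mul_sum]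
      refine sum_congr rfl fun t' _ => ?_
      rw [map_mul]
      ring
    simp only [h1]
    rw [integral_finsetSum]
    · refine sum_eq_zero fun t ht => ?_
      rw [integral_finsetSum]
      · refine sum_eq_zero fun t' ht' => ?_
        have h2 := M.mom (Wt i t) (Wt j t') (hV i hi t ht).1 (hV i hi t ht).2
          (hV j hj t' ht').1 (hV j hj t' ht').2
        rw [hM.2.2 (Wt i t) (Wt j t') (hV i hi t ht).1 (hV i hi t ht).2
          (hV j hj t' ht').1 (hV j hj t' ht').2 (ho i hi j hj hij t ht t' ht')] at h2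
        rw [integral_const_mul, h2]
        simp
      · intro t' _
        exact lsa_BM_int (lsa_BM_smul _ (lsa_BM_mul (lsa_lw_BM M (Wt i t))
          (lsa_BM_conj (lsa_lw_BM M (Wt j t')))))
    · intro t _
      exact lsa_BM_int (lsa_BM_sum _ fun t' _ => lsa_BM_smul _ (lsa_BM_mul
        (lsa_lw_BM M (Wt i t)) (lsa_BM_conj (lsa_lw_BM M (Wt j t')))))
  have hsq : ∀ z : ℂ, ((‖z‖ ^ 2 : ℝ) : ℂ) = z * (starRingEnd ℂ) z := by
    intro z
    rw [Complex.mul_conj, Complex.normSq_eq_norm_sq]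
  have key : ((M.EE (fun w => ‖∑ i ∈ R, f i w‖ ^ 2) : ℝ) : ℂ) =
      ((∑ i ∈ R, M.EE (fun w => ‖f i w‖ ^ 2) : ℝ) : ℂ) := by
    rw [Complex.ofReal_sum]
    unfold Model.EE
    rw [← integral_complex_ofReal]
    have h2 : ∀ i, (((∫ w, ‖f i w‖ ^ 2 ∂M.P : ℝ)) : ℂ) =
        ∫ w, f i w * (starRingEnd ℂ) (f i w) ∂M.P := by
      intro i
      rw [← integral_complex_ofReal]
      refine integral_congr_ae (Filter.Eventually.of_forall fun w => ?_)
      exact hsq _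
    rw [sum_congr rfl fun i _ => h2 i]
    have h3 : ∀ w, ((‖∑ i ∈ R, f i w‖ ^ 2 : ℝ) : ℂ) =
        ∑ i ∈ R, ∑ j ∈ R, f i w * (starRingEnd ℂ) (f j w) := by
      intro w
      rw [hsq, map_sum, sum_mul_sum]
    simp only [h3]
    rw [integral_finsetSum]
    · refine sum_congr rfl fun i hi => ?_
      rw [integral_finsetSum]
      · exact sum_eq_single_of_mem i hi fun j hj hij => h0 i hi j hj hij.symm
      · intro j hj
        exact lsa_BM_int (lsa_BM_mul (hB i hi) (lsa_BM_conj (hB j hj)))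
    · intro i hi
      exact lsa_BM_int (lsa_BM_sum _ fun j hj => lsa_BM_mul (hB i hi) (lsa_BM_conj (hB j hj)))
  exact_mod_cast key

theorem lsa_rt_mul (a b : ℕ) : rt (a * b) = rt a * rt b := by
  rw [rt, rt, rt, ← Complex.ofReal_mul, Nat.cast_mul,
    Real.mul_rpow (Nat.cast_nonneg a) (Nat.cast_nonneg b)]

/-- the sum over `m`, `k` in terms of `vA` -/
theorem lsa_group (x a : ℕ → ℂ) (y : ℕ) (R : ℝ) :
    ∑ k ∈ Icc 1 y, ∑ m ∈ Icc 1 ⌊R / k⌋₊, a (m * k) * rt m * rt k * x m * bk x y k =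
      ∑ r ∈ Icc 1 ⌊R⌋₊, a r * vA x y 0 r := by
  have h1 : ∀ r ∈ Icc 1 ⌊R⌋₊, a r * vA x y 0 r =
      ∑ k ∈ Icc 1 y, if k ∣ r then a r * (x (r / k) * bk x y k * rt r) else 0 := by
    intro r _
    rw [vA, mul_sum]
    refine sum_congr rfl fun k _ => ?_
    split_ifs
    · simp
    · simp
  rw [sum_congr rfl h1, sum_comm]
  refine sum_congr rfl fun k hk => ?_
  have hk1 : 1 ≤ k := (mem_Icc.1 hk).1
  have hk0 : (0 : ℝ) < k := by exact_mod_cast hk1
  rw [← sum_filter]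
  refine sum_nbij' (fun m => m * k) (fun r => r / k) ?_ ?_ ?_ ?_ ?_
  · intro m hm
    rw [mem_Icc] at hm
    rw [mem_filter, mem_Icc]
    refine ⟨⟨Nat.mul_pos hm.1 hk1, ?_⟩, Dvd.intro_left m rfl⟩
    have h2 : (m : ℝ) ≤ R / k := by
      have h3 : 0 ≤ R / k := by
        by_contra hneg
        rw [Nat.floor_of_nonpos (not_le.1 hneg).le] at hm
        omega
      exact (Nat.cast_le.2 hm.2).trans (Nat.floor_le h3)
    refine Nat.le_floor ?_
    push_cast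
    rwa [← le_div_iff₀ hk0]
  · intro r hr
    rw [mem_filter, mem_Icc] at hr
    obtain ⟨⟨h2, h3⟩, m, rfl⟩ := hr
    rw [Nat.mul_div_cancel_left m hk1, mem_Icc]
    refine ⟨Nat.pos_of_ne_zero fun h => by simp [h] at h2, ?_⟩
    have hR : 0 ≤ R := by
      by_contra hneg
      rw [Nat.floor_of_nonpos (not_le.1 hneg).le] at h3
      omega
    refine Nat.le_floor ?_
    rw [le_div_iff₀ hk0]
    have h4 := (Nat.cast_le.2 h3).trans (Nat.floor_le hR)
    push_cast at h4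
    linarith [mul_comm (k : ℝ) m]
  · intro m _
    exact Nat.mul_div_cancel m hk1
  · intro r hr
    rw [mem_filter] at hr
    exact Nat.div_mul_cancel hr.2
  · intro m _
    rw [Nat.mul_div_cancel m hk1, lsa_rt_mul]
    ring

theorem lsa_vA_orth {n : ℕ} (hM : HM n) (M : Model n) (a : ℕ → ℂ) (y : ℕ) (R : Finset ℕ)
    (hR : ∀ r ∈ R, 1 ≤ r) :
    M.EE (fun w => ‖∑ r ∈ R, a r * vA (fun m => M.X m w) y 0 r‖ ^ 2) =
      ∑ r ∈ R, ‖a r‖ ^ 2 * M.EE (fun w => ‖vA (fun m => M.X m w) y 0 r‖ ^ 2) := by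
  have h := lsa_orth hM M R (fun r => ((Icc 1 y).filter (fun k => k ∣ r)).sigma fun k => OF k)
    (fun r t => ((r / t.1) :: t.2, []))
    (fun r t => a r * ((-1) ^ t.2.length * ((cut (Real.log t.1 / Real.log y) : ℝ) : ℂ) * rt r))
    (fun r w => a r * vA (fun m => M.X m w) y 0 r) ?_ ?_ ?_
  · rw [h]
    refine sum_congr rfl fun r _ => ?_
    unfold Model.EE
    let _ := M.ms
    rw [← integral_const_mul]
    refine integral_congr_ae (Filter.Eventually.of_forall fun w => ?_)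
    show ‖a r * vA (fun m => M.X m w) y 0 r‖ ^ 2 = ‖a r‖ ^ 2 * ‖vA (fun m => M.X m w) y 0 r‖ ^ 2
    rw [norm_mul, mul_pow]
  · intro r _ w
    rw [vA, mul_sum, ← sum_filter_add_sum_filter_not (Icc 1 y) (fun k => k ∣ r), sum_sigma]
    have h2 : ∑ k ∈ (Icc 1 y).filter (fun k => ¬ k ∣ r), a r * (if k ∣ r then
        M.X (r / k) w * bk (fun m => M.X m w) y k * (((k : ℝ) ^ (0 : ℝ) : ℝ) : ℂ) * rt r
          else 0) = 0 := by
      refine sum_eq_zero fun k hk => ?_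
      rw [if_neg (mem_filter.1 hk).2, mul_zero]
    rw [h2, add_zero]
    refine sum_congr rfl fun k hk => ?_
    rw [if_pos (mem_filter.1 hk).2, bk, minv]
    simp only [lw, List.map_cons, List.prod_cons, List.map_nil, List.prod_nil, mul_one,
      Real.rpow_zero, Complex.ofReal_one]
    rw [sum_mul, mul_sum, sum_mul, mul_sum]
    refine sum_congr rfl fun l _ => ?_
    ring
  · intro r hr t ht
    rw [mem_sigma, mem_filter, mem_Icc] at ht
    obtain ⟨⟨⟨h1, h2⟩, h3⟩, h4⟩ := ht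
    have h5 := ((mem_OF t.1 h1 t.2).1 h4).1
    refine ⟨fun b hb => ?_, by simp⟩
    rcases List.mem_cons.1 hb with rfl | hb
    · exact Nat.div_pos (Nat.le_of_dvd (hR r hr) h3) h1
    · exact le_trans (by norm_num) (h5 b hb)
  · intro r hr s hs hrs t ht t' ht'
    rw [mem_sigma, mem_filter, mem_Icc] at ht ht'
    have h5 := ((mem_OF t.1 ht.1.1.1 t.2).1 ht.2).2
    have h6 := ((mem_OF t'.1 ht'.1.1.1 t'.2).1 ht'.2).2
    simp only [List.prod_cons, List.prod_nil, mul_one]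
    rw [h5, h6, Nat.div_mul_cancel ht.1.2, Nat.div_mul_cancel ht'.1.2]
    exact hrs

/-- LSA -/
theorem ls_A_pr {n : ℕ} (hn : 1 ≤ n) (hM : HM n) (M : Model n) {q y : ℕ} (hq : q.Prime)
    {β : Type} [Fintype β] (lam : β → ℕ → ℂ) (om : β → ℝ) {C₀ κ η δ : ℝ} (hC₀ : 0 < C₀)
    (hη : 0 < η) (hηκ : η < κ) (hκ : κ < 1 / 4) (hLS : LS n q lam om C₀ κ η δ)
    (hy : (y : ℝ) ≤ (q : ℝ) ^ (η / 3)) (hy1 : 1 ≤ y) (a : ℕ → ℂ) (ha : ∀ r, ‖a r‖ ≤ 1) :
    ∑ b, om b * ‖∑ k ∈ Icc 1 y, ∑ m ∈ Icc 1 ⌊(q : ℝ) ^ (1 / 2 + κ / 2) / k⌋₊,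
      a (m * k) * rt m * rt k * lam b m * bk (lam b) y k‖ ^ 2 ≤
      C₀ * (q : ℝ) ^ (n : ℝ) * (∑ r ∈ Icc 1 ⌊(q : ℝ) ^ (1 / 2 + κ / 2)⌋₊,
        ‖a r‖ ^ 2 * M.EE (fun w => ‖vA (fun m => M.X m w) y 0 r‖ ^ 2) + (q : ℝ) ^ (-δ)) := by
  have hq1 : (1 : ℝ) < q := by exact_mod_cast hq.one_lt
  have hq0 : (0 : ℝ) < q := by linarith
  have hyq : y < q := by
    have h1 : (y : ℝ) < (q : ℝ) ^ (1 : ℝ) :=
      hy.trans_lt (Real.rpow_lt_rpow_of_exponent_lt hq1 (by linarith))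
    rw [Real.rpow_one] at h1
    exact_mod_cast h1
  set R : ℝ := (q : ℝ) ^ (1 / 2 + κ / 2) with hR
  set N : ℕ := ⌊(q : ℝ) ^ (1 / 2 + κ)⌋₊ with hN
  have hR0 : 0 < R := Real.rpow_pos_of_pos hq0 _
  have hRN : ∀ k : ℕ, 1 ≤ k → ⌊R / k⌋₊ ≤ N := by
    intro k hk
    refine Nat.floor_le_floor ?_
    have hk1 : (1 : ℝ) ≤ k := by exact_mod_cast hk
    calc R / k ≤ R := div_le_self hR0.le hk1
      _ ≤ _ := Real.rpow_le_rpow_of_exponent_le hq1.le (by linarith)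
  obtain ⟨hc1, -, hV⟩ := V_ok y
  set ψ : ℕ → ℕ → ℂ := fun m k => if m ≤ ⌊R / k⌋₊ then
    a (m * k) * ((cut (Real.log k / Real.log y) : ℝ) : ℂ) else 0 with hψ
  have hψ1 : ∀ m k, ‖ψ m k‖ ≤ 1 := by
    intro m k
    rw [hψ]
    simp only
    split_ifs
    · obtain ⟨h1, h2, -, -⟩ := cut_facts (Real.log k / Real.log y)
      rw [norm_mul, Complex.norm_real, Real.norm_of_nonneg h1]
      exact mul_le_one₀ (ha _) h1 h2
    · simp
  have hx : ∀ x : ℕ → ℂ, xval N (VA y) (cw ψ) x =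
      ∑ k ∈ Icc 1 y, ∑ m ∈ Icc 1 ⌊R / k⌋₊, a (m * k) * rt m * rt k * x m * bk x y k := by
    intro x
    rw [xval_A, sum_comm]
    refine sum_congr rfl fun k hk => ?_
    have hk1 : 1 ≤ k := (mem_Icc.1 hk).1
    have h1 : Icc 1 ⌊R / k⌋₊ = (Icc 1 N).filter fun m => m ≤ ⌊R / k⌋₊ := by
      ext m
      rw [mem_filter, mem_Icc, mem_Icc]
      have := hRN k hk1
      omega
    rw [h1, sum_filter]
    refine sum_congr rfl fun m _ => ?_
    rw [hψ]
    simp only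
    split_ifs
    · rw [bk]
      ring
    · simp
  have hW1 : ∀ W ∈ VA y, 1 ≤ wt W ∧ wt W ≤ y ∧ WOk q W := fun W hW =>
    ⟨(hV W (mem_union_left _ hW)).1, (hV W (mem_union_left _ hW)).2.1,
      (hV W (mem_union_left _ hW)).2.2 q hq hyq⟩
  have h1 := hLS.2.2 (VA y) 1 (cw ψ) zero_le_one ?_ ?_ ?_
  · rw [← hN] at h1
    simp only [hx] at h1
    refine h1.trans (mul_le_mul_of_nonneg_left ?_ (by positivity))
    have h2 := hM.2.1 M N (VA y) (cw ψ) fun W hW =>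
      ⟨fun b hb => ((hW1 W hW).2.2.1 b hb).1, fun b hb => ((hW1 W hW).2.2.2 b hb).1⟩
    rw [h2]
    simp only [hx, lsa_group]
    rw [lsa_vA_orth hM M a y _ fun r hr => (mem_Icc.1 hr).1, one_pow, one_mul]
  · calc (((VA y).card : ℕ) : ℝ) ≤ ((y ^ 3 : ℕ) : ℝ) := by exact_mod_cast hc1
      _ = (y : ℝ) ^ 3 := by push_cast; rfl
      _ ≤ ((q : ℝ) ^ (η / 3)) ^ 3 := pow_le_pow_left₀ (Nat.cast_nonneg y) hy 3
      _ = (q : ℝ) ^ η := by
        rw [← Real.rpow_natCast ((q : ℝ) ^ (η / 3)) 3, ← Real.rpow_mul hq0.le]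
        congr 1
        push_cast
        ring
  · intro W hW
    refine ⟨(hW1 W hW).2.2, ?_⟩
    calc (wt W : ℝ) ≤ y := by exact_mod_cast (hW1 W hW).2.1
      _ ≤ _ := hy
      _ ≤ _ := Real.rpow_le_rpow_of_exponent_le hq1.le (by linarith)
  · intro m hm W hW
    have hm1 : (1 : ℝ) ≤ m := by exact_mod_cast (mem_Icc.1 hm).1
    have hw1 : (1 : ℝ) ≤ wt W := by exact_mod_cast (hW1 W hW).1
    have hm0 : (0 : ℝ) < m := by linarith
    rw [cw, norm_mul, norm_mul, norm_pow, norm_neg, norm_one, one_pow, one_mul, one_mul,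
      Complex.norm_real, Real.norm_of_nonneg (Real.rpow_nonneg (by positivity) _)]
    calc ‖ψ m (wt W)‖ * ((m : ℝ) * (wt W : ℝ)) ^ (-(1 / 2) : ℝ)
        ≤ 1 * ((m : ℝ) * (wt W : ℝ)) ^ (-(1 / 2) : ℝ) :=
          mul_le_mul_of_nonneg_right (hψ1 _ _) (Real.rpow_nonneg (by positivity) _)
      _ = ((m : ℝ) * (wt W : ℝ)) ^ (-(1 / 2) : ℝ) := one_mul _
      _ ≤ (m : ℝ) ^ (-(1 / 2) : ℝ) :=
          Real.rpow_le_rpow_of_nonpos hm0 (le_mul_of_one_le_right hm0.le hw1) (by norm_num)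

end

end Pool.Agent.DN

namespace Pool.Agent.DN

theorem ls_A : type_of% @ls_A_pr := @ls_A_pr

end Pool.Agent.DN
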