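import Pool.Agent.Lib_helper61.DNF.LSA

/-!
# DN, block LSB: the large sieve in the model, rational numbers
-/

set_option autoImplicit false

namespace Pool.Agent.DN

open MeasureTheory Complex Finset
open Pool.Agent.SGN Pool.Agent.BX
open Pool.Agent.QG (ew)
open scoped ENNReal

noncomputable section

/-! ### orthogonality -/

theorem lsb_X_bdd {n : ℕ} (hn : 1 ≤ n) (M : Model n) (m : ℕ) : ∃ C : ℝ, ∀ w, ‖M.X m w‖ ≤ C := by
  rcases Nat.eq_zero_or_pos m with h | h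
  · refine ⟨0, fun w => ?_⟩
    rw [h, M.zero w, norm_zero]
  · exact ⟨dn n m, fun w => (temp_bound n hn _ (M.temp w) m h).1⟩

/-- bounded measurable functions on the model -/
def LsbB {n : ℕ} (M : Model n) (f : M.Om → ℂ) : Prop :=
  @Measurable M.Om ℂ M.ms _ f ∧ ∃ C : ℝ, ∀ w, ‖f w‖ ≤ C

theorem LsbB.int {n : ℕ} {M : Model n} {f : M.Om → ℂ} (h : LsbB M f) :
    @Integrable _ _ _ M.Om M.ms f M.P := by
  letI := M.ms
  haveI := M.pr
  obtain ⟨h1, C, hC⟩ := h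
  exact Integrable.of_bound h1.aestronglyMeasurable C (Filter.Eventually.of_forall hC)

theorem LsbB.const {n : ℕ} (M : Model n) (c : ℂ) : LsbB M fun _ => c := by
  letI := M.ms
  exact ⟨measurable_const, ‖c‖, fun _ => le_rfl⟩

theorem LsbB.mul {n : ℕ} {M : Model n} {f g : M.Om → ℂ} (hf : LsbB M f) (hg : LsbB M g) :
    LsbB M fun w => f w * g w := by
  letI := M.ms
  obtain ⟨h1, C, hC⟩ := hf
  obtain ⟨h2, D, hD⟩ := hg
  refine ⟨h1.mul h2, C * D, fun w => ?_⟩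
  rw [norm_mul]
  exact mul_le_mul (hC w) (hD w) (norm_nonneg _) ((norm_nonneg _).trans (hC w))

theorem LsbB.conj {n : ℕ} {M : Model n} {f : M.Om → ℂ} (hf : LsbB M f) :
    LsbB M fun w => (starRingEnd ℂ) (f w) := by
  letI := M.ms
  obtain ⟨h1, C, hC⟩ := hf
  refine ⟨Complex.continuous_conj.measurable.comp h1, C, fun w => ?_⟩
  rw [RCLike.norm_conj]
  exact hC w

theorem LsbB.sum {n : ℕ} {M : Model n} {ι : Type} (s : Finset ι) {f : ι → M.Om → ℂ}
    (hf : ∀ i ∈ s, LsbB M (f i)) : LsbB M fun w => ∑ i ∈ s, f i w := by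
  classical
  induction s using Finset.induction_on with
  | empty =>
    simp only [Finset.sum_empty]
    exact LsbB.const M 0
  | insert a s ha ih =>
    have h1 := hf a (Finset.mem_insert_self a s)
    have h2 := ih fun i hi => hf i (Finset.mem_insert_of_mem hi)
    letI := M.ms
    obtain ⟨h1, C, hC⟩ := h1
    obtain ⟨h2, D, hD⟩ := h2
    refine ⟨?_, C + D, fun w => ?_⟩
    · simp only [Finset.sum_insert ha]
      exact h1.add h2
    · show ‖∑ i ∈ insert a s, f i w‖ ≤ C + D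
      rw [Finset.sum_insert ha]
      exact (norm_add_le _ _).trans (add_le_add (hC w) (hD w))

theorem LsbB.lprod {n : ℕ} {M : Model n} (l : List ℕ) {f : ℕ → M.Om → ℂ}
    (hf : ∀ i, LsbB M (f i)) : LsbB M fun w => (l.map fun i => f i w).prod := by
  induction l with
  | nil =>
    simp only [List.map_nil, List.prod_nil]
    exact LsbB.const M 1
  | cons a l ih =>
    simp only [List.map_cons, List.prod_cons]
    exact (hf a).mul ih

theorem lsb_lw {n : ℕ} (hn : 1 ≤ n) (M : Model n) (W : Wd) :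
    LsbB M fun w => lw (fun m => M.X m w) W := by
  have hX : ∀ m, LsbB M fun w => M.X m w := fun m => ⟨M.meas m, lsb_X_bdd hn M m⟩
  unfold lw
  exact (LsbB.lprod W.1 hX).mul (LsbB.lprod W.2 fun m => (hX m).conj)

/-- all indices are positive -/
def LsbP (W : Wd) : Prop := (∀ a ∈ W.1, 1 ≤ a) ∧ ∀ b ∈ W.2, 1 ≤ b

/-- two linear combinations of words of different charges are orthogonal -/
theorem lsb_orth {n : ℕ} (hn : 1 ≤ n) (hM : HM n) (M : Model n) {J : Type} (T T' : Finset J)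
    (γ γ' : J → ℂ) (W W' : J → Wd) (hW : ∀ j ∈ T, LsbP (W j)) (hW' : ∀ j ∈ T', LsbP (W' j))
    (hc : ∀ j ∈ T, ∀ j' ∈ T', (W j).1.prod * (W' j').2.prod ≠ (W' j').1.prod * (W j).2.prod) :
    @integral M.Om ℂ _ _ M.ms M.P (fun w => (∑ j ∈ T, γ j * lw (fun m => M.X m w) (W j)) *
      (starRingEnd ℂ) (∑ j ∈ T', γ' j * lw (fun m => M.X m w) (W' j))) = 0 := by
  letI := M.ms
  haveI := M.pr
  have e1 : (fun w => (∑ j ∈ T, γ j * lw (fun m => M.X m w) (W j)) *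
      (starRingEnd ℂ) (∑ j ∈ T', γ' j * lw (fun m => M.X m w) (W' j))) =
      fun w => ∑ j ∈ T, ∑ j' ∈ T', (γ j * (starRingEnd ℂ) (γ' j')) *
        (lw (fun m => M.X m w) (W j) * (starRingEnd ℂ) (lw (fun m => M.X m w) (W' j'))) := by
    funext w
    rw [map_sum, Finset.sum_mul_sum]
    refine Finset.sum_congr rfl fun j _ => Finset.sum_congr rfl fun j' _ => ?_
    rw [map_mul]
    ring
  rw [e1]
  have hB : ∀ j j', LsbB M fun w => (γ j * (starRingEnd ℂ) (γ' j')) *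
      (lw (fun m => M.X m w) (W j) * (starRingEnd ℂ) (lw (fun m => M.X m w) (W' j'))) :=
    fun j j' => (LsbB.const M _).mul ((lsb_lw hn M _).mul (lsb_lw hn M _).conj)
  rw [integral_finsetSum _ fun j _ => (LsbB.sum T' fun j' _ => hB j j').int]
  refine Finset.sum_eq_zero fun j hj => ?_
  rw [integral_finsetSum _ fun j' _ => (hB j j').int]
  refine Finset.sum_eq_zero fun j' hj' => ?_
  rw [integral_const_mul]
  have h1 := M.mom (W j) (W' j') (hW j hj).1 (hW j hj).2 (hW' j' hj').1 (hW' j' hj').2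
  have h2 := hM.2.2 (W j) (W' j') (hW j hj).1 (hW j hj).2 (hW' j' hj').1 (hW' j' hj').2
    (hc j hj j' hj')
  rw [h1, h2]
  simp

/-- Parseval for the charges -/
theorem lsb_parseval {n : ℕ} (M : Model n) {ι : Type} (R : Finset ι)
    (v : ι → M.Om → ℂ) (hv : ∀ r ∈ R, LsbB M (v r))
    (ho : ∀ r ∈ R, ∀ r' ∈ R, r ≠ r' → @integral M.Om ℂ _ _ M.ms M.P
      (fun w => v r w * (starRingEnd ℂ) (v r' w)) = 0) (a : ι → ℂ) :
    M.EE (fun w => ‖∑ r ∈ R, a r * v r w‖ ^ 2) = ∑ r ∈ R, ‖a r‖ ^ 2 * M.EE fun w => ‖v r w‖ ^ 2 := by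
  classical
  letI := M.ms
  haveI := M.pr
  have e0 : ∀ f : M.Om → ℂ, ((M.EE fun w => ‖f w‖ ^ 2 : ℝ) : ℂ) =
      ∫ w, f w * (starRingEnd ℂ) (f w) ∂M.P := by
    intro f
    unfold Model.EE
    have e2 : ((∫ w, ‖f w‖ ^ 2 ∂M.P : ℝ) : ℂ) = ∫ w, ((‖f w‖ ^ 2 : ℝ) : ℂ) ∂M.P :=
      integral_ofReal.symm
    rw [e2]
    refine integral_congr_ae (Filter.Eventually.of_forall fun w => ?_)
    show ((‖f w‖ ^ 2 : ℝ) : ℂ) = f w * (starRingEnd ℂ) (f w)
    rw [Complex.mul_conj, Complex.normSq_eq_norm_sq]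
  have h : ((M.EE (fun w => ‖∑ r ∈ R, a r * v r w‖ ^ 2) : ℝ) : ℂ) =
      ((∑ r ∈ R, ‖a r‖ ^ 2 * M.EE fun w => ‖v r w‖ ^ 2 : ℝ) : ℂ) := by
    rw [e0 fun w => ∑ r ∈ R, a r * v r w]
    have e1 : (fun w => (∑ r ∈ R, a r * v r w) * (starRingEnd ℂ) (∑ r ∈ R, a r * v r w)) =
        fun w => ∑ r ∈ R, ∑ r' ∈ R, (a r * (starRingEnd ℂ) (a r')) *
          (v r w * (starRingEnd ℂ) (v r' w)) := by
      funext w
      rw [map_sum, Finset.sum_mul_sum]
      refine Finset.sum_congr rfl fun j _ => Finset.sum_congr rfl fun j' _ => ?_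
      rw [map_mul]
      ring
    rw [e1]
    have hB : ∀ r ∈ R, ∀ r' ∈ R, LsbB M fun w => (a r * (starRingEnd ℂ) (a r')) *
        (v r w * (starRingEnd ℂ) (v r' w)) :=
      fun r hr r' hr' => (LsbB.const M _).mul ((hv r hr).mul (hv r' hr').conj)
    rw [integral_finsetSum _ fun r hr => (LsbB.sum R fun r' hr' => hB r hr r' hr').int]
    push_cast
    refine Finset.sum_congr rfl fun r hr => ?_
    rw [integral_finsetSum _ fun r' hr' => (hB r hr r' hr').int]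
    rw [Finset.sum_eq_single_of_mem r hr]
    · rw [integral_const_mul, e0 (v r), Complex.mul_conj, Complex.normSq_eq_norm_sq]
      push_cast
      rfl
    · intro r' hr' hne
      rw [integral_const_mul, ho r hr r' hr' hne.symm, mul_zero]
  exact_mod_cast h

/-! ### `vB` in terms of words -/

/-- pairs `(k, l)`, `l` an ordered factorisation of `k`, `k ≤ y`, with `r k` integral -/
def lsbT (y : ℕ) (r : ℚ) : Finset (Σ _ : ℕ, List ℕ) :=
  ((Icc 1 y).filter fun k : ℕ => (r * k).den = 1).sigma fun k => OF k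

theorem lsb_vB (x : ℕ → ℂ) (y : ℕ) (r : ℚ) :
    vB x y r = ∑ j ∈ lsbT y r, ((cut (Real.log j.1 / Real.log y) : ℝ) : ℂ) *
      rt (r * j.1).num.natAbs * rt j.1 * (-1) ^ j.2.length *
      lw x ([(r * j.1).num.natAbs], j.2) := by
  unfold vB lsbT
  rw [Finset.sum_sigma, Finset.sum_filter]
  refine Finset.sum_congr rfl fun k hk => ?_
  split_ifs with h
  · unfold bk minv lw
    rw [map_mul, map_sum, Complex.conj_ofReal, Finset.sum_mul, Finset.mul_sum, Finset.sum_mul,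
      Finset.sum_mul]
    refine Finset.sum_congr rfl fun l _ => ?_
    have e1 : (starRingEnd ℂ) ((-1) ^ l.length * (List.map x l).prod) =
        (-1) ^ l.length * (List.map (fun b => (starRingEnd ℂ) (x b)) l).prod := by
      rw [map_mul, map_pow, map_neg, map_one, map_list_prod, List.map_map]
      rfl
    rw [e1]
    simp only [List.map_cons, List.map_nil, List.prod_cons, List.prod_nil, mul_one]
    ring
  · rfl

/-! ### grouping -/

theorem lsb_QB {R : ℝ} {y : ℕ} {r : ℚ} (h : r ∈ QB R y) : 0 < r ∧ (r : ℝ) ≤ R := by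
  unfold QB at h
  rw [Finset.mem_biUnion] at h
  obtain ⟨k, hk, h⟩ := h
  rw [Finset.mem_image] at h
  obtain ⟨m, hm, rfl⟩ := h
  rw [Finset.mem_Icc] at hk hm
  have hk0 : (0 : ℝ) < k := by exact_mod_cast hk.1
  have hk0' : (0 : ℚ) < k := by exact_mod_cast hk.1
  have hm0 : (0 : ℚ) < m := by exact_mod_cast hm.1
  refine ⟨div_pos hm0 hk0', ?_⟩
  push_cast
  rw [div_le_iff₀ hk0]
  have h1 : ⌊R * k⌋₊ ≠ 0 := by omega
  have h2 : (0 : ℝ) ≤ R * k := by
    by_contra h3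
    push Not at h3
    exact h1 (Nat.floor_of_nonpos h3.le)
  calc (m : ℝ) ≤ (⌊R * k⌋₊ : ℝ) := by exact_mod_cast hm.2
    _ ≤ R * k := Nat.floor_le h2

theorem lsb_nat {r : ℚ} {k : ℕ} (hr : 0 < r) (h : (r * k).den = 1) :
    (((r * k).num.natAbs : ℕ) : ℚ) = r * k := by
  have h0 : 0 ≤ r * k := by positivity
  have h1 : 0 ≤ (r * k).num := Rat.num_nonneg.mpr h0
  have h2 : (((r * k).num.natAbs : ℕ) : ℚ) = (((r * k).num : ℤ) : ℚ) := by
    rw [Nat.cast_natAbs, abs_of_nonneg h1]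
  rw [h2]
  exact Rat.coe_int_num_of_den_eq_one h

theorem lsb_group (x : ℕ → ℂ) (y : ℕ) (R : ℝ) (a : ℚ → ℂ) :
    ∑ k ∈ Icc 1 y, ∑ m ∈ Icc 1 ⌊R * k⌋₊,
      a ((m : ℚ) / k) * rt m * rt k * x m * (starRingEnd ℂ) (bk x y k) =
    ∑ r ∈ QB R y, a r * vB x y r := by
  unfold vB
  simp_rw [Finset.mul_sum]
  rw [Finset.sum_comm]
  refine Finset.sum_congr rfl fun k hk => ?_
  have hk1 := (Finset.mem_Icc.mp hk).1
  have hk0 : (k : ℚ) ≠ 0 := by
    have : (0 : ℚ) < k := by exact_mod_cast hk1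
    exact this.ne'
  have hkR : (0 : ℝ) < k := by exact_mod_cast hk1
  have e1 : ∀ r : ℚ, (a r * if (r * k).den = 1 then
      x (r * k).num.natAbs * (starRingEnd ℂ) (bk x y k) * rt (r * k).num.natAbs * rt k else 0) =
      if (r * k).den = 1 then a r * (x (r * k).num.natAbs * (starRingEnd ℂ) (bk x y k) *
        rt (r * k).num.natAbs * rt k) else 0 := by
    intro r
    split_ifs
    · rfl
    · exact mul_zero _
  simp_rw [e1]
  rw [← Finset.sum_filter]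
  refine Finset.sum_nbij' (fun m : ℕ => (m : ℚ) / k) (fun r : ℚ => (r * k).num.natAbs) ?_ ?_ ?_ ?_ ?_
  · intro m hm
    rw [Finset.mem_filter]
    refine ⟨?_, ?_⟩
    · unfold QB
      rw [Finset.mem_biUnion]
      exact ⟨k, hk, Finset.mem_image.mpr ⟨m, hm, rfl⟩⟩
    · rw [div_mul_cancel₀ _ hk0]
      exact Rat.den_natCast m
  · intro r hr
    rw [Finset.mem_filter] at hr
    obtain ⟨h1, h2⟩ := lsb_QB hr.1
    have h3 := lsb_nat h1 hr.2
    rw [Finset.mem_Icc]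
    constructor
    · have h4 : (0 : ℚ) < (((r * k).num.natAbs : ℕ) : ℚ) := by
        rw [h3]
        have : (0 : ℚ) < k := by exact_mod_cast hk1
        positivity
      have h5 : 0 < (r * k).num.natAbs := by exact_mod_cast h4
      exact h5
    · apply Nat.le_floor
      have h4 : (((r * k).num.natAbs : ℕ) : ℝ) = (r : ℝ) * k := by exact_mod_cast h3
      rw [h4]
      exact mul_le_mul_of_nonneg_right h2 hkR.le
  · intro m hm
    show (((m : ℚ) / k) * k).num.natAbs = m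
    rw [div_mul_cancel₀ _ hk0]
    simp
  · intro r hr
    rw [Finset.mem_filter] at hr
    show (((r * k).num.natAbs : ℕ) : ℚ) / k = r
    rw [lsb_nat (lsb_QB hr.1).1 hr.2, mul_div_cancel_right₀ _ hk0]
  · intro m hm
    show _ = a ((m : ℚ) / k) * (x (((m : ℚ) / k) * k).num.natAbs * (starRingEnd ℂ) (bk x y k) *
        rt (((m : ℚ) / k) * k).num.natAbs * rt k)
    rw [div_mul_cancel₀ _ hk0]
    have : ((m : ℚ)).num.natAbs = m := by simp
    rw [this]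
    ring

/-- the coefficients -/
def lsbPsi (y : ℕ) (R : ℝ) (a : ℚ → ℂ) (m k : ℕ) : ℂ :=
  if m ≤ ⌊R * k⌋₊ then a ((m : ℚ) / k) * ((cut (Real.log k / Real.log y) : ℝ) : ℂ) else 0

theorem lsb_xval (y N : ℕ) (R : ℝ) (a : ℚ → ℂ) (hN : ∀ k ∈ Icc 1 y, ⌊R * k⌋₊ ≤ N)
    (x : ℕ → ℂ) :
    xval N (VB y) (cw (lsbPsi y R a)) x = ∑ k ∈ Icc 1 y, ∑ m ∈ Icc 1 ⌊R * k⌋₊,
      a ((m : ℚ) / k) * rt m * rt k * x m * (starRingEnd ℂ) (bk x y k) := by
  rw [xval_B, Finset.sum_comm]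
  refine Finset.sum_congr rfl fun k hk => ?_
  have h1 : Icc 1 ⌊R * k⌋₊ = (Icc 1 N).filter fun m => m ≤ ⌊R * k⌋₊ := by
    ext m
    have := hN k hk
    simp only [Finset.mem_Icc, Finset.mem_filter]
    omega
  rw [h1, Finset.sum_filter]
  refine Finset.sum_congr rfl fun m _ => ?_
  unfold lsbPsi bk
  split_ifs with h
  · rw [map_mul, Complex.conj_ofReal]
    ring
  · simp

/-- LSB -/
theorem ls_B_pr {n : ℕ} (hn : 1 ≤ n) (hM : HM n) (M : Model n) {q y : ℕ} (hq : q.Prime)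
    {β : Type} [Fintype β] (lam : β → ℕ → ℂ) (om : β → ℝ) {C₀ κ η δ : ℝ} (hC₀ : 0 < C₀)
    (hη : 0 < η) (hηκ : η < κ) (hκ : κ < 1 / 4) (hLS : LS n q lam om C₀ κ η δ)
    (hy : (y : ℝ) ≤ (q : ℝ) ^ (η / 3)) (hy1 : 1 ≤ y) (a : ℚ → ℂ) (ha : ∀ r, ‖a r‖ ≤ 1) :
    ∑ b, om b * ‖∑ k ∈ Icc 1 y, ∑ m ∈ Icc 1 ⌊(q : ℝ) ^ (1 / 2 + κ / 2) * k⌋₊,
      a ((m : ℚ) / k) * rt m * rt k * lam b m * (starRingEnd ℂ) (bk (lam b) y k)‖ ^ 2 ≤
      C₀ * (q : ℝ) ^ (n : ℝ) * (∑ r ∈ QB ((q : ℝ) ^ (1 / 2 + κ / 2)) y,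
        ‖a r‖ ^ 2 * M.EE (fun w => ‖vB (fun m => M.X m w) y r‖ ^ 2) + (q : ℝ) ^ (-δ)) := by
  set R := (q : ℝ) ^ (1 / 2 + κ / 2) with hR
  set N := ⌊(q : ℝ) ^ (1 / 2 + κ)⌋₊ with hN
  have hq1 : (1 : ℝ) ≤ q := by exact_mod_cast hq.one_le
  have hq2 : (1 : ℝ) < q := by exact_mod_cast hq.one_lt
  have hq0 : (0 : ℝ) < q := by linarith
  have hR0 : 0 ≤ R := Real.rpow_nonneg hq0.le _
  have hfl : ∀ k ∈ Icc 1 y, ⌊R * k⌋₊ ≤ N := by
    intro k hk
    apply Nat.floor_le_floor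
    have h1 : (k : ℝ) ≤ (q : ℝ) ^ (η / 3) := by
      have : (k : ℝ) ≤ y := by exact_mod_cast (Finset.mem_Icc.mp hk).2
      linarith
    calc R * k ≤ R * (q : ℝ) ^ (η / 3) := mul_le_mul_of_nonneg_left h1 hR0
      _ = (q : ℝ) ^ (1 / 2 + κ / 2 + η / 3) := by rw [hR, ← Real.rpow_add hq0]
      _ ≤ (q : ℝ) ^ (1 / 2 + κ) := Real.rpow_le_rpow_of_exponent_le hq1 (by linarith)
  have hyq : y < q := by
    have h1 : (q : ℝ) ^ (η / 3) < (q : ℝ) ^ (1 : ℝ) :=
      Real.rpow_lt_rpow_of_exponent_lt hq2 (by linarith)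
    rw [Real.rpow_one] at h1
    exact_mod_cast lt_of_le_of_lt hy h1
  obtain ⟨-, v2, v3⟩ := V_ok y
  have hcard : ((VB y).card : ℝ) ≤ (q : ℝ) ^ η := by
    calc ((VB y).card : ℝ) ≤ (y : ℝ) ^ 3 := by exact_mod_cast v2
      _ ≤ ((q : ℝ) ^ (η / 3)) ^ 3 := pow_le_pow_left₀ (by positivity) hy 3
      _ = (q : ℝ) ^ η := by
          rw [← Real.rpow_natCast, ← Real.rpow_mul hq0.le]
          congr 1
          push_cast
          ring
  have hV : ∀ W ∈ VB y, 1 ≤ wt W ∧ wt W ≤ y ∧ WOk q W := by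
    intro W hW
    obtain ⟨h1, h2, h3⟩ := v3 W (Finset.mem_union_right _ hW)
    exact ⟨h1, h2, h3 q hq hyq⟩
  have hψ : ∀ m k, ‖lsbPsi y R a m k‖ ≤ 1 := by
    intro m k
    unfold lsbPsi
    split_ifs
    · rw [norm_mul, Complex.norm_real, Real.norm_eq_abs]
      have h1 := cut_facts (Real.log k / Real.log y)
      rw [abs_of_nonneg h1.1]
      calc ‖a ((m : ℚ) / k)‖ * cut (Real.log k / Real.log y) ≤ 1 * 1 :=
            mul_le_mul (ha _) h1.2.1 h1.1 zero_le_one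
        _ = 1 := one_mul 1
    · rw [norm_zero]
      exact zero_le_one
  have key := hLS.2.2 (VB y) 1 (cw (lsbPsi y R a)) zero_le_one hcard (fun W hW => by
    obtain ⟨h1, h2, h3⟩ := hV W hW
    refine ⟨h3, ?_⟩
    calc (wt W : ℝ) ≤ y := by exact_mod_cast h2
      _ ≤ (q : ℝ) ^ (η / 3) := hy
      _ ≤ (q : ℝ) ^ η := Real.rpow_le_rpow_of_exponent_le hq1 (by linarith)) (fun m hm W hW => by
    obtain ⟨h1, h2, h3⟩ := hV W hW
    have hm1 : (0 : ℝ) < m := by exact_mod_cast (Finset.mem_Icc.mp hm).1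
    have hw1 : (1 : ℝ) ≤ wt W := by exact_mod_cast h1
    unfold cw
    rw [norm_mul, norm_mul, norm_pow, norm_neg, norm_one, one_pow, one_mul, Complex.norm_real,
      Real.norm_of_nonneg (Real.rpow_nonneg (by positivity) _), one_mul]
    calc ‖lsbPsi y R a m (wt W)‖ * ((m : ℝ) * (wt W : ℝ)) ^ (-(1 / 2) : ℝ)
        ≤ 1 * ((m : ℝ) * (wt W : ℝ)) ^ (-(1 / 2) : ℝ) :=
          mul_le_mul_of_nonneg_right (hψ _ _) (Real.rpow_nonneg (by positivity) _)
      _ = ((m : ℝ) * (wt W : ℝ)) ^ (-(1 / 2) : ℝ) := one_mul _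
      _ ≤ (m : ℝ) ^ (-(1 / 2) : ℝ) :=
          Real.rpow_le_rpow_of_nonpos hm1 (by nlinarith) (by norm_num))
  have hP : ∀ W ∈ VB y, (∀ a ∈ W.1, 1 ≤ a) ∧ ∀ b ∈ W.2, 1 ≤ b := by
    intro W hW
    obtain ⟨-, -, h3⟩ := hV W hW
    exact ⟨fun a ha => (h3.1 a ha).1, fun b hb => (h3.2 b hb).1⟩
  rw [hM.2.1 M N (VB y) (cw (lsbPsi y R a)) hP] at key
  have e1 : ∀ x : ℕ → ℂ, xval N (VB y) (cw (lsbPsi y R a)) x = ∑ r ∈ QB R y, a r * vB x y r :=
    fun x => by rw [lsb_xval y N R a hfl x, lsb_group]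
  have e2 : ∀ x : ℕ → ℂ, xval N (VB y) (cw (lsbPsi y R a)) x = ∑ k ∈ Icc 1 y,
      ∑ m ∈ Icc 1 ⌊R * k⌋₊, a ((m : ℚ) / k) * rt m * rt k * x m * (starRingEnd ℂ) (bk x y k) :=
    fun x => lsb_xval y N R a hfl x
  have e3 : M.EE (fun w => ‖xval N (VB y) (cw (lsbPsi y R a)) fun m => M.X m w‖ ^ 2) =
      ∑ r ∈ QB R y, ‖a r‖ ^ 2 * M.EE fun w => ‖vB (fun m => M.X m w) y r‖ ^ 2 := by
    simp_rw [e1]
    -- members of `lsbT`
    have hT : ∀ r ∈ QB R y, ∀ j ∈ lsbT y r, (1 ≤ j.1 ∧ (r * j.1).den = 1 ∧ (∀ c ∈ j.2, 2 ≤ c) ∧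
        j.2.prod = j.1) ∧ (((r * j.1).num.natAbs : ℕ) : ℚ) = r * j.1 ∧
        1 ≤ (r * j.1).num.natAbs := by
      intro r hr j hj
      unfold lsbT at hj
      rw [Finset.mem_sigma, Finset.mem_filter] at hj
      have hj1 := (Finset.mem_Icc.mp hj.1.1).1
      have hl := (mem_OF j.1 hj1 j.2).mp hj.2
      have hr0 := (lsb_QB hr).1
      have h3 := lsb_nat hr0 hj.1.2
      refine ⟨⟨hj1, hj.1.2, hl.1, hl.2⟩, h3, ?_⟩
      have h4 : (0 : ℚ) < (((r * j.1).num.natAbs : ℕ) : ℚ) := by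
        rw [h3]
        have : (0 : ℚ) < j.1 := by exact_mod_cast hj1
        positivity
      exact_mod_cast h4
    have hLP : ∀ r ∈ QB R y, ∀ j ∈ lsbT y r, LsbP (([(r * j.1).num.natAbs], j.2) : Wd) := by
      intro r hr j hj
      obtain ⟨⟨h1, h2, h3, h4⟩, h5, h6⟩ := hT r hr j hj
      refine ⟨fun c hc => ?_, fun c hc => (h3 c hc).trans' (by norm_num)⟩
      rw [List.mem_singleton.mp hc]
      exact h6
    apply lsb_parseval M (QB R y) (fun r w => vB (fun m => M.X m w) y r)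
    · intro r hr
      simp_rw [lsb_vB]
      exact LsbB.sum _ fun j _ => (LsbB.const M _).mul (lsb_lw hn M _)
    · intro r hr r' hr' hne
      simp_rw [lsb_vB]
      apply lsb_orth hn hM M (lsbT y r) (lsbT y r')
        (fun j => ((cut (Real.log j.1 / Real.log y) : ℝ) : ℂ) *
          rt (r * j.1).num.natAbs * rt j.1 * (-1) ^ j.2.length)
        (fun j => ((cut (Real.log j.1 / Real.log y) : ℝ) : ℂ) *
          rt (r' * j.1).num.natAbs * rt j.1 * (-1) ^ j.2.length)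
        (fun j => ([(r * j.1).num.natAbs], j.2)) (fun j => ([(r' * j.1).num.natAbs], j.2))
        (hLP r hr) (hLP r' hr')
      intro j hj j' hj' h
      obtain ⟨⟨h1, h2, h3, h4⟩, h5, h6⟩ := hT r hr j hj
      obtain ⟨⟨g1, g2, g3, g4⟩, g5, g6⟩ := hT r' hr' j' hj'
      simp only [List.prod_cons, List.prod_nil, mul_one] at h
      rw [h4, g4] at h
      have h7 : (((r * j.1).num.natAbs : ℕ) : ℚ) * j'.1 = (((r' * j'.1).num.natAbs : ℕ) : ℚ) * j.1 := by
        exact_mod_cast h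
      rw [h5, g5] at h7
      apply hne
      have hj0 : (j.1 : ℚ) ≠ 0 := by
        have : (0 : ℚ) < j.1 := by exact_mod_cast h1
        exact this.ne'
      have hj'0 : (j'.1 : ℚ) ≠ 0 := by
        have : (0 : ℚ) < j'.1 := by exact_mod_cast g1
        exact this.ne'
      have h8 : r * (j.1 * j'.1) = r' * (j.1 * j'.1) := by linarith
      exact mul_right_cancel₀ (mul_ne_zero hj0 hj'0) h8
  rw [e3, one_pow, one_mul] at key
  have e4 : ∀ b, xval N (VB y) (cw (lsbPsi y R a)) (lam b) = _ := fun b => e2 (lam b)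
  refine le_trans (le_of_eq ?_) key
  refine Finset.sum_congr rfl fun b _ => ?_
  rw [e4 b]

end

end Pool.Agent.DN

namespace Pool.Agent.DN

theorem ls_B : type_of% @ls_B_pr := @ls_B_pr

end Pool.Agent.DN
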