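import Pool.Agent.Lib_helper61.DNF.LSB
import Pool.Agent.Lib_helper45.SGDF.KB
import Pool.Agent.Lib_helper45.SGDF.KC
import Pool.Agent.Lib_helper45.SGDF.KG1

/-!
# DN, block ME1: `MG` is a convolution
-/

set_option autoImplicit false

namespace Pool.Agent.DN

open MeasureTheory Complex Finset
open Pool.Agent.SGN Pool.Agent.BX
open Pool.Agent.QG (ew)
open scoped ENNReal

noncomputable section

theorem me1_lam {n : ℕ} {lam : ℕ → ℂ} (hl : Triv n lam) (m : ℕ) (_ : 1 ≤ m) :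
    ‖lam m‖ ≤ (m : ℝ) ^ (n : ℝ) := by
  rw [Real.rpow_natCast]
  exact hl.2 m

theorem me1_D0 {n : ℕ} (μ : Fin n → ℂ) (lam : ℕ → ℂ) (v : ℝ) :
    D0 μ lam v = SGD.DD0 lam (gmu μ) v := rfl

theorem me1_PG_cont {n : ℕ} (p : SGD.Par) (hA : (n : ℝ) ≤ p.A)
    (lam c : ℕ → ℂ) (hl : Triv n lam) (σ : ℝ) (y : ℕ) :
    Continuous (PG lam c (SGD.gz p.N) σ y) := by
  have hN := SGD.N_ge p
  have hA0 : (0 : ℝ) ≤ n := by positivity
  obtain ⟨hG, hG1⟩ := SGD.G0_facts (N := p.N) (by nlinarith)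
  have hc : Continuous (SGD.DD0 lam (SGD.gz p.N)) := by
    refine SGD.DD0_cont (A := n) (B := p.N) (C := 1) hA0 (by nlinarith) (me1_lam hl) ?_ ?_
    · exact Complex.continuous_ofReal.comp hG
    · intro v
      rw [one_mul]
      show ‖((SGD.G0 p.N v : ℝ) : ℂ)‖ ≤ _
      rw [Complex.norm_real, Real.norm_eq_abs, abs_of_pos (hG1 v).1]
      exact (hG1 v).2.2.1
  unfold PG
  refine continuous_finsetSum _ fun k _ => ?_
  refine continuous_const.mul (hc.comp ?_)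
  fun_prop

/-- ME1: `MG` is a convolution (`SGD.DD0_conv`), and continuity -/
theorem MG_conv_pr {n : ℕ} (μ : Fin n → ℂ) (p : SGD.Par) (hA : (n : ℝ) ≤ p.A)
    (hg : p.GC (gmu μ))
    (lam c : ℕ → ℂ) (hl : Triv n lam) (k : ℝ → ℂ) (hk : Continuous k)
    (hk1 : ∀ B : ℝ, -p.κ ≤ B → ∀ v : ℝ, ‖k v‖ ≤ p.M p.N B * Real.exp (-(B * v)))
    (hk2 : ∀ v : ℝ, gmu μ v = ∫ u : ℝ, k u * SGD.gz p.N (v - u)) (σ : ℝ) (y : ℕ) (x : ℝ) :
    Continuous (PG lam c (SGD.gz p.N) σ y) ∧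
    MG μ lam c σ y x = ∫ u : ℝ, k u * PG lam c (SGD.gz p.N) σ y (x - u) := by
  refine ⟨me1_PG_cont p hA lam c hl σ y, ?_⟩
  have hN := SGD.N_ge p
  have hA0 : (0 : ℝ) ≤ n := by positivity
  have hκ := p.hκ
  have hκ1 := p.hκ1
  set C := max (p.M p.N (-p.κ)) (p.M p.N (p.N + 1)) with hC
  have h1 : ∀ v : ℝ, ‖k v‖ ≤ C * Real.exp (p.κ * v) := by
    intro v
    have h2 := hk1 (-p.κ) (le_refl _) v
    rw [neg_mul, neg_neg] at h2
    exact h2.trans (by gcongr; exact le_max_left _ _)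
  have h2 : ∀ v : ℝ, ‖k v‖ ≤ C * Real.exp (-((p.N + 1) * v)) := by
    intro v
    have h3 := hk1 (p.N + 1) (by nlinarith) v
    exact h3.trans (by gcongr; exact le_max_right _ _)
  have h3 := fun v => SGD.DD0_conv (A := n) (N := p.N) hA0 (by nlinarith) hκ (me1_lam hl) hk
    h1 h2 hk2 v
  have h4 : ∀ j ∈ Icc 1 y, ∀ u : ℝ,
      SGD.DD0 lam (SGD.gz p.N) (x + σ * Real.log j - u) =
        SGD.DD0 lam (SGD.gz p.N) (x - u + σ * Real.log j) := by
    intro j _ u
    congr 1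
    ring
  calc MG μ lam c σ y x
      = ∑ j ∈ Icc 1 y, c j * rt j *
          ∫ u : ℝ, k u * SGD.DD0 lam (SGD.gz p.N) (x + σ * Real.log j - u) := by
        unfold MG
        refine Finset.sum_congr rfl fun j _ => ?_
        rw [me1_D0, (h3 _).2]
    _ = ∑ j ∈ Icc 1 y, ∫ u : ℝ, c j * rt j *
          (k u * SGD.DD0 lam (SGD.gz p.N) (x + σ * Real.log j - u)) := by
        refine Finset.sum_congr rfl fun j _ => ?_
        rw [integral_const_mul]
    _ = ∫ u : ℝ, ∑ j ∈ Icc 1 y, c j * rt j *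
          (k u * SGD.DD0 lam (SGD.gz p.N) (x + σ * Real.log j - u)) := by
        rw [integral_finsetSum]
        intro j _
        exact (h3 _).1.const_mul _
    _ = _ := by
        refine integral_congr_ae (Filter.Eventually.of_forall fun u => ?_)
        simp only
        unfold PG
        rw [Finset.mul_sum]
        refine Finset.sum_congr rfl fun j hj => ?_
        rw [h4 j hj u]
        ring

end

end Pool.Agent.DN

namespace Pool.Agent.DN

theorem MG_conv : type_of% @MG_conv_pr := @MG_conv_pr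

end Pool.Agent.DN
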