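import Pool.Agent.Lib_helper61.DNF.ME1
import Pool.Agent.Lib_helper45.SGDF.KB
import Pool.Agent.Lib_helper45.SGDF.KC
import Pool.Agent.Lib_helper45.SGDF.KG1

/-!
# DN, block ME2: crude bound and tail
-/

set_option autoImplicit false

namespace Pool.Agent.DN

open MeasureTheory Complex Finset
open Pool.Agent.SGN Pool.Agent.BX
open Pool.Agent.QG (ew)
open scoped ENNReal

noncomputable section

/-- powers of `q` are exponentials -/
theorem me2_pow {q : ℕ} (hq : 2 ≤ q) (x : ℝ) : (q : ℝ) ^ x = Real.exp (x * Real.log q) := by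
  have hq0 : (0 : ℝ) < (q : ℝ) := by
    have : (2 : ℝ) ≤ (q : ℝ) := by exact_mod_cast hq
    linarith
  rw [Real.rpow_def_of_pos hq0, mul_comm]

theorem me2_rt {k : ℕ} (hk : 1 ≤ k) : ‖rt k‖ ≤ 1 := by
  have hk1 : (1 : ℝ) ≤ (k : ℝ) := by exact_mod_cast hk
  unfold rt
  rw [Complex.norm_real, Real.norm_of_nonneg (Real.rpow_nonneg (by linarith) _)]
  exact Real.rpow_le_one_of_one_le_of_nonpos hk1 (by norm_num)

theorem me2_sum {q : ℕ} (hq : 2 ≤ q) {n y : ℕ} {A θ : ℝ} (hA : (n : ℝ) + 2 ≤ A)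
    (hy : (y : ℝ) ≤ (q : ℝ) ^ θ) (c : ℕ → ℂ) (hc : ∀ k : ℕ, 1 ≤ k → ‖c k‖ ≤ (k : ℝ) ^ (n + 2))
    (F : ℕ → ℂ) (B : ℝ) (hB : 0 ≤ B) (hF : ∀ k ∈ Icc 1 y, ‖F k‖ ≤ B) :
    ‖∑ k ∈ Icc 1 y, c k * rt k * F k‖ ≤ Real.exp (θ * (1 + A) * Real.log q) * B := by
  have hA0 : 0 ≤ A := by
    have : (0 : ℝ) ≤ (n : ℝ) := Nat.cast_nonneg n
    linarith
  have h1 : ∀ k ∈ Icc 1 y, ‖c k * rt k * F k‖ ≤ Real.exp (θ * A * Real.log q) * B := by
    intro k hk
    obtain ⟨hk1, hk2⟩ := Finset.mem_Icc.1 hk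
    have hkr : (1 : ℝ) ≤ (k : ℝ) := by exact_mod_cast hk1
    have h2 : ‖c k‖ ≤ Real.exp (θ * A * Real.log q) := by
      calc ‖c k‖ ≤ (k : ℝ) ^ (n + 2) := hc k hk1
        _ = (k : ℝ) ^ ((n : ℝ) + 2) := by
            rw [← Real.rpow_natCast]
            push_cast
            rfl
        _ ≤ (k : ℝ) ^ A := Real.rpow_le_rpow_of_exponent_le hkr hA
        _ ≤ ((q : ℝ) ^ θ) ^ A := by
            apply Real.rpow_le_rpow (by linarith) _ hA0
            have : (k : ℝ) ≤ (y : ℝ) := by exact_mod_cast hk2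
            linarith
        _ = Real.exp (θ * A * Real.log q) := by
            rw [← Real.rpow_mul (Nat.cast_nonneg q), me2_pow hq]
    rw [norm_mul, norm_mul]
    apply mul_le_mul _ (hF k hk) (norm_nonneg _) (Real.exp_pos _).le
    calc ‖c k‖ * ‖rt k‖ ≤ Real.exp (θ * A * Real.log q) * 1 :=
          mul_le_mul h2 (me2_rt hk1) (norm_nonneg _) (Real.exp_pos _).le
      _ = _ := mul_one _
  calc ‖∑ k ∈ Icc 1 y, c k * rt k * F k‖
      ≤ ∑ k ∈ Icc 1 y, ‖c k * rt k * F k‖ := norm_sum_le _ _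
    _ ≤ ∑ _k ∈ Icc 1 y, Real.exp (θ * A * Real.log q) * B := Finset.sum_le_sum h1
    _ = (y : ℝ) * (Real.exp (θ * A * Real.log q) * B) := by
        rw [Finset.sum_const, nsmul_eq_mul, Nat.card_Icc]
        simp
    _ ≤ Real.exp (θ * Real.log q) * (Real.exp (θ * A * Real.log q) * B) := by
        apply mul_le_mul_of_nonneg_right _ (by positivity)
        rw [← me2_pow hq]
        exact hy
    _ = Real.exp (θ * (1 + A) * Real.log q) * B := by
        rw [← mul_assoc, ← Real.exp_add]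
        congr 2
        ring

theorem me2_gz {N : ℝ} (hN : 1 ≤ N) (v : ℝ) : ‖SGD.gz N v‖ ≤ 1 * Real.exp (-(N * v)) := by
  obtain ⟨_, h⟩ := SGD.G0_facts hN
  obtain ⟨h0, _, h2, _⟩ := h v
  unfold SGD.gz
  rw [Complex.norm_real, Real.norm_of_nonneg h0.le, one_mul]
  exact h2

theorem me2_lam {n : ℕ} {A : ℝ} (hA : (n : ℝ) + 2 ≤ A) {lam : ℕ → ℂ} (hl : Triv n lam) (m : ℕ)
    (hm : 1 ≤ m) : ‖lam m‖ ≤ (m : ℝ) ^ A := by
  have hmr : (1 : ℝ) ≤ (m : ℝ) := by exact_mod_cast hm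
  calc ‖lam m‖ ≤ (m : ℝ) ^ n := hl.2 m
    _ = (m : ℝ) ^ (n : ℝ) := by rw [Real.rpow_natCast]
    _ ≤ (m : ℝ) ^ A := Real.rpow_le_rpow_of_exponent_le hmr (by linarith)

theorem me2_DD0 {n : ℕ} {A N : ℝ} (hA : (n : ℝ) + 2 ≤ A) (hN : A + 2 ≤ N) {lam : ℕ → ℂ}
    (hl : Triv n lam) (v : ℝ) :
    Summable (fun m : ℕ => ‖lam (m + 1) * (((m : ℝ) + 1) ^ (-(1 / 2) : ℝ) : ℝ) *
      SGD.gz N (v + Real.log (m + 1))‖) ∧
    ‖SGD.DD0 lam (SGD.gz N) v‖ ≤ 2 * Real.exp (-(N * v)) := by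
  have hn : (0 : ℝ) ≤ (n : ℝ) := Nat.cast_nonneg n
  have h := SGD.DD0_bound (A := A) (B := N) (C := 1) (by linarith) hN (me2_lam hA hl)
    (me2_gz (by linarith)) v
  refine ⟨h.1, ?_⟩
  have := h.2
  linarith

/-- the sum of `m^{-2}` -/
theorem me2_tsum (M : ℕ) : Summable (fun j : ℕ => (((M + j : ℕ) : ℝ) + 1) ^ (-2 : ℝ)) ∧
    ∑' j : ℕ, (((M + j : ℕ) : ℝ) + 1) ^ (-2 : ℝ) ≤ 2 := by
  have h1 : HasSum (fun n : ℕ => 1 / (n : ℝ) ^ 2) (Real.pi ^ 2 / 6) := hasSum_zeta_two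
  have hs : Summable (fun n : ℕ => 1 / (n : ℝ) ^ 2) := h1.summable
  have he : ∀ n : ℕ, (((n : ℕ) : ℝ) + 1) ^ (-2 : ℝ) = 1 / ((n + 1 : ℕ) : ℝ) ^ 2 := by
    intro n
    push_cast
    rw [Real.rpow_neg (by positivity), one_div]
    congr 1
    exact_mod_cast Real.rpow_natCast ((n : ℝ) + 1) 2
  have hs1 : Summable (fun n : ℕ => (((n : ℕ) : ℝ) + 1) ^ (-2 : ℝ)) := by
    simp_rw [he]
    exact (summable_nat_add_iff 1).2 hs
  have hs2 : Summable (fun j : ℕ => (((M + j : ℕ) : ℝ) + 1) ^ (-2 : ℝ)) := by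
    have := (summable_nat_add_iff M).2 hs1
    refine this.congr fun j => ?_
    rw [add_comm j M]
  refine ⟨hs2, ?_⟩
  have h2 : ∑' n : ℕ, (((n : ℕ) : ℝ) + 1) ^ (-2 : ℝ) = Real.pi ^ 2 / 6 := by
    simp_rw [he]
    have h3 := hs.sum_add_tsum_nat_add 1
    rw [h1.tsum_eq] at h3
    simp at h3
    simpa using h3
  have h3 : ∑' j : ℕ, (((M + j : ℕ) : ℝ) + 1) ^ (-2 : ℝ) ≤
      ∑' n : ℕ, (((n : ℕ) : ℝ) + 1) ^ (-2 : ℝ) := by
    have h4 := hs1.sum_add_tsum_nat_add M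
    have h5 : 0 ≤ ∑ i ∈ Finset.range M, (((i : ℕ) : ℝ) + 1) ^ (-2 : ℝ) :=
      Finset.sum_nonneg fun i _ => by positivity
    have h6 : ∑' j : ℕ, (((M + j : ℕ) : ℝ) + 1) ^ (-2 : ℝ) =
        ∑' j : ℕ, (((j + M : ℕ) : ℝ) + 1) ^ (-2 : ℝ) := by
      refine tsum_congr fun j => ?_
      rw [add_comm j M]
    rw [h6]
    linarith
  have h7 : Real.pi ^ 2 / 6 ≤ 2 := by
    have := Real.pi_lt_d2
    have := Real.pi_pos
    nlinarith
  linarith

/-- the terms of the series of `DD0` -/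
def me2_T (lam : ℕ → ℂ) (N v : ℝ) (m : ℕ) : ℂ :=
  lam (m + 1) * (((m : ℝ) + 1) ^ (-(1 / 2) : ℝ) : ℝ) * SGD.gz N (v + Real.log (m + 1))

/-- the tail of the series of `DD0`, for terms `m > M`, `log (M + 1) ≥ lR` -/
theorem me2_tail {n : ℕ} {A N : ℝ} (hA : (n : ℝ) + 2 ≤ A) (hN : A + 2 ≤ N) {lam : ℕ → ℂ}
    (hl : Triv n lam) (v lR : ℝ) (M : ℕ) (hM : ∀ m : ℕ, M < m → lR ≤ Real.log m) :
    ‖SGD.DD0 lam (SGD.gz N) v - ∑ m ∈ Finset.range M, me2_T lam N v m‖ ≤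
      2 * Real.exp (-((N - A - 2) * lR) - N * v) := by
  have hn : (0 : ℝ) ≤ (n : ℝ) := Nat.cast_nonneg n
  have hsm : Summable (fun m : ℕ => me2_T lam N v m) := by
    refine Summable.of_norm ?_
    exact (me2_DD0 hA hN hl v).1
  have h1 : SGD.DD0 lam (SGD.gz N) v = ∑' m : ℕ, me2_T lam N v m := rfl
  have h2 := hsm.sum_add_tsum_nat_add M
  rw [h1, ← h2, add_sub_cancel_left]
  obtain ⟨hs2, hs3⟩ := me2_tsum M
  set D : ℝ := Real.exp (-((N - A - 2) * lR) - N * v) with hD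
  have hterm : ∀ j : ℕ, ‖me2_T lam N v (j + M)‖ ≤ (((M + j : ℕ) : ℝ) + 1) ^ (-2 : ℝ) * D := by
    intro j
    have hcast : (((j + M : ℕ) : ℝ)) = ((M + j : ℕ) : ℝ) := by rw [add_comm]
    have hlm := hM (M + j + 1) (by omega)
    rw [show ((M + j + 1 : ℕ) : ℝ) = ((M + j : ℕ) : ℝ) + 1 by push_cast; ring] at hlm
    have h5 : ‖lam (j + M + 1)‖ ≤ (((M + j : ℕ) : ℝ) + 1) ^ A := by
      have := me2_lam hA hl (j + M + 1) (by omega)
      refine this.trans (le_of_eq ?_)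
      push_cast
      ring_nf
    set m : ℝ := ((M + j : ℕ) : ℝ) + 1 with hm
    have hm1 : 1 ≤ m := by
      have : (0 : ℝ) ≤ ((M + j : ℕ) : ℝ) := Nat.cast_nonneg _
      linarith
    have hm0 : 0 < m := by linarith
    unfold me2_T
    rw [norm_mul, norm_mul, hcast, ← hm, Complex.norm_real,
      Real.norm_of_nonneg (Real.rpow_nonneg hm0.le _)]
    have h6 : m ^ (-(1 / 2) : ℝ) ≤ 1 := Real.rpow_le_one_of_one_le_of_nonpos hm1 (by norm_num)
    have h7 := me2_gz (N := N) (by linarith) (v + Real.log m)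
    rw [one_mul] at h7
    have h8 : ‖lam (j + M + 1)‖ * m ^ (-(1 / 2) : ℝ) * ‖SGD.gz N (v + Real.log m)‖ ≤
        m ^ A * 1 * Real.exp (-(N * (v + Real.log m))) := by
      refine mul_le_mul (mul_le_mul h5 h6 (Real.rpow_nonneg hm0.le _)
        (Real.rpow_nonneg hm0.le _)) h7 (norm_nonneg _) ?_
      rw [mul_one]
      exact Real.rpow_nonneg hm0.le _
    refine h8.trans ?_
    rw [mul_one, Real.rpow_def_of_pos hm0, Real.rpow_def_of_pos hm0, hD, ← Real.exp_add,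
      ← Real.exp_add]
    refine Real.exp_le_exp.2 ?_
    have h9 : (N - A - 2) * lR ≤ (N - A - 2) * Real.log m :=
      mul_le_mul_of_nonneg_left hlm (by linarith)
    nlinarith
  have h3 : ‖∑' j : ℕ, me2_T lam N v (j + M)‖ ≤
      ∑' j : ℕ, (((M + j : ℕ) : ℝ) + 1) ^ (-2 : ℝ) * D :=
    tsum_of_norm_bounded (hs2.mul_right D).hasSum hterm
  refine h3.trans ?_
  rw [tsum_mul_right]
  exact mul_le_mul_of_nonneg_right hs3 (Real.exp_pos _).le

/-- ME2: crude bound and tail (as KE1, KE2 of `SGD`); `p.A ≥ n + 2` -/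
theorem PG_tail_pr {n : ℕ} (p : SGD.Par) (hA : (n : ℝ) + 2 ≤ p.A) {η : ℝ} (hη : 0 < η)
    (hη1 : η ≤ 2 * p.κ') : ∃ q₀ : ℕ, ∀ q : ℕ, q₀ ≤ q → ∀ (lam c : ℕ → ℂ), Triv n lam →
      (∀ k : ℕ, 1 ≤ k → ‖c k‖ ≤ (k : ℝ) ^ (n + 2)) → ∀ y : ℕ, (y : ℝ) ≤ (q : ℝ) ^ (η / 3) →
      ∀ σ : ℝ, σ = 1 ∨ σ = -1 → ∀ z : ℝ,
      ‖PG lam c (SGD.gz p.N) σ y (z - Real.log q / 2)‖ ≤
        (q : ℝ) ^ (3 / 4 * p.N) * Real.exp (-(p.N * z)) ∧
      (-(p.κ' / 2 * Real.log q) ≤ z → ‖PG lam c (SGD.gz p.N) σ y (z - Real.log q / 2) -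
        RG p.N (Real.log q) ((q : ℝ) ^ (1 / 2 + p.κ')) lam c σ y z‖ ≤ (q : ℝ) ^ (-2 : ℝ)) := by
  refine ⟨2, fun q hq lam c hl hc y hy σ hσ z => ?_⟩
  have hn : (0 : ℝ) ≤ (n : ℝ) := Nat.cast_nonneg n
  have hN := SGD.N_ge p
  have hA0 := p.hA
  have hκ' := p.hκ'
  have hκ'1 := p.hκ'1
  have hq2 : (2 : ℝ) ≤ (q : ℝ) := by exact_mod_cast hq
  have hq0 : (0 : ℝ) < (q : ℝ) := by linarith
  have hN0 : 0 < p.N := by linarith
  have hNκ : p.N * p.κ' = 16 * (p.A + 3) := by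
    unfold SGD.Par.N
    field_simp
  have hN2 : p.A + 2 ≤ p.N := by linarith
  set L : ℝ := Real.log q with hL
  have hL0 : 0 < L := Real.log_pos (by linarith)
  have h2e : (2 : ℝ) ≤ Real.exp L := by
    rw [hL, Real.exp_log hq0]
    exact hq2
  set θ : ℝ := η / 3 with hθ
  have hθ0 : 0 < θ := by positivity
  have hθ1 : θ ≤ 1 / 6 := by
    rw [hθ]
    linarith
  -- the logarithms of the `k`
  have hlk : ∀ k ∈ Icc 1 y, -(θ * L) ≤ σ * Real.log k ∧ -(θ * L) ≤ -(σ * Real.log k) := by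
    intro k hk
    obtain ⟨hk1, hk2⟩ := Finset.mem_Icc.1 hk
    have hkr : (1 : ℝ) ≤ (k : ℝ) := by exact_mod_cast hk1
    have h1 : 0 ≤ Real.log k := Real.log_nonneg hkr
    have h2 : Real.log k ≤ θ * L := by
      have h3 : (k : ℝ) ≤ (q : ℝ) ^ θ := by
        have : (k : ℝ) ≤ (y : ℝ) := by exact_mod_cast hk2
        linarith
      have h4 := Real.log_le_log (by linarith) h3
      rwa [Real.log_rpow hq0] at h4
    have h3 : 0 ≤ θ * L := by positivity
    rcases hσ with h | h <;> rw [h] <;> constructor <;> linarith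
  constructor
  · have h1 : PG lam c (SGD.gz p.N) σ y (z - L / 2) =
        ∑ k ∈ Icc 1 y, c k * rt k * SGD.DD0 lam (SGD.gz p.N) (z - L / 2 + σ * Real.log k) := rfl
    rw [h1]
    refine (me2_sum hq hA hy c hc _ (2 * Real.exp (-(p.N * z) + p.N * (1 / 2 + θ) * L))
      (by positivity) ?_).trans ?_
    · intro k hk
      refine (me2_DD0 hA hN2 hl _).2.trans ?_
      apply mul_le_mul_of_nonneg_left _ (by norm_num)
      apply Real.exp_le_exp.2
      have h2 := mul_le_mul_of_nonneg_left (hlk k hk).1 hN0.le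
      nlinarith
    · rw [me2_pow hq, ← hL]
      calc Real.exp (θ * (1 + p.A) * L) * (2 * Real.exp (-(p.N * z) + p.N * (1 / 2 + θ) * L))
          ≤ Real.exp (θ * (1 + p.A) * L) *
            (Real.exp L * Real.exp (-(p.N * z) + p.N * (1 / 2 + θ) * L)) := by
            apply mul_le_mul_of_nonneg_left _ (Real.exp_pos _).le
            exact mul_le_mul_of_nonneg_right h2e (Real.exp_pos _).le
        _ = Real.exp ((θ * (1 + p.A) + 1 + p.N * (1 / 2 + θ)) * L + -(p.N * z)) := by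
            rw [← Real.exp_add, ← Real.exp_add]
            congr 1
            ring
        _ ≤ Real.exp (3 / 4 * p.N * L + -(p.N * z)) := by
            apply Real.exp_le_exp.2
            have h5 : θ * (1 + p.A) + 1 + p.N * (1 / 2 + θ) ≤ 3 / 4 * p.N := by
              have h6 : θ * (1 + p.A) ≤ 1 / 6 * (1 + p.A) :=
                mul_le_mul_of_nonneg_right hθ1 (by linarith)
              have h7 : p.N * θ ≤ p.N * (1 / 6) := mul_le_mul_of_nonneg_left hθ1 hN0.le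
              linarith
            have := mul_le_mul_of_nonneg_right h5 hL0.le
            linarith
        _ = Real.exp (3 / 4 * p.N * L) * Real.exp (-(p.N * z)) := Real.exp_add _ _
  · intro hz
    set R : ℝ := (q : ℝ) ^ (1 / 2 + p.κ') with hR
    have hR0 : 0 < R := Real.rpow_pos_of_pos hq0 _
    have hRL : Real.log R = (1 / 2 + p.κ') * L := by rw [hR, Real.log_rpow hq0]
    have h1 : PG lam c (SGD.gz p.N) σ y (z - L / 2) =
        ∑ k ∈ Icc 1 y, c k * rt k * SGD.DD0 lam (SGD.gz p.N) (z - L / 2 + σ * Real.log k) := rfl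
    have h2 : RG p.N L R lam c σ y z = ∑ k ∈ Icc 1 y, c k * rt k *
        ∑ m ∈ Finset.range ⌊R * (k : ℝ) ^ (-σ)⌋₊,
          me2_T lam p.N (z - L / 2 + σ * Real.log k) m := by
      unfold RG
      refine Finset.sum_congr rfl fun k _ => ?_
      set M : ℕ := ⌊R * (k : ℝ) ^ (-σ)⌋₊ with hM
      rw [Finset.mul_sum]
      have h1 : Finset.Icc 1 M = (Finset.range M).image (fun m => m + 1) := by
        ext a
        simp only [Finset.mem_Icc, Finset.mem_image, Finset.mem_range]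
        constructor
        · rintro ⟨h1, h2⟩
          exact ⟨a - 1, by omega, by omega⟩
        · rintro ⟨b, hb, rfl⟩
          omega
      rw [h1, Finset.sum_image (fun a _ b _ h => by simpa using h)]
      refine Finset.sum_congr rfl fun m _ => ?_
      have h3 : rt (m + 1) = ((((m : ℝ) + 1) ^ (-(1 / 2) : ℝ) : ℝ) : ℂ) := by
        unfold rt
        push_cast
        rfl
      have h4 : z - L / 2 + Real.log ((m + 1 : ℕ) : ℝ) + σ * Real.log k =
          z - L / 2 + σ * Real.log k + Real.log ((m : ℝ) + 1) := by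
        push_cast
        ring
      unfold me2_T
      rw [h3, h4]
      ring
    rw [h1, h2, ← Finset.sum_sub_distrib]
    simp_rw [← mul_sub]
    refine (me2_sum hq hA hy c hc _
      (2 * Real.exp (((p.A + 2) * (1 / 2 + p.κ' + θ) - 8 * (p.A + 3)) * L))
      (by positivity) ?_).trans ?_
    · intro k hk
      obtain ⟨hk1, hk2⟩ := Finset.mem_Icc.1 hk
      have hkr : (1 : ℝ) ≤ (k : ℝ) := by exact_mod_cast hk1
      have hk0 : (0 : ℝ) < (k : ℝ) := by linarith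
      refine (me2_tail hA hN2 hl _ ((1 / 2 + p.κ') * L - σ * Real.log k) _ ?_).trans ?_
      · intro m hm
        have h3 : R * (k : ℝ) ^ (-σ) < m := by
          have h4 := Nat.lt_floor_add_one (R * (k : ℝ) ^ (-σ))
          have h5 : ((⌊R * (k : ℝ) ^ (-σ)⌋₊ : ℕ) : ℝ) + 1 ≤ (m : ℝ) := by exact_mod_cast hm
          linarith
        have h4 := Real.log_le_log (by positivity) h3.le
        rw [Real.log_mul hR0.ne' (by positivity), hRL, Real.log_rpow hk0] at h4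
        linarith
      · apply mul_le_mul_of_nonneg_left _ (by norm_num)
        apply Real.exp_le_exp.2
        have h10 : p.N * (-(p.κ' / 2 * L)) ≤ p.N * z := mul_le_mul_of_nonneg_left hz hN0.le
        have h11 : p.N * (p.κ' / 2 * L) = 8 * (p.A + 3) * L := by
          calc p.N * (p.κ' / 2 * L) = (p.N * p.κ') / 2 * L := by ring
            _ = _ := by rw [hNκ]; ring
        have h12 : p.N * ((1 / 2 + p.κ') * L) = p.N * (L / 2) + 16 * (p.A + 3) * L := by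
          calc p.N * ((1 / 2 + p.κ') * L) = p.N * (L / 2) + (p.N * p.κ') * L := by ring
            _ = _ := by rw [hNκ]
        have h13 : (p.A + 2) * (-(θ * L)) ≤ (p.A + 2) * (σ * Real.log k) :=
          mul_le_mul_of_nonneg_left (hlk k hk).1 (by linarith)
        nlinarith
    · rw [me2_pow hq, ← hL]
      calc Real.exp (θ * (1 + p.A) * L) *
            (2 * Real.exp (((p.A + 2) * (1 / 2 + p.κ' + θ) - 8 * (p.A + 3)) * L))
          ≤ Real.exp (θ * (1 + p.A) * L) *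
            (Real.exp L * Real.exp (((p.A + 2) * (1 / 2 + p.κ' + θ) - 8 * (p.A + 3)) * L)) := by
            apply mul_le_mul_of_nonneg_left _ (Real.exp_pos _).le
            exact mul_le_mul_of_nonneg_right h2e (Real.exp_pos _).le
        _ = Real.exp ((θ * (1 + p.A) + 1 + ((p.A + 2) * (1 / 2 + p.κ' + θ) - 8 * (p.A + 3))) *
            L) := by
            rw [← Real.exp_add, ← Real.exp_add]
            congr 1
            ring
        _ ≤ Real.exp (-2 * L) := by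
            apply Real.exp_le_exp.2
            apply mul_le_mul_of_nonneg_right _ hL0.le
            have h6 : θ * (1 + p.A) ≤ 1 / 6 * (1 + p.A) :=
              mul_le_mul_of_nonneg_right hθ1 (by linarith)
            have h7 : (p.A + 2) * (1 / 2 + p.κ' + θ) ≤ (p.A + 2) * (1 / 2 + 1 / 4 + 1 / 6) :=
              mul_le_mul_of_nonneg_left (by linarith) (by linarith)
            linarith

end

end Pool.Agent.DN

namespace Pool.Agent.DN

theorem PG_tail : type_of% @PG_tail_pr := @PG_tail_pr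

end Pool.Agent.DN
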