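import Pool.Agent.Lib_helper61.DNF.ME5
import Pool.Agent.Lib_helper45.SGDF.KB
import Pool.Agent.Lib_helper45.SGDF.KC
import Pool.Agent.Lib_helper45.SGDF.KG1

/-!
# DN, block ME3: mean squares of `MG`
-/

set_option autoImplicit false

namespace Pool.Agent.DN

open MeasureTheory Complex Finset
open Pool.Agent.SGN Pool.Agent.BX
open Pool.Agent.QG (ew)
open scoped ENNReal

noncomputable section

/-- the general form -/
theorem me3_core {n : ℕ} (p : SGD.Par) (hA : (n : ℝ) ≤ p.A) (Cm : ℝ) (hCm : 0 ≤ Cm) :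
    ∃ (C : ℝ) (q₀ : ℕ), 0 ≤ C ∧ ∀ q : ℕ, q₀ ≤ q → 2 ≤ q → ∀ (β : Type) [Fintype β] (om : β → ℝ)
      (μ : β → Fin n → ℂ) (lam c : β → ℕ → ℂ) (σ : ℝ) (y : ℕ) (R : β → ℝ → ℂ) (J : Type)
      [Nonempty J] (T : Finset J) (ρ : J → ℝ) (W : J → ℝ) (Φ B : ℝ), Function.Injective ρ →
      (∀ b, 0 ≤ om b) → ∑ b, om b ≤ Φ → (∀ b, p.GC (gmu (μ b))) → (∀ b, Triv n (lam b)) →
      (∀ j ∈ T, 0 ≤ W j) → ∑ j ∈ T, W j ≤ Cm → (∀ b, Continuous (R b)) →
      (∀ b z, ‖R b z‖ ≤ B) →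
      (∀ b z, ‖PG (lam b) (c b) (SGD.gz p.N) σ y (z - Real.log q / 2)‖ ≤
        (q : ℝ) ^ (3 / 4 * p.N) * Real.exp (-(p.N * z))) →
      (∀ b z, -(p.κ' / 2 * Real.log q) ≤ z →
        ‖PG (lam b) (c b) (SGD.gz p.N) σ y (z - Real.log q / 2) - R b z‖ ≤ (q : ℝ) ^ (-2 : ℝ)) →
      (∀ z : ℝ, ∑ b, om b * ‖R b z‖ ^ 2 ≤ Φ * (∑ j ∈ T,
        SGD.G0 p.N (z + Real.log (ρ j) - Real.log q / 2) ^ 2 * W j + (q : ℝ) ^ (-p.δ))) →
      (∫⁻ x in Set.Ioi (-(Real.log q / 2)), ENNReal.ofReal (∑ b, om b *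
        ‖MG (μ b) (lam b) (c b) σ y x‖ ^ 2)) ≤ ENNReal.ofReal (C * Φ) := by
  obtain ⟨Cg, q₁, hCg, hmean⟩ := SGD.mean_gen p
  have hκ := p.hκ
  have hδ := p.hδ
  refine ⟨Cg * (4 / p.κ) * Cm + (Cg + 1) * (2 / p.δ), q₁, by positivity, ?_⟩
  intro q hq hq2 β _ om μ lam c σ y R J _ T ρ W Φ B hρ hom hΦ hg hl hW hWs hRc hRb hPc hPt hLS
  classical
  set L := Real.log q with hL
  have hq1 : (1 : ℝ) ≤ q := by exact_mod_cast (by omega : 1 ≤ q)
  have hq0 : (0 : ℝ) < q := by linarith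
  have hΦ0 : 0 ≤ Φ := (Finset.sum_nonneg fun b _ => hom b).trans hΦ
  have hN1 : 1 ≤ p.N := by
    have := SGD.N_ge p
    have := p.hA
    nlinarith
  -- the kernels
  have hker : ∀ b, ∃ k : ℝ → ℂ, Continuous k ∧
      (∀ B : ℝ, -p.κ ≤ B → ∀ v : ℝ, ‖k v‖ ≤ p.M p.N B * Real.exp (-(B * v))) ∧
      ∀ v : ℝ, gmu (μ b) v = ∫ y : ℝ, k y * SGD.gz p.N (v - y) := fun b => (hg b).ker p.N hN1
  choose k hk1 hk2 hk3 using hker
  have hconv : ∀ b x, Continuous (PG (lam b) (c b) (SGD.gz p.N) σ y) ∧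
      MG (μ b) (lam b) (c b) σ y x = ∫ u : ℝ, k b u * PG (lam b) (c b) (SGD.gz p.N) σ y (x - u) :=
    fun b x => MG_conv (μ b) p hA (hg b) (lam b) (c b) (hl b) (k b) (hk1 b) (hk2 b) (hk3 b) σ y x
  -- the set `Q₁`
  set Q₁ : Finset ℝ := T.map ⟨ρ, hρ⟩ with hQ₁
  set W₁ : ℝ → ℝ := fun x => W (Function.invFun ρ x) with hW₁
  have hinv : ∀ j, W₁ (ρ j) = W j := fun j => by
    rw [hW₁]
    show W (Function.invFun ρ (ρ j)) = W j
    rw [Function.leftInverse_invFun hρ j]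
  have hsum : ∀ f : ℝ → ℝ, ∑ r ∈ Q₁, f r * W₁ r = ∑ j ∈ T, f (ρ j) * W j := by
    intro f
    rw [hQ₁, Finset.sum_map]
    refine Finset.sum_congr rfl fun j _ => ?_
    show f (ρ j) * W₁ (ρ j) = _
    rw [hinv]
  have hW₁0 : ∀ r ∈ Q₁, 0 ≤ W₁ r := by
    intro r hr
    rw [hQ₁, Finset.mem_map] at hr
    obtain ⟨j, hj, rfl⟩ := hr
    show 0 ≤ W₁ (ρ j)
    rw [hinv]
    exact hW j hj
  obtain ⟨m1, m2⟩ := hmean q hq (θ := 1) (Cρ := 0) (Φ := Φ) (B := B) (ι := β) (s := Finset.univ)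
    (om := om) (Q₁ := Q₁) (Q := ∅) (W := W₁) (k := k)
    (P := fun b z => PG (lam b) (c b) (SGD.gz p.N) σ y (z - L / 2)) (R := R) le_rfl hW₁0
    (fun r hr => absurd hr (Finset.notMem_empty r)) (fun b _ => hom b) hΦ
    (fun b _ => ⟨(hconv b 0).1.comp (continuous_id.sub continuous_const), hRc b, hk1 b⟩)
    (fun b _ z => hRb b z) (fun b _ => hk2 b) (fun b _ z => hPc b z) (fun b _ z hz => hPt b z hz)
    (fun z => by
      rw [zero_mul, add_zero, hsum fun r => SGD.G0 p.N (z + Real.log r - L / 2) ^ 2]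
      exact hLS z)
  -- pointwise
  have hMG : ∀ b x, MG (μ b) (lam b) (c b) σ y x =
      ∫ u : ℝ, k b u * PG (lam b) (c b) (SGD.gz p.N) σ y (x + L / 2 - u - L / 2) := by
    intro b x
    rw [(hconv b x).2]
    congr 1
    funext u
    congr 2
    ring
  set D1 : ℝ → ℝ := fun x => Cg * Φ * ∑ j ∈ T, p.E (x + Real.log (ρ j)) * W j with hD1
  set D2 : ℝ → ℝ := fun x => (Cg + 1) * Φ * (q : ℝ) ^ (-p.δ) * Real.exp (p.δ / 2 * (L / 2)) *
    Real.exp (-(p.δ / 2) * x) with hD2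
  have hD10 : ∀ x, 0 ≤ D1 x := by
    intro x
    rw [hD1]
    refine mul_nonneg (mul_nonneg hCg.le hΦ0) (Finset.sum_nonneg fun j hj => ?_)
    exact mul_nonneg (Real.exp_nonneg _) (hW j hj)
  have hD20 : ∀ x, 0 ≤ D2 x := by
    intro x
    rw [hD2]
    positivity
  have hpt : ∀ x ∈ Set.Ioi (-(L / 2)), ∑ b, om b * ‖MG (μ b) (lam b) (c b) σ y x‖ ^ 2 ≤
      D1 x + D2 x := by
    intro x hx
    have hx' : -(L / 2) < x := hx
    simp_rw [hMG]
    have hexp : D2 x = (Cg + 1) * Φ * (q : ℝ) ^ (-p.δ) * Real.exp (-(p.δ / 2) * (x - L / 2)) := by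
      rw [hD2]
      show (Cg + 1) * Φ * (q : ℝ) ^ (-p.δ) * Real.exp (p.δ / 2 * (L / 2)) *
        Real.exp (-(p.δ / 2) * x) = _
      rw [mul_assoc _ (Real.exp (p.δ / 2 * (L / 2))), ← Real.exp_add]
      congr 2
      ring
    have hqδ : 0 ≤ (q : ℝ) ^ (-p.δ) := Real.rpow_nonneg hq0.le _
    rcases le_or_gt (x + L / 2) L with h | h
    · have h1 := m1 (x + L / 2) (by linarith)
      refine h1.trans ?_
      have h2 : SGD.AE p 1 q 0 Q₁ ∅ W₁ (x + L / 2) = ∑ j ∈ T, p.E (x + Real.log (ρ j)) * W j := by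
        unfold SGD.AE
        rw [zero_mul, add_zero, hsum fun r => p.E (x + L / 2 + Real.log r - Real.log q / 2)]
        refine Finset.sum_congr rfl fun j _ => ?_
        congr 2
        rw [← hL]
        ring
      rw [h2, mul_add, hexp]
      apply add_le_add
      · exact le_refl _
      · have h3 : 1 ≤ Real.exp (-(p.δ / 2) * (x - L / 2)) := by
          apply Real.one_le_exp
          nlinarith
        calc Cg * Φ * (q : ℝ) ^ (-p.δ) ≤ (Cg + 1) * Φ * (q : ℝ) ^ (-p.δ) := by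
              apply mul_le_mul_of_nonneg_right _ hqδ
              nlinarith
          _ = (Cg + 1) * Φ * (q : ℝ) ^ (-p.δ) * 1 := (mul_one _).symm
          _ ≤ _ := mul_le_mul_of_nonneg_left h3 (by positivity)
    · have h1 := m2 (x + L / 2) h.le
      refine h1.trans ?_
      have h2 : Φ / q * Real.exp (-(x + L / 2 - L)) ≤ D2 x := by
        rw [hexp]
        have h3 : (1 : ℝ) / q ≤ (q : ℝ) ^ (-p.δ) := by
          rw [one_div, ← Real.rpow_neg_one]
          exact Real.rpow_le_rpow_of_exponent_le hq1 (by have := p.hδ1; linarith)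
        have h4 : Real.exp (-(x + L / 2 - L)) ≤ Real.exp (-(p.δ / 2) * (x - L / 2)) := by
          apply Real.exp_le_exp.mpr
          have := p.hδ1
          nlinarith
        calc Φ / q * Real.exp (-(x + L / 2 - L)) = Φ * (1 / q * Real.exp (-(x + L / 2 - L))) := by
              ring
          _ ≤ Φ * ((q : ℝ) ^ (-p.δ) * Real.exp (-(p.δ / 2) * (x - L / 2))) :=
              mul_le_mul_of_nonneg_left (mul_le_mul h3 h4 (Real.exp_nonneg _) hqδ) hΦ0
          _ ≤ (Cg + 1) * (Φ * ((q : ℝ) ^ (-p.δ) * Real.exp (-(p.δ / 2) * (x - L / 2)))) := by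
              have : 0 ≤ Φ * ((q : ℝ) ^ (-p.δ) * Real.exp (-(p.δ / 2) * (x - L / 2))) := by
                positivity
              nlinarith
          _ = _ := by ring
      linarith [hD10 x]
  -- integrals
  obtain ⟨-, -, hE1, hE2⟩ := SGD.exp_int p
  have hEj : ∀ j, Integrable (fun x : ℝ => p.E (x + Real.log (ρ j)) * W j) :=
    fun j => (hE1.comp_add_right (Real.log (ρ j))).mul_const _
  have hI1 : Integrable D1 := (integrable_finsetSum _ fun j _ => hEj j).const_mul _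
  have hI1v : ∫ x, D1 x ≤ Cg * (4 / p.κ) * Cm * Φ := by
    rw [hD1, integral_const_mul, integral_finsetSum _ fun j _ => hEj j]
    have e1 : ∀ j ∈ T, ∫ x, p.E (x + Real.log (ρ j)) * W j = 4 / p.κ * W j := by
      intro j _
      rw [integral_mul_const, integral_add_right_eq_self, hE2]
    rw [Finset.sum_congr rfl e1, ← Finset.mul_sum]
    calc Cg * Φ * (4 / p.κ * ∑ j ∈ T, W j) ≤ Cg * Φ * (4 / p.κ * Cm) := by
          apply mul_le_mul_of_nonneg_left _ (by positivity)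
          exact mul_le_mul_of_nonneg_left hWs (by positivity)
      _ = _ := by ring
  have hδ2 : -(p.δ / 2) < 0 := by linarith
  have hI2 : IntegrableOn D2 (Set.Ioi (-(L / 2))) :=
    (integrableOn_exp_mul_Ioi hδ2 _).const_mul _
  have hI2v : ∫ x in Set.Ioi (-(L / 2)), D2 x ≤ (Cg + 1) * (2 / p.δ) * Φ := by
    rw [hD2, integral_const_mul, integral_exp_mul_Ioi hδ2]
    have e1 : Real.exp (p.δ / 2 * (L / 2)) * (-Real.exp (-(p.δ / 2) * (-(L / 2))) / (-(p.δ / 2))) =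
        (2 / p.δ) * (q : ℝ) ^ (p.δ / 2) := by
      have e2 : Real.exp (p.δ / 2 * (L / 2)) * Real.exp (-(p.δ / 2) * (-(L / 2))) =
          (q : ℝ) ^ (p.δ / 2) := by
        rw [← Real.exp_add, Real.rpow_def_of_pos hq0, ← hL]
        congr 1
        ring
      rw [← e2]
      field_simp
    have e3 : (q : ℝ) ^ (-p.δ) * (q : ℝ) ^ (p.δ / 2) ≤ 1 := by
      rw [← Real.rpow_add hq0]
      exact Real.rpow_le_one_of_one_le_of_nonpos hq1 (by linarith)
    calc (Cg + 1) * Φ * (q : ℝ) ^ (-p.δ) * Real.exp (p.δ / 2 * (L / 2)) *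
          (-Real.exp (-(p.δ / 2) * (-(L / 2))) / (-(p.δ / 2)))
        = (Cg + 1) * Φ * (q : ℝ) ^ (-p.δ) * (Real.exp (p.δ / 2 * (L / 2)) *
          (-Real.exp (-(p.δ / 2) * (-(L / 2))) / (-(p.δ / 2)))) := by ring
      _ = (Cg + 1) * Φ * (2 / p.δ) * ((q : ℝ) ^ (-p.δ) * (q : ℝ) ^ (p.δ / 2)) := by
          rw [e1]
          ring
      _ ≤ (Cg + 1) * Φ * (2 / p.δ) * 1 := mul_le_mul_of_nonneg_left e3 (by positivity)
      _ = _ := by ring
  calc (∫⁻ x in Set.Ioi (-(L / 2)), ENNReal.ofReal (∑ b, om b *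
        ‖MG (μ b) (lam b) (c b) σ y x‖ ^ 2))
      ≤ ∫⁻ x in Set.Ioi (-(L / 2)), (ENNReal.ofReal (D1 x) + ENNReal.ofReal (D2 x)) := by
        apply setLIntegral_mono' measurableSet_Ioi
        intro x hx
        rw [← ENNReal.ofReal_add (hD10 x) (hD20 x)]
        exact ENNReal.ofReal_le_ofReal (hpt x hx)
    _ ≤ (∫⁻ x, ENNReal.ofReal (D1 x)) + ∫⁻ x in Set.Ioi (-(L / 2)), ENNReal.ofReal (D2 x) := by
        rw [lintegral_add_right' _ hI2.aestronglyMeasurable.aemeasurable.ennreal_ofReal]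
        gcongr
        exact Measure.restrict_le_self
    _ = ENNReal.ofReal (∫ x, D1 x) + ENNReal.ofReal (∫ x in Set.Ioi (-(L / 2)), D2 x) := by
        rw [ofReal_integral_eq_lintegral_ofReal hI1 (Filter.Eventually.of_forall hD10),
          ofReal_integral_eq_lintegral_ofReal hI2 (Filter.Eventually.of_forall hD20)]
    _ ≤ ENNReal.ofReal (Cg * (4 / p.κ) * Cm * Φ) + ENNReal.ofReal ((Cg + 1) * (2 / p.δ) * Φ) :=
        add_le_add (ENNReal.ofReal_le_ofReal hI1v) (ENNReal.ofReal_le_ofReal hI2v)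
    _ = ENNReal.ofReal ((Cg * (4 / p.κ) * Cm + (Cg + 1) * (2 / p.δ)) * Φ) := by
        rw [← ENNReal.ofReal_add (by positivity) (by positivity)]
        congr 1
        ring

theorem me3_RG_cont (N LL R : ℝ) (hN : 1 ≤ N) (lam c : ℕ → ℂ) (σ : ℝ) (y : ℕ) :
    Continuous (RG N LL R lam c σ y) := by
  have hG : Continuous (SGD.gz N) := Complex.continuous_ofReal.comp (SGD.G0_facts hN).1
  unfold RG
  refine continuous_finsetSum _ fun k _ => continuous_finsetSum _ fun m _ => ?_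
  have h1 : Continuous fun z : ℝ => z - LL / 2 + Real.log m + σ * Real.log k := by fun_prop
  exact (((((hG.comp h1).mul continuous_const).mul continuous_const).mul continuous_const).mul
    continuous_const)

theorem me3_gz_le {N : ℝ} (hN : 1 ≤ N) (v : ℝ) : ‖SGD.gz N v‖ ≤ 1 := by
  have h := (SGD.G0_facts hN).2 v
  unfold SGD.gz
  rw [Complex.norm_real, Real.norm_of_nonneg h.1.le]
  exact h.2.1

theorem me3_gz_sq {N : ℝ} (v : ℝ) : ‖SGD.gz N v‖ ^ 2 = SGD.G0 N v ^ 2 := by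
  unfold SGD.gz
  rw [Complex.norm_real, Real.norm_eq_abs, sq_abs]

/-- a bound for `RG` -/
def me3B (R : ℝ) (lam c : ℕ → ℂ) (σ : ℝ) (y : ℕ) : ℝ :=
  ∑ k ∈ Icc 1 y, ∑ m ∈ Icc 1 ⌊R * (k : ℝ) ^ (-σ)⌋₊, ‖rt m * rt k * lam m * c k‖

theorem me3_RG_bd (N LL R : ℝ) (hN : 1 ≤ N) (lam c : ℕ → ℂ) (σ : ℝ) (y : ℕ) (z : ℝ) :
    ‖RG N LL R lam c σ y z‖ ≤ me3B R lam c σ y := by
  unfold RG me3B
  refine (norm_sum_le _ _).trans (Finset.sum_le_sum fun k _ => ?_)
  refine (norm_sum_le _ _).trans (Finset.sum_le_sum fun m _ => ?_)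
  have e1 : SGD.gz N (z - LL / 2 + Real.log m + σ * Real.log k) * rt m * rt k * lam m * c k =
      SGD.gz N (z - LL / 2 + Real.log m + σ * Real.log k) * (rt m * rt k * lam m * c k) := by ring
  rw [e1, norm_mul]
  calc _ ≤ 1 * ‖rt m * rt k * lam m * c k‖ :=
        mul_le_mul_of_nonneg_right (me3_gz_le hN _) (norm_nonneg _)
    _ = _ := one_mul _

theorem me3_bk {n : ℕ} (lam : ℕ → ℂ) (hl : Triv n lam) (y k : ℕ) (hk : 1 ≤ k) :
    ‖bk lam y k‖ ≤ (k : ℝ) ^ (n + 2) := by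
  unfold bk
  have h1 := cut_facts (Real.log k / Real.log y)
  rw [norm_mul, Complex.norm_real, Real.norm_of_nonneg h1.1]
  calc ‖minv lam k‖ * cut (Real.log k / Real.log y) ≤ (k : ℝ) ^ (n + 2) * 1 :=
        mul_le_mul (minv_bd lam hl k hk) h1.2.1 h1.1 (by positivity)
    _ = _ := mul_one _

/-- ME3: the mean squares of `MG` -/
theorem MG_l2_pr {n : ℕ} (hn : 2 ≤ n) (K : Set (Fin n → ℂ)) (hK : Kok K) (hM : HM n)
    (C₀ κ η δ : ℝ) (hC₀ : 0 < C₀) (hκ : 0 < κ) (hη : 0 < η) (hηκ : η < κ) (hκ' : κ < 1 / 4)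
    (hδ : 0 < δ) : ∃ (C : ℝ) (q₀ : ℕ), 0 ≤ C ∧ ∀ q : ℕ, q.Prime → q₀ ≤ q →
      ∀ (β : Type) [Fintype β] (lam : β → ℕ → ℂ) (μ : β → Fin n → ℂ) (om : β → ℝ),
      (∀ b, μ b ∈ K) → (∀ b, Triv n (lam b)) → (Fintype.card β : ℝ) ≤ C₀ * (q : ℝ) ^ (n : ℝ) →
      LS n q lam om C₀ κ η δ →
      (∫⁻ x in Set.Ioi (-(Real.log q / 2)), ENNReal.ofReal (∑ b, om b *
        ‖MG (μ b) (lam b) (bk (lam b) ⌊(q : ℝ) ^ (η / 3)⌋₊) 1 ⌊(q : ℝ) ^ (η / 3)⌋₊ x‖ ^ 2)) ≤
          ENNReal.ofReal (C * (q : ℝ) ^ (n : ℝ)) ∧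
      (∫⁻ x in Set.Ioi (-(Real.log q / 2)), ENNReal.ofReal (∑ b, om b *
        ‖MG (μ b) (lam b) (cj (bk (lam b) ⌊(q : ℝ) ^ (η / 3)⌋₊)) (-1)
          ⌊(q : ℝ) ^ (η / 3)⌋₊ x‖ ^ 2)) ≤ ENNReal.ofReal (C * (q : ℝ) ^ (n : ℝ)) := by
  obtain ⟨κ₁, c₁, Mf, hκ₁, hκ₁1, hc₁, hcl⟩ := gmu_class (by omega : 1 ≤ n) K hK 0
    (3 * ((n : ℝ) + 2) + 5)
  let p : SGD.Par :=
    { κ := κ₁, T := 0, Sg := 3 * ((n : ℝ) + 2) + 5, c₁ := c₁, M := Mf, A := (n : ℝ) + 2,
      η := 1 / 8, κ' := κ / 2, δ := min δ 1, C₂ := 0, c₀ := 1, hκ := hκ₁, hκ1 := hκ₁1,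
      hT := le_rfl, hSg := le_rfl, hc₁ := hc₁, hA := by positivity, hη := by norm_num,
      hη1 := le_rfl, hκ' := by linarith, hκ'1 := by linarith, hδ := lt_min hδ one_pos,
      hδ1 := min_le_right _ _, hC₂ := le_rfl, hc₀ := one_pos }
  have hpA : (n : ℝ) + 2 ≤ p.A := le_rfl
  have hpκ : p.κ' = κ / 2 := rfl
  have hpδ : p.δ = min δ 1 := rfl
  have hcl' : ∀ μ ∈ K, p.GC (gmu μ) := fun μ hμ => hcl μ hμ
  have hN1 : 1 ≤ p.N := by
    have h1 := SGD.N_ge p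
    have h2 := p.hA
    nlinarith
  have hθ : 0 < η / 6 := by positivity
  obtain ⟨CA, hCA, hA⟩ := vA_model (by omega : 1 ≤ n) hθ
  obtain ⟨CB, hCB, hB⟩ := vB_model (by omega : 1 ≤ n) hM hθ
  obtain ⟨⟨M⟩, -, -⟩ := id hM
  obtain ⟨C₁, q₁, hC₁, h1⟩ := me3_core (n := n) p (by linarith) CA hCA.le
  obtain ⟨C₂, q₂, hC₂, h2⟩ := me3_core (n := n) p (by linarith) CB hCB.le
  obtain ⟨q₃, h3⟩ := PG_tail p hpA hη (by rw [hpκ]; linarith)
  have hev : ∀ᶠ q : ℕ in Filter.atTop, (2 : ℝ) ≤ (q : ℝ) ^ (η / 6) :=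
    ((tendsto_rpow_atTop hθ).comp tendsto_natCast_atTop_atTop).eventually_ge_atTop 2
  obtain ⟨q₄, h4⟩ := Filter.eventually_atTop.mp hev
  refine ⟨max C₁ C₂ * C₀, max (max q₁ q₂) (max (max q₃ q₄) 3), by positivity, ?_⟩
  intro q hqp hq β _ lam μ om hμ hl hcard hLS
  have hqq1 : q₁ ≤ q := (le_max_left _ _).trans ((le_max_left _ _).trans hq)
  have hqq2 : q₂ ≤ q := (le_max_right _ _).trans ((le_max_left _ _).trans hq)
  have hqq3 : q₃ ≤ q := (le_max_left _ _).trans ((le_max_left _ _).trans ((le_max_right _ _).trans hq))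
  have hqq4 : q₄ ≤ q := (le_max_right _ _).trans ((le_max_left _ _).trans ((le_max_right _ _).trans hq))
  have hq3 : 3 ≤ q := (le_max_right _ _).trans ((le_max_right _ _).trans hq)
  have hq1 : (1 : ℝ) ≤ q := by exact_mod_cast (by omega : 1 ≤ q)
  have hq0 : (0 : ℝ) < q := by linarith
  have hlq : 0 ≤ Real.log q := Real.log_nonneg hq1
  set y := ⌊(q : ℝ) ^ (η / 3)⌋₊ with hy
  set R := (q : ℝ) ^ (1 / 2 + κ / 2) with hR
  set Φ := C₀ * (q : ℝ) ^ (n : ℝ) with hΦ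
  have hΦ0 : 0 ≤ Φ := by positivity
  -- the size of `y`
  have hyle : (y : ℝ) ≤ (q : ℝ) ^ (η / 3) := Nat.floor_le (Real.rpow_nonneg hq0.le _)
  have hyge : (q : ℝ) ^ (η / 6) ≤ y := by
    have e1 := h4 q hqq4
    have e2 : (q : ℝ) ^ (η / 3) = ((q : ℝ) ^ (η / 6)) ^ 2 := by
      rw [← Real.rpow_natCast, ← Real.rpow_mul hq0.le]
      congr 1
      push_cast
      ring
    have e3 : (q : ℝ) ^ (η / 3) < (y : ℝ) + 1 := Nat.lt_floor_add_one _
    nlinarith
  have hy2 : 2 ≤ y := by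
    have : (2 : ℝ) ≤ y := (h4 q hqq4).trans hyge
    exact_mod_cast this
  have hy0 : (0 : ℝ) < y := by
    have : (2 : ℝ) ≤ y := by exact_mod_cast hy2
    linarith
  have hylog1 : η / 6 * Real.log q ≤ Real.log y := by
    rw [← Real.log_rpow hq0]
    exact Real.log_le_log (Real.rpow_pos_of_pos hq0 _) hyge
  have hylog2 : Real.log y ≤ Real.log q / 4 := by
    have e1 : Real.log y ≤ η / 3 * Real.log q := by
      rw [← Real.log_rpow hq0]
      exact Real.log_le_log hy0 hyle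
    nlinarith
  have hRq : R ≤ q := by
    rw [hR]
    calc (q : ℝ) ^ (1 / 2 + κ / 2) ≤ (q : ℝ) ^ (1 : ℝ) :=
          Real.rpow_le_rpow_of_exponent_le hq1 (by linarith)
      _ = q := Real.rpow_one _
  have hR0 : 0 ≤ R := Real.rpow_nonneg hq0.le _
  have hom : ∀ b, 0 ≤ om b := fun b => (hLS.1 b).1
  have homs : ∑ b, om b ≤ Φ := by
    calc ∑ b, om b ≤ ∑ _b : β, (1 : ℝ) := Finset.sum_le_sum fun b _ => (hLS.1 b).2
      _ = Fintype.card β := by simp
      _ ≤ Φ := hcard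
  have hg : ∀ b, p.GC (gmu (μ b)) := fun b => hcl' _ (hμ b)
  have hδq : (q : ℝ) ^ (-δ) ≤ (q : ℝ) ^ (-p.δ) := by
    apply Real.rpow_le_rpow_of_exponent_le hq1
    rw [hpδ]
    exact neg_le_neg (min_le_left _ _)
  have hEE0 : ∀ f : M.Om → ℂ, 0 ≤ M.EE fun w => ‖f w‖ ^ 2 := fun f => by
    unfold Model.EE
    exact integral_nonneg fun w => by positivity
  have hfin : ∀ (X : ℝ≥0∞) (C : ℝ), C ≤ max C₁ C₂ → X ≤ ENNReal.ofReal (C * Φ) →
      X ≤ ENNReal.ofReal (max C₁ C₂ * C₀ * (q : ℝ) ^ (n : ℝ)) := by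
    intro X C hC hX
    refine hX.trans (ENNReal.ofReal_le_ofReal ?_)
    rw [mul_assoc]
    exact mul_le_mul_of_nonneg_right hC hΦ0
  constructor
  · -- natural numbers
    apply hfin _ C₁ (le_max_left _ _)
    refine h1 q hqq1 (by omega) β om μ lam (fun b => bk (lam b) y) 1 y
      (fun b => RG p.N (Real.log q) R (lam b) (bk (lam b) y) 1 y) ℕ (Icc 1 ⌊R⌋₊)
      (fun r => (r : ℝ)) (fun r => M.EE fun w => ‖vA (fun m => M.X m w) y 0 r‖ ^ 2) Φ
      (∑ b, me3B R (lam b) (bk (lam b) y) 1 y) Nat.cast_injective hom homs hg hl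
      (fun r _ => hEE0 _) ?_ ?_ ?_ ?_ ?_ ?_
    · apply hA M q y hq3 hy2 hylog1 hylog2
      intro r hr
      rw [Finset.mem_Icc] at hr
      refine ⟨hr.1, ?_⟩
      have e1 : (r : ℝ) ≤ q := by
        calc (r : ℝ) ≤ (⌊R⌋₊ : ℝ) := by exact_mod_cast hr.2
          _ ≤ R := Nat.floor_le hR0
          _ ≤ q := hRq
      exact_mod_cast e1
    · intro b
      exact me3_RG_cont _ _ _ hN1 _ _ _ _
    · intro b z
      refine (me3_RG_bd _ _ _ hN1 _ _ _ _ z).trans ?_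
      exact Finset.single_le_sum (f := fun b => me3B R (lam b) (bk (lam b) y) 1 y)
        (fun b _ => Finset.sum_nonneg fun k _ => Finset.sum_nonneg fun m _ => norm_nonneg _)
        (Finset.mem_univ b)
    · intro b z
      exact (h3 q hqq3 (lam b) (bk (lam b) y) (hl b) (fun k hk => me3_bk _ (hl b) y k hk) y hyle 1
        (Or.inl rfl) z).1
    · intro b z hz
      exact (h3 q hqq3 (lam b) (bk (lam b) y) (hl b) (fun k hk => me3_bk _ (hl b) y k hk) y hyle 1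
        (Or.inl rfl) z).2 hz
    · intro z
      have key := ls_A (by omega : 1 ≤ n) hM M hqp lam om hC₀ hη hηκ hκ' hLS hyle (by omega)
        (fun r => SGD.gz p.N (z + Real.log r - Real.log q / 2)) (fun r => me3_gz_le hN1 _)
      have e1 : ∀ b, RG p.N (Real.log q) R (lam b) (bk (lam b) y) 1 y z =
          ∑ k ∈ Icc 1 y, ∑ m ∈ Icc 1 ⌊(q : ℝ) ^ (1 / 2 + κ / 2) / k⌋₊,
            SGD.gz p.N (z + Real.log ((m * k : ℕ) : ℝ) - Real.log q / 2) * rt m * rt k *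
              lam b m * bk (lam b) y k := by
        intro b
        unfold RG
        refine Finset.sum_congr rfl fun k hk => ?_
        have hk1 : (0 : ℝ) < k := by exact_mod_cast (Finset.mem_Icc.mp hk).1
        have e2 : R * (k : ℝ) ^ (-(1 : ℝ)) = (q : ℝ) ^ (1 / 2 + κ / 2) / k := by
          rw [Real.rpow_neg_one, div_eq_mul_inv]
        rw [e2]
        refine Finset.sum_congr rfl fun m hm => ?_
        have hm1 : (0 : ℝ) < m := by exact_mod_cast (Finset.mem_Icc.mp hm).1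
        have e3 : z - Real.log q / 2 + Real.log m + 1 * Real.log k =
            z + Real.log ((m * k : ℕ) : ℝ) - Real.log q / 2 := by
          rw [Nat.cast_mul, Real.log_mul hm1.ne' hk1.ne']
          ring
        rw [e3]
      simp_rw [e1]
      refine key.trans ?_
      rw [← hΦ]
      apply mul_le_mul_of_nonneg_left _ hΦ0
      apply add_le_add _ hδq
      apply le_of_eq
      refine Finset.sum_congr rfl fun r _ => ?_
      rw [me3_gz_sq]
  · -- rational numbers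
    apply hfin _ C₂ (le_max_right _ _)
    refine h2 q hqq2 (by omega) β om μ lam (fun b => cj (bk (lam b) y)) (-1) y
      (fun b => RG p.N (Real.log q) R (lam b) (cj (bk (lam b) y)) (-1) y) ℚ (QB R y)
      (fun r => (r : ℝ)) (fun r => M.EE fun w => ‖vB (fun m => M.X m w) y r‖ ^ 2) Φ
      (∑ b, me3B R (lam b) (cj (bk (lam b) y)) (-1) y) Rat.cast_injective hom homs hg hl
      (fun r _ => hEE0 _) ?_ ?_ ?_ ?_ ?_ ?_
    · apply hB M q y hq3 hy2 hylog1 hylog2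
      intro r hr
      unfold QB at hr
      rw [Finset.mem_biUnion] at hr
      obtain ⟨k, hk, hr⟩ := hr
      rw [Finset.mem_image] at hr
      obtain ⟨m, hm, rfl⟩ := hr
      rw [Finset.mem_Icc] at hk hm
      have hk0 : (0 : ℝ) < k := by exact_mod_cast hk.1
      have hk0' : (0 : ℚ) < k := by exact_mod_cast hk.1
      have hm0 : (0 : ℚ) < m := by exact_mod_cast hm.1
      refine ⟨div_pos hm0 hk0', ?_⟩
      have e1 : (m : ℝ) / k ≤ q := by
        rw [div_le_iff₀ hk0]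
        calc (m : ℝ) ≤ (⌊R * k⌋₊ : ℝ) := by exact_mod_cast hm.2
          _ ≤ R * k := Nat.floor_le (by positivity)
          _ ≤ q * k := mul_le_mul_of_nonneg_right hRq hk0.le
      have e2 : (((m : ℚ) / k : ℚ) : ℝ) ≤ ((q : ℚ) : ℝ) := by
        push_cast
        exact e1
      exact Rat.cast_le.mp e2
    · intro b
      exact me3_RG_cont _ _ _ hN1 _ _ _ _
    · intro b z
      refine (me3_RG_bd _ _ _ hN1 _ _ _ _ z).trans ?_
      exact Finset.single_le_sum (f := fun b => me3B R (lam b) (cj (bk (lam b) y)) (-1) y)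
        (fun b _ => Finset.sum_nonneg fun k _ => Finset.sum_nonneg fun m _ => norm_nonneg _)
        (Finset.mem_univ b)
    · intro b z
      exact (h3 q hqq3 (lam b) (cj (bk (lam b) y)) (hl b) (fun k hk => by
        unfold cj
        rw [RCLike.norm_conj]
        exact me3_bk _ (hl b) y k hk) y hyle (-1) (Or.inr rfl) z).1
    · intro b z hz
      exact (h3 q hqq3 (lam b) (cj (bk (lam b) y)) (hl b) (fun k hk => by
        unfold cj
        rw [RCLike.norm_conj]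
        exact me3_bk _ (hl b) y k hk) y hyle (-1) (Or.inr rfl) z).2 hz
    · intro z
      have key := ls_B (by omega : 1 ≤ n) hM M hqp lam om hC₀ hη hηκ hκ' hLS hyle (by omega)
        (fun r => SGD.gz p.N (z + Real.log (r : ℝ) - Real.log q / 2)) (fun r => me3_gz_le hN1 _)
      have e1 : ∀ b, RG p.N (Real.log q) R (lam b) (cj (bk (lam b) y)) (-1) y z =
          ∑ k ∈ Icc 1 y, ∑ m ∈ Icc 1 ⌊(q : ℝ) ^ (1 / 2 + κ / 2) * k⌋₊,
            SGD.gz p.N (z + Real.log (((m : ℚ) / k : ℚ) : ℝ) - Real.log q / 2) * rt m * rt k *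
              lam b m * (starRingEnd ℂ) (bk (lam b) y k) := by
        intro b
        unfold RG
        refine Finset.sum_congr rfl fun k hk => ?_
        have hk1 : (0 : ℝ) < k := by exact_mod_cast (Finset.mem_Icc.mp hk).1
        have e2 : R * (k : ℝ) ^ (-(-1 : ℝ)) = (q : ℝ) ^ (1 / 2 + κ / 2) * k := by
          rw [neg_neg, Real.rpow_one]
        rw [e2]
        refine Finset.sum_congr rfl fun m hm => ?_
        have hm1 : (0 : ℝ) < m := by exact_mod_cast (Finset.mem_Icc.mp hm).1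
        have e3 : z - Real.log q / 2 + Real.log m + (-1) * Real.log k =
            z + Real.log (((m : ℚ) / k : ℚ) : ℝ) - Real.log q / 2 := by
          push_cast
          rw [Real.log_div hm1.ne' hk1.ne']
          ring
        rw [e3]
        rfl
      simp_rw [e1]
      refine key.trans ?_
      rw [← hΦ]
      apply mul_le_mul_of_nonneg_left _ hΦ0
      apply add_le_add _ hδq
      apply le_of_eq
      refine Finset.sum_congr rfl fun r _ => ?_
      rw [me3_gz_sq]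

end

end Pool.Agent.DN

namespace Pool.Agent.DN

theorem MG_l2 : type_of% @MG_l2_pr := @MG_l2_pr

end Pool.Agent.DN
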