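import Pool.Agent.Lib_helper61.DNF.ME3

/-!
# DN, block ME4: weighted mean squares of `hd`
-/

set_option autoImplicit false

namespace Pool.Agent.DN

open MeasureTheory Complex Finset
open Pool.Agent.SGN Pool.Agent.BX
open Pool.Agent.QG (ew)
open scoped ENNReal

noncomputable section

theorem me4_ioi {M t a : ℝ} (hM : 0 ≤ M) (ht : 1 ≤ t) :
    ∫⁻ v in Set.Ioi a, ENNReal.ofReal (M * Real.exp (-(t * v))) ≤
      ENNReal.ofReal (M * Real.exp (-(t * a))) := by
  have h1 : (fun v : ℝ => M * Real.exp (-(t * v))) = fun v => M * Real.exp (-t * v) := by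
    funext v
    congr 2
    ring
  have hint : IntegrableOn (fun v : ℝ => M * Real.exp (-(t * v))) (Set.Ioi a) := by
    rw [h1]
    exact (integrableOn_exp_mul_Ioi (by linarith) a).const_mul M
  rw [← ofReal_integral_eq_lintegral_ofReal hint
    (Filter.Eventually.of_forall fun v => by positivity)]
  apply ENNReal.ofReal_le_ofReal
  rw [h1, integral_const_mul, integral_exp_mul_Ioi (by linarith) a]
  apply mul_le_mul_of_nonneg_left _ hM
  rw [show -Real.exp (-t * a) / -t = Real.exp (-(t * a)) / t by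
    rw [neg_div_neg_eq]; congr 2; ring]
  exact div_le_self (Real.exp_pos _).le ht

theorem me4_iic {M t : ℝ} (hM : 0 ≤ M) (ht : 0 < t) :
    ∫⁻ v in Set.Iic (0 : ℝ), ENNReal.ofReal (M * Real.exp (t * v)) = ENNReal.ofReal (M / t) := by
  have hint : IntegrableOn (fun v : ℝ => M * Real.exp (t * v)) (Set.Iic 0) :=
    (integrableOn_exp_mul_Iic ht 0).const_mul M
  rw [← ofReal_integral_eq_lintegral_ofReal hint
    (Filter.Eventually.of_forall fun v => by positivity)]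
  rw [integral_const_mul, integral_exp_mul_Iic ht 0]
  simp [div_eq_mul_inv]

theorem me4_subst (g : ℝ → ℝ≥0∞) (L : ℝ) :
    ∫⁻ v in Set.Iic (-(L / 2)), g (-L - v) = ∫⁻ w in Set.Ioi (-(L / 2)), g w := by
  have h1 := (Measure.measurePreserving_sub_left volume (-L)).setLIntegral_comp_preimage_emb
    (MeasurableEquiv.subLeft (-L)).measurableEmbedding g (Set.Ici (-(L / 2)))
  have h2 : (fun v : ℝ => -L - v) ⁻¹' Set.Ici (-(L / 2)) = Set.Iic (-(L / 2)) := by
    ext v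
    simp only [Set.mem_preimage, Set.mem_Ici, Set.mem_Iic]
    constructor <;> intro h <;> linarith
  rw [h2] at h1
  rw [h1]
  exact setLIntegral_congr Ioi_ae_eq_Ici.symm

theorem me4_fe {n : ℕ} {μ : Fin n → ℂ} {lam : ℕ → ℂ} {q : ℕ} {e : ℂ} (he : FEq q μ lam e)
    (c : ℕ → ℂ) (y : ℕ) (v : ℝ) :
    ‖MG μ lam c 1 y v‖ = ‖MG μ lam (cj c) (-1) y (-Real.log q - v)‖ := by
  have h1 : MG μ lam c 1 y v = e * (starRingEnd ℂ) (MG μ lam (cj c) (-1) y (-Real.log q - v)) := by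
    unfold MG
    rw [map_sum, Finset.mul_sum]
    apply Finset.sum_congr rfl
    intro k _
    rw [he.2 (v + 1 * Real.log k), map_mul, map_mul]
    have h2 : -(v + 1 * Real.log (k : ℝ)) - Real.log q = -Real.log q - v + -1 * Real.log k := by
      ring
    have h3 : (starRingEnd ℂ) (rt k) = rt k := by
      unfold rt
      exact Complex.conj_ofReal _
    have h4 : (starRingEnd ℂ) (cj c k) = c k := by
      unfold cj
      exact Complex.conj_conj _
    rw [h2, h3, h4]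
    ring
  rw [h1, norm_mul, he.1, one_mul, RCLike.norm_conj]

theorem me4_sq {a b : ℂ} : ‖a - b‖ ^ 2 ≤ 2 * ‖a‖ ^ 2 + 2 * ‖b‖ ^ 2 := by
  have h1 : ‖a - b‖ ≤ ‖a‖ + ‖b‖ := norm_sub_le a b
  have h2 : ‖a - b‖ ^ 2 ≤ (‖a‖ + ‖b‖) ^ 2 := pow_le_pow_left₀ (norm_nonneg _) h1 2
  nlinarith [sq_nonneg (‖a‖ - ‖b‖)]

/-- the weighted mean square from the mean squares on three regions -/
theorem me4_main {β : Type} [Fintype β] (om : β → ℝ) (hom : ∀ b, 0 ≤ om b ∧ om b ≤ 1)
    (H G G' gm : β → ℝ → ℂ) (s L ly : ℝ) (hs : 0 ≤ s) (hly : 0 ≤ ly) (hlL : ly ≤ 2 * L)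
    (hint : ∀ b, Integrable fun v => ‖H b v‖ ^ 2 * Real.exp (2 * s * v))
    (hH : ∀ b v, H b v = G b v - gm b v)
    (hG : ∀ b v, ‖G b v‖ = ‖G' b (-L - v)‖)
    (M₁ Cg c₀ t : ℝ) (hM₁ : 0 ≤ M₁) (hc₀ : 0 < c₀) (_hCg : 0 ≤ Cg) (ht : 1 ≤ t)
    (h1 : ∀ b v, -(ly / 4) < v → ‖H b v‖ ^ 2 * Real.exp (2 * s * v) ≤ M₁ * Real.exp (-(t * v)))
    (h2 : ∀ b v, ‖gm b v‖ ≤ Cg * Real.exp (c₀ * v))
    (X : ℝ) (hX : 0 ≤ X)
    (h3 : ∫⁻ x in Set.Ioi (-(L / 2)), ENNReal.ofReal (∑ b, om b * ‖G b x‖ ^ 2) ≤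
      ENNReal.ofReal X)
    (h4 : ∫⁻ x in Set.Ioi (-(L / 2)), ENNReal.ofReal (∑ b, om b * ‖G' b x‖ ^ 2) ≤
      ENNReal.ofReal X) :
    ∑ b, om b * (∫ v, ‖H b v‖ ^ 2 * Real.exp (2 * s * v)) ≤
      (Fintype.card β : ℝ) * M₁ * Real.exp (t * ly / 4) +
        Real.exp (-(s * ly / 2)) * (4 * X + 2 * (Fintype.card β : ℝ) * Cg ^ 2 / c₀) := by
  set S : ℝ → ℝ := fun v => ∑ b, om b * (‖H b v‖ ^ 2 * Real.exp (2 * s * v)) with hS
  have hSint : Integrable S := by
    apply integrable_finsetSum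
    intro b _
    exact (hint b).const_mul _
  have hS0 : ∀ v, 0 ≤ S v := fun v => Finset.sum_nonneg fun b _ => by
    have := (hom b).1
    positivity
  have e1 : ∑ b, om b * (∫ v, ‖H b v‖ ^ 2 * Real.exp (2 * s * v)) = ∫ v, S v := by
    rw [hS, integral_finsetSum _ (fun b _ => (hint b).const_mul _)]
    apply Finset.sum_congr rfl
    intro b _
    rw [integral_const_mul]
  rw [e1]
  have hR0 : 0 ≤ (Fintype.card β : ℝ) * M₁ * Real.exp (t * ly / 4) +
        Real.exp (-(s * ly / 2)) * (4 * X + 2 * (Fintype.card β : ℝ) * Cg ^ 2 / c₀) := by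
    positivity
  rw [← ENNReal.ofReal_le_ofReal_iff hR0, ofReal_integral_eq_lintegral_ofReal hSint
    (Filter.Eventually.of_forall hS0)]
  -- the three regions
  have hcard : ∑ b : β, (1 : ℝ) = (Fintype.card β : ℝ) := by simp
  have p1 : ∫⁻ v in Set.Ioi (-(ly / 4)), ENNReal.ofReal (S v) ≤
      ENNReal.ofReal ((Fintype.card β : ℝ) * M₁ * Real.exp (t * ly / 4)) := by
    calc ∫⁻ v in Set.Ioi (-(ly / 4)), ENNReal.ofReal (S v)
        ≤ ∫⁻ v in Set.Ioi (-(ly / 4)),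
          ENNReal.ofReal ((Fintype.card β : ℝ) * M₁ * Real.exp (-(t * v))) := by
          apply setLIntegral_mono' measurableSet_Ioi
          intro v hv
          apply ENNReal.ofReal_le_ofReal
          calc S v ≤ ∑ _b : β, M₁ * Real.exp (-(t * v)) := by
                apply Finset.sum_le_sum
                intro b _
                have h5 := h1 b v hv
                have h6 : 0 ≤ ‖H b v‖ ^ 2 * Real.exp (2 * s * v) := by positivity
                calc om b * (‖H b v‖ ^ 2 * Real.exp (2 * s * v))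
                    ≤ 1 * (‖H b v‖ ^ 2 * Real.exp (2 * s * v)) :=
                      mul_le_mul_of_nonneg_right (hom b).2 h6
                  _ ≤ _ := by rw [one_mul]; exact h5
            _ = (Fintype.card β : ℝ) * M₁ * Real.exp (-(t * v)) := by
                rw [Finset.sum_const, nsmul_eq_mul, Finset.card_univ, mul_assoc]
      _ ≤ ENNReal.ofReal ((Fintype.card β : ℝ) * M₁ * Real.exp (-(t * -(ly / 4)))) :=
          me4_ioi (by positivity) ht
      _ = _ := by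
          congr 3
          ring
  have hlL2 : 0 ≤ L := by linarith
  -- common estimates
  have q1 : ∀ v, v ≤ -(ly / 4) → Real.exp (2 * s * v) ≤ Real.exp (-(s * ly / 2)) := by
    intro v hv
    apply Real.exp_le_exp.2
    have := mul_le_mul_of_nonneg_left hv (by linarith : 0 ≤ 2 * s)
    linarith
  have q2 : ∀ v, v ≤ -(ly / 4) → S v ≤ 2 * Real.exp (-(s * ly / 2)) * (∑ b, om b * ‖G b v‖ ^ 2) +
      2 * Real.exp (-(s * ly / 2)) * ((Fintype.card β : ℝ) * Cg ^ 2) * Real.exp (2 * c₀ * v) := by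
    intro v hv
    have h5 : ∀ b, om b * (‖H b v‖ ^ 2 * Real.exp (2 * s * v)) ≤
        2 * Real.exp (-(s * ly / 2)) * (om b * ‖G b v‖ ^ 2) +
        2 * Real.exp (-(s * ly / 2)) * (Cg ^ 2) * Real.exp (2 * c₀ * v) := by
      intro b
      have h6 : ‖gm b v‖ ^ 2 ≤ Cg ^ 2 * Real.exp (2 * c₀ * v) := by
        have := pow_le_pow_left₀ (norm_nonneg _) (h2 b v) 2
        rw [mul_pow, ← Real.exp_nat_mul] at this
        refine this.trans (le_of_eq ?_)
        congr 2
        push_cast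
        ring
      have h7 : ‖H b v‖ ^ 2 ≤ 2 * ‖G b v‖ ^ 2 + 2 * (Cg ^ 2 * Real.exp (2 * c₀ * v)) := by
        rw [hH]
        have := me4_sq (a := G b v) (b := gm b v)
        linarith
      have h8 := q1 v hv
      have h9 : 0 ≤ Real.exp (-(s * ly / 2)) := (Real.exp_pos _).le
      calc om b * (‖H b v‖ ^ 2 * Real.exp (2 * s * v))
          ≤ om b * ((2 * ‖G b v‖ ^ 2 + 2 * (Cg ^ 2 * Real.exp (2 * c₀ * v))) *
            Real.exp (-(s * ly / 2))) := by
            apply mul_le_mul_of_nonneg_left _ (hom b).1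
            exact mul_le_mul h7 h8 (Real.exp_pos _).le (by positivity)
        _ = 2 * Real.exp (-(s * ly / 2)) * (om b * ‖G b v‖ ^ 2) +
            om b * (2 * Real.exp (-(s * ly / 2)) * (Cg ^ 2) * Real.exp (2 * c₀ * v)) := by ring
        _ ≤ _ := by
            have h10 : 0 ≤ 2 * Real.exp (-(s * ly / 2)) * (Cg ^ 2) * Real.exp (2 * c₀ * v) := by
              positivity
            have h11 := mul_le_mul_of_nonneg_right (hom b).2 h10
            linarith
    calc S v ≤ ∑ b, (2 * Real.exp (-(s * ly / 2)) * (om b * ‖G b v‖ ^ 2) +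
        2 * Real.exp (-(s * ly / 2)) * (Cg ^ 2) * Real.exp (2 * c₀ * v)) :=
          Finset.sum_le_sum fun b _ => h5 b
      _ = _ := by
          rw [Finset.sum_add_distrib, ← Finset.mul_sum, Finset.sum_const, nsmul_eq_mul,
            Finset.card_univ]
          ring
  have q3 : ∀ T : Set ℝ, MeasurableSet T → T ⊆ Set.Iic (-(ly / 4)) →
      (∫⁻ x in T, ENNReal.ofReal (∑ b, om b * ‖G b x‖ ^ 2) ≤ ENNReal.ofReal X) →
      ∫⁻ v in T, ENNReal.ofReal (S v) ≤ ENNReal.ofReal (Real.exp (-(s * ly / 2)) *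
        (2 * X + (Fintype.card β : ℝ) * Cg ^ 2 / c₀)) := by
    intro T hT hT1 hT2
    have hT0 : T ⊆ Set.Iic 0 := fun v hv => by
      have := hT1 hv
      simp only [Set.mem_Iic] at this ⊢
      linarith
    calc ∫⁻ v in T, ENNReal.ofReal (S v)
        ≤ ∫⁻ v in T, (ENNReal.ofReal (2 * Real.exp (-(s * ly / 2))) *
            ENNReal.ofReal (∑ b, om b * ‖G b v‖ ^ 2) +
          ENNReal.ofReal (2 * Real.exp (-(s * ly / 2)) * ((Fintype.card β : ℝ) * Cg ^ 2) *
            Real.exp (2 * c₀ * v))) := by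
          apply setLIntegral_mono' hT
          intro v hv
          have h5 : 0 ≤ ∑ b, om b * ‖G b v‖ ^ 2 := Finset.sum_nonneg fun b _ => by
            have := (hom b).1
            positivity
          rw [← ENNReal.ofReal_mul (by positivity), ← ENNReal.ofReal_add (by positivity)
            (by positivity)]
          exact ENNReal.ofReal_le_ofReal (q2 v (hT1 hv))
      _ = ENNReal.ofReal (2 * Real.exp (-(s * ly / 2))) *
            (∫⁻ v in T, ENNReal.ofReal (∑ b, om b * ‖G b v‖ ^ 2)) +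
          ∫⁻ v in T, ENNReal.ofReal (2 * Real.exp (-(s * ly / 2)) *
            ((Fintype.card β : ℝ) * Cg ^ 2) * Real.exp (2 * c₀ * v)) := by
          rw [lintegral_add_right _ (by fun_prop), lintegral_const_mul' _ _ ENNReal.ofReal_ne_top]
      _ ≤ ENNReal.ofReal (2 * Real.exp (-(s * ly / 2))) * ENNReal.ofReal X +
          ∫⁻ v in Set.Iic (0 : ℝ), ENNReal.ofReal (2 * Real.exp (-(s * ly / 2)) *
            ((Fintype.card β : ℝ) * Cg ^ 2) * Real.exp (2 * c₀ * v)) :=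
          add_le_add (mul_le_mul' le_rfl hT2) (lintegral_mono_set hT0)
      _ = ENNReal.ofReal (Real.exp (-(s * ly / 2)) *
        (2 * X + (Fintype.card β : ℝ) * Cg ^ 2 / c₀)) := by
          rw [me4_iic (by positivity) (by positivity), ← ENNReal.ofReal_mul (by positivity),
            ← ENNReal.ofReal_add (by positivity) (by positivity)]
          congr 1
          field_simp
  have p2 : ∫⁻ v in Set.Ioc (-(L / 2)) (-(ly / 4)), ENNReal.ofReal (S v) ≤
      ENNReal.ofReal (Real.exp (-(s * ly / 2)) *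
        (2 * X + (Fintype.card β : ℝ) * Cg ^ 2 / c₀)) :=
    q3 _ measurableSet_Ioc (fun v hv => hv.2)
      ((lintegral_mono_set fun v hv => hv.1).trans h3)
  have p3 : ∫⁻ v in Set.Iic (-(L / 2)), ENNReal.ofReal (S v) ≤
      ENNReal.ofReal (Real.exp (-(s * ly / 2)) *
        (2 * X + (Fintype.card β : ℝ) * Cg ^ 2 / c₀)) := by
    apply q3 _ measurableSet_Iic
    · intro v hv
      simp only [Set.mem_Iic] at hv ⊢
      linarith
    · have h5 := me4_subst (fun w => ENNReal.ofReal (∑ b, om b * ‖G' b w‖ ^ 2)) L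
      have h6 : ∀ v, (∑ b, om b * ‖G b v‖ ^ 2) = ∑ b, om b * ‖G' b (-L - v)‖ ^ 2 := by
        intro v
        apply Finset.sum_congr rfl
        intro b _
        rw [hG b v]
      simp only [h6]
      rw [h5]
      exact h4
  have hcov : (Set.univ : Set ℝ) ⊆ Set.Ioi (-(ly / 4)) ∪ (Set.Ioc (-(L / 2)) (-(ly / 4)) ∪
      Set.Iic (-(L / 2))) := by
    intro v _
    simp only [Set.mem_union, Set.mem_Ioi, Set.mem_Ioc, Set.mem_Iic]
    by_cases h5 : -(ly / 4) < v
    · exact Or.inl h5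
    · right
      by_cases h6 : -(L / 2) < v
      · exact Or.inl ⟨h6, not_lt.1 h5⟩
      · exact Or.inr (not_lt.1 h6)
  calc ∫⁻ v, ENNReal.ofReal (S v) = ∫⁻ v in Set.univ, ENNReal.ofReal (S v) := by
        rw [setLIntegral_univ]
    _ ≤ ∫⁻ v in Set.Ioi (-(ly / 4)) ∪ (Set.Ioc (-(L / 2)) (-(ly / 4)) ∪
      Set.Iic (-(L / 2))), ENNReal.ofReal (S v) := lintegral_mono_set hcov
    _ ≤ (∫⁻ v in Set.Ioi (-(ly / 4)), ENNReal.ofReal (S v)) +
        ((∫⁻ v in Set.Ioc (-(L / 2)) (-(ly / 4)), ENNReal.ofReal (S v)) +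
          ∫⁻ v in Set.Iic (-(L / 2)), ENNReal.ofReal (S v)) :=
        (lintegral_union_le _ _ _).trans (add_le_add le_rfl (lintegral_union_le _ _ _))
    _ ≤ ENNReal.ofReal ((Fintype.card β : ℝ) * M₁ * Real.exp (t * ly / 4)) +
        (ENNReal.ofReal (Real.exp (-(s * ly / 2)) *
          (2 * X + (Fintype.card β : ℝ) * Cg ^ 2 / c₀)) +
          ENNReal.ofReal (Real.exp (-(s * ly / 2)) *
          (2 * X + (Fintype.card β : ℝ) * Cg ^ 2 / c₀))) :=
        add_le_add p1 (add_le_add p2 p3)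
    _ = _ := by
        rw [← ENNReal.ofReal_add (by positivity) (by positivity),
          ← ENNReal.ofReal_add (by positivity) (by positivity)]
        congr 1
        ring

/-- ME4: the weighted mean squares of `hd` (regions `v > -log y / 4`, `-log q / 2 ≤ v`, and
`v < - log q / 2` with the functional equation) -/
theorem hd_l2_pr {n : ℕ} (hn : 2 ≤ n) (K : Set (Fin n → ℂ)) (hK : Kok K) (hM : HM n)
    (C₀ κ η δ σm : ℝ) (hC₀ : 0 < C₀) (hκ : 0 < κ) (hη : 0 < η) (hηκ : η < κ) (hκ' : κ < 1 / 4)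
    (hδ : 0 < δ) : ∃ (c C : ℝ) (q₀ : ℕ), 0 < c ∧ 0 ≤ C ∧ ∀ q : ℕ, q.Prime → q₀ ≤ q →
      ∀ (β : Type) [Fintype β] (lam : β → ℕ → ℂ) (μ : β → Fin n → ℂ) (om : β → ℝ)
        (e : β → ℂ), (∀ b, μ b ∈ K) → (∀ b, Triv n (lam b)) →
      (∀ b, FEq q (μ b) (lam b) (e b)) → (Fintype.card β : ℝ) ≤ C₀ * (q : ℝ) ^ (n : ℝ) →
      LS n q lam om C₀ κ η δ → ∀ σ : ℝ, 1 / 2 + 1 / Real.log q ≤ σ → σ ≤ σm →
        ∑ b, om b * (∫ v, ‖hd (μ b) (lam b) ⌊(q : ℝ) ^ (η / 3)⌋₊ v‖ ^ 2 *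
          Real.exp (2 * (σ - 1 / 2) * v)) ≤
          C * (q : ℝ) ^ (n : ℝ) * Real.exp (-(c * (σ - 1 / 2) * Real.log q)) := by
  obtain ⟨C1, q1, hC1, h1⟩ := MG_l2 hn K hK hM C₀ κ η δ hC₀ hκ hη hηκ hκ' hδ
  have hn0 : (0 : ℝ) ≤ (n : ℝ) := Nat.cast_nonneg n
  set B : ℝ := 2 * ((n : ℝ) + 5) + |σm| + 1 with hB
  obtain ⟨C2, hC2, h2⟩ := hd_bd (by omega : 1 ≤ n) K hK B (by
    have := abs_nonneg σm
    linarith)
  obtain ⟨c₀, hc₀, h3⟩ := gmu_bd K hK
  obtain ⟨C3, hC3, h3⟩ := h3 0 le_rfl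
  refine ⟨η / 12, C₀ * C2 ^ 2 + 4 * C1 + 2 * C₀ * C3 ^ 2 / c₀,
    max q1 (max 3 ⌈Real.exp (6 * Real.log 2 / η)⌉₊), by positivity, by positivity, ?_⟩
  intro q hq hq0 β _ lam μ om e hμ hl he hcard hLS σ hσ1 hσ2
  have hqq1 : q1 ≤ q := le_trans (le_max_left _ _) hq0
  have hqq2 : 3 ≤ q := le_trans (le_trans (le_max_left _ _) (le_max_right _ _)) hq0
  have hqq3 : ⌈Real.exp (6 * Real.log 2 / η)⌉₊ ≤ q :=
    le_trans (le_trans (le_max_right _ _) (le_max_right _ _)) hq0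
  have hqr : (3 : ℝ) ≤ (q : ℝ) := by exact_mod_cast hqq2
  have hqpos : (0 : ℝ) < (q : ℝ) := by linarith
  set L : ℝ := Real.log q with hL
  have hL0 : 0 < L := Real.log_pos (by linarith)
  have hLbig : 6 * Real.log 2 / η ≤ L := by
    rw [hL, Real.le_log_iff_exp_le hqpos]
    exact Nat.ceil_le.1 hqq3
  have hlog2 : 0 < Real.log 2 := Real.log_pos (by norm_num)
  have hLbig' : Real.log 2 ≤ η / 6 * L := by
    rw [div_le_iff₀ hη] at hLbig
    linarith
  set Y : ℝ := (q : ℝ) ^ (η / 3) with hY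
  have hYe : Y = Real.exp (η / 3 * L) := by
    rw [hY, Real.rpow_def_of_pos hqpos, mul_comm]
  have hY4 : 4 ≤ Y := by
    rw [hYe]
    have h5 : Real.log 4 ≤ η / 3 * L := by
      have : Real.log 4 = 2 * Real.log 2 := by
        rw [show (4 : ℝ) = 2 ^ 2 by norm_num, Real.log_pow]
        push_cast
        ring
      rw [this]
      linarith
    calc (4 : ℝ) = Real.exp (Real.log 4) := (Real.exp_log (by norm_num)).symm
      _ ≤ _ := Real.exp_le_exp.2 h5
  set y : ℕ := ⌊Y⌋₊ with hy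
  have hyY : (y : ℝ) ≤ Y := Nat.floor_le (by linarith)
  have hyY' : Y < (y : ℝ) + 1 := Nat.lt_floor_add_one Y
  have hy2 : 2 ≤ y := by
    have : (4 : ℕ) ≤ y := Nat.le_floor (by exact_mod_cast hY4)
    omega
  have hyr : (2 : ℝ) ≤ (y : ℝ) := by exact_mod_cast hy2
  have hy0 : (0 : ℝ) < (y : ℝ) := by linarith
  set ly : ℝ := Real.log y with hly
  have hly0 : 0 ≤ ly := Real.log_nonneg (by linarith)
  have hlyL : ly ≤ η / 3 * L := by
    rw [hly, Real.log_le_iff_le_exp hy0, ← hYe]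
    exact hyY
  have hlyL' : η / 6 * L ≤ ly := by
    have h5 : Y / 2 ≤ (y : ℝ) := by linarith
    have h6 := Real.log_le_log (by linarith) h5
    rw [Real.log_div (by linarith) (by norm_num), hYe, Real.log_exp] at h6
    linarith
  have hly2 : ly ≤ 2 * L := by
    have : η / 3 * L ≤ 2 * L := mul_le_mul_of_nonneg_right (by linarith) hL0.le
    linarith
  set s : ℝ := σ - 1 / 2 with hs
  have hs0 : 0 ≤ s := by
    have : 0 < 1 / L := by positivity
    linarith
  have hsm : s ≤ |σm| := by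
    have := le_abs_self σm
    linarith
  have hmain := me4_main om hLS.1 (fun b => hd (μ b) (lam b) y)
    (fun b => MG (μ b) (lam b) (bk (lam b) y) 1 y)
    (fun b => MG (μ b) (lam b) (cj (bk (lam b) y)) (-1) y) (fun b => gmu (μ b)) s L ly hs0 hly0
    hly2 (fun b => (hd_int (by omega : 1 ≤ n) (μ b) (hK.2 _ (hμ b)) (lam b) (hl b) q
      (by omega) (e b) (he b) y).2 σ (by linarith)) (fun b v => rfl)
    (fun b v => me4_fe (he b) (bk (lam b) y) y v)
    (C2 ^ 2 * (y : ℝ) ^ ((n : ℝ) + 5 - B)) C3 c₀ (2 * B - 2 * s)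
    (by positivity) hc₀ hC3 (by
      have := abs_nonneg σm
      linarith) (by
      intro b v _
      have h5 := h2 (μ b) (hμ b) (lam b) (hl b) y hy2 v
      have h6 := pow_le_pow_left₀ (norm_nonneg _) h5 2
      have h7 : ((y : ℝ) ^ (((n : ℝ) + 5 - B) / 2)) ^ 2 = (y : ℝ) ^ ((n : ℝ) + 5 - B) := by
        rw [← Real.rpow_natCast ((y : ℝ) ^ (((n : ℝ) + 5 - B) / 2)) 2, ← Real.rpow_mul hy0.le]
        congr 1
        push_cast
        ring
      have h8 : Real.exp (-(B * v)) ^ 2 * Real.exp (2 * s * v) =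
          Real.exp (-((2 * B - 2 * s) * v)) := by
        rw [← Real.exp_nat_mul, ← Real.exp_add]
        congr 1
        push_cast
        ring
      calc ‖hd (μ b) (lam b) y v‖ ^ 2 * Real.exp (2 * s * v)
          ≤ (C2 * (y : ℝ) ^ (((n : ℝ) + 5 - B) / 2) * Real.exp (-(B * v))) ^ 2 *
            Real.exp (2 * s * v) := mul_le_mul_of_nonneg_right h6 (Real.exp_pos _).le
        _ = C2 ^ 2 * ((y : ℝ) ^ (((n : ℝ) + 5 - B) / 2)) ^ 2 *
            (Real.exp (-(B * v)) ^ 2 * Real.exp (2 * s * v)) := by ring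
        _ = C2 ^ 2 * (y : ℝ) ^ ((n : ℝ) + 5 - B) * Real.exp (-((2 * B - 2 * s) * v)) := by
            rw [h7, h8]
        _ ≤ _ := le_rfl)
    (fun b v => (h3 (μ b) (hμ b) v).1) (C1 * (q : ℝ) ^ (n : ℝ)) (by positivity)
    (h1 q hq hqq1 β lam μ om hμ hl hcard hLS).1 (h1 q hq hqq1 β lam μ om hμ hl hcard hLS).2
  refine hmain.trans ?_
  have hqn : 0 ≤ (q : ℝ) ^ (n : ℝ) := by positivity
  have e1 : (y : ℝ) ^ ((n : ℝ) + 5 - B) * Real.exp ((2 * B - 2 * s) * ly / 4) ≤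
      Real.exp (-(s * ly / 2)) := by
    rw [Real.rpow_def_of_pos hy0, ← hly, ← Real.exp_add]
    apply Real.exp_le_exp.2
    have h5 : ((n : ℝ) + 5 - B / 2) * ly ≤ 0 := by
      apply mul_nonpos_of_nonpos_of_nonneg _ hly0
      have := abs_nonneg σm
      linarith
    linarith
  have e2 : Real.exp (-(s * ly / 2)) ≤ Real.exp (-(η / 12 * s * L)) := by
    apply Real.exp_le_exp.2
    have := mul_le_mul_of_nonneg_left hlyL' hs0
    linarith
  calc (Fintype.card β : ℝ) * (C2 ^ 2 * (y : ℝ) ^ ((n : ℝ) + 5 - B)) *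
        Real.exp ((2 * B - 2 * s) * ly / 4) +
        Real.exp (-(s * ly / 2)) * (4 * (C1 * (q : ℝ) ^ (n : ℝ)) +
          2 * (Fintype.card β : ℝ) * C3 ^ 2 / c₀)
      = (Fintype.card β : ℝ) * C2 ^ 2 * ((y : ℝ) ^ ((n : ℝ) + 5 - B) *
        Real.exp ((2 * B - 2 * s) * ly / 4)) +
        Real.exp (-(s * ly / 2)) * (4 * (C1 * (q : ℝ) ^ (n : ℝ)) +
          (Fintype.card β : ℝ) * (2 * C3 ^ 2 / c₀)) := by ring
    _ ≤ (C₀ * (q : ℝ) ^ (n : ℝ)) * C2 ^ 2 * Real.exp (-(s * ly / 2)) +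
        Real.exp (-(s * ly / 2)) * (4 * (C1 * (q : ℝ) ^ (n : ℝ)) +
          (C₀ * (q : ℝ) ^ (n : ℝ)) * (2 * C3 ^ 2 / c₀)) := by
        apply add_le_add
        · apply mul_le_mul _ e1 (by positivity) (by positivity)
          exact mul_le_mul_of_nonneg_right hcard (by positivity)
        · apply mul_le_mul_of_nonneg_left _ (Real.exp_pos _).le
          apply add_le_add le_rfl
          exact mul_le_mul_of_nonneg_right hcard (by positivity)
    _ = (C₀ * C2 ^ 2 + 4 * C1 + 2 * C₀ * C3 ^ 2 / c₀) * (q : ℝ) ^ (n : ℝ) *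
        Real.exp (-(s * ly / 2)) := by ring
    _ ≤ _ := mul_le_mul_of_nonneg_left e2 (by positivity)

end

end Pool.Agent.DN

namespace Pool.Agent.DN

theorem hd_l2 : type_of% @hd_l2_pr := @hd_l2_pr

end Pool.Agent.DN
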