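import Pool.Agent.Lib_helper61.DNF.HT

/-!
# DN, block ME5: integrability of the square of `hd`
-/

set_option autoImplicit false

namespace Pool.Agent.DN

open MeasureTheory Complex Finset
open Pool.Agent.SGN Pool.Agent.BX
open Pool.Agent.QG (ew)
open scoped ENNReal

noncomputable section

theorem me5_kok {n : ℕ} (μ : Fin n → ℂ) (h : ∀ j, |(μ j).re| < 1 / 2) :
    Kok ({μ} : Set (Fin n → ℂ)) := by
  refine ⟨isCompact_singleton, ?_⟩
  intro ν hν
  rw [Set.mem_singleton_iff] at hν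
  rw [hν]
  exact h

theorem me5_cont {n : ℕ} (μ : Fin n → ℂ) (h : ∀ j, |(μ j).re| < 1 / 2)
    (lam : ℕ → ℂ) (hl : Triv n lam) (y : ℕ) : Continuous (hd μ lam y) := by
  have h1 := D0_cont μ h lam hl
  have h2 := gmu_cont μ (fun j => (abs_lt.1 (h j)).1)
  unfold hd MG
  refine Continuous.sub (continuous_finsetSum _ fun k _ => ?_) h2
  exact continuous_const.mul (h1.comp (by fun_prop))

/-- decay to the right, growth to the left of a sum of translates -/
theorem me5_MG {n : ℕ} (μ : Fin n → ℂ) (lam c : ℕ → ℂ) (y : ℕ) (B C : ℝ) (hC : 0 ≤ C)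
    (h : ∀ v : ℝ, ‖D0 μ lam v‖ ≤ C * Real.exp (B * v)) :
    ∃ C' : ℝ, 0 ≤ C' ∧ ∀ v : ℝ, ‖MG μ lam c 1 y v‖ ≤ C' * Real.exp (B * v) := by
  refine ⟨∑ k ∈ Icc 1 y, ‖c k * rt k‖ * (C * Real.exp (B * Real.log k)), ?_, ?_⟩
  · exact Finset.sum_nonneg fun k _ => by positivity
  · intro v
    unfold MG
    refine (norm_sum_le _ _).trans ?_
    rw [Finset.sum_mul]
    refine Finset.sum_le_sum fun k _ => ?_
    rw [norm_mul]
    have h1 := h (v + 1 * Real.log k)
    have h2 : Real.exp (B * (v + 1 * Real.log k)) =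
        Real.exp (B * Real.log k) * Real.exp (B * v) := by
      rw [← Real.exp_add]; congr 1; ring
    rw [h2] at h1
    calc _ ≤ ‖c k * rt k‖ * (C * (Real.exp (B * Real.log k) * Real.exp (B * v))) := by gcongr
      _ = _ := by ring

theorem hd_int_pr {n : ℕ} (hn : 1 ≤ n) (μ : Fin n → ℂ) (h : ∀ j, |(μ j).re| < 1 / 2)
    (lam : ℕ → ℂ) (hl : Triv n lam) (q : ℕ) (hq : 1 ≤ q) (e : ℂ) (he : FEq q μ lam e)
    (y : ℕ) : Continuous (hd μ lam y) ∧ ∀ σ : ℝ, 1 / 2 ≤ σ →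
      Integrable fun v => ‖hd μ lam y v‖ ^ 2 * Real.exp (2 * (σ - 1 / 2) * v) := by
  have hc := me5_cont μ h lam hl y
  refine ⟨hc, ?_⟩
  intro σ hσ
  have hK := me5_kok μ h
  set B : ℝ := (n : ℝ) + 1 + σ with hB
  have hn0 : (0 : ℝ) ≤ n := by positivity
  have hB1 : (n : ℝ) + 1 ≤ B := by linarith
  have hB0 : 0 ≤ B := by linarith
  obtain ⟨C₁, hC₁, h1⟩ := D0_bd _ hK B hB1
  have h1' := h1 μ rfl lam hl
  obtain ⟨c₀, hc₀, hg⟩ := gmu_bd _ hK
  obtain ⟨C₂, hC₂, h2⟩ := hg B hB0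
  have h2' := h2 μ rfl
  -- the right side
  have h3 : ∀ v : ℝ, ‖D0 μ lam v‖ ≤ C₁ * Real.exp (-B * v) := by
    intro v
    have := h1' v
    rwa [neg_mul]
  obtain ⟨C₃, hC₃, h4⟩ := me5_MG μ lam (bk lam y) y (-B) C₁ hC₁ h3
  -- the left side
  have h5 : ∀ v : ℝ, ‖D0 μ lam v‖ ≤ C₁ * Real.exp (B * Real.log q) * Real.exp (B * v) := by
    intro v
    rw [he.2 v, norm_mul, he.1, one_mul, RCLike.norm_conj]
    have h6 := h1' (-v - Real.log q)
    have h7 : Real.exp (-(B * (-v - Real.log q))) =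
        Real.exp (B * Real.log q) * Real.exp (B * v) := by
      rw [← Real.exp_add]; congr 1; ring
    rw [h7] at h6
    linarith
  obtain ⟨C₄, hC₄, h8⟩ := me5_MG μ lam (bk lam y) y B _ (by positivity) h5
  set c₁ : ℝ := min B c₀ with hc₁
  have hc₁0 : 0 < c₁ := lt_min (by linarith) hc₀
  have hR : ∀ v : ℝ, ‖hd μ lam y v‖ ≤ (C₃ + C₂) * Real.exp (-B * v) := by
    intro v
    unfold hd
    refine (norm_sub_le _ _).trans ?_
    have h9 := h4 v
    have h10 := (h2' v).2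
    rw [← neg_mul] at h10
    linarith
  have hL : ∀ v : ℝ, v ≤ 0 → ‖hd μ lam y v‖ ≤ (C₄ + C₂) * Real.exp (c₁ * v) := by
    intro v hv
    unfold hd
    refine (norm_sub_le _ _).trans ?_
    have h9 := h8 v
    have h10 := (h2' v).1
    have h11 : Real.exp (B * v) ≤ Real.exp (c₁ * v) :=
      Real.exp_le_exp.2 (mul_le_mul_of_nonpos_right (min_le_left _ _) hv)
    have h12 : Real.exp (c₀ * v) ≤ Real.exp (c₁ * v) :=
      Real.exp_le_exp.2 (mul_le_mul_of_nonpos_right (min_le_right _ _) hv)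
    have h13 : C₄ * Real.exp (B * v) ≤ C₄ * Real.exp (c₁ * v) := by gcongr
    have h14 : C₂ * Real.exp (c₀ * v) ≤ C₂ * Real.exp (c₁ * v) := by gcongr
    linarith
  have hcont : Continuous fun v => ‖hd μ lam y v‖ ^ 2 * Real.exp (2 * (σ - 1 / 2) * v) :=
    (hc.norm.pow 2).mul (Real.continuous_exp.comp (by fun_prop))
  have hIic : IntegrableOn (fun v => ‖hd μ lam y v‖ ^ 2 * Real.exp (2 * (σ - 1 / 2) * v))
      (Set.Iic 0) := by
    have h15 : IntegrableOn (fun v : ℝ => (C₄ + C₂) ^ 2 * Real.exp ((2 * c₁) * v))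
        (Set.Iic 0) := (integrableOn_exp_mul_Iic (by linarith) 0).const_mul _
    refine Integrable.mono' h15 hcont.aestronglyMeasurable ?_
    refine (ae_restrict_iff' measurableSet_Iic).2 (Filter.Eventually.of_forall fun v hv => ?_)
    have hv' : v ≤ 0 := hv
    rw [Real.norm_eq_abs, abs_of_nonneg (by positivity)]
    have h16 : Real.exp (2 * (σ - 1 / 2) * v) ≤ 1 := by
      rw [Real.exp_le_one_iff]
      nlinarith
    have h17 : ‖hd μ lam y v‖ ^ 2 ≤ ((C₄ + C₂) * Real.exp (c₁ * v)) ^ 2 := by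
      gcongr
      exact hL v hv'
    have h18 : ((C₄ + C₂) * Real.exp (c₁ * v)) ^ 2 =
        (C₄ + C₂) ^ 2 * Real.exp ((2 * c₁) * v) := by
      rw [mul_pow, ← Real.exp_nat_mul]
      congr 2
      push_cast
      ring
    calc _ ≤ ‖hd μ lam y v‖ ^ 2 * 1 := by gcongr
      _ ≤ _ := by rw [mul_one, ← h18]; exact h17
  have hIoi : IntegrableOn (fun v => ‖hd μ lam y v‖ ^ 2 * Real.exp (2 * (σ - 1 / 2) * v))
      (Set.Ioi 0) := by
    have h15 : IntegrableOn (fun v : ℝ => (C₃ + C₂) ^ 2 * Real.exp (-1 * v))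
        (Set.Ioi 0) := (integrableOn_exp_mul_Ioi (by norm_num) 0).const_mul _
    refine Integrable.mono' h15 hcont.aestronglyMeasurable ?_
    refine (ae_restrict_iff' measurableSet_Ioi).2 (Filter.Eventually.of_forall fun v hv => ?_)
    have hv' : 0 < v := hv
    rw [Real.norm_eq_abs, abs_of_nonneg (by positivity)]
    have h17 : ‖hd μ lam y v‖ ^ 2 ≤ ((C₃ + C₂) * Real.exp (-B * v)) ^ 2 := by
      gcongr
      exact hR v
    calc _ ≤ ((C₃ + C₂) * Real.exp (-B * v)) ^ 2 * Real.exp (2 * (σ - 1 / 2) * v) := by gcongr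
      _ = (C₃ + C₂) ^ 2 * Real.exp ((2 * (-B) + 2 * (σ - 1 / 2)) * v) := by
          rw [mul_pow, ← Real.exp_nat_mul, mul_assoc, ← Real.exp_add]
          congr 2
          push_cast
          ring
      _ ≤ _ := by
          gcongr
          nlinarith
  have := hIic.union hIoi
  rwa [Set.Iic_union_Ioi, integrableOn_univ] at this

end

end Pool.Agent.DN

namespace Pool.Agent.DN

theorem hd_int : type_of% @hd_int_pr := @hd_int_pr

end Pool.Agent.DN
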