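import Pool.Agent.Lib_helper61.DNF.FI4

/-! Block ME6. -/

set_option autoImplicit false

namespace Pool.Agent.DN

open MeasureTheory Complex Finset
open Pool.Agent.SGN Pool.Agent.BX
open Pool.Agent.QG (ew)
open scoped ENNReal

noncomputable section

theorem me6_gam_cont {n : ℕ} (μ : Fin n → ℂ) (h : ∀ j, |(μ j).re| < 1 / 2) (σ : ℝ)
    (hσ : 1 / 2 ≤ σ) : Continuous fun t : ℝ => gam μ ((σ : ℂ) + t * I) := by
  unfold gam
  apply continuous_finsetProd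
  intro j _
  have h1 : ∀ t : ℝ, 0 < (((σ : ℂ) + t * I) + μ j).re := by
    intro t
    have h2 := (abs_lt.1 (h j)).1
    simp
    linarith
  have h3 : (fun t : ℝ => Gammaℝ (((σ : ℂ) + t * I) + μ j)) =
      fun t : ℝ => ((Gammaℝ (((σ : ℂ) + t * I) + μ j))⁻¹)⁻¹ := by
    funext t
    rw [inv_inv]
  rw [h3]
  apply Continuous.inv₀
  · have h4 : Continuous fun s : ℂ => (Gammaℝ s)⁻¹ := Complex.differentiable_Gammaℝ_inv.continuous
    exact h4.comp (by fun_prop)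
  · intro t
    exact inv_ne_zero (Complex.Gammaℝ_ne_zero_of_re_pos (h1 t))

/-- one function -/
theorem me6_one {n : ℕ} (hn : 1 ≤ n) (μ : Fin n → ℂ) (h : ∀ j, |(μ j).re| < 1 / 2)
    (lam : ℕ → ℂ) (hl : Triv n lam) (q : ℕ) (hq : 1 ≤ q) (e : ℂ) (he : FEq q μ lam e)
    (y : ℕ) {σ T c₀ : ℝ} (hT : 0 < T) (hc₀ : 0 < c₀) (hσ : 1 / 2 < σ)
    (hc : ∀ t : ℝ, |t| ≤ T → c₀ ≤ ‖gam μ ((σ : ℂ) + t * I)‖) {l : ℝ} (hl0 : 0 < l) :
    (∫ t in (-T)..T, ‖fI μ lam y ((σ : ℂ) + t * I) - 1‖) ≤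
      l * T + Real.pi / (l * c₀ ^ 2) *
        ∫ v, ‖hd μ lam y v‖ ^ 2 * Real.exp (2 * (σ - 1 / 2) * v) := by
  obtain ⟨hf1, hf2⟩ := fI_facts hn μ h lam hl q hq e he y
  obtain ⟨hh1, hh2⟩ := hd_int hn μ h lam hl q hq e he y
  have hre : ∀ t : ℝ, ((σ : ℂ) + t * I).re = σ := by intro t; simp
  have hcont : Continuous fun t : ℝ => fI μ lam y ((σ : ℂ) + t * I) - 1 := by
    apply Continuous.sub _ continuous_const
    have h1 : ContinuousOn (fI μ lam y) {s | 1 / 2 < s.re} := hf1.continuousOn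
    exact h1.comp_continuous (by fun_prop) (fun t => by
      show 1 / 2 < ((σ : ℂ) + t * I).re
      rw [hre]; exact hσ)
  have hgc := me6_gam_cont μ h σ hσ.le
  have hLap : ∀ t : ℝ, Lap (hd μ lam y) ((σ : ℂ) + t * I) =
      gam μ ((σ : ℂ) + t * I) * (fI μ lam y ((σ : ℂ) + t * I) - 1) := by
    intro t
    exact (hf2 _ (by rw [hre]; exact hσ.le)).2
  have hpl := lap_sq (h := hd μ lam y) hh1.measurable (σ := σ) hT.le
    (by
      have := (hf2 (σ : ℂ) (by simpa using hσ.le)).1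
      exact this) (hh2 σ hσ.le)
  -- the square integral of fI - 1
  have hsq : (∫ t in (-T)..T, ‖fI μ lam y ((σ : ℂ) + t * I) - 1‖ ^ 2) ≤
      (c₀ ^ 2)⁻¹ * ∫ t in (-T)..T, ‖Lap (hd μ lam y) ((σ : ℂ) + t * I)‖ ^ 2 := by
    rw [← intervalIntegral.integral_const_mul]
    apply intervalIntegral.integral_mono_on (by linarith)
    · exact (hcont.norm.pow 2).intervalIntegrable _ _
    · simp only [hLap]
      exact (((hgc.mul hcont).norm.pow 2).const_mul _).intervalIntegrable _ _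
    · intro t ht
      rw [hLap, norm_mul, mul_pow]
      have h1 : |t| ≤ T := abs_le.2 ⟨ht.1, ht.2⟩
      have h2 := hc t h1
      have h3 : c₀ ^ 2 ≤ ‖gam μ ((σ : ℂ) + t * I)‖ ^ 2 := pow_le_pow_left₀ hc₀.le h2 2
      rw [← mul_assoc]
      have h4 : 1 ≤ (c₀ ^ 2)⁻¹ * ‖gam μ ((σ : ℂ) + t * I)‖ ^ 2 := by
        rw [inv_mul_eq_div, one_le_div (by positivity)]
        exact h3
      exact le_mul_of_one_le_left (by positivity) h4
  have hamgm : (∫ t in (-T)..T, ‖fI μ lam y ((σ : ℂ) + t * I) - 1‖) ≤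
      ∫ t in (-T)..T, (l / 2 + (2 * l)⁻¹ * ‖fI μ lam y ((σ : ℂ) + t * I) - 1‖ ^ 2) := by
    apply intervalIntegral.integral_mono_on (by linarith)
    · exact hcont.norm.intervalIntegrable _ _
    · exact (continuous_const.add ((hcont.norm.pow 2).const_mul _)).intervalIntegrable _ _
    · intro t _
      set x := ‖fI μ lam y ((σ : ℂ) + t * I) - 1‖
      have h1 : l / 2 + (2 * l)⁻¹ * x ^ 2 - x = (2 * l)⁻¹ * (x - l) ^ 2 := by
        field_simp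
        ring
      have h2 : 0 ≤ (2 * l)⁻¹ * (x - l) ^ 2 := by positivity
      linarith
  have hcomp : (∫ t in (-T)..T, (l / 2 + (2 * l)⁻¹ * ‖fI μ lam y ((σ : ℂ) + t * I) - 1‖ ^ 2)) =
      l * T + (2 * l)⁻¹ * ∫ t in (-T)..T, ‖fI μ lam y ((σ : ℂ) + t * I) - 1‖ ^ 2 := by
    rw [intervalIntegral.integral_add, intervalIntegral.integral_const,
      intervalIntegral.integral_const_mul, smul_eq_mul]
    · ring
    · exact continuous_const.intervalIntegrable _ _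
    · exact ((hcont.norm.pow 2).const_mul _).intervalIntegrable _ _
  rw [hcomp] at hamgm
  set E := ∫ v, ‖hd μ lam y v‖ ^ 2 * Real.exp (2 * (σ - 1 / 2) * v) with hE
  have h5 : (2 * l)⁻¹ * (∫ t in (-T)..T, ‖fI μ lam y ((σ : ℂ) + t * I) - 1‖ ^ 2) ≤
      (2 * l)⁻¹ * ((c₀ ^ 2)⁻¹ * (2 * Real.pi * E)) := by
    apply mul_le_mul_of_nonneg_left _ (by positivity)
    exact le_trans hsq (mul_le_mul_of_nonneg_left hpl (by positivity))
  have h6 : (2 * l)⁻¹ * ((c₀ ^ 2)⁻¹ * (2 * Real.pi * E)) = Real.pi / (l * c₀ ^ 2) * E := by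
    field_simp
  linarith

/-- ME6: the mean values of `|L M - 1|` (Cauchy-Schwarz, `lap_sq`, `gam_low`) -/
theorem fI_mean_pr {n : ℕ} (hn : 2 ≤ n) (K : Set (Fin n → ℂ)) (hK : Kok K) (hM : HM n)
    (C₀ κ η δ σm T : ℝ) (hC₀ : 0 < C₀) (hκ : 0 < κ) (hη : 0 < η) (hηκ : η < κ)
    (hκ' : κ < 1 / 4) (hδ : 0 < δ) (hT : 0 < T) :
    ∃ (c C : ℝ) (q₀ : ℕ), 0 < c ∧ 0 ≤ C ∧ ∀ q : ℕ, q.Prime → q₀ ≤ q →
      ∀ (β : Type) [Fintype β] (lam : β → ℕ → ℂ) (μ : β → Fin n → ℂ) (om : β → ℝ)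
        (e : β → ℂ), (∀ b, μ b ∈ K) → (∀ b, Triv n (lam b)) →
      (∀ b, FEq q (μ b) (lam b) (e b)) → (Fintype.card β : ℝ) ≤ C₀ * (q : ℝ) ^ (n : ℝ) →
      LS n q lam om C₀ κ η δ → ∀ σ : ℝ, 1 / 2 + 1 / Real.log q ≤ σ → σ ≤ σm →
        ∑ b, om b * (∫ t in (-T)..T,
          ‖fI (μ b) (lam b) ⌊(q : ℝ) ^ (η / 3)⌋₊ ((σ : ℂ) + t * I) - 1‖) ≤
          C * (q : ℝ) ^ (n : ℝ) * Real.exp (-(c * (σ - 1 / 2) * Real.log q)) := by
  obtain ⟨c, C, q₀, hc, hC, h⟩ := hd_l2 hn K hK hM C₀ κ η δ σm hC₀ hκ hη hηκ hκ' hδ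
  obtain ⟨c₀, hc₀, hgam⟩ := gam_low K hK σm T
  refine ⟨c / 2, C₀ * T + Real.pi / c₀ ^ 2 * C, q₀, by positivity, by positivity, ?_⟩
  intro q hq hq₀ β _ lam μ om e hμ hlam he hcard hLS σ hσ hσm
  have hmain := h q hq hq₀ β lam μ om e hμ hlam he hcard hLS σ hσ hσm
  have hq1 : (1 : ℝ) < q := by exact_mod_cast hq.one_lt
  have hlog : 0 < Real.log q := Real.log_pos hq1
  have hσ' : 1 / 2 < σ := by
    have : 0 < 1 / Real.log q := by positivity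
    linarith
  set l : ℝ := Real.exp (-(c / 2 * (σ - 1 / 2) * Real.log q)) with hl
  have hl0 : 0 < l := Real.exp_pos _
  have hll : Real.exp (-(c * (σ - 1 / 2) * Real.log q)) = l * l := by
    rw [hl, ← Real.exp_add]
    congr 1
    ring
  have hone : ∀ b, om b * (∫ t in (-T)..T,
        ‖fI (μ b) (lam b) ⌊(q : ℝ) ^ (η / 3)⌋₊ ((σ : ℂ) + t * I) - 1‖) ≤
      l * T + Real.pi / (l * c₀ ^ 2) * (om b * ∫ v,
        ‖hd (μ b) (lam b) ⌊(q : ℝ) ^ (η / 3)⌋₊ v‖ ^ 2 * Real.exp (2 * (σ - 1 / 2) * v)) := by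
    intro b
    have h1 := me6_one (by omega) (μ b) (hK.2 _ (hμ b)) (lam b) (hlam b) q hq.one_lt.le (e b)
      (he b) ⌊(q : ℝ) ^ (η / 3)⌋₊ hT hc₀ hσ' (fun t ht => hgam _ (hμ b) _ (by simpa using hσ'.le)
        (by simpa using hσm) (by simpa using ht)) hl0
    have h2 := mul_le_mul_of_nonneg_left h1 (hLS.1 b).1
    have h3 : om b * (l * T) ≤ l * T := mul_le_of_le_one_left (by positivity) (hLS.1 b).2
    nlinarith [h2, h3]
  calc ∑ b, om b * (∫ t in (-T)..T,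
        ‖fI (μ b) (lam b) ⌊(q : ℝ) ^ (η / 3)⌋₊ ((σ : ℂ) + t * I) - 1‖)
      ≤ ∑ b, (l * T + Real.pi / (l * c₀ ^ 2) * (om b * ∫ v,
        ‖hd (μ b) (lam b) ⌊(q : ℝ) ^ (η / 3)⌋₊ v‖ ^ 2 *
          Real.exp (2 * (σ - 1 / 2) * v))) := sum_le_sum fun b _ => hone b
    _ = (Fintype.card β : ℝ) * (l * T) + Real.pi / (l * c₀ ^ 2) * ∑ b, (om b * ∫ v,
        ‖hd (μ b) (lam b) ⌊(q : ℝ) ^ (η / 3)⌋₊ v‖ ^ 2 * Real.exp (2 * (σ - 1 / 2) * v)) := by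
      rw [sum_add_distrib, sum_const, card_univ, nsmul_eq_mul, ← mul_sum]
    _ ≤ C₀ * (q : ℝ) ^ (n : ℝ) * (l * T) + Real.pi / (l * c₀ ^ 2) *
        (C * (q : ℝ) ^ (n : ℝ) * (l * l)) := by
      rw [hll] at hmain
      exact add_le_add (mul_le_mul_of_nonneg_right hcard (by positivity))
        (mul_le_mul_of_nonneg_left hmain (by positivity))
    _ = (C₀ * T + Real.pi / c₀ ^ 2 * C) * (q : ℝ) ^ (n : ℝ) * l := by
      field_simp

end

end Pool.Agent.DN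

namespace Pool.Agent.DN

theorem fI_mean : type_of% @fI_mean_pr := @fI_mean_pr

end Pool.Agent.DN
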