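import Pool.Agent.Lib_helper61.DNF.Z3

/-!
# DN block MO1A: the local factor
-/

set_option autoImplicit false

namespace Pool.Agent.DN

open MeasureTheory Complex Finset
open Pool.Agent.SGN Pool.Agent.BX
open Pool.Agent.QG (ew)
open scoped ENNReal

noncomputable section

theorem mo1a_choose (m k : ℕ) : Nat.choose (m + k) k ≤ (m + 1) ^ k := by
  induction k with
  | zero => simp
  | succ k ih =>
    have h1 : (m + k + 1) * Nat.choose (m + k) k = Nat.choose (m + k + 1) (k + 1) * (k + 1) :=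
      Nat.add_one_mul_choose_eq (m + k) k
    have h2 : Nat.choose (m + (k + 1)) (k + 1) * (k + 1) ≤ (m + 1) ^ (k + 1) * (k + 1) := by
      rw [← add_assoc, ← h1]
      calc (m + k + 1) * Nat.choose (m + k) k ≤ ((m + 1) * (k + 1)) * (m + 1) ^ k :=
            Nat.mul_le_mul (by nlinarith) ih
        _ = (m + 1) ^ (k + 1) * (k + 1) := by ring
    exact Nat.le_of_mul_le_mul_right h2 (Nat.succ_pos k)

theorem mo1a_choose' {n : ℕ} (hn : 1 ≤ n) (m : ℕ) : Nat.choose (m + n - 1) m ≤ (m + 1) ^ n := by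
  obtain ⟨k, rfl⟩ : ∃ k, n = k + 1 := ⟨n - 1, by omega⟩
  have h1 : m + (k + 1) - 1 = m + k := by omega
  rw [h1, Nat.choose_symm_add]
  exact (mo1a_choose m k).trans (Nat.pow_le_pow_right (by omega) (by omega))

theorem mo1a_pow {z : ℂ} (hz : ‖z‖ ≤ 1) (i : ℕ) : ‖z ^ i - 1‖ ≤ i * ‖z - 1‖ := by
  induction i with
  | zero => simp
  | succ i ih =>
    have h1 : z ^ (i + 1) - 1 = z * (z ^ i - 1) + (z - 1) := by ring
    rw [h1]
    calc ‖z * (z ^ i - 1) + (z - 1)‖ ≤ ‖z * (z ^ i - 1)‖ + ‖z - 1‖ := norm_add_le _ _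
      _ = ‖z‖ * ‖z ^ i - 1‖ + ‖z - 1‖ := by rw [norm_mul]
      _ ≤ 1 * ‖z ^ i - 1‖ + ‖z - 1‖ := by
        gcongr
      _ ≤ ((i + 1 : ℕ) : ℝ) * ‖z - 1‖ := by
        push_cast
        linarith

/-- the inverse coefficients are bounded in terms of `n` and `j` -/
theorem mo1a_invc (n : ℕ) : ∀ j : ℕ, ∃ D : ℝ, 0 ≤ D ∧ ∀ x : ℕ → ℂ,
    (∀ i : ℕ, ‖x i‖ ≤ Nat.choose (i + n - 1) i) → ‖invc x j‖ ≤ D := by
  intro j
  induction j using Nat.strong_induction_on with
  | _ j ih =>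
    match j, ih with
    | 0, _ => exact ⟨1, zero_le_one, fun x _ => by simp [invc]⟩
    | j + 1, ih =>
      choose D hD using ih
      refine ⟨∑ i : Fin (j + 1), (Nat.choose ((i : ℕ) + 1 + n - 1) ((i : ℕ) + 1) : ℝ) *
        D (j - i) (by omega), ?_, ?_⟩
      · exact Finset.sum_nonneg fun i _ => mul_nonneg (Nat.cast_nonneg _) (hD _ _).1
      · intro x hx
        rw [invc, norm_neg]
        refine (norm_sum_le _ _).trans (Finset.sum_le_sum fun i _ => ?_)
        rw [norm_mul]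
        exact mul_le_mul (hx _) ((hD (j - i) (by omega)).2 x hx) (norm_nonneg _)
          (Nat.cast_nonneg _)

theorem mo1a_minv {lam : ℕ → ℂ} (h1 : lam 1 = 1) {p : ℕ} (hp : p.Prime) : ∀ j : ℕ,
    minv lam (p ^ j) = invc (fun i => lam (p ^ i)) j := by
  intro j
  induction j using Nat.strong_induction_on with
  | _ j ih =>
    match j, ih with
    | 0, _ => simp [invc, minv_one]
    | j + 1, ih =>
      have hp1 : 1 < p ^ (j + 1) := Nat.one_lt_pow (by omega) hp.one_lt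
      have e1 := minv_conv lam h1 (p ^ (j + 1)) hp1.le
      rw [if_neg hp1.ne', Nat.sum_divisors_prime_pow hp, Finset.sum_range_succ,
        Nat.div_self (by omega), h1, one_mul] at e1
      have e2 : ∀ k ∈ Finset.range (j + 1), lam (p ^ (j + 1) / p ^ k) * minv lam (p ^ k) =
          lam (p ^ (j + 1 - k)) * invc (fun i => lam (p ^ i)) k := by
        intro k hk
        have hk' := Finset.mem_range.1 hk
        rw [Nat.pow_div (by omega) hp.pos, ih k (by omega)]
      rw [Finset.sum_congr rfl e2, ← Finset.sum_range_reflect] at e1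
      rw [invc, Fin.sum_univ_eq_sum_range
        (fun i => lam (p ^ (i + 1)) * invc (fun i => lam (p ^ i)) (j - i))]
      have e3 : ∀ k ∈ Finset.range (j + 1),
          lam (p ^ (j + 1 - (j + 1 - 1 - k))) * invc (fun i => lam (p ^ i)) (j + 1 - 1 - k) =
          lam (p ^ (k + 1)) * invc (fun i => lam (p ^ i)) (j - k) := by
        intro k hk
        have hk' := Finset.mem_range.1 hk
        have e4 : j + 1 - (j + 1 - 1 - k) = k + 1 := by omega
        have e5 : j + 1 - 1 - k = j - k := by omega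
        rw [e4, e5]
      rw [Finset.sum_congr rfl e3] at e1
      linear_combination e1

/-- MO1a: the local factor -/
theorem Hr_local_pr {n : ℕ} (hn : 1 ≤ n) : ∃ C : ℝ, 0 < C ∧ ∀ lam : ℕ → ℂ, Temp n lam →
    ∀ p : ℕ, p.Prime → ∀ w : ℂ, 0 ≤ w.re → ∀ j : ℕ, 1 ≤ j →
      ‖Hr lam w (p ^ j)‖ ≤ C * ((j : ℝ) + 1) ^ n * ‖1 - (p : ℂ) ^ (-w)‖ := by
  choose D hD using mo1a_invc n
  have hD0 : 0 ≤ ∑ i ∈ Finset.range (n + 1), D i * i :=
    Finset.sum_nonneg fun i _ => mul_nonneg (hD i).1 (Nat.cast_nonneg _)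
  refine ⟨1 + ∑ i ∈ Finset.range (n + 1), D i * i, by linarith, ?_⟩
  intro lam h p hp w hw j hj
  have hpj : 1 < p ^ j := Nat.one_lt_pow (by omega) hp.one_lt
  have e1 := minv_conv lam h.one (p ^ j) hpj.le
  rw [if_neg hpj.ne'] at e1
  have e2 : Hr lam w (p ^ j) = ∑ i ∈ Finset.range (j + 1),
      lam (p ^ (j - i)) * invc (fun i => lam (p ^ i)) i * (((p : ℂ) ^ (-w)) ^ i - 1) := by
    have e3 : Hr lam w (p ^ j) = ∑ k ∈ (p ^ j).divisors,
        lam (p ^ j / k) * minv lam k * ((k : ℂ) ^ (-w) - 1) := by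
      unfold Hr
      simp only [mul_sub, mul_one, Finset.sum_sub_distrib]
      rw [e1, sub_zero]
    rw [e3, Nat.sum_divisors_prime_pow hp]
    refine Finset.sum_congr rfl fun i hi => ?_
    have hi' := Finset.mem_range.1 hi
    rw [Nat.pow_div (by omega) hp.pos, mo1a_minv h.one hp]
    congr 2
    rw [Nat.cast_pow, ← Complex.cpow_nat_mul, Complex.natCast_cpow_natCast_mul]
  have hz : ‖(p : ℂ) ^ (-w)‖ ≤ 1 := by
    rw [Complex.norm_natCast_cpow_of_pos hp.pos]
    apply Real.rpow_le_one_of_one_le_of_nonpos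
    · exact_mod_cast hp.one_lt.le
    · simpa using hw
  have hx : ∀ i : ℕ, ‖(fun i => lam (p ^ i)) i‖ ≤ Nat.choose (i + n - 1) i := fun i => h.bdd p hp i
  have hj1 : (1 : ℝ) ≤ (j : ℝ) + 1 := by
    have : (0 : ℝ) ≤ j := Nat.cast_nonneg _
    linarith
  rw [e2]
  have hnn : 0 ≤ ‖1 - (p : ℂ) ^ (-w)‖ := norm_nonneg _
  have hterm : ∀ i ∈ Finset.range (j + 1),
      ‖lam (p ^ (j - i)) * invc (fun i => lam (p ^ i)) i * (((p : ℂ) ^ (-w)) ^ i - 1)‖ ≤
      if i ∈ Finset.range (n + 1) then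
        ((j : ℝ) + 1) ^ n * ‖1 - (p : ℂ) ^ (-w)‖ * (D i * i) else 0 := by
    intro i hi
    have hi' := Finset.mem_range.1 hi
    split_ifs with hin
    · rw [norm_mul, norm_mul]
      have a1 : ‖lam (p ^ (j - i))‖ ≤ ((j : ℝ) + 1) ^ n := by
        refine (h.bdd p hp (j - i)).trans ?_
        have a2 : Nat.choose (j - i + n - 1) (j - i) ≤ (j + 1) ^ n :=
          (mo1a_choose' hn (j - i)).trans (Nat.pow_le_pow_left (by omega) n)
        exact_mod_cast a2
      have a3 : ‖invc (fun i => lam (p ^ i)) i‖ ≤ D i := (hD i).2 _ hx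
      have a4 : ‖((p : ℂ) ^ (-w)) ^ i - 1‖ ≤ i * ‖1 - (p : ℂ) ^ (-w)‖ := by
        rw [norm_sub_rev 1]
        exact mo1a_pow hz i
      calc ‖lam (p ^ (j - i))‖ * ‖invc (fun i => lam (p ^ i)) i‖ * ‖((p : ℂ) ^ (-w)) ^ i - 1‖
          ≤ ((j : ℝ) + 1) ^ n * D i * (i * ‖1 - (p : ℂ) ^ (-w)‖) := by
            apply mul_le_mul (mul_le_mul a1 a3 (norm_nonneg _) (by positivity)) a4 (norm_nonneg _)
            exact mul_nonneg (by positivity) (hD i).1
        _ = ((j : ℝ) + 1) ^ n * ‖1 - (p : ℂ) ^ (-w)‖ * (D i * i) := by ring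
    · have : n < i := by
        by_contra hc
        exact hin (Finset.mem_range.2 (by omega))
      rw [h.inv p hp i this]
      simp
  refine (norm_sum_le _ _).trans ((Finset.sum_le_sum hterm).trans ?_)
  rw [← Finset.sum_filter]
  have hsub : (Finset.range (j + 1)).filter (fun i => i ∈ Finset.range (n + 1)) ⊆
      Finset.range (n + 1) := fun i hi => (Finset.mem_filter.1 hi).2
  refine (Finset.sum_le_sum_of_subset_of_nonneg hsub fun i _ _ => ?_).trans ?_
  · exact mul_nonneg (by positivity) (mul_nonneg (hD i).1 (Nat.cast_nonneg _))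
  · rw [← Finset.mul_sum]
    have : 0 ≤ ((j : ℝ) + 1) ^ n * ‖1 - (p : ℂ) ^ (-w)‖ := by positivity
    nlinarith [this]

end

end Pool.Agent.DN

namespace Pool.Agent.DN

theorem Hr_local : type_of% @Hr_local_pr := @Hr_local_pr

end Pool.Agent.DN
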