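import Pool.Agent.Lib_helper61.DNF.MO1A

/-!
# DN block MO1B: multiplicativity
-/

set_option autoImplicit false

namespace Pool.Agent.DN

open MeasureTheory Complex Finset
open Pool.Agent.SGN Pool.Agent.BX
open Pool.Agent.QG (ew)
open scoped ENNReal

noncomputable section

theorem mo1b_split {a b : ℕ} (h : Nat.Coprime a b) (F : ℕ → ℂ) :
    ∑ k ∈ (a * b).divisors, F k = ∑ d ∈ a.divisors, ∑ e ∈ b.divisors, F (d * e) := by
  have h1 : (a * b).divisors = (a.divisors ×ˢ b.divisors).image fun p : ℕ × ℕ => p.1 * p.2 := by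
    rw [Nat.divisors_mul]
    ext x
    simp [Finset.mem_mul, and_assoc]
  rw [h1, Finset.sum_image (Nat.Coprime.mul_injOn_divisors h), Finset.sum_product]

theorem mo1b_minv {n : ℕ} (lam : ℕ → ℂ) (h : Temp n lam) : ∀ N a b : ℕ, a * b ≤ N →
    Nat.Coprime a b → 1 ≤ a → 1 ≤ b → minv lam (a * b) = minv lam a * minv lam b := by
  intro N
  induction N with
  | zero =>
    intro a b h1 _ ha hb
    have := Nat.mul_pos ha hb
    omega
  | succ N ih =>
    intro a b hN hab ha hb
    by_cases h1 : a * b = 1
    · have ha1 : a = 1 := Nat.eq_one_of_mul_eq_one_right h1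
      have hb1 : b = 1 := Nat.eq_one_of_mul_eq_one_left h1
      subst ha1; subst hb1
      simp [minv_one]
    have hpos : 1 ≤ a * b := Nat.mul_pos ha hb
    have e1 := minv_conv lam h.one (a * b) hpos
    rw [if_neg h1, mo1b_split hab] at e1
    have e2 := minv_conv lam h.one a ha
    have e3 := minv_conv lam h.one b hb
    have e4 : (∑ d ∈ a.divisors, lam (a / d) * minv lam d) *
        (∑ e ∈ b.divisors, lam (b / e) * minv lam e) = 0 := by
      rw [e2, e3]
      by_cases h2 : a = 1
      · have h3 : b ≠ 1 := by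
          intro h3
          apply h1
          rw [h2, h3]
        simp [h3]
      · simp [h2]
    rw [Finset.sum_mul_sum] at e4
    have e5 : ∑ d ∈ a.divisors, ∑ e ∈ b.divisors,
        (lam (a * b / (d * e)) * minv lam (d * e) -
          lam (a / d) * minv lam d * (lam (b / e) * minv lam e)) =
        minv lam (a * b) - minv lam a * minv lam b := by
      rw [Finset.sum_eq_single a, Finset.sum_eq_single b]
      · rw [Nat.div_self hpos, Nat.div_self ha, Nat.div_self hb, h.one]
        ring
      · intro e he hne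
        have hd : e ∣ b := Nat.dvd_of_mem_divisors he
        have he1 : 1 ≤ e := Nat.pos_of_dvd_of_pos hd hb
        have hlt : e < b := lt_of_le_of_ne (Nat.le_of_dvd hb hd) hne
        have hc : Nat.Coprime a e := Nat.Coprime.coprime_dvd_right hd hab
        rw [ih a e (by nlinarith) hc ha he1, Nat.mul_div_mul_left _ _ ha, Nat.div_self ha, h.one]
        ring
      · intro hb'
        exact absurd (Nat.mem_divisors_self b (by omega)) hb'
      · intro d hd hne
        apply Finset.sum_eq_zero
        intro e he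
        have hd1 : d ∣ a := Nat.dvd_of_mem_divisors hd
        have he1 : e ∣ b := Nat.dvd_of_mem_divisors he
        have hd2 : 1 ≤ d := Nat.pos_of_dvd_of_pos hd1 ha
        have he2 : 1 ≤ e := Nat.pos_of_dvd_of_pos he1 hb
        have hlt : d < a := lt_of_le_of_ne (Nat.le_of_dvd ha hd1) hne
        have hle : e ≤ b := Nat.le_of_dvd hb he1
        have hc : Nat.Coprime d e :=
          Nat.Coprime.coprime_dvd_left hd1 (Nat.Coprime.coprime_dvd_right he1 hab)
        have hlt2 : d * e < a * b := by nlinarith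
        rw [ih d e (by omega) hc hd2 he2]
        have e6 : a * b / (d * e) = (a / d) * (b / e) := by
          rw [Nat.div_mul_div_comm hd1 he1]
        rw [e6, h.mul]
        · ring
        · exact Nat.Coprime.coprime_dvd_left (Nat.div_dvd_of_dvd hd1)
            (Nat.Coprime.coprime_dvd_right (Nat.div_dvd_of_dvd he1) hab)
      · intro ha'
        exact absurd (Nat.mem_divisors_self a (by omega)) ha'
    simp only [Finset.sum_sub_distrib] at e5
    rw [e1, e4] at e5
    have : minv lam (a * b) - minv lam a * minv lam b = 0 := by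
      rw [← e5]; ring
    exact sub_eq_zero.1 this

/-- MO1b: multiplicativity -/
theorem Hr_mul_pr {n : ℕ} (lam : ℕ → ℂ) (h : Temp n lam) (w : ℂ) :
    (∀ a b : ℕ, Nat.Coprime a b → 1 ≤ a → 1 ≤ b →
      minv lam (a * b) = minv lam a * minv lam b) ∧
    (∀ a b : ℕ, Nat.Coprime a b → 1 ≤ a → 1 ≤ b → Hr lam w (a * b) = Hr lam w a * Hr lam w b) ∧
    Hr lam w 1 = 1 := by
  refine ⟨fun a b hab ha hb => mo1b_minv lam h (a * b) a b le_rfl hab ha hb, ?_, ?_⟩
  · intro a b hab ha hb
    unfold Hr
    rw [mo1b_split hab, Finset.sum_mul_sum]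
    refine Finset.sum_congr rfl fun d hd => Finset.sum_congr rfl fun e he => ?_
    have hd1 : d ∣ a := Nat.dvd_of_mem_divisors hd
    have he1 : e ∣ b := Nat.dvd_of_mem_divisors he
    have hd2 : 1 ≤ d := Nat.pos_of_dvd_of_pos hd1 ha
    have he2 : 1 ≤ e := Nat.pos_of_dvd_of_pos he1 hb
    have hc : Nat.Coprime d e :=
      Nat.Coprime.coprime_dvd_left hd1 (Nat.Coprime.coprime_dvd_right he1 hab)
    rw [mo1b_minv lam h (d * e) d e le_rfl hc hd2 he2]
    have e6 : a * b / (d * e) = (a / d) * (b / e) := by
      rw [Nat.div_mul_div_comm hd1 he1]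
    rw [e6, h.mul _ _ (Nat.Coprime.coprime_dvd_left (Nat.div_dvd_of_dvd hd1)
            (Nat.Coprime.coprime_dvd_right (Nat.div_dvd_of_dvd he1) hab))]
    rw [Nat.cast_mul, Complex.natCast_mul_natCast_cpow]
    ring
  · unfold Hr
    simp [minv_one, h.one]

end

end Pool.Agent.DN

namespace Pool.Agent.DN

theorem Hr_mul : type_of% @Hr_mul_pr := @Hr_mul_pr

end Pool.Agent.DN
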