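import Pool.Agent.Lib_helper61.DNF.MO1B
import Pool.Agent.Lib_helper84.SGCF.CS
import Pool.Agent.Lib_helper84.SGCF.CW
import Pool.Agent.Lib_helper84.SGCF.CP

/-! # DN, block MO1C: the Euler product inequality -/

set_option autoImplicit false

namespace Pool.Agent.DN

open MeasureTheory Complex Finset
open Pool.Agent.SGN Pool.Agent.BX
open Pool.Agent.QG (ew)
open scoped ENNReal

noncomputable section

theorem mo1c_summable (n : ℕ) : Summable fun i : ℕ => ((i : ℝ) + 2) ^ n * (1 / 2 : ℝ) ^ i := by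
  have h1 : Summable fun i : ℕ => ((i : ℝ) ^ n * (1 / 2 : ℝ) ^ i) :=
    summable_pow_mul_geometric_of_norm_lt_one n (by norm_num)
  have h2 := (summable_nat_add_iff 2).2 h1
  have h3 := h2.mul_left 4
  refine h3.congr fun i => ?_
  push_cast
  rw [pow_add]
  ring

theorem mo1c_local (n : ℕ) (C A : ℝ) (hA : 0 ≤ A) (p : ℕ) (hp : p.Prime) (t : ℝ)
    (ht : 0 ≤ t) (a : ℕ → ℝ) (ha0 : ∀ j, 0 ≤ a j)
    (ha : ∀ j : ℕ, 1 ≤ j → a j ≤ C * ((j : ℝ) + 1) ^ n * A) (s : ℕ) :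
    ∑ i ∈ Finset.Icc 1 s, a i ^ 2 * ((p ^ i : ℕ) : ℝ) ^ (-1 - t) ≤
      C ^ 2 * (∑' i : ℕ, ((i : ℝ) + 2) ^ (2 * n) * (1 / 2 : ℝ) ^ i) *
        (A ^ 2 * (p : ℝ) ^ (-1 - t)) := by
  have hp0 : (0 : ℝ) < p := by exact_mod_cast hp.pos
  have hp2 : (2 : ℝ) ≤ p := by exact_mod_cast hp.two_le
  have hpt : (p : ℝ) ^ (-1 - t) ≤ 1 / 2 := by
    calc (p : ℝ) ^ (-1 - t) ≤ (p : ℝ) ^ (-1 : ℝ) :=
          Real.rpow_le_rpow_of_exponent_le (by linarith) (by linarith)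
      _ = (p : ℝ)⁻¹ := Real.rpow_neg_one _
      _ ≤ 1 / 2 := by
          rw [one_div]
          exact inv_anti₀ (by norm_num) hp2
  have hpt0 : 0 ≤ (p : ℝ) ^ (-1 - t) := Real.rpow_nonneg hp0.le _
  have hterm : ∀ i ∈ Finset.Icc 1 s, a i ^ 2 * ((p ^ i : ℕ) : ℝ) ^ (-1 - t) ≤
      C ^ 2 * (A ^ 2 * (p : ℝ) ^ (-1 - t)) *
        ((((i - 1 : ℕ) : ℝ) + 2) ^ (2 * n) * (1 / 2 : ℝ) ^ (i - 1)) := by
    intro i hi
    rw [Finset.mem_Icc] at hi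
    obtain ⟨j, rfl⟩ : ∃ j, i = j + 1 := ⟨i - 1, by omega⟩
    rw [Nat.add_sub_cancel]
    have h1 : ((p ^ (j + 1) : ℕ) : ℝ) ^ (-1 - t) =
        ((p : ℝ) ^ (-1 - t)) ^ j * (p : ℝ) ^ (-1 - t) := by
      push_cast
      rw [← Real.rpow_natCast (p : ℝ) (j + 1), ← Real.rpow_mul hp0.le, mul_comm,
        Real.rpow_mul hp0.le, Real.rpow_natCast, pow_succ]
    have h2 : ((p : ℝ) ^ (-1 - t)) ^ j ≤ (1 / 2) ^ j := pow_le_pow_left₀ hpt0 hpt j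
    have h3 : a (j + 1) ^ 2 ≤ (C * (((j : ℝ) + 2)) ^ n * A) ^ 2 := by
      have h4 := ha (j + 1) (by omega)
      push_cast at h4
      rw [show (j : ℝ) + 1 + 1 = (j : ℝ) + 2 by ring] at h4
      exact pow_le_pow_left₀ (ha0 _) h4 2
    have h5 : (0 : ℝ) ≤ ((p : ℝ) ^ (-1 - t)) ^ j := pow_nonneg hpt0 j
    calc a (j + 1) ^ 2 * ((p ^ (j + 1) : ℕ) : ℝ) ^ (-1 - t)
        ≤ (C * (((j : ℝ) + 2)) ^ n * A) ^ 2 * ((1 / 2) ^ j * (p : ℝ) ^ (-1 - t)) := by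
          rw [h1]
          exact mul_le_mul h3 (mul_le_mul_of_nonneg_right h2 hpt0) (mul_nonneg h5 hpt0)
            (sq_nonneg _)
      _ = _ := by
          rw [mul_pow, mul_pow, ← pow_mul, mul_comm n 2]
          ring
  refine (Finset.sum_le_sum hterm).trans ?_
  rw [← Finset.mul_sum]
  have h6 : ∑ i ∈ Finset.Icc 1 s, ((((i - 1 : ℕ) : ℝ) + 2) ^ (2 * n) * (1 / 2 : ℝ) ^ (i - 1)) =
      ∑ i ∈ Finset.range s, (((i : ℝ) + 2) ^ (2 * n) * (1 / 2 : ℝ) ^ i) := by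
    rw [Finset.range_eq_Ico, Finset.sum_Ico_eq_sum_range]
    have : Finset.Icc 1 s = Finset.Ico 1 (s + 1) := by
      ext x; simp [Nat.lt_succ_iff]
    rw [this, Finset.sum_Ico_eq_sum_range]
    simp
  rw [h6]
  have h7 : ∑ i ∈ Finset.range s, (((i : ℝ) + 2) ^ (2 * n) * (1 / 2 : ℝ) ^ i) ≤
      ∑' i : ℕ, ((i : ℝ) + 2) ^ (2 * n) * (1 / 2 : ℝ) ^ i :=
    (mo1c_summable (2 * n)).sum_le_tsum _ fun i _ => by positivity
  have h8 : 0 ≤ C ^ 2 * (A ^ 2 * (p : ℝ) ^ (-1 - t)) := by positivity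
  refine (mul_le_mul_of_nonneg_left h7 h8).trans (le_of_eq (by ring))

theorem Hr_sum_pr {n : ℕ} (hn : 1 ≤ n) : ∃ C : ℝ, 0 < C ∧ ∀ lam : ℕ → ℂ, Temp n lam →
    ∀ w : ℂ, 0 ≤ w.re → ∀ t : ℝ, 0 ≤ t → ∀ (P : ℕ) (R : Finset ℕ), (∀ r ∈ R, 1 ≤ r ∧ r ≤ P) →
      ∑ r ∈ R, ‖Hr lam w r‖ ^ 2 * (r : ℝ) ^ (-1 - t) ≤
        Real.exp (C * ∑ p ∈ (Icc 1 P).filter Nat.Prime,
          ‖1 - (p : ℂ) ^ (-w)‖ ^ 2 * (p : ℝ) ^ (-1 - t)) := by
  obtain ⟨C0, hC0, hloc⟩ := Hr_local hn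
  have hK : 0 < ∑' i : ℕ, ((i : ℝ) + 2) ^ (2 * n) * (1 / 2 : ℝ) ^ i :=
    (mo1c_summable (2 * n)).tsum_pos (fun i => by positivity) 0 (by positivity)
  refine ⟨C0 ^ 2 * ∑' i : ℕ, ((i : ℝ) + 2) ^ (2 * n) * (1 / 2 : ℝ) ^ i, by positivity, ?_⟩
  intro lam hlam w hw t ht P R hR
  obtain ⟨-, hmul, hone⟩ := Hr_mul lam hlam w
  set I := (Icc 1 P).filter Nat.Prime with hI
  set f : ℕ → ℝ := fun k => ‖Hr lam w k‖ ^ 2 * (k : ℝ) ^ (-1 - t) with hf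
  have hf0 : ∀ k, 0 ≤ f k := fun k => mul_nonneg (sq_nonneg _) (Real.rpow_nonneg (Nat.cast_nonneg _) _)
  have hf1 : f 1 = 1 := by
    rw [hf]
    simp [hone]
  have hfm : ∀ x y : ℕ, Nat.Coprime x y → f (x * y) = f x * f y := by
    intro x y hxy
    rcases Nat.eq_zero_or_pos x with hx | hx
    · subst hx
      have hy : y = 1 := by simpa using hxy
      rw [hy, mul_one, hf1, mul_one]
    rcases Nat.eq_zero_or_pos y with hy | hy
    · subst hy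
      have hx1 : x = 1 := by simpa using hxy
      rw [hx1, one_mul, hf1, one_mul]
    have h1 := hmul x y hxy hx hy
    show ‖Hr lam w (x * y)‖ ^ 2 * ((x * y : ℕ) : ℝ) ^ (-1 - t) = _
    rw [h1, norm_mul, Nat.cast_mul, Real.mul_rpow (Nat.cast_nonneg _) (Nat.cast_nonneg _), mul_pow]
    show _ = (‖Hr lam w x‖ ^ 2 * (x : ℝ) ^ (-1 - t)) * (‖Hr lam w y‖ ^ 2 * (y : ℝ) ^ (-1 - t))
    ring
  have hfac : ∀ k, k ≠ 0 → f k = k.factorization.prod fun p i => f (p ^ i) := fun k hk =>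
    Nat.multiplicative_factorization f hfm hf1 hk
  have heuler := euler_ineq I (fun p hp => (Finset.mem_filter.1 hp).2) (fun p i => f (p ^ i))
    (fun p i => hf0 _)
    (fun p => C0 ^ 2 * (∑' i : ℕ, ((i : ℝ) + 2) ^ (2 * n) * (1 / 2 : ℝ) ^ i) *
      (‖1 - (p : ℂ) ^ (-w)‖ ^ 2 * (p : ℝ) ^ (-1 - t)))
    (fun p hp s => by
      have hpp : p.Prime := (Finset.mem_filter.1 hp).2
      exact mo1c_local n C0 ‖1 - (p : ℂ) ^ (-w)‖ (norm_nonneg _) p hpp t ht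
        (fun j => ‖Hr lam w (p ^ j)‖) (fun j => norm_nonneg _)
        (fun j hj => hloc lam hlam p hpp w hw j hj) s)
    (R.erase 1) (by
      intro k hk
      rw [Finset.mem_erase] at hk
      refine ⟨?_, hk.1⟩
      have hk1 := hR k hk.2
      rw [Nat.mem_factoredNumbers]
      refine ⟨by omega, fun p hp => ?_⟩
      have hpk := Nat.le_of_mem_primeFactorsList hp
      have hpp := Nat.prime_of_mem_primeFactorsList hp
      rw [hI, Finset.mem_filter, Finset.mem_Icc]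
      exact ⟨⟨hpp.pos, by omega⟩, hpp⟩)
  rw [← Finset.mul_sum] at heuler
  have h1 : ∑ k ∈ R.erase 1, f k = ∑ k ∈ R.erase 1, k.factorization.prod fun p i => f (p ^ i) := by
    refine Finset.sum_congr rfl fun k hk => ?_
    rw [Finset.mem_erase] at hk
    have := hR k hk.2
    exact hfac k (by omega)
  have h2 : ∑ r ∈ R, f r ≤ 1 + ∑ k ∈ R.erase 1, f k := by
    by_cases h : 1 ∈ R
    · rw [← Finset.add_sum_erase _ _ h, hf1]
    · rw [Finset.erase_eq_of_notMem h]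
      linarith
  show ∑ r ∈ R, f r ≤ _
  rw [h1] at h2
  linarith

end

end Pool.Agent.DN

namespace Pool.Agent.DN

theorem Hr_sum : type_of% @Hr_sum_pr := @Hr_sum_pr

end Pool.Agent.DN
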