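import Pool.Agent.Lib_helper61.DNF.MO1C
import Pool.Agent.Lib_helper84.SGCF.CS
import Pool.Agent.Lib_helper84.SGCF.CW
import Pool.Agent.Lib_helper84.SGCF.CP

/-!
# Block MO2: the sum over the primes
-/

set_option autoImplicit false

namespace Pool.Agent.DN

open MeasureTheory Complex Finset
open Pool.Agent.SGN Pool.Agent.BX
open Pool.Agent.QG (ew)
open scoped ENNReal

noncomputable section

theorem mo2_neg (J : Finset ℤ) (h : ∀ j ∈ J, j < 0) : ∑ j ∈ J, (4 : ℝ) ^ (j + 1) ≤ 2 := by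
  classical
  have hinj : Set.InjOn (fun j : ℤ => (-(j + 1)).toNat) (J : Set ℤ) := by
    intro a ha b hb hab
    have h1 := h a ha
    have h2 := h b hb
    have h3 : (-(a + 1)).toNat = (-(b + 1)).toNat := hab
    omega
  have h1 : ∑ j ∈ J, (4 : ℝ) ^ (j + 1) =
      ∑ i ∈ J.image (fun j : ℤ => (-(j + 1)).toNat), (1 / 4 : ℝ) ^ i := by
    rw [Finset.sum_image hinj]
    refine Finset.sum_congr rfl fun j hj => ?_
    have h2 := h j hj
    have h3 : (((-(j + 1)).toNat : ℕ) : ℤ) = -(j + 1) := Int.toNat_of_nonneg (by omega)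
    rw [one_div, inv_pow, ← zpow_natCast, h3, zpow_neg, inv_inv]
  rw [h1]
  have h2 : Summable fun i : ℕ => (1 / 4 : ℝ) ^ i :=
    summable_geometric_of_lt_one (by norm_num) (by norm_num)
  refine (h2.sum_le_tsum _ fun i _ => by positivity).trans ?_
  rw [tsum_geometric_of_lt_one (by norm_num) (by norm_num)]
  norm_num

theorem mo2_pos (J : Finset ℕ) (V : ℝ) (K : ℕ) (hK : V ≤ 2 ^ K) :
    ∑ j ∈ J, min 1 (V / 2 ^ (j + 1)) ≤ (K : ℝ) + 1 := by
  classical
  rw [← Finset.sum_filter_add_sum_filter_not J (fun j => j < K)]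
  refine add_le_add ?_ ?_
  · calc ∑ j ∈ J.filter (fun j => j < K), min 1 (V / 2 ^ (j + 1))
        ≤ ∑ j ∈ J.filter (fun j => j < K), (1 : ℝ) :=
          Finset.sum_le_sum fun j _ => min_le_left _ _
      _ = ((J.filter (fun j => j < K)).card : ℝ) := by simp
      _ ≤ (K : ℝ) := by
          have h1 : (J.filter (fun j => j < K)).card ≤ (Finset.range K).card :=
            Finset.card_le_card fun j hj => Finset.mem_range.2 (Finset.mem_filter.1 hj).2
          rw [Finset.card_range] at h1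
          exact_mod_cast h1
  · have hinj : Set.InjOn (fun j : ℕ => j - K) ((J.filter (fun j => ¬ j < K) : Finset ℕ) : Set ℕ) := by
      intro a ha b hb hab
      have h1 := (Finset.mem_filter.1 ha).2
      have h2 := (Finset.mem_filter.1 hb).2
      have h3 : a - K = b - K := hab
      omega
    calc ∑ j ∈ J.filter (fun j => ¬ j < K), min 1 (V / 2 ^ (j + 1))
        ≤ ∑ j ∈ J.filter (fun j => ¬ j < K), (1 / 2 : ℝ) * (1 / 2) ^ (j - K) := by
          refine Finset.sum_le_sum fun j hj => (min_le_right _ _).trans ?_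
          have h1 := not_lt.1 (Finset.mem_filter.1 hj).2
          have h2 : (2 : ℝ) ^ (j + 1) = 2 ^ K * (2 * 2 ^ (j - K)) := by
            rw [← pow_succ', ← pow_add]
            congr 1
            omega
          rw [h2, div_le_iff₀ (by positivity), one_div_pow]
          have h3 : (1 / 2 : ℝ) * (1 / 2 ^ (j - K)) * (2 ^ K * (2 * 2 ^ (j - K))) = 2 ^ K := by
            field_simp
          rw [h3]
          exact hK
      _ = ∑ i ∈ (J.filter (fun j => ¬ j < K)).image (fun j => j - K),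
            (1 / 2 : ℝ) * (1 / 2) ^ i := by
          rw [Finset.sum_image hinj]
      _ = (1 / 2 : ℝ) * ∑ i ∈ (J.filter (fun j => ¬ j < K)).image (fun j => j - K),
            (1 / 2 : ℝ) ^ i := by rw [Finset.mul_sum]
      _ ≤ (1 / 2 : ℝ) * 2 := by
          refine mul_le_mul_of_nonneg_left ?_ (by norm_num)
          have h2 : Summable fun i : ℕ => (1 / 2 : ℝ) ^ i :=
            summable_geometric_of_lt_one (by norm_num) (by norm_num)
          refine (h2.sum_le_tsum _ fun i _ => by positivity).trans ?_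
          rw [tsum_geometric_of_lt_one (by norm_num) (by norm_num)]
          norm_num
      _ = 1 := by norm_num

/-- the weight of a block -/
def mo2_wt (V : ℝ) (j : ℤ) : ℝ :=
  if j < 0 then 4 * (4 : ℝ) ^ (j + 1) else 4 * min 1 (V / 2 ^ (j.toNat + 1))

theorem mo2_wt_sum (J : Finset ℤ) (V : ℝ) (hV : 1 ≤ V) :
    ∑ j ∈ J, mo2_wt V j ≤ 16 * (1 + Real.log V) := by
  classical
  obtain ⟨K, hK1, hK2⟩ : ∃ K : ℕ, V ≤ 2 ^ K ∧ (K : ℝ) ≤ 1 + 2 * Real.log V := by
    obtain ⟨K, h1, h2⟩ := exists_nat_pow_near hV (one_lt_two (α := ℝ))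
    refine ⟨K + 1, h2.le, ?_⟩
    have h3 : (K : ℝ) * Real.log 2 ≤ Real.log V := by
      have h4 := Real.log_le_log (by positivity) h1
      rwa [Real.log_pow] at h4
    have h5 := Real.log_two_gt_d9
    have h6 : (0 : ℝ) ≤ K := Nat.cast_nonneg _
    push_cast
    nlinarith
  rw [← Finset.sum_filter_add_sum_filter_not J (fun j => j < 0)]
  have h1 : ∑ j ∈ J.filter (fun j => j < 0), mo2_wt V j ≤ 8 := by
    have h2 : ∑ j ∈ J.filter (fun j => j < 0), mo2_wt V j =
        4 * ∑ j ∈ J.filter (fun j => j < 0), (4 : ℝ) ^ (j + 1) := by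
      rw [Finset.mul_sum]
      refine Finset.sum_congr rfl fun j hj => ?_
      rw [mo2_wt, if_pos (Finset.mem_filter.1 hj).2]
    have h3 := mo2_neg (J.filter (fun j => j < 0)) fun j hj => (Finset.mem_filter.1 hj).2
    rw [h2]
    linarith
  have h2 : ∑ j ∈ J.filter (fun j => ¬ j < 0), mo2_wt V j ≤ 4 * ((K : ℝ) + 1) := by
    have hinj : Set.InjOn (fun j : ℤ => j.toNat)
        ((J.filter (fun j => ¬ j < 0) : Finset ℤ) : Set ℤ) := by
      intro a ha b hb hab
      have h1 := (Finset.mem_filter.1 ha).2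
      have h2 := (Finset.mem_filter.1 hb).2
      have h3 : a.toNat = b.toNat := hab
      omega
    have h3 : ∑ j ∈ J.filter (fun j => ¬ j < 0), mo2_wt V j =
        4 * ∑ i ∈ (J.filter (fun j => ¬ j < 0)).image (fun j : ℤ => j.toNat),
          min 1 (V / 2 ^ (i + 1)) := by
      rw [Finset.sum_image hinj, Finset.mul_sum]
      refine Finset.sum_congr rfl fun j hj => ?_
      rw [mo2_wt, if_neg (Finset.mem_filter.1 hj).2]
    rw [h3]
    exact mul_le_mul_of_nonneg_left (mo2_pos _ V K hK1) (by norm_num)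
  have h3 : 0 ≤ Real.log V := Real.log_nonneg hV
  linarith

theorem mo2_exp {z : ℂ} (hz : 0 ≤ z.re) : ‖1 - cexp (-z)‖ ≤ 2 * min 1 ‖z‖ := by
  have h1 : ‖1 - cexp (-z)‖ ≤ 2 := by
    refine (norm_sub_le _ _).trans ?_
    rw [norm_one, Complex.norm_exp, Complex.neg_re]
    have h2 : Real.exp (-z.re) ≤ 1 := Real.exp_le_one_iff.2 (by linarith)
    linarith
  rcases le_total ‖z‖ 1 with h | h
  · rw [min_eq_right h, norm_sub_rev]
    have h2 := Complex.norm_exp_sub_one_le (x := -z) (by rwa [norm_neg])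
    rwa [norm_neg] at h2
  · rw [min_eq_left h, mul_one]
    exact h1

theorem mo2_term {w : ℂ} (hw : 0 ≤ w.re) {LL V : ℝ} (hLL : 1 ≤ LL) (hV : 1 ≤ V)
    (hwV : ‖w‖ * LL ≤ V) {p : ℕ} (hp : p.Prime) {j : ℤ}
    (h1 : (2 : ℝ) ^ j < ‖w‖ * Real.log p) (h2 : ‖w‖ * Real.log p ≤ (2 : ℝ) ^ (j + 1)) :
    ‖1 - (p : ℂ) ^ (-w)‖ ^ 2 * (p : ℝ) ^ (-1 - 2 / LL) ≤ mo2_wt V j * (1 / p) := by
  have hp0 : (0 : ℝ) < p := by exact_mod_cast hp.pos
  have hp1 : (1 : ℝ) < p := by exact_mod_cast hp.one_lt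
  have hlp : 0 < Real.log p := Real.log_pos hp1
  have hLL0 : 0 < LL := by linarith
  have hV0 : 0 < V := by linarith
  have e1 : (p : ℂ) ^ (-w) = cexp (-(w * Real.log p)) := by
    rw [Complex.cpow_def_of_ne_zero (by exact_mod_cast hp.ne_zero), ← Complex.natCast_log]
    congr 1
    ring
  have e2 : ‖w * (Real.log p : ℂ)‖ = ‖w‖ * Real.log p := by
    rw [norm_mul, Complex.norm_real, Real.norm_eq_abs, abs_of_pos hlp]
  have e3 : ‖1 - (p : ℂ) ^ (-w)‖ ^ 2 ≤ 4 * (min 1 (‖w‖ * Real.log p)) ^ 2 := by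
    have h3 : 0 ≤ (w * (Real.log p : ℂ)).re := by
      rw [Complex.re_mul_ofReal]
      exact mul_nonneg hw hlp.le
    have h4 := mo2_exp h3
    rw [e2, ← e1] at h4
    calc ‖1 - (p : ℂ) ^ (-w)‖ ^ 2 ≤ (2 * min 1 (‖w‖ * Real.log p)) ^ 2 :=
          pow_le_pow_left₀ (norm_nonneg _) h4 2
      _ = _ := by ring
  have e4 : (p : ℝ) ^ (-1 - 2 / LL) = Real.exp (-(2 * Real.log p / LL)) * (1 / p) := by
    rw [sub_eq_add_neg, Real.rpow_add hp0, Real.rpow_neg_one, Real.rpow_def_of_pos hp0, mul_comm]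
    congr 1
    · congr 1
      ring
    · rw [one_div]
  have hm : 0 ≤ min 1 (‖w‖ * Real.log p) := le_min zero_le_one (by positivity)
  rw [e4, ← mul_assoc]
  refine mul_le_mul_of_nonneg_right ?_ (by positivity)
  have hexp1 : Real.exp (-(2 * Real.log p / LL)) ≤ 1 :=
    Real.exp_le_one_iff.2 (neg_nonpos.2 (by positivity))
  have hexp0 := Real.exp_pos (-(2 * Real.log p / LL))
  unfold mo2_wt
  split_ifs with hj
  · -- small
    have h3 : (min 1 (‖w‖ * Real.log p)) ^ 2 ≤ (4 : ℝ) ^ (j + 1) := by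
      calc (min 1 (‖w‖ * Real.log p)) ^ 2 ≤ ((2 : ℝ) ^ (j + 1)) ^ 2 :=
            pow_le_pow_left₀ hm ((min_le_right _ _).trans h2) 2
        _ = (4 : ℝ) ^ (j + 1) := by
            rw [← zpow_natCast, ← zpow_mul, mul_comm, zpow_mul]
            norm_num
    calc ‖1 - (p : ℂ) ^ (-w)‖ ^ 2 * Real.exp (-(2 * Real.log p / LL))
        ≤ ‖1 - (p : ℂ) ^ (-w)‖ ^ 2 * 1 := mul_le_mul_of_nonneg_left hexp1 (sq_nonneg _)
      _ ≤ 4 * (4 : ℝ) ^ (j + 1) := by
          rw [mul_one]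
          exact e3.trans (by linarith)
  · -- large
    have h3 : (min 1 (‖w‖ * Real.log p)) ^ 2 ≤ 1 := pow_le_one₀ hm (min_le_left _ _)
    have h4 : Real.exp (-(2 * Real.log p / LL)) ≤ min 1 (V / 2 ^ (j.toNat + 1)) := by
      refine le_min hexp1 ?_
      set y := 2 * Real.log p / LL with hy
      have hy0 : 0 < y := by positivity
      have h5 : (2 : ℝ) ^ (j.toNat + 1) / V ≤ y := by
        have h6 : (2 : ℝ) ^ j = 2 ^ j.toNat := by
          conv_lhs => rw [← Int.toNat_of_nonneg (not_lt.1 hj), zpow_natCast]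
        rw [h6] at h1
        rw [hy, div_le_div_iff₀ hV0 hLL0, pow_succ]
        have h7 : (2 : ℝ) ^ j.toNat * LL ≤ ‖w‖ * Real.log p * LL :=
          mul_le_mul_of_nonneg_right h1.le hLL0.le
        have h8 : ‖w‖ * Real.log p * LL ≤ Real.log p * V := by
          calc ‖w‖ * Real.log p * LL = Real.log p * (‖w‖ * LL) := by ring
            _ ≤ _ := mul_le_mul_of_nonneg_left hwV hlp.le
        linarith
      have h6 : Real.exp (-y) ≤ 1 / y := by
        rw [Real.exp_neg, ← one_div]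
        refine one_div_le_one_div_of_le hy0 ?_
        have := Real.add_one_le_exp y
        linarith
      refine h6.trans ?_
      have h7 : V / 2 ^ (j.toNat + 1) = 1 / ((2 : ℝ) ^ (j.toNat + 1) / V) := by
        rw [one_div_div]
      rw [h7]
      exact one_div_le_one_div_of_le (by positivity) h5
    calc ‖1 - (p : ℂ) ^ (-w)‖ ^ 2 * Real.exp (-(2 * Real.log p / LL))
        ≤ 4 * Real.exp (-(2 * Real.log p / LL)) :=
          mul_le_mul_of_nonneg_right (e3.trans (by linarith)) hexp0.le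
      _ ≤ _ := mul_le_mul_of_nonneg_left h4 (by norm_num)

/-- MO2: the sum over the primes -/
theorem prime_w_pr : ∃ C : ℝ, 0 < C ∧ ∀ (w : ℂ) (LL V : ℝ) (P : ℕ), 0 ≤ w.re → 1 ≤ LL → 1 ≤ V →
    ‖w‖ * LL ≤ V →
      ∑ p ∈ (Icc 1 P).filter Nat.Prime, ‖1 - (p : ℂ) ^ (-w)‖ ^ 2 * (p : ℝ) ^ (-1 - 2 / LL) ≤
        C * (1 + Real.log V) := by
  classical
  obtain ⟨C, hC, hps, -, -⟩ := Pool.Agent.SGN.prime_sums
  refine ⟨C * 16, by positivity, fun w LL V P hw hLL hV hwV => ?_⟩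
  have hlV : 0 ≤ Real.log V := Real.log_nonneg hV
  by_cases hw0 : w = 0
  · have h1 : ∑ p ∈ (Icc 1 P).filter Nat.Prime,
        ‖1 - (p : ℂ) ^ (-w)‖ ^ 2 * (p : ℝ) ^ (-1 - 2 / LL) = 0 := by
      refine Finset.sum_eq_zero fun p _ => ?_
      rw [hw0, neg_zero, Complex.cpow_zero, sub_self, norm_zero]
      ring
    rw [h1]
    positivity
  have hwn : 0 < ‖w‖ := norm_pos_iff.2 hw0
  have hidx : ∀ p : ℕ, ∃ j : ℤ, p.Prime → (2 : ℝ) ^ j < ‖w‖ * Real.log p ∧
      ‖w‖ * Real.log p ≤ (2 : ℝ) ^ (j + 1) := by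
    intro p
    by_cases hp : p.Prime
    · have h1 : 0 < ‖w‖ * Real.log p :=
        mul_pos hwn (Real.log_pos (by exact_mod_cast hp.one_lt))
      obtain ⟨j, h2, h3⟩ := exists_mem_Ioc_zpow h1 (one_lt_two (α := ℝ))
      exact ⟨j, fun _ => ⟨h2, h3⟩⟩
    · exact ⟨0, fun h => absurd h hp⟩
  choose idx hidx using hidx
  set A := (Icc 1 P).filter Nat.Prime with hA
  have hAp : ∀ p ∈ A, p.Prime := fun p hp => (Finset.mem_filter.1 hp).2
  rw [← Finset.sum_fiberwise_of_maps_to (t := A.image idx)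
    (fun p hp => Finset.mem_image_of_mem idx hp)]
  have hfib : ∀ j ∈ A.image idx, ∑ p ∈ A.filter (fun p => idx p = j),
      ‖1 - (p : ℂ) ^ (-w)‖ ^ 2 * (p : ℝ) ^ (-1 - 2 / LL) ≤ mo2_wt V j * C := by
    intro j _
    have hwt : 0 ≤ mo2_wt V j := by
      unfold mo2_wt
      split_ifs
      · positivity
      · have : 0 ≤ min 1 (V / 2 ^ (j.toNat + 1)) := le_min zero_le_one (by positivity)
        linarith
    set u : ℝ := Real.exp ((2 : ℝ) ^ j / ‖w‖) with hu
    have hu1 : 1 ≤ u := Real.one_le_exp (by positivity)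
    calc ∑ p ∈ A.filter (fun p => idx p = j),
          ‖1 - (p : ℂ) ^ (-w)‖ ^ 2 * (p : ℝ) ^ (-1 - 2 / LL)
        ≤ ∑ p ∈ A.filter (fun p => idx p = j), mo2_wt V j * (1 / p) := by
          refine Finset.sum_le_sum fun p hp => ?_
          obtain ⟨hpA, hpj⟩ := Finset.mem_filter.1 hp
          obtain ⟨h1, h2⟩ := hidx p (hAp p hpA)
          rw [hpj] at h1 h2
          exact mo2_term hw hLL hV hwV (hAp p hpA) h1 h2
      _ = mo2_wt V j * ∑ p ∈ A.filter (fun p => idx p = j), (1 / (p : ℝ)) := by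
          rw [Finset.mul_sum]
      _ ≤ mo2_wt V j * ∑ p ∈ (pl (u ^ 2)).filter (fun p : ℕ => u < (p : ℝ)), (1 / (p : ℝ)) := by
          refine mul_le_mul_of_nonneg_left ?_ hwt
          refine Finset.sum_le_sum_of_subset_of_nonneg ?_ fun p _ _ => by positivity
          intro p hp
          obtain ⟨hpA, hpj⟩ := Finset.mem_filter.1 hp
          have hpp := hAp p hpA
          have hp0 : (0 : ℝ) < p := by exact_mod_cast hpp.pos
          obtain ⟨h1, h2⟩ := hidx p hpp
          rw [hpj] at h1 h2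
          have h3 : u < (p : ℝ) := by
            rw [hu, ← Real.lt_log_iff_exp_lt hp0, div_lt_iff₀ hwn, mul_comm]
            exact h1
          have h4 : (p : ℝ) ≤ u ^ 2 := by
            rw [hu, ← Real.exp_nat_mul, ← Real.log_le_iff_le_exp hp0]
            have h5 : ((2 : ℕ) : ℝ) * ((2 : ℝ) ^ j / ‖w‖) = (2 : ℝ) ^ (j + 1) / ‖w‖ := by
              rw [zpow_add_one₀ two_ne_zero]
              push_cast
              ring
            rw [h5, le_div_iff₀ hwn, mul_comm]
            exact h2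
          refine Finset.mem_filter.2 ⟨?_, h3⟩
          unfold pl
          refine Finset.mem_filter.2 ⟨Finset.mem_range.2 ?_, hpp⟩
          exact Nat.lt_succ_of_le (Nat.le_floor h4)
      _ ≤ mo2_wt V j * C := mul_le_mul_of_nonneg_left (hps u (u ^ 2) hu1 le_rfl) hwt
  calc ∑ j ∈ A.image idx, ∑ p ∈ A.filter (fun p => idx p = j),
        ‖1 - (p : ℂ) ^ (-w)‖ ^ 2 * (p : ℝ) ^ (-1 - 2 / LL)
      ≤ ∑ j ∈ A.image idx, mo2_wt V j * C := Finset.sum_le_sum hfib
    _ = C * ∑ j ∈ A.image idx, mo2_wt V j := by rw [← Finset.sum_mul, mul_comm]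
    _ ≤ C * (16 * (1 + Real.log V)) :=
        mul_le_mul_of_nonneg_left (mo2_wt_sum _ V hV) (by linarith)
    _ = C * 16 * (1 + Real.log V) := by ring

end

end Pool.Agent.DN

namespace Pool.Agent.DN

theorem prime_w : type_of% @prime_w_pr := @prime_w_pr

end Pool.Agent.DN
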