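import Pool.Agent.Lib_helper61.DNF.MO2

/-! Block MO3. -/

set_option autoImplicit false

namespace Pool.Agent.DN

open MeasureTheory Complex Finset
open Pool.Agent.SGN Pool.Agent.BX
open Pool.Agent.QG (ew)
open scoped ENNReal

noncomputable section

/-- Cauchy-Schwarz with a weight -/
theorem mo3_cs {f g : ℝ → ℝ} (hf : ∀ u, 0 ≤ f u) (h0 : Integrable f)
    (h1 : Integrable fun u => f u * g u) (h2 : Integrable fun u => f u * g u ^ 2) :
    (∫ u, f u * g u) ^ 2 ≤ (∫ u, f u) * ∫ u, f u * g u ^ 2 := by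
  have key : ∀ x : ℝ, 0 ≤ (∫ u, f u) * (x * x) + (-2 * ∫ u, f u * g u) * x +
      ∫ u, f u * g u ^ 2 := by
    intro x
    have h3 : (∫ u, f u) * (x * x) + (-2 * ∫ u, f u * g u) * x + ∫ u, f u * g u ^ 2 =
        ∫ u, (f u * (x * x) + (f u * g u) * (-2 * x) + f u * g u ^ 2) := by
      have e1 : (∫ u, (f u * (x * x) + (f u * g u) * (-2 * x) + f u * g u ^ 2)) =
          (∫ u, (f u * (x * x) + (f u * g u) * (-2 * x))) + ∫ u, f u * g u ^ 2 :=
        integral_add ((h0.mul_const (x * x)).add (h1.mul_const (-2 * x))) h2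
      have e2 : (∫ u, (f u * (x * x) + (f u * g u) * (-2 * x))) =
          (∫ u, f u * (x * x)) + ∫ u, (f u * g u) * (-2 * x) :=
        integral_add (h0.mul_const _) (h1.mul_const _)
      rw [e1, e2, integral_mul_const, integral_mul_const]
      ring
    rw [h3]
    apply integral_nonneg
    intro u
    show 0 ≤ f u * (x * x) + (f u * g u) * (-2 * x) + f u * g u ^ 2
    have : f u * (x * x) + (f u * g u) * (-2 * x) + f u * g u ^ 2 = f u * (g u - x) ^ 2 := by
      ring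
    rw [this]
    exact mul_nonneg (hf u) (sq_nonneg _)
  have := discrim_le_zero key
  unfold discrim at this
  nlinarith

theorem mo3_pow (k : ℕ) (hk : 1 ≤ k) (L t u : ℝ) :
    (((k : ℝ) ^ t : ℝ) : ℂ) * cexp (-((1 + u * I) * ((Real.log k / L : ℝ) : ℂ))) =
      (k : ℂ) ^ (-(((1 + u * I) / L : ℂ) - t)) := by
  have hk0 : (k : ℂ) ≠ 0 := by exact_mod_cast (by omega : k ≠ 0)
  have hk1 : (0 : ℝ) < k := by exact_mod_cast hk
  rw [Complex.cpow_def_of_ne_zero hk0, ← Complex.natCast_log, Real.rpow_def_of_pos hk1,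
    Complex.ofReal_exp, ← Complex.exp_add]
  congr 1
  push_cast
  ring

theorem mo3_norm_pow (k : ℕ) (hk : 1 ≤ k) (w : ℂ) (hw : 0 ≤ w.re) : ‖(k : ℂ) ^ (-w)‖ ≤ 1 := by
  rw [Complex.norm_natCast_cpow_of_pos (by omega)]
  apply Real.rpow_le_one_of_one_le_of_nonpos (by exact_mod_cast hk)
  rw [Complex.neg_re]
  linarith

/-- the shifted point -/
def mo3w (L t u : ℝ) : ℂ := (1 + u * I) / L - t

theorem mo3w_re (L t u : ℝ) : (mo3w L t u).re = 1 / L - t := by
  unfold mo3w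
  rw [Complex.sub_re, Complex.div_ofReal_re]
  simp

theorem mo3_Hr_cont (lam : ℕ → ℂ) (L t : ℝ) (r : ℕ) (_hr : 1 ≤ r) :
    Continuous fun u : ℝ => Hr lam (mo3w L t u) r := by
  unfold Hr
  apply continuous_finsetSum
  intro k hk
  have hk1 : k ≠ 0 := (Nat.pos_of_mem_divisors hk).ne'
  have hk0 : (k : ℂ) ≠ 0 := by exact_mod_cast hk1
  apply Continuous.mul continuous_const
  unfold mo3w
  apply Continuous.const_cpow _ (Or.inl hk0)
  fun_prop

theorem mo3_Hr_bd (lam : ℕ → ℂ) (w : ℂ) (hw : 0 ≤ w.re) (r : ℕ) :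
    ‖Hr lam w r‖ ≤ ∑ k ∈ r.divisors, ‖lam (r / k) * minv lam k‖ := by
  unfold Hr
  refine le_trans (norm_sum_le _ _) (sum_le_sum fun k hk => ?_)
  rw [norm_mul]
  exact mul_le_of_le_one_right (norm_nonneg _)
    (mo3_norm_pow k (Nat.pos_of_mem_divisors hk) w hw)

theorem mo3_phi_int {φ : ℝ → ℂ} (hφ : Continuous φ)
    (hφ1 : ∀ B : ℕ, Integrable fun u : ℝ => ‖φ u‖ * (1 + |u|) ^ B) : Integrable φ := by
  have h := hφ1 0
  simp only [pow_zero, mul_one] at h
  exact (integrable_norm_iff hφ.aestronglyMeasurable).1 h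

/-- the formula -/
theorem mo3_formula {φ : ℝ → ℂ} (hφ : Continuous φ)
    (hφ1 : ∀ B : ℕ, Integrable fun u : ℝ => ‖φ u‖ * (1 + |u|) ^ B)
    (hφ2 : ∀ x : ℝ, ((cut x : ℝ) : ℂ) = ∫ u : ℝ, φ u * cexp (-((1 + u * I) * x)))
    (lam : ℕ → ℂ) (y : ℕ) (hy : 2 ≤ y) (t : ℝ) (r : ℕ) (hr : 1 ≤ r) :
    vA lam y t r = rt r * ∫ u : ℝ, φ u * Hr lam (mo3w (Real.log y) t u) r := by
  have hφi := mo3_phi_int hφ hφ1
  have hL : 0 < Real.log y := Real.log_pos (by exact_mod_cast (by omega : 1 < y))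
  unfold vA
  rw [← sum_filter]
  have hsub : (Icc 1 y).filter (fun k => k ∣ r) ⊆ r.divisors := by
    intro k hk
    rw [mem_filter] at hk
    exact Nat.mem_divisors.2 ⟨hk.2, by omega⟩
  rw [sum_subset hsub]
  · have h1 : ∀ k ∈ r.divisors, lam (r / k) * bk lam y k * (((k : ℝ) ^ t : ℝ) : ℂ) * rt r =
        rt r * ∫ u : ℝ, φ u * (lam (r / k) * minv lam k *
          (k : ℂ) ^ (-(mo3w (Real.log y) t u))) := by
      intro k hk
      have hk1 : 1 ≤ k := Nat.pos_of_mem_divisors hk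
      unfold bk
      rw [hφ2]
      have h2 : ∀ u : ℝ, φ u * (lam (r / k) * minv lam k * (k : ℂ) ^ (-(mo3w (Real.log y) t u))) =
          (lam (r / k) * minv lam k * (((k : ℝ) ^ t : ℝ) : ℂ)) *
            (φ u * cexp (-((1 + u * I) * ((Real.log k / Real.log y : ℝ) : ℂ)))) := by
        intro u
        unfold mo3w
        rw [← mo3_pow k hk1]
        ring
      simp only [h2]
      rw [integral_const_mul]
      ring
    rw [sum_congr rfl h1, ← mul_sum, ← integral_finsetSum]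
    · congr 1
      apply integral_congr_ae
      filter_upwards with u
      unfold Hr
      rw [mul_sum]
    · intro k hk
      have hk1 : k ≠ 0 := (Nat.pos_of_mem_divisors hk).ne'
      have hk0 : (k : ℂ) ≠ 0 := by exact_mod_cast hk1
      have hc : Continuous fun u : ℝ => lam (r / k) * minv lam k *
          (k : ℂ) ^ (-(mo3w (Real.log y) t u)) := by
        apply Continuous.mul continuous_const
        unfold mo3w
        apply Continuous.const_cpow _ (Or.inl hk0)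
        fun_prop
      apply hφi.mul_bdd (c := ‖lam (r / k) * minv lam k‖ * (k : ℝ) ^ (-(1 / Real.log y - t)))
        hc.aestronglyMeasurable
      filter_upwards with u
      rw [norm_mul, Complex.norm_natCast_cpow_of_pos (Nat.pos_of_ne_zero hk1), Complex.neg_re,
        mo3w_re]
  · intro k hk hk'
    have hk1 : 1 ≤ k := Nat.pos_of_mem_divisors hk
    have hkd : k ∣ r := Nat.dvd_of_mem_divisors hk
    have hky : y < k := by
      by_contra h
      exact hk' (mem_filter.2 ⟨mem_Icc.2 ⟨hk1, by omega⟩, hkd⟩)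
    have hcut : cut (Real.log k / Real.log y) = 0 := by
      apply (cut_facts _).2.2.2
      have h3 : Real.log y ≤ Real.log k :=
        Real.log_le_log (by exact_mod_cast (by omega : 0 < y)) (by exact_mod_cast hky.le)
      have h4 : 1 ≤ Real.log k / Real.log y := (one_le_div hL).2 h3
      exact le_trans h4 (le_abs_self _)
    unfold bk
    rw [hcut]
    simp

/-- MO3: the pointwise estimate -/
theorem vA_sum_pr {n : ℕ} (hn : 1 ≤ n) {θ : ℝ} (hθ : 0 < θ) : ∃ C : ℝ, 0 < C ∧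
    ∀ lam : ℕ → ℂ, Temp n lam → ∀ (LL : ℝ) (y : ℕ), 1 ≤ LL → 2 ≤ y → θ * LL ≤ Real.log y →
    Real.log y ≤ LL / 4 → ∀ t : ℝ, 0 ≤ t → t ≤ 2 / LL → ∀ R : Finset ℕ, (∀ r ∈ R, 1 ≤ r) →
      ∑ r ∈ R, ‖vA lam y t r‖ ^ 2 * (r : ℝ) ^ (-(2 / LL)) ≤ C := by
  obtain ⟨φ, hφ, hφ1, hφ2⟩ := cut_rep
  obtain ⟨C₁, hC₁, hHr⟩ := Hr_sum hn
  obtain ⟨C₂, hC₂, hpw⟩ := prime_w
  have hφi := mo3_phi_int hφ hφ1
  set B : ℕ := ⌈C₁ * C₂⌉₊ with hB
  set m : ℝ := ∫ u, ‖φ u‖ with hm
  have hm0 : 0 ≤ m := integral_nonneg fun u => norm_nonneg _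
  set K : ℝ := Real.exp (C₁ * C₂) * (1 / θ + 2) ^ B with hK
  have hK0 : 0 < K := by positivity
  set S : ℝ := ∫ u : ℝ, ‖φ u‖ * (1 + |u|) ^ B with hS
  have hS0 : 0 ≤ S := integral_nonneg fun u => by positivity
  refine ⟨m * (K * S) + 1, by positivity, ?_⟩
  intro lam hlam LL y hLL hy hθy hyL t ht htL R hR
  have hLL0 : 0 < LL := by linarith
  have hL : 0 < Real.log y := Real.log_pos (by exact_mod_cast (by omega : 1 < y))
  -- the real part
  have hre : ∀ u : ℝ, 0 ≤ (mo3w (Real.log y) t u).re := by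
    intro u
    rw [mo3w_re]
    have h1 : 4 / LL ≤ 1 / Real.log y := by
      rw [div_le_div_iff₀ hLL0 hL]
      linarith
    have h2 : 2 / LL ≤ 4 / LL := by
      apply div_le_div_of_nonneg_right _ hLL0.le
      norm_num
    linarith
  -- the size
  have hsz : ∀ u : ℝ, ‖mo3w (Real.log y) t u‖ * LL ≤ (1 / θ + 2) * (1 + |u|) := by
    intro u
    unfold mo3w
    have h1 : ‖((1 + u * I) / (Real.log y : ℂ) - t : ℂ)‖ ≤ (1 + |u|) / Real.log y + t := by
      refine le_trans (norm_sub_le _ _) ?_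
      apply add_le_add
      · rw [norm_div, Complex.norm_real, Real.norm_eq_abs, abs_of_pos hL]
        apply div_le_div_of_nonneg_right _ hL.le
        refine le_trans (norm_add_le _ _) ?_
        simp
      · rw [Complex.norm_real, Real.norm_eq_abs, abs_of_nonneg ht]
    have h2 : ((1 + |u|) / Real.log y + t) * LL ≤ (1 + |u|) * (1 / θ) + 2 := by
      have h3 : (1 + |u|) / Real.log y * LL ≤ (1 + |u|) * (1 / θ) := by
        rw [div_mul_eq_mul_div, mul_one_div, div_le_div_iff₀ hL hθ]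
        have : 0 ≤ 1 + |u| := by positivity
        nlinarith
      have h4 : t * LL ≤ 2 := by
        rwa [le_div_iff₀ hLL0] at htL
      rw [add_mul]
      linarith
    have h5 : 0 ≤ |u| := abs_nonneg u
    calc ‖((1 + u * I) / (Real.log y : ℂ) - t : ℂ)‖ * LL
        ≤ ((1 + |u|) / Real.log y + t) * LL := mul_le_mul_of_nonneg_right h1 hLL0.le
      _ ≤ (1 + |u|) * (1 / θ) + 2 := h2
      _ ≤ (1 / θ + 2) * (1 + |u|) := by
        have : 0 ≤ 2 * |u| := by positivity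
        nlinarith
  -- the sum of squares
  have hsum : ∀ u : ℝ, ∑ r ∈ R, ‖Hr lam (mo3w (Real.log y) t u) r‖ ^ 2 *
      (r : ℝ) ^ (-1 - 2 / LL) ≤ K * (1 + |u|) ^ B := by
    intro u
    have hV1 : 1 ≤ (1 / θ + 2) * (1 + |u|) := by
      have h1 : 0 < 1 / θ := by positivity
      have h2 : 0 ≤ |u| := abs_nonneg u
      nlinarith
    have h1 := hHr lam hlam (mo3w (Real.log y) t u) (hre u) (2 / LL) (by positivity) (R.sup id) R
      (fun r hr => ⟨hR r hr, Finset.le_sup (f := id) hr⟩)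
    have h2 := hpw (mo3w (Real.log y) t u) LL ((1 / θ + 2) * (1 + |u|)) (R.sup id) (hre u) hLL
      hV1 (hsz u)
    refine le_trans h1 ?_
    have h3 : C₁ * ∑ p ∈ (Icc 1 (R.sup id)).filter Nat.Prime,
        ‖1 - (p : ℂ) ^ (-(mo3w (Real.log y) t u))‖ ^ 2 * (p : ℝ) ^ (-1 - 2 / LL) ≤
        C₁ * C₂ + (B : ℝ) * Real.log ((1 / θ + 2) * (1 + |u|)) := by
      have h4 : 0 ≤ Real.log ((1 / θ + 2) * (1 + |u|)) := Real.log_nonneg hV1
      have h5 : C₁ * C₂ ≤ (B : ℝ) := Nat.le_ceil _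
      have h6 := mul_le_mul_of_nonneg_left h2 hC₁.le
      have h7 := mul_le_mul_of_nonneg_right h5 h4
      nlinarith
    refine le_trans (Real.exp_le_exp.2 h3) ?_
    have e9 : Real.exp ((B : ℝ) * Real.log ((1 / θ + 2) * (1 + |u|))) =
        ((1 / θ + 2) * (1 + |u|)) ^ B := by
      rw [mul_comm, Real.exp_mul, Real.exp_log (by linarith), Real.rpow_natCast]
    rw [Real.exp_add, e9, mul_pow, hK]
    exact (by ring : Real.exp (C₁ * C₂) * ((1 / θ + 2) ^ B * (1 + |u|) ^ B) =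
      Real.exp (C₁ * C₂) * (1 / θ + 2) ^ B * (1 + |u|) ^ B).le
  -- integrability
  have hint1 : ∀ r ∈ R, Integrable fun u : ℝ => ‖φ u‖ *
      ‖Hr lam (mo3w (Real.log y) t u) r‖ := by
    intro r hr
    apply hφi.norm.mul_bdd (c := ∑ k ∈ r.divisors, ‖lam (r / k) * minv lam k‖)
      ((mo3_Hr_cont lam _ t r (hR r hr)).norm.aestronglyMeasurable)
    filter_upwards with u
    rw [norm_norm]
    exact mo3_Hr_bd lam _ (hre u) r
  have hint2 : ∀ r ∈ R, Integrable fun u : ℝ => ‖φ u‖ *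
      ‖Hr lam (mo3w (Real.log y) t u) r‖ ^ 2 := by
    intro r hr
    apply hφi.norm.mul_bdd (c := (∑ k ∈ r.divisors, ‖lam (r / k) * minv lam k‖) ^ 2)
      (((mo3_Hr_cont lam _ t r (hR r hr)).norm.pow 2).aestronglyMeasurable)
    filter_upwards with u
    show ‖‖Hr lam (mo3w (Real.log y) t u) r‖ ^ 2‖ ≤ _
    rw [norm_pow, norm_norm]
    exact pow_le_pow_left₀ (norm_nonneg _) (mo3_Hr_bd lam _ (hre u) r) 2
  -- one r
  have hone : ∀ r ∈ R, ‖vA lam y t r‖ ^ 2 * (r : ℝ) ^ (-(2 / LL)) ≤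
      m * ∫ u : ℝ, ‖φ u‖ * (‖Hr lam (mo3w (Real.log y) t u) r‖ ^ 2 *
        (r : ℝ) ^ (-1 - 2 / LL)) := by
    intro r hr
    have hr1 := hR r hr
    have hr0 : (0 : ℝ) < r := by exact_mod_cast hr1
    rw [mo3_formula hφ hφ1 hφ2 lam y hy t r hr1, norm_mul, mul_pow]
    have h1 : ‖rt r‖ ^ 2 = (r : ℝ) ^ (-1 : ℝ) := by
      unfold rt
      rw [Complex.norm_real, Real.norm_eq_abs, abs_of_pos (Real.rpow_pos_of_pos hr0 _),
        ← Real.rpow_natCast, ← Real.rpow_mul hr0.le]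
      norm_num
    have h2 : ‖∫ u : ℝ, φ u * Hr lam (mo3w (Real.log y) t u) r‖ ^ 2 ≤
        m * ∫ u : ℝ, ‖φ u‖ * ‖Hr lam (mo3w (Real.log y) t u) r‖ ^ 2 := by
      refine le_trans (pow_le_pow_left₀ (norm_nonneg _) (norm_integral_le_integral_norm _) 2) ?_
      simp only [norm_mul]
      exact mo3_cs (fun u => norm_nonneg _) hφi.norm (hint1 r hr) (hint2 r hr)
    have h3 : (∫ u : ℝ, ‖φ u‖ * (‖Hr lam (mo3w (Real.log y) t u) r‖ ^ 2 *
        (r : ℝ) ^ (-1 - 2 / LL))) = (∫ u : ℝ, ‖φ u‖ *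
          ‖Hr lam (mo3w (Real.log y) t u) r‖ ^ 2) * (r : ℝ) ^ (-1 - 2 / LL) := by
      rw [← integral_mul_const]
      apply integral_congr_ae
      filter_upwards with u
      ring
    have h4 : (r : ℝ) ^ (-1 - 2 / LL) = (r : ℝ) ^ (-1 : ℝ) * (r : ℝ) ^ (-(2 / LL)) := by
      rw [← Real.rpow_add hr0]
      congr 1
    rw [h1, h3, h4]
    have h5 : 0 ≤ (r : ℝ) ^ (-1 : ℝ) * (r : ℝ) ^ (-(2 / LL)) := by positivity
    have h6 := mul_le_mul_of_nonneg_right h2 h5
    nlinarith [h6]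
  calc ∑ r ∈ R, ‖vA lam y t r‖ ^ 2 * (r : ℝ) ^ (-(2 / LL))
      ≤ ∑ r ∈ R, m * ∫ u : ℝ, ‖φ u‖ * (‖Hr lam (mo3w (Real.log y) t u) r‖ ^ 2 *
        (r : ℝ) ^ (-1 - 2 / LL)) := sum_le_sum hone
    _ = m * ∫ u : ℝ, ‖φ u‖ * ∑ r ∈ R, ‖Hr lam (mo3w (Real.log y) t u) r‖ ^ 2 *
        (r : ℝ) ^ (-1 - 2 / LL) := by
      rw [← mul_sum, ← integral_finsetSum]
      · simp only [mul_sum]
      · intro r hr
        simp only [← mul_assoc]
        exact (hint2 r hr).mul_const _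
    _ ≤ m * ∫ u : ℝ, ‖φ u‖ * (K * (1 + |u|) ^ B) := by
      apply mul_le_mul_of_nonneg_left _ hm0
      apply integral_mono_of_nonneg
      · filter_upwards with u
        positivity
      · have := (hφ1 B).const_mul K
        refine this.congr ?_
        filter_upwards with u
        ring
      · filter_upwards with u
        exact mul_le_mul_of_nonneg_left (hsum u) (norm_nonneg _)
    _ = m * (K * S) := by
      congr 1
      rw [hS, ← integral_const_mul]
      apply integral_congr_ae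
      filter_upwards with u
      ring
    _ ≤ m * (K * S) + 1 := by linarith

end

end Pool.Agent.DN

namespace Pool.Agent.DN

theorem vA_sum : type_of% @vA_sum_pr := @vA_sum_pr

end Pool.Agent.DN
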