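import Pool.Agent.Lib_helper61.DNF.MO3

/-!
# DN, block MO4: the norms in the model, natural numbers
-/

set_option autoImplicit false

namespace Pool.Agent.DN

open MeasureTheory Complex Finset
open Pool.Agent.SGN Pool.Agent.BX
open Pool.Agent.QG (ew)
open scoped ENNReal

noncomputable section

theorem vA_model_pr {n : ℕ} (hn : 1 ≤ n) {θ : ℝ} (hθ : 0 < θ) : ∃ C : ℝ, 0 < C ∧
    ∀ M : Model n, ∀ (q y : ℕ), 3 ≤ q → 2 ≤ y → θ * Real.log q ≤ Real.log y →
    Real.log y ≤ Real.log q / 4 → ∀ R : Finset ℕ, (∀ r ∈ R, 1 ≤ r ∧ r ≤ q) →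
      ∑ r ∈ R, M.EE (fun w => ‖vA (fun m => M.X m w) y 0 r‖ ^ 2) ≤ C := by
  classical
  obtain ⟨C, hC, h⟩ := vA_sum hn hθ
  refine ⟨Real.exp 2 * C, by positivity, ?_⟩
  intro M q y hq hy h1 h2 R hR
  letI := M.ms
  haveI := M.pr
  have hq0 : (0 : ℝ) < q := by positivity
  have hLL : 1 ≤ Real.log q := by
    rw [Real.le_log_iff_exp_le hq0]
    have h3 : (3 : ℝ) ≤ q := by exact_mod_cast hq
    linarith [Real.exp_one_lt_three]
  have hpt : ∀ w, ∀ R' ⊆ R, ∑ r ∈ R', ‖vA (fun m => M.X m w) y 0 r‖ ^ 2 ≤ Real.exp 2 * C := by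
    intro w R' hR'
    have h3 := h (fun m => M.X m w) (M.temp w) (Real.log q) y hLL hy h1 h2 0 (le_refl _)
      (by positivity) R' (fun r hr => (hR r (hR' hr)).1)
    have h4 : ∀ r ∈ R', ‖vA (fun m => M.X m w) y 0 r‖ ^ 2 ≤
        Real.exp 2 * (‖vA (fun m => M.X m w) y 0 r‖ ^ 2 * (r : ℝ) ^ (-(2 / Real.log q))) := by
      intro r hr
      obtain ⟨hr1, hr2⟩ := hR r (hR' hr)
      have hr0 : (0 : ℝ) < r := by exact_mod_cast hr1
      have h5 : Real.exp (-2) ≤ (r : ℝ) ^ (-(2 / Real.log q)) := by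
        rw [Real.rpow_def_of_pos hr0]
        apply Real.exp_le_exp.2
        have h6 : Real.log r ≤ Real.log q := Real.log_le_log hr0 (by exact_mod_cast hr2)
        have h7 : (0 : ℝ) < Real.log q := by linarith
        have h8 : Real.log r * (2 / Real.log q) ≤ 2 := by
          rw [mul_div_assoc', div_le_iff₀ h7]
          linarith
        linarith
      have h9 : (1 : ℝ) ≤ Real.exp 2 * (r : ℝ) ^ (-(2 / Real.log q)) := by
        calc (1 : ℝ) = Real.exp 2 * Real.exp (-2) := by rw [← Real.exp_add]; simp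
          _ ≤ _ := by gcongr
      have h10 : (0 : ℝ) ≤ ‖vA (fun m => M.X m w) y 0 r‖ ^ 2 := by positivity
      calc ‖vA (fun m => M.X m w) y 0 r‖ ^ 2 = 1 * ‖vA (fun m => M.X m w) y 0 r‖ ^ 2 := by ring
        _ ≤ (Real.exp 2 * (r : ℝ) ^ (-(2 / Real.log q))) *
            ‖vA (fun m => M.X m w) y 0 r‖ ^ 2 := by gcongr
        _ = _ := by ring
    calc _ ≤ ∑ r ∈ R', Real.exp 2 * (‖vA (fun m => M.X m w) y 0 r‖ ^ 2 *
          (r : ℝ) ^ (-(2 / Real.log q))) := Finset.sum_le_sum h4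
      _ = Real.exp 2 * ∑ r ∈ R', ‖vA (fun m => M.X m w) y 0 r‖ ^ 2 *
          (r : ℝ) ^ (-(2 / Real.log q)) := by rw [Finset.mul_sum]
      _ ≤ _ := by gcongr
  set f : ℕ → M.Om → ℝ := fun r w => ‖vA (fun m => M.X m w) y 0 r‖ ^ 2 with hf
  set R' := R.filter (fun r => Integrable (f r) M.P) with hR'
  calc ∑ r ∈ R, M.EE (fun w => ‖vA (fun m => M.X m w) y 0 r‖ ^ 2)
      = ∑ r ∈ R, if Integrable (f r) M.P then ∫ w, f r w ∂M.P else 0 := by
        refine Finset.sum_congr rfl fun r _ => ?_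
        by_cases hi : Integrable (f r) M.P
        · rw [if_pos hi]; rfl
        · rw [if_neg hi]
          exact integral_undef hi
    _ = ∑ r ∈ R', ∫ w, f r w ∂M.P := by rw [hR', Finset.sum_filter]
    _ = ∫ w, ∑ r ∈ R', f r w ∂M.P := by
        rw [integral_finsetSum]
        intro r hr
        exact (Finset.mem_filter.1 hr).2
    _ ≤ ∫ _w, Real.exp 2 * C ∂M.P := by
        refine integral_mono ?_ (integrable_const _) fun w => ?_
        · refine integrable_finsetSum _ fun r hr => ?_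
          exact (Finset.mem_filter.1 hr).2
        · exact hpt w R' (Finset.filter_subset _ _)
    _ = Real.exp 2 * C := by simp

end

end Pool.Agent.DN

namespace Pool.Agent.DN

theorem vA_model : type_of% @vA_model_pr := @vA_model_pr

end Pool.Agent.DN
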