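import Pool.Agent.Lib_helper61.DNF.MO4

/-!
# DN, block MO5: the norms in the model, rational numbers
-/

set_option autoImplicit false

namespace Pool.Agent.DN

open MeasureTheory Complex Finset
open Pool.Agent.SGN Pool.Agent.BX
open Pool.Agent.QG (ew)
open scoped ENNReal

noncomputable section

/-! ### bounded measurable functions -/

/-- bounded and measurable -/
def MO5BM {Ω : Type} [MeasurableSpace Ω] (f : Ω → ℂ) : Prop :=
  Measurable f ∧ ∃ C : ℝ, ∀ w, ‖f w‖ ≤ C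

section bm
variable {Ω : Type} [MeasurableSpace Ω]

theorem mo5_const (c : ℂ) : MO5BM (fun _ : Ω => c) := ⟨measurable_const, ‖c‖, fun _ => le_rfl⟩

theorem mo5_mul {f g : Ω → ℂ} (hf : MO5BM f) (hg : MO5BM g) : MO5BM fun w => f w * g w := by
  obtain ⟨h1, C1, h2⟩ := hf
  obtain ⟨h3, C2, h4⟩ := hg
  refine ⟨h1.mul h3, C1 * C2, fun w => ?_⟩
  rw [norm_mul]
  exact mul_le_mul (h2 w) (h4 w) (norm_nonneg _) ((norm_nonneg _).trans (h2 w))

theorem mo5_conj {f : Ω → ℂ} (hf : MO5BM f) : MO5BM fun w => (starRingEnd ℂ) (f w) := by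
  obtain ⟨h1, C1, h2⟩ := hf
  refine ⟨continuous_conj.measurable.comp h1, C1, fun w => ?_⟩
  rw [Complex.norm_conj]
  exact h2 w

theorem mo5_sum {ι : Type} (s : Finset ι) (f : ι → Ω → ℂ) (h : ∀ i ∈ s, MO5BM (f i)) :
    MO5BM fun w => ∑ i ∈ s, f i w := by
  classical
  induction s using Finset.induction_on with
  | empty => simpa using mo5_const (Ω := Ω) 0
  | insert a s ha ih =>
    obtain ⟨h1, C1, h2⟩ := h a (Finset.mem_insert_self a s)
    obtain ⟨h3, C2, h4⟩ := ih fun i hi => h i (Finset.mem_insert_of_mem hi)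
    simp only [Finset.sum_insert ha]
    exact ⟨h1.add h3, C1 + C2, fun w => (norm_add_le _ _).trans (add_le_add (h2 w) (h4 w))⟩

theorem mo5_list {ι : Type} (l : List ι) (f : ι → Ω → ℂ) (h : ∀ i ∈ l, MO5BM (f i)) :
    MO5BM fun w => (l.map fun i => f i w).prod := by
  induction l with
  | nil => simpa using mo5_const (Ω := Ω) 1
  | cons a l ih =>
    simp only [List.map_cons, List.prod_cons]
    exact mo5_mul (h a (List.mem_cons_self ..))
      (ih fun i hi => h i (List.mem_cons_of_mem a hi))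

theorem mo5_int {P : Measure Ω} [IsProbabilityMeasure P] {f : Ω → ℂ} (hf : MO5BM f) :
    Integrable f P := by
  obtain ⟨h1, C1, h2⟩ := hf
  exact Integrable.of_bound h1.aestronglyMeasurable C1 (Filter.Eventually.of_forall h2)

theorem mo5_int_sq {P : Measure Ω} [IsProbabilityMeasure P] {f : Ω → ℂ} (hf : MO5BM f) :
    Integrable (fun w => ‖f w‖ ^ 2) P := by
  obtain ⟨h1, C1, h2⟩ := hf
  refine Integrable.of_bound (h1.norm.pow_const 2).aestronglyMeasurable (C1 ^ 2)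
    (Filter.Eventually.of_forall fun w => ?_)
  rw [Real.norm_of_nonneg (by positivity)]
  exact pow_le_pow_left₀ (norm_nonneg _) (h2 w) 2

/-! ### Pythagoras -/

theorem mo5_sq (P : Measure Ω) [IsProbabilityMeasure P] {ι : Type} (I : Finset ι)
    (F : ι → Ω → ℂ) (hF : ∀ i ∈ I, MO5BM (F i)) :
    ((∫ w, ‖∑ i ∈ I, F i w‖ ^ 2 ∂P : ℝ) : ℂ) =
      ∑ i ∈ I, ∑ j ∈ I, ∫ w, F i w * (starRingEnd ℂ) (F j w) ∂P := by
  rw [← integral_complex_ofReal]
  have h1 : (fun w => ((‖∑ i ∈ I, F i w‖ ^ 2 : ℝ) : ℂ)) =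
      fun w => ∑ i ∈ I, ∑ j ∈ I, F i w * (starRingEnd ℂ) (F j w) := by
    funext w
    rw [← Finset.sum_mul_sum, ← map_sum, Complex.mul_conj, Complex.normSq_eq_norm_sq]
  have h2 : ∀ i ∈ I, ∀ j ∈ I, Integrable (fun w => F i w * (starRingEnd ℂ) (F j w)) P :=
    fun i hi j hj => mo5_int (mo5_mul (hF i hi) (mo5_conj (hF j hj)))
  have h3 : (∫ w, ((‖∑ i ∈ I, F i w‖ ^ 2 : ℝ) : ℂ) ∂P) =
      ∫ w, ∑ i ∈ I, ∑ j ∈ I, F i w * (starRingEnd ℂ) (F j w) ∂P := by rw [h1]
  refine Eq.trans h3 ?_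
  rw [integral_finsetSum _ fun i hi => integrable_finsetSum _ fun j hj => h2 i hi j hj]
  refine Finset.sum_congr rfl fun i hi => ?_
  rw [integral_finsetSum _ fun j hj => h2 i hi j hj]

theorem mo5_pyth (P : Measure Ω) [IsProbabilityMeasure P] {ι κ : Type} [DecidableEq κ]
    (I : Finset ι) (F : ι → Ω → ℂ) (hF : ∀ i ∈ I, MO5BM (F i)) (lab : ι → κ) (R : Finset κ)
    (hR : ∀ i ∈ I, lab i ∈ R)
    (h0 : ∀ i ∈ I, ∀ j ∈ I, lab i ≠ lab j → ∫ w, F i w * (starRingEnd ℂ) (F j w) ∂P = 0) :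
    ∫ w, ‖∑ i ∈ I, F i w‖ ^ 2 ∂P =
      ∑ r ∈ R, ∫ w, ‖∑ i ∈ I.filter (fun i => lab i = r), F i w‖ ^ 2 ∂P := by
  refine Complex.ofReal_injective ?_
  rw [mo5_sq P I F hF, Complex.ofReal_sum]
  have h1 : ∀ r ∈ R, ((∫ w, ‖∑ i ∈ I.filter (fun i => lab i = r), F i w‖ ^ 2 ∂P : ℝ) : ℂ) =
      ∑ i ∈ I.filter (fun i => lab i = r), ∑ j ∈ I,
        ∫ w, F i w * (starRingEnd ℂ) (F j w) ∂P := by
    intro r _
    rw [mo5_sq P _ F fun i hi => hF i (Finset.mem_filter.1 hi).1]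
    refine Finset.sum_congr rfl fun i hi => ?_
    refine Finset.sum_subset (Finset.filter_subset _ _) fun j hj hj' => ?_
    rw [Finset.mem_filter] at hi
    refine h0 i hi.1 j hj fun he => hj' (Finset.mem_filter.2 ⟨hj, ?_⟩)
    rw [← he]
    exact hi.2
  rw [Finset.sum_congr rfl h1, Finset.sum_fiberwise_of_maps_to hR]

end bm

/-! ### the bound for tempered systems -/

/-- `d_n(m) m^(-1/2)` -/
def mo5_f (n m : ℕ) : ℝ := (dn n m : ℝ) * (m : ℝ) ^ (-(1 / 2) : ℝ)

theorem mo5_f_nonneg (n m : ℕ) : 0 ≤ mo5_f n m := by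
  unfold mo5_f
  positivity

theorem mo5_dn_mul (n a b : ℕ) (h : Nat.Coprime a b) : dn n (a * b) = dn n a * dn n b := by
  unfold dn
  rw [Nat.factorization_mul_of_coprime h, Finsupp.prod_add_index_of_disjoint]
  rw [Nat.support_factorization, Nat.support_factorization]
  exact h.disjoint_primeFactors

theorem mo5_dn_pow (n p j : ℕ) (hp : p.Prime) : dn n (p ^ j) = Nat.choose (j + n - 1) j := by
  unfold dn
  rw [hp.factorization_pow, Finsupp.prod_single_index]
  simp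

theorem mo5_temp {n : ℕ} {lam : ℕ → ℂ} (h : Temp n lam) (m : ℕ) : ‖lam m‖ ≤ dn n m := by
  rcases Nat.eq_zero_or_pos m with rfl | hm
  · rw [h.zero, norm_zero]
    positivity
  rw [Nat.multiplicative_factorization lam (fun a b hab => h.mul a b hab) h.one hm.ne']
  unfold dn Finsupp.prod
  rw [norm_prod]
  push_cast
  refine Finset.prod_le_prod (fun _ _ => norm_nonneg _) fun p hp => ?_
  rw [Nat.support_factorization] at hp
  exact h.bdd p (Nat.prime_of_mem_primeFactors hp) _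

theorem mo5_summ (n N : ℕ) (hn : 1 ≤ n) :
    Summable ((Nat.smoothNumbers N).indicator (mo5_f n)) := by
  have h1 : mo5_f n 1 = 1 := by simp [mo5_f, dn]
  have h2 : ∀ {a b : ℕ}, Nat.Coprime a b → mo5_f n (a * b) = mo5_f n a * mo5_f n b := by
    intro a b hab
    unfold mo5_f
    rw [mo5_dn_mul n a b hab]
    push_cast
    rw [Real.mul_rpow (Nat.cast_nonneg _) (Nat.cast_nonneg _)]
    ring
  have h3 : ∀ {p : ℕ}, p.Prime → Summable fun j : ℕ => ‖mo5_f n (p ^ j)‖ := by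
    intro p hp
    have hp2 : (1 : ℝ) < p := by exact_mod_cast hp.one_lt
    have hr : ‖(p : ℝ) ^ (-(1 / 2) : ℝ)‖ < 1 := by
      rw [Real.norm_of_nonneg (by positivity)]
      exact Real.rpow_lt_one_of_one_lt_of_neg hp2 (by norm_num)
    refine (summable_choose_mul_geometric_of_norm_lt_one (n - 1) hr).congr fun j => ?_
    rw [Real.norm_of_nonneg (mo5_f_nonneg _ _)]
    unfold mo5_f
    rw [mo5_dn_pow n p j hp]
    have e1 : j + n - 1 = j + (n - 1) := by omega
    rw [e1, Nat.choose_symm_add]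
    congr 1
    rw [Nat.cast_pow, ← Real.rpow_natCast, ← Real.rpow_natCast,
      ← Real.rpow_mul (Nat.cast_nonneg _), ← Real.rpow_mul (Nat.cast_nonneg _), mul_comm]
  have h4 := (EulerProduct.summable_and_hasSum_smoothNumbers_prod_primesBelow_tsum
    (f := mo5_f n) h1 h2 h3 N).1
  rw [← summable_subtype_iff_indicator]
  refine h4.congr fun m => ?_
  rw [Real.norm_of_nonneg (mo5_f_nonneg _ _)]
  rfl

theorem mo5_tail (n N : ℕ) (hn : 1 ≤ n) (ε : ℝ) (hε : 0 < ε) : ∃ i : ℕ, ∀ F : Finset ℕ,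
    (∀ m ∈ F, m ∈ Nat.smoothNumbers N ∧ i ≤ m) → ∑ m ∈ F, mo5_f n m ^ 2 ≤ ε := by
  classical
  have h1 := mo5_summ n N hn
  have h0 : ∀ m, 0 ≤ (Nat.smoothNumbers N).indicator (mo5_f n) m := fun m =>
    Set.indicator_nonneg (fun m _ => mo5_f_nonneg n m) m
  have h2 : Summable fun m => (Nat.smoothNumbers N).indicator (mo5_f n) m ^ 2 := by
    refine Summable.of_nonneg_of_le (fun m => by positivity) (fun m => ?_)
      (h1.mul_left (∑' m, (Nat.smoothNumbers N).indicator (mo5_f n) m))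
    rw [pow_two]
    exact mul_le_mul_of_nonneg_right (h1.le_tsum m fun j _ => h0 j) (h0 m)
  set g := fun m => (Nat.smoothNumbers N).indicator (mo5_f n) m ^ 2 with hg
  obtain ⟨i, hi⟩ := (Metric.tendsto_atTop.1 h2.hasSum.tendsto_sum_nat) ε hε
  refine ⟨i, fun F hF => ?_⟩
  have h3 := hi i le_rfl
  rw [Real.dist_eq, abs_lt] at h3
  have h4 : ∑ m ∈ F, mo5_f n m ^ 2 = ∑ m ∈ F, g m := by
    refine Finset.sum_congr rfl fun m hm => ?_
    rw [hg]
    simp only
    rw [Set.indicator_of_mem (hF m hm).1]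
  have h5 : Disjoint (Finset.range i) F := by
    rw [Finset.disjoint_left]
    intro a ha hb
    have := (hF a hb).2
    rw [Finset.mem_range] at ha
    omega
  have h6 : ∑ m ∈ Finset.range i ∪ F, g m ≤ ∑' m, g m :=
    h2.sum_le_tsum _ fun m _ => by
      rw [hg]
      positivity
  rw [Finset.sum_union h5] at h6
  rw [h4]
  linarith [h3.1]

/-! ### the two sides -/

/-- the coefficient of `m` -/
def mo5_c (t : ℝ) (m : ℕ) : ℝ := (m : ℝ) ^ (-(1 / 2) - t / 2 : ℝ)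

/-- the coefficient of `k` -/
def mo5_d (t : ℝ) (y k : ℕ) : ℝ :=
  cut (Real.log k / Real.log y) * (k : ℝ) ^ (-(1 / 2) + t / 2 : ℝ)

theorem mo5_vA (x : ℕ → ℂ) (y : ℕ) (t : ℝ) (S : Finset ℕ) (r : ℕ) (hr : 1 ≤ r)
    (hS : ∀ k ∈ Icc 1 y, k ∣ r → r / k ∈ S) :
    ∑ p ∈ (S ×ˢ Icc 1 y).filter (fun p => p.1 * p.2 = r),
      ((mo5_c t p.1 * mo5_d t y p.2 : ℝ) : ℂ) * (x p.1 * minv x p.2) =
      (((r : ℝ) ^ (-(t / 2)) : ℝ) : ℂ) * vA x y t r := by
  rw [Finset.sum_filter, Finset.sum_product_right]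
  unfold vA
  rw [Finset.mul_sum]
  refine Finset.sum_congr rfl fun k hk => ?_
  have hk1 : 1 ≤ k := (Finset.mem_Icc.1 hk).1
  by_cases hd : k ∣ r
  · rw [if_pos hd]
    obtain ⟨m, rfl⟩ := hd
    have hm1 : 1 ≤ m := Nat.one_le_iff_ne_zero.2 (by
      rintro rfl
      simp at hr)
    have hdiv : k * m / k = m := Nat.mul_div_cancel_left m (by omega)
    have hmS : m ∈ S := by
      have := hS k hk ⟨m, rfl⟩
      rwa [hdiv] at this
    rw [hdiv, Finset.sum_eq_single m]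
    · simp only
      rw [if_pos (mul_comm m k)]
      have hk0 : (0 : ℝ) < k := by exact_mod_cast hk1
      have hm0 : (0 : ℝ) < m := by exact_mod_cast hm1
      have e1 : mo5_c t m * mo5_d t y k = cut (Real.log k / Real.log y) *
          (((k * m : ℕ) : ℝ) ^ (-(t / 2)) * ((k : ℝ) ^ t * ((k * m : ℕ) : ℝ) ^ (-(1 / 2) : ℝ))) := by
        unfold mo5_c mo5_d
        push_cast
        rw [Real.mul_rpow hk0.le hm0.le, Real.mul_rpow hk0.le hm0.le]
        have e2 : (m : ℝ) ^ (-(1 / 2) - t / 2 : ℝ) =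
            (m : ℝ) ^ (-(t / 2)) * (m : ℝ) ^ (-(1 / 2) : ℝ) := by
          rw [← Real.rpow_add hm0]
          congr 1
          ring
        have e3 : (k : ℝ) ^ (-(1 / 2) + t / 2 : ℝ) =
            (k : ℝ) ^ (-(t / 2)) * (k : ℝ) ^ t * (k : ℝ) ^ (-(1 / 2) : ℝ) := by
          rw [← Real.rpow_add hk0, ← Real.rpow_add hk0]
          congr 1
          ring
        rw [e2, e3]
        ring
      rw [e1]
      unfold bk rt
      push_cast
      ring
    · intro m' _ hm'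
      rw [if_neg]
      intro h
      simp only at h
      refine hm' ?_
      rw [mul_comm] at h
      exact Nat.eq_of_mul_eq_mul_left (by omega) h
    · intro h
      exact absurd hmS h
  · rw [if_neg hd, mul_zero]
    refine Finset.sum_eq_zero fun m _ => ?_
    rw [if_neg]
    intro h
    simp only at h
    exact hd ⟨m, by rw [← h, mul_comm]⟩

theorem mo5_vB (x : ℕ → ℂ) (y : ℕ) (t : ℝ) (S : Finset ℕ) (r : ℚ) (hr : 0 < r)
    (hS : ∀ k ∈ Icc 1 y, (r * k).den = 1 → (r * k).num.natAbs ∈ S) :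
    ∑ p ∈ (S ×ˢ Icc 1 y).filter (fun p => ((p.1 : ℚ) / (p.2 : ℚ)) = r),
      ((mo5_c t p.1 * mo5_d t y p.2 : ℝ) : ℂ) * (x p.1 * (starRingEnd ℂ) (minv x p.2)) =
      (((r : ℝ) ^ (-(t / 2)) : ℝ) : ℂ) * vB x y r := by
  rw [Finset.sum_filter, Finset.sum_product_right]
  unfold vB
  rw [Finset.mul_sum]
  refine Finset.sum_congr rfl fun k hk => ?_
  have hk1 : 1 ≤ k := (Finset.mem_Icc.1 hk).1
  have hkq : (0 : ℚ) < k := by exact_mod_cast hk1
  have hk0 : (0 : ℝ) < k := by exact_mod_cast hk1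
  by_cases hd : (r * k).den = 1
  · rw [if_pos hd]
    set m := (r * k).num.natAbs with hm
    have hmS : m ∈ S := hS k hk hd
    have hpos : 0 < r * k := mul_pos hr hkq
    have hnum : 0 < (r * k).num := Rat.num_pos.2 hpos
    have hmq : r * k = (m : ℚ) := by
      have h1 : ((r * k).num : ℚ) = r * k := Rat.coe_int_num_of_den_eq_one hd
      have h2 : ((m : ℕ) : ℤ) = (r * k).num := by
        rw [hm]
        exact Int.natAbs_of_nonneg hnum.le
      have h3 : ((m : ℕ) : ℚ) = ((r * k).num : ℚ) := by exact_mod_cast h2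
      rw [h3, h1]
    have hm1 : 1 ≤ m := by
      have : (0 : ℚ) < m := by rw [← hmq]; exact hpos
      exact_mod_cast this
    have hm0 : (0 : ℝ) < m := by exact_mod_cast hm1
    rw [Finset.sum_eq_single m]
    · simp only
      have e0 : (m : ℚ) / k = r := by
        rw [← hmq]
        field_simp
      rw [if_pos e0]
      have er : (r : ℝ) = m / k := by
        rw [← e0]
        push_cast
        ring
      have e1 : mo5_c t m * mo5_d t y k = cut (Real.log k / Real.log y) *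
          ((r : ℝ) ^ (-(t / 2)) * ((m : ℝ) ^ (-(1 / 2) : ℝ) * (k : ℝ) ^ (-(1 / 2) : ℝ))) := by
        unfold mo5_c mo5_d
        rw [er, Real.div_rpow hm0.le hk0.le]
        have e2 : (m : ℝ) ^ (-(1 / 2) - t / 2 : ℝ) =
            (m : ℝ) ^ (-(t / 2)) * (m : ℝ) ^ (-(1 / 2) : ℝ) := by
          rw [← Real.rpow_add hm0]
          congr 1
          ring
        have e3 : (k : ℝ) ^ (-(1 / 2) + t / 2 : ℝ) =
            (k : ℝ) ^ (-(1 / 2) : ℝ) / (k : ℝ) ^ (-(t / 2)) := by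
          rw [← Real.rpow_sub hk0]
          congr 1
          ring
        rw [e2, e3]
        ring
      rw [e1]
      unfold bk rt
      rw [map_mul, Complex.conj_ofReal]
      push_cast
      ring
    · intro m' _ hm'
      rw [if_neg]
      intro h
      simp only at h
      refine hm' ?_
      have : (m' : ℚ) = m := by
        rw [← hmq, ← h]
        field_simp
      exact_mod_cast this
    · intro h
      exact absurd hmS h
  · rw [if_neg hd, mul_zero]
    refine Finset.sum_eq_zero fun m _ => ?_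
    rw [if_neg]
    intro h
    simp only at h
    refine hd ?_
    have : r * k = (m : ℚ) := by
      rw [← h]
      field_simp
    rw [this]
    exact Rat.den_natCast m

theorem mo5_f_ge {n : ℕ} {lam : ℕ → ℂ} (h : Temp n lam) {t : ℝ} (ht : 0 ≤ t) (m : ℕ)
    (hm : 1 ≤ m) : ‖((mo5_c t m : ℝ) : ℂ) * lam m‖ ≤ mo5_f n m := by
  have hm1 : (1 : ℝ) ≤ m := by exact_mod_cast hm
  have hc0 : 0 ≤ mo5_c t m := by
    unfold mo5_c
    positivity
  rw [norm_mul, Complex.norm_real, Real.norm_of_nonneg hc0]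
  unfold mo5_f
  rw [mul_comm]
  refine mul_le_mul (mo5_temp h m) ?_ hc0 (Nat.cast_nonneg _)
  unfold mo5_c
  exact Real.rpow_le_rpow_of_exponent_le hm1 (by linarith)

/-! ### the main estimate -/

section main
variable {Ω : Type} [MeasurableSpace Ω]

theorem mo5_minv {X : ℕ → Ω → ℂ} (hX : ∀ m, MO5BM (X m)) (k : ℕ) :
    MO5BM fun w => minv (fun m => X m w) k := by
  unfold minv
  exact mo5_sum _ _ fun l _ => mo5_mul (mo5_const _) (mo5_list l _ fun i _ => hX i)

theorem mo5_ptw {n : ℕ} (x : ℕ → ℂ) (hx : Temp n x) {t : ℝ} (ht : 0 ≤ t) (y : ℕ) (C Q : ℝ)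
    (hC : ∀ R : Finset ℕ, (∀ r ∈ R, 1 ≤ r) → ∑ r ∈ R, ‖vA x y t r‖ ^ 2 * (r : ℝ) ^ (-t) ≤ C)
    (hQ : ∀ k ∈ Icc 1 y, ‖((mo5_d t y k : ℝ) : ℂ) * minv x k‖ ≤ Q) (hQ0 : 0 ≤ Q)
    (N i T : ℕ) (hN : y < N) (hT : i * y ≤ T) (ε : ℝ)
    (hε : (y : ℝ) ^ 2 * Q ^ 2 * ε ≤ 1)
    (hi : ∀ F : Finset ℕ, (∀ m ∈ F, m ∈ Nat.smoothNumbers N ∧ i ≤ m) →
      ∑ m ∈ F, mo5_f n m ^ 2 ≤ ε) (S : Finset ℕ)
    (hS : ∀ m, m ∈ S ↔ (1 ≤ m ∧ m ≤ T) ∧ m ∈ Nat.smoothNumbers N) :
    ∑ r ∈ Icc 1 (T * y), ‖∑ p ∈ (S ×ˢ Icc 1 y).filter (fun p => p.1 * p.2 = r),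
      ((mo5_c t p.1 * mo5_d t y p.2 : ℝ) : ℂ) * (x p.1 * minv x p.2)‖ ^ 2 ≤ C + 1 := by
  classical
  rw [← Finset.sum_filter_add_sum_filter_not (Icc 1 (T * y)) (fun r => r ≤ T)]
  refine add_le_add ?_ ?_
  · refine le_trans (Finset.sum_le_sum fun r hr => ?_)
      (hC ((Icc 1 (T * y)).filter fun r => r ≤ T) fun r hr =>
        (Finset.mem_Icc.1 (Finset.mem_filter.1 hr).1).1)
    rw [Finset.mem_filter, Finset.mem_Icc] at hr
    have hr0 : (0 : ℝ) < r := by exact_mod_cast hr.1.1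
    by_cases hsm : r ∈ Nat.smoothNumbers N
    · rw [mo5_vA x y t S r hr.1.1 fun k hk hd => (hS _).2 ⟨⟨Nat.div_pos (Nat.le_of_dvd
        (by omega) hd) (Finset.mem_Icc.1 hk).1, (Nat.div_le_self _ _).trans hr.2⟩,
        Nat.mem_smoothNumbers_of_dvd hsm (Nat.div_dvd_of_dvd hd)⟩]
      rw [norm_mul, mul_pow, Complex.norm_real, Real.norm_of_nonneg (by positivity), mul_comm]
      refine le_of_eq ?_
      congr 1
      rw [← Real.rpow_natCast, ← Real.rpow_mul hr0.le]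
      congr 1
      push_cast
      ring
    · have he : (S ×ˢ Icc 1 y).filter (fun p => p.1 * p.2 = r) = ∅ := by
        refine Finset.filter_eq_empty_iff.2 fun p hp he => hsm ?_
        rw [Finset.mem_product] at hp
        rw [← he]
        refine Nat.mul_mem_smoothNumbers ((hS _).1 hp.1).2 ?_
        have := Finset.mem_Icc.1 hp.2
        exact Nat.mem_smoothNumbers_of_lt (by omega) (by omega)
      rw [he, Finset.sum_empty, norm_zero, zero_pow two_ne_zero]
      positivity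
  · have h1 : ∀ r ∈ (Icc 1 (T * y)).filter (fun r => ¬ r ≤ T),
        ‖∑ p ∈ (S ×ˢ Icc 1 y).filter (fun p => p.1 * p.2 = r),
          ((mo5_c t p.1 * mo5_d t y p.2 : ℝ) : ℂ) * (x p.1 * minv x p.2)‖ ^ 2 ≤
        (y : ℝ) * Q ^ 2 * ∑ p ∈ (S ×ˢ Icc 1 y).filter (fun p => p.1 * p.2 = r),
          mo5_f n p.1 ^ 2 := by
      intro r hr
      have hr1 : 1 ≤ r := (Finset.mem_Icc.1 (Finset.mem_filter.1 hr).1).1
      set J := (S ×ˢ Icc 1 y).filter (fun p => p.1 * p.2 = r) with hJ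
      have k1 : ‖∑ p ∈ J, ((mo5_c t p.1 * mo5_d t y p.2 : ℝ) : ℂ) * (x p.1 * minv x p.2)‖ ≤
          ∑ p ∈ J, mo5_f n p.1 * Q := by
        refine (norm_sum_le _ _).trans (Finset.sum_le_sum fun p hp => ?_)
        rw [hJ, Finset.mem_filter, Finset.mem_product] at hp
        have e1 : ((mo5_c t p.1 * mo5_d t y p.2 : ℝ) : ℂ) * (x p.1 * minv x p.2) =
            (((mo5_c t p.1 : ℝ) : ℂ) * x p.1) * (((mo5_d t y p.2 : ℝ) : ℂ) * minv x p.2) := by
          push_cast
          ring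
        rw [e1, norm_mul]
        exact mul_le_mul (mo5_f_ge hx ht _ ((hS _).1 hp.1.1).1.1) (hQ _ hp.1.2)
          (norm_nonneg _) (mo5_f_nonneg _ _)
      have k2 : (J.card : ℝ) ≤ y := by
        have : J.card ≤ (Icc 1 y).card := by
          refine Finset.card_le_card_of_injOn (fun p => p.2) (fun p hp => ?_) ?_
          · rw [Finset.mem_coe, hJ, Finset.mem_filter, Finset.mem_product] at hp
            exact hp.1.2
          · intro p hp p' hp' he
            rw [Finset.mem_coe, hJ, Finset.mem_filter, Finset.mem_product] at hp hp'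
            simp only at he
            have h2 : 1 ≤ p.2 := (Finset.mem_Icc.1 hp.1.2).1
            refine Prod.ext ?_ he
            have h3 : p.1 * p.2 = p'.1 * p.2 := by rw [hp.2, he, hp'.2]
            exact Nat.eq_of_mul_eq_mul_right (by omega) h3
        rw [Nat.card_Icc, Nat.add_sub_cancel] at this
        exact_mod_cast this
      calc ‖∑ p ∈ J, ((mo5_c t p.1 * mo5_d t y p.2 : ℝ) : ℂ) * (x p.1 * minv x p.2)‖ ^ 2
          ≤ (∑ p ∈ J, mo5_f n p.1 * Q) ^ 2 := pow_le_pow_left₀ (norm_nonneg _) k1 2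
        _ ≤ J.card * ∑ p ∈ J, (mo5_f n p.1 * Q) ^ 2 := sq_sum_le_card_mul_sum_sq
        _ = J.card * (Q ^ 2 * ∑ p ∈ J, mo5_f n p.1 ^ 2) := by
            have e2 : ∑ p ∈ J, (mo5_f n p.1 * Q) ^ 2 = Q ^ 2 * ∑ p ∈ J, mo5_f n p.1 ^ 2 := by
              rw [Finset.mul_sum]
              refine Finset.sum_congr rfl fun p _ => ?_
              ring
            rw [e2]
        _ ≤ y * (Q ^ 2 * ∑ p ∈ J, mo5_f n p.1 ^ 2) :=
            mul_le_mul_of_nonneg_right k2 (mul_nonneg (by positivity)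
              (Finset.sum_nonneg fun p _ => by positivity))
        _ = _ := by ring
    refine (Finset.sum_le_sum h1).trans ?_
    rw [← Finset.mul_sum, Finset.sum_fiberwise_eq_sum_filter]
    have h2 : ∑ p ∈ (S ×ˢ Icc 1 y).filter (fun p => p.1 * p.2 ∈
        (Icc 1 (T * y)).filter (fun r => ¬ r ≤ T)), mo5_f n p.1 ^ 2 ≤
        ∑ p ∈ (S.filter fun m => i ≤ m) ×ˢ Icc 1 y, mo5_f n p.1 ^ 2 := by
      refine Finset.sum_le_sum_of_subset_of_nonneg (fun p hp => ?_) fun p _ _ => by positivity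
      rw [Finset.mem_filter, Finset.mem_product, Finset.mem_filter] at hp
      rw [Finset.mem_product, Finset.mem_filter]
      refine ⟨⟨hp.1.1, ?_⟩, hp.1.2⟩
      have k1 : T < p.1 * p.2 := not_le.1 hp.2.2
      have k2 := (Finset.mem_Icc.1 hp.1.2).2
      by_contra k3
      have k4 : p.1 * p.2 ≤ i * y := Nat.mul_le_mul (by omega) k2
      omega
    have h3 : ∑ p ∈ (S.filter fun m => i ≤ m) ×ˢ Icc 1 y, mo5_f n p.1 ^ 2 ≤ y * ε := by
      rw [Finset.sum_product_right]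
      refine (Finset.sum_le_sum fun k _ => hi (S.filter fun m => i ≤ m) fun m hm => ?_).trans ?_
      · rw [Finset.mem_filter] at hm
        exact ⟨((hS m).1 hm.1).2, hm.2⟩
      · rw [Finset.sum_const, Nat.card_Icc, Nat.add_sub_cancel, nsmul_eq_mul]
    calc (y : ℝ) * Q ^ 2 * _ ≤ (y : ℝ) * Q ^ 2 * (y * ε) :=
          mul_le_mul_of_nonneg_left (h2.trans h3) (by positivity)
      _ = (y : ℝ) ^ 2 * Q ^ 2 * ε := by ring
      _ ≤ 1 := hε

theorem mo5_main (P : Measure Ω) [IsProbabilityMeasure P] {n : ℕ} (hn : 1 ≤ n)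
    (X : ℕ → Ω → ℂ) (hX : ∀ m, MO5BM (X m)) (hT : ∀ w, Temp n fun m => X m w)
    (hA : ∀ m k m' k' : ℕ, 1 ≤ m → 1 ≤ k → 1 ≤ m' → 1 ≤ k' → m * k ≠ m' * k' →
      ∫ w, (X m w * minv (fun j => X j w) k) *
        (starRingEnd ℂ) (X m' w * minv (fun j => X j w) k') ∂P = 0)
    (hB : ∀ m k m' k' : ℕ, 1 ≤ m → 1 ≤ k → 1 ≤ m' → 1 ≤ k' → m * k' ≠ m' * k →
      ∫ w, (X m w * (starRingEnd ℂ) (minv (fun j => X j w) k)) *
        (starRingEnd ℂ) (X m' w * (starRingEnd ℂ) (minv (fun j => X j w) k')) ∂P = 0)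
    (C : ℝ) (q y : ℕ) (hq : 3 ≤ q) (hy : 2 ≤ y)
    (hC : ∀ w, ∀ R : Finset ℕ, (∀ r ∈ R, 1 ≤ r) →
      ∑ r ∈ R, ‖vA (fun m => X m w) y (2 / Real.log q) r‖ ^ 2 *
        (r : ℝ) ^ (-(2 / Real.log q)) ≤ C)
    (R : Finset ℚ) (hR : ∀ r ∈ R, 0 < r ∧ r ≤ q) :
    ∑ r ∈ R, ∫ w, ‖vB (fun m => X m w) y r‖ ^ 2 ∂P ≤ Real.exp 2 * (C + 1) := by
  classical
  have hq1 : (1 : ℝ) < q := by exact_mod_cast (by omega : 1 < q)
  have hlog : 0 < Real.log q := Real.log_pos hq1
  set t : ℝ := 2 / Real.log q with ht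
  have ht0 : 0 ≤ t := by positivity
  -- the bound of the second factor
  have hQe : ∃ Q : ℝ, 0 ≤ Q ∧ ∀ w, ∀ k ∈ Icc 1 y,
      ‖((mo5_d t y k : ℝ) : ℂ) * minv (fun j => X j w) k‖ ≤ Q := by
    have h1 : ∀ k, ∃ c : ℝ, ∀ w, ‖((mo5_d t y k : ℝ) : ℂ) * minv (fun j => X j w) k‖ ≤ c :=
      fun k => (mo5_mul (mo5_const _) (mo5_minv hX k)).2
    choose c hc using h1
    refine ⟨∑ k ∈ Icc 1 y, |c k|, Finset.sum_nonneg fun k _ => abs_nonneg _, fun w k hk => ?_⟩
    exact ((hc k w).trans (le_abs_self _)).trans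
      (Finset.single_le_sum (f := fun k => |c k|) (fun k _ => abs_nonneg _) hk)
  obtain ⟨Q, hQ0, hQ⟩ := hQe
  set N := q * y + 1 with hN
  set ε : ℝ := 1 / ((y : ℝ) ^ 2 * Q ^ 2 + 1) with hε
  have hε0 : 0 < ε := by positivity
  obtain ⟨i, hi⟩ := mo5_tail n N hn ε hε0
  set T := q * y + i * y with hTd
  set S := (Icc 1 T).filter (fun m => m ∈ Nat.smoothNumbers N) with hS
  have hSm : ∀ m, m ∈ S ↔ (1 ≤ m ∧ m ≤ T) ∧ m ∈ Nat.smoothNumbers N := by
    intro m
    rw [hS, Finset.mem_filter, Finset.mem_Icc]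
  set I := S ×ˢ Icc 1 y with hI
  set f1 : ℕ × ℕ → Ω → ℂ := fun p w => ((mo5_c t p.1 * mo5_d t y p.2 : ℝ) : ℂ) *
    (X p.1 w * (starRingEnd ℂ) (minv (fun j => X j w) p.2)) with hf1
  set f2 : ℕ × ℕ → Ω → ℂ := fun p w => ((mo5_c t p.1 * mo5_d t y p.2 : ℝ) : ℂ) *
    (X p.1 w * minv (fun j => X j w) p.2) with hf2
  have hb1 : ∀ p ∈ I, MO5BM (f1 p) := fun p _ =>
    mo5_mul (mo5_const _) (mo5_mul (hX _) (mo5_conj (mo5_minv hX _)))
  have hb2 : ∀ p ∈ I, MO5BM (f2 p) := fun p _ =>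
    mo5_mul (mo5_const _) (mo5_mul (hX _) (mo5_minv hX _))
  have hpos : ∀ p ∈ I, 1 ≤ p.1 ∧ 1 ≤ p.2 := by
    intro p hp
    rw [hI, Finset.mem_product] at hp
    exact ⟨((hSm _).1 hp.1).1.1, (Finset.mem_Icc.1 hp.2).1⟩
  -- orthogonality
  have ho1 : ∀ p ∈ I, ∀ p' ∈ I, ((p.1 : ℚ) / (p.2 : ℚ)) ≠ ((p'.1 : ℚ) / (p'.2 : ℚ)) →
      ∫ w, f1 p w * (starRingEnd ℂ) (f1 p' w) ∂P = 0 := by
    intro p hp p' hp' hne
    obtain ⟨a1, a2⟩ := hpos p hp
    obtain ⟨a3, a4⟩ := hpos p' hp'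
    have h1 : p.1 * p'.2 ≠ p'.1 * p.2 := by
      intro h
      refine hne ?_
      have b1 : (p.2 : ℚ) ≠ 0 := by
        have : p.2 ≠ 0 := by omega
        exact_mod_cast this
      have b2 : (p'.2 : ℚ) ≠ 0 := by
        have : p'.2 ≠ 0 := by omega
        exact_mod_cast this
      rw [div_eq_div_iff b1 b2]
      exact_mod_cast h
    have h2 := hB p.1 p.2 p'.1 p'.2 a1 a2 a3 a4 h1
    have h3 : ∀ w, f1 p w * (starRingEnd ℂ) (f1 p' w) =
        (((mo5_c t p.1 * mo5_d t y p.2 : ℝ) : ℂ) *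
          ((mo5_c t p'.1 * mo5_d t y p'.2 : ℝ) : ℂ)) *
        ((X p.1 w * (starRingEnd ℂ) (minv (fun j => X j w) p.2)) *
          (starRingEnd ℂ) (X p'.1 w * (starRingEnd ℂ) (minv (fun j => X j w) p'.2))) := by
      intro w
      rw [hf1]
      simp only [map_mul, Complex.conj_ofReal]
      ring
    simp only [h3]
    rw [integral_const_mul, h2, mul_zero]
  have ho2 : ∀ p ∈ I, ∀ p' ∈ I, p.1 * p.2 ≠ p'.1 * p'.2 →
      ∫ w, f2 p w * (starRingEnd ℂ) (f2 p' w) ∂P = 0 := by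
    intro p hp p' hp' hne
    obtain ⟨a1, a2⟩ := hpos p hp
    obtain ⟨a3, a4⟩ := hpos p' hp'
    have h2 := hA p.1 p.2 p'.1 p'.2 a1 a2 a3 a4 hne
    have h3 : ∀ w, f2 p w * (starRingEnd ℂ) (f2 p' w) =
        (((mo5_c t p.1 * mo5_d t y p.2 : ℝ) : ℂ) *
          ((mo5_c t p'.1 * mo5_d t y p'.2 : ℝ) : ℂ)) *
        ((X p.1 w * minv (fun j => X j w) p.2) *
          (starRingEnd ℂ) (X p'.1 w * minv (fun j => X j w) p'.2)) := by
      intro w
      rw [hf2]
      simp only [map_mul, Complex.conj_ofReal]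
      ring
    simp only [h3]
    rw [integral_const_mul, h2, mul_zero]
  -- the two sums
  have e1 := mo5_pyth P I f1 hb1 (fun p => ((p.1 : ℚ) / (p.2 : ℚ)))
    (R ∪ I.image (fun p => ((p.1 : ℚ) / (p.2 : ℚ))))
    (fun p hp => Finset.mem_union_right _ (Finset.mem_image_of_mem _ hp)) ho1
  have e2 := mo5_pyth P I f2 hb2 (fun p => p.1 * p.2) (Icc 1 (T * y)) (fun p hp => by
    have := hpos p hp
    rw [hI, Finset.mem_product] at hp
    have h1 := ((hSm _).1 hp.1).1.2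
    have h2 := (Finset.mem_Icc.1 hp.2).2
    rw [Finset.mem_Icc]
    exact ⟨Nat.one_le_iff_ne_zero.2 (Nat.mul_ne_zero (by omega) (by omega)),
      Nat.mul_le_mul h1 h2⟩) ho2
  have e3 : ∀ w, ‖∑ p ∈ I, f1 p w‖ ^ 2 = ‖∑ p ∈ I, f2 p w‖ ^ 2 := by
    intro w
    have a1 : ∑ p ∈ I, f1 p w = (∑ m ∈ S, ((mo5_c t m : ℝ) : ℂ) * X m w) *
        (starRingEnd ℂ) (∑ k ∈ Icc 1 y, ((mo5_d t y k : ℝ) : ℂ) * minv (fun j => X j w) k) := by
      rw [hI, map_sum, Finset.sum_mul_sum, Finset.sum_product]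
      refine Finset.sum_congr rfl fun m _ => Finset.sum_congr rfl fun k _ => ?_
      rw [hf1]
      simp only [map_mul, Complex.conj_ofReal]
      push_cast
      ring
    have a2 : ∑ p ∈ I, f2 p w = (∑ m ∈ S, ((mo5_c t m : ℝ) : ℂ) * X m w) *
        (∑ k ∈ Icc 1 y, ((mo5_d t y k : ℝ) : ℂ) * minv (fun j => X j w) k) := by
      rw [hI, Finset.sum_mul_sum, Finset.sum_product]
      refine Finset.sum_congr rfl fun m _ => Finset.sum_congr rfl fun k _ => ?_
      rw [hf2]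
      push_cast
      ring
    rw [a1, a2, norm_mul, norm_mul, Complex.norm_conj]
  have e4 : ∫ w, ‖∑ p ∈ I, f1 p w‖ ^ 2 ∂P = ∫ w, ‖∑ p ∈ I, f2 p w‖ ^ 2 ∂P := by
    refine integral_congr_ae (Filter.Eventually.of_forall fun w => ?_)
    exact e3 w
  -- the rational side
  have hge : ∀ r ∈ R, Real.exp (-2) * ∫ w, ‖vB (fun m => X m w) y r‖ ^ 2 ∂P ≤
      ∫ w, ‖∑ p ∈ I.filter (fun p => ((p.1 : ℚ) / (p.2 : ℚ)) = r), f1 p w‖ ^ 2 ∂P := by
    intro r hr
    obtain ⟨hr0, hrq⟩ := hR r hr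
    have hr0' : (0 : ℝ) < r := by exact_mod_cast hr0
    have hrq' : (r : ℝ) ≤ q := by exact_mod_cast hrq
    have a1 : ∀ w, ‖∑ p ∈ I.filter (fun p => ((p.1 : ℚ) / (p.2 : ℚ)) = r), f1 p w‖ ^ 2 =
        (r : ℝ) ^ (-t) * ‖vB (fun m => X m w) y r‖ ^ 2 := by
      intro w
      have b1 := mo5_vB (fun m => X m w) y t S r hr0 (fun k hk hd => by
        have hk' := Finset.mem_Icc.1 hk
        have hkq : (0 : ℚ) < k := by exact_mod_cast hk'.1
        have hpos : 0 < r * k := mul_pos hr0 hkq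
        have hnum : 0 < (r * k).num := Rat.num_pos.2 hpos
        have hle : (r * k).num.natAbs ≤ q * y := by
          have c1 : ((r * k).num : ℚ) = r * k := Rat.coe_int_num_of_den_eq_one hd
          have c2 : r * k ≤ q * y := by
            have : (k : ℚ) ≤ y := by exact_mod_cast hk'.2
            exact mul_le_mul hrq this hkq.le (by positivity)
          have c3 : ((r * k).num : ℚ) ≤ ((q * y : ℕ) : ℤ) := by
            rw [c1]
            push_cast
            exact c2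
          have c4 : (r * k).num ≤ ((q * y : ℕ) : ℤ) := by exact_mod_cast c3
          omega
        rw [hSm]
        refine ⟨⟨by omega, by omega⟩, Nat.mem_smoothNumbers_of_lt (by omega) (by omega)⟩)
      have b2 : ∑ p ∈ I.filter (fun p => ((p.1 : ℚ) / (p.2 : ℚ)) = r), f1 p w =
          (((r : ℝ) ^ (-(t / 2)) : ℝ) : ℂ) * vB (fun m => X m w) y r := b1
      rw [b2, norm_mul, mul_pow, Complex.norm_real, Real.norm_of_nonneg (by positivity)]
      congr 1
      rw [← Real.rpow_natCast, ← Real.rpow_mul hr0'.le]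
      congr 1
      push_cast
      ring
    simp only [a1]
    rw [integral_const_mul]
    refine mul_le_mul_of_nonneg_right ?_ (integral_nonneg fun w => by positivity)
    have a2 : Real.exp (-2) = (q : ℝ) ^ (-t) := by
      rw [Real.rpow_def_of_pos (by positivity), ht]
      congr 1
      field_simp
    rw [a2]
    exact Real.rpow_le_rpow_of_nonpos hr0' hrq' (by linarith)
  have e5 : Real.exp (-2) * ∑ r ∈ R, ∫ w, ‖vB (fun m => X m w) y r‖ ^ 2 ∂P ≤
      ∫ w, ‖∑ p ∈ I, f1 p w‖ ^ 2 ∂P := by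
    rw [e1, Finset.mul_sum]
    refine (Finset.sum_le_sum hge).trans ?_
    exact Finset.sum_le_sum_of_subset_of_nonneg Finset.subset_union_left
      fun r _ _ => integral_nonneg fun w => by positivity
  have hbr : ∀ r : ℕ, MO5BM fun w => ∑ p ∈ I.filter (fun p => p.1 * p.2 = r), f2 p w :=
    fun r => mo5_sum _ _ fun p hp => hb2 p (Finset.mem_filter.1 hp).1
  have e6 : ∫ w, ‖∑ p ∈ I, f2 p w‖ ^ 2 ∂P ≤ C + 1 := by
    rw [e2, ← integral_finsetSum _ fun r _ => mo5_int_sq (hbr r)]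
    have a1 : ∀ w, ∑ r ∈ Icc 1 (T * y),
        ‖∑ p ∈ I.filter (fun p => p.1 * p.2 = r), f2 p w‖ ^ 2 ≤ C + 1 := fun w =>
      mo5_ptw (fun m => X m w) (hT w) ht0 y C Q (hC w) (hQ w) hQ0 N i T
        (by
          have : 1 * y ≤ q * y := Nat.mul_le_mul_right y (by omega)
          omega) (by omega) ε
        (by
          rw [hε, mul_one_div, div_le_one (by positivity)]
          linarith) hi S hSm
    calc ∫ w, ∑ r ∈ Icc 1 (T * y),
          ‖∑ p ∈ I.filter (fun p => p.1 * p.2 = r), f2 p w‖ ^ 2 ∂P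
        ≤ ∫ _, (C + 1) ∂P := by
          refine integral_mono (integrable_finsetSum _ fun r _ => mo5_int_sq (hbr r))
            (integrable_const _) a1
      _ = C + 1 := by simp
  have e7 := e5.trans (e4.le.trans e6)
  have h8 : Real.exp 2 * Real.exp (-2) = 1 := by
    rw [← Real.exp_add]
    norm_num
  calc ∑ r ∈ R, ∫ w, ‖vB (fun m => X m w) y r‖ ^ 2 ∂P
      = Real.exp 2 * (Real.exp (-2) * ∑ r ∈ R, ∫ w, ‖vB (fun m => X m w) y r‖ ^ 2 ∂P) := by
        rw [← mul_assoc, h8, one_mul]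
    _ ≤ Real.exp 2 * (C + 1) := mul_le_mul_of_nonneg_left e7 (Real.exp_pos 2).le

end main

/-! ### orthogonality of the charges -/

theorem mo5_OF {k : ℕ} {l : List ℕ} (h : l ∈ OF k) : (∀ a ∈ l, 2 ≤ a) ∧ l.prod = k := by
  unfold OF at h
  split_ifs at h with h1
  · exact (Set.Finite.mem_toFinset h1).1 h
  · simp at h

theorem mo5_orth {n : ℕ} (hM : HM n) (M : Model n) (s s' : Finset (List ℕ))
    (W W' : List ℕ → Wd) (hW : ∀ l ∈ s, (∀ a ∈ (W l).1, 1 ≤ a) ∧ ∀ a ∈ (W l).2, 1 ≤ a)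
    (hW' : ∀ l ∈ s', (∀ a ∈ (W' l).1, 1 ≤ a) ∧ ∀ a ∈ (W' l).2, 1 ≤ a)
    (hne : ∀ l ∈ s, ∀ l' ∈ s', (W l).1.prod * (W' l').2.prod ≠ (W' l').1.prod * (W l).2.prod) :
    @integral M.Om ℂ _ _ M.ms M.P (fun w =>
      (∑ l ∈ s, (-1) ^ l.length * lw (fun m => M.X m w) (W l)) *
        (starRingEnd ℂ) (∑ l ∈ s', (-1) ^ l.length * lw (fun m => M.X m w) (W' l))) = 0 := by
  let _ := M.ms
  have _ := M.pr
  have hX : ∀ m, MO5BM (M.X m) := fun m => ⟨M.meas m, dn n m, fun w => mo5_temp (M.temp w) m⟩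
  have hl : ∀ V : Wd, MO5BM fun w => lw (fun m => M.X m w) V := by
    intro V
    unfold lw
    exact mo5_mul (mo5_list V.1 _ fun i _ => hX i)
      (mo5_list V.2 (fun b w => (starRingEnd ℂ) (M.X b w)) fun i _ => mo5_conj (hX i))
  have h1 : ∀ w, (∑ l ∈ s, (-1) ^ l.length * lw (fun m => M.X m w) (W l)) *
      (starRingEnd ℂ) (∑ l ∈ s', (-1) ^ l.length * lw (fun m => M.X m w) (W' l)) =
      ∑ l ∈ s, ∑ l' ∈ s', ((-1) ^ l.length * (-1) ^ l'.length) *
        (lw (fun m => M.X m w) (W l) * (starRingEnd ℂ) (lw (fun m => M.X m w) (W' l'))) := by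
    intro w
    rw [map_sum, Finset.sum_mul_sum]
    refine Finset.sum_congr rfl fun l _ => Finset.sum_congr rfl fun l' _ => ?_
    rw [map_mul, map_pow, map_neg, map_one]
    ring
  show ∫ w, _ ∂M.P = 0
  simp only [h1]
  have hi : ∀ l l', Integrable (fun w => ((-1 : ℂ) ^ l.length * (-1) ^ l'.length) *
      (lw (fun m => M.X m w) (W l) * (starRingEnd ℂ) (lw (fun m => M.X m w) (W' l')))) M.P :=
    fun l l' => mo5_int (mo5_mul (mo5_const _) (mo5_mul (hl _) (mo5_conj (hl _))))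
  rw [integral_finsetSum _ fun l _ => integrable_finsetSum _ fun l' _ => hi l l']
  refine Finset.sum_eq_zero fun l hls => ?_
  rw [integral_finsetSum _ fun l' _ => hi l l']
  refine Finset.sum_eq_zero fun l' hls' => ?_
  rw [integral_const_mul]
  have h2 := M.mom (W l) (W' l') (hW l hls).1 (hW l hls).2 (hW' l' hls').1 (hW' l' hls').2
  have h3 := hM.2.2 (W l) (W' l') (hW l hls).1 (hW l hls).2 (hW' l' hls').1 (hW' l' hls').2
    (hne l hls l' hls')
  rw [h3] at h2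
  have h4 : ∫ w, lw (fun m => M.X m w) (W l) *
      (starRingEnd ℂ) (lw (fun m => M.X m w) (W' l')) ∂M.P = 0 := by
    refine Eq.trans h2 ?_
    simp
  rw [h4, mul_zero]

/-! ### the theorem -/

theorem vB_model_pr {n : ℕ} (hn : 1 ≤ n) (hM : HM n) {θ : ℝ} (hθ : 0 < θ) : ∃ C : ℝ, 0 < C ∧
    ∀ M : Model n, ∀ (q y : ℕ), 3 ≤ q → 2 ≤ y → θ * Real.log q ≤ Real.log y →
    Real.log y ≤ Real.log q / 4 → ∀ R : Finset ℚ, (∀ r ∈ R, 0 < r ∧ r ≤ q) →
      ∑ r ∈ R, M.EE (fun w => ‖vB (fun m => M.X m w) y r‖ ^ 2) ≤ C := by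
  obtain ⟨C, hC, hA⟩ := vA_sum hn hθ
  refine ⟨Real.exp 2 * (C + 1), by positivity, ?_⟩
  intro M q y hq hy h1 h2 R hR
  let _ := M.ms
  have _ := M.pr
  have hX : ∀ m, MO5BM (M.X m) := fun m => ⟨M.meas m, dn n m, fun w => mo5_temp (M.temp w) m⟩
  have hlog : 1 ≤ Real.log q := by
    have h3 : Real.exp 1 ≤ q := by
      have := Real.exp_one_lt_d9
      have hq3 : (3 : ℝ) ≤ q := by exact_mod_cast hq
      linarith
    have h4 := Real.log_le_log (Real.exp_pos 1) h3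
    rwa [Real.log_exp] at h4
  refine mo5_main M.P hn M.X hX (fun w => M.temp w) ?_ ?_ C q y hq hy (fun w R' hR' =>
    hA _ (M.temp w) (Real.log q) y hlog hy h1 h2 (2 / Real.log q) (by positivity) le_rfl R' hR')
    R hR
  · intro m k m' k' hm hk hm' hk' hne
    have := mo5_orth hM M (OF k) (OF k') (fun l => (m :: l, [])) (fun l => (m' :: l, []))
      (fun l hl => ⟨fun a ha => by
        rcases List.mem_cons.1 ha with rfl | ha
        · exact hm
        · exact (by norm_num : 1 ≤ 2).trans ((mo5_OF hl).1 a ha), by simp⟩)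
      (fun l hl => ⟨fun a ha => by
        rcases List.mem_cons.1 ha with rfl | ha
        · exact hm'
        · exact (by norm_num : 1 ≤ 2).trans ((mo5_OF hl).1 a ha), by simp⟩)
      (fun l hl l' hl' => by
        simp only [List.prod_cons, List.prod_nil, mul_one]
        rw [(mo5_OF hl).2, (mo5_OF hl').2]
        exact hne)
    refine Eq.trans ?_ this
    refine integral_congr_ae (Filter.Eventually.of_forall fun w => ?_)
    have e1 : ∀ (m k : ℕ), M.X m w * minv (fun j => M.X j w) k =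
        ∑ l ∈ OF k, (-1) ^ l.length * lw (fun m => M.X m w) (m :: l, []) := by
      intro m k
      unfold minv lw
      rw [Finset.mul_sum]
      refine Finset.sum_congr rfl fun l _ => ?_
      simp only [List.map_cons, List.prod_cons, List.map_nil, List.prod_nil, mul_one]
      ring
    simp only
    rw [e1, e1]
  · intro m k m' k' hm hk hm' hk' hne
    have := mo5_orth hM M (OF k) (OF k') (fun l => ([m], l)) (fun l => ([m'], l))
      (fun l hl => ⟨fun a ha => by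
        rw [List.mem_singleton.1 ha]
        exact hm, fun a ha => (by norm_num : 1 ≤ 2).trans ((mo5_OF hl).1 a ha)⟩)
      (fun l hl => ⟨fun a ha => by
        rw [List.mem_singleton.1 ha]
        exact hm', fun a ha => (by norm_num : 1 ≤ 2).trans ((mo5_OF hl).1 a ha)⟩)
      (fun l hl l' hl' => by
        simp only [List.prod_cons, List.prod_nil, mul_one]
        rw [(mo5_OF hl).2, (mo5_OF hl').2]
        exact hne)
    refine Eq.trans ?_ this
    refine integral_congr_ae (Filter.Eventually.of_forall fun w => ?_)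
    have e1 : ∀ (m k : ℕ), M.X m w * (starRingEnd ℂ) (minv (fun j => M.X j w) k) =
        ∑ l ∈ OF k, (-1) ^ l.length * lw (fun m => M.X m w) ([m], l) := by
      intro m k
      unfold minv lw
      rw [map_sum, Finset.mul_sum]
      refine Finset.sum_congr rfl fun l _ => ?_
      simp only [List.map_cons, List.prod_cons, List.map_nil, List.prod_nil, mul_one, map_mul,
        map_pow, map_neg, map_one, map_list_prod, List.map_map]
      have : (List.map ((starRingEnd ℂ) ∘ fun j => M.X j w) l) =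
          List.map (fun b => (starRingEnd ℂ) (M.X b w)) l := rfl
      rw [this]
      ring
    simp only
    rw [e1, e1]

end

end Pool.Agent.DN

namespace Pool.Agent.DN

theorem vB_model : type_of% @vB_model_pr := @vB_model_pr

end Pool.Agent.DN
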