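import Pool.Agent.Lib_helper61.DNF.CU
import Pool.Agent.Lib_helper24.SQ.PL

/-! Block PL of the project DN: the Plancherel inequality for the shifted Laplace transform. -/

set_option autoImplicit false

namespace Pool.Agent.DN

open MeasureTheory Complex Finset
open Pool.Agent.SGN Pool.Agent.BX
open Pool.Agent.QG (ew)
open scoped ENNReal

noncomputable section

theorem pl_norm_ew (σ v : ℝ) : ‖ew (σ : ℂ) v‖ = Real.exp ((σ - 1 / 2) * v) := by
  unfold ew
  rw [Complex.norm_exp]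
  congr 1
  have : (((σ : ℂ) - 1 / 2) * (v : ℂ)) = (((σ - 1 / 2) * v : ℝ) : ℂ) := by push_cast; ring
  rw [this, Complex.ofReal_re]

theorem pl_lap_hat (h : ℝ → ℂ) (σ t : ℝ) :
    Lap h ((σ : ℂ) + t * I) = Pool.Agent.SQS.hat (fun v => h v * ew (σ : ℂ) v) t := by
  unfold Lap Pool.Agent.SQS.hat
  refine integral_congr_ae (Filter.Eventually.of_forall fun v => ?_)
  beta_reduce
  rw [mul_assoc]
  congr 1
  unfold ew
  rw [← Complex.exp_add]
  congr 1
  ring

/-- PL: Plancherel (`Lib_helper24/SQ/PL`) -/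
theorem lap_sq_pr {h : ℝ → ℂ} (hm : Measurable h) {σ T : ℝ} (hT : 0 ≤ T)
    (h1 : Integrable fun v => h v * ew (σ : ℂ) v)
    (h2 : Integrable fun v => ‖h v‖ ^ 2 * Real.exp (2 * (σ - 1 / 2) * v)) :
    ∫ t in (-T)..T, ‖Lap h ((σ : ℂ) + t * I)‖ ^ 2 ≤
      2 * Real.pi * ∫ v, ‖h v‖ ^ 2 * Real.exp (2 * (σ - 1 / 2) * v) := by
  have e : ∀ v : ℝ, ‖h v * ew (σ : ℂ) v‖ ^ 2 = ‖h v‖ ^ 2 * Real.exp (2 * (σ - 1 / 2) * v) := by
    intro v
    rw [norm_mul, mul_pow, pl_norm_ew, ← Real.exp_nat_mul]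
    congr 2
    push_cast
    ring
  have h2' : Integrable fun v => ‖h v * ew (σ : ℂ) v‖ ^ 2 := by
    simp only [e]; exact h2
  obtain ⟨hi, he⟩ := Pool.Agent.SQS.PL1 _ h1 h2'
  simp only [e] at he
  rw [← he]
  simp only [pl_lap_hat]
  rw [intervalIntegral.integral_of_le (by linarith)]
  exact setIntegral_le_integral hi (Filter.Eventually.of_forall fun t => by positivity)

end

end Pool.Agent.DN

namespace Pool.Agent.DN

theorem lap_sq : type_of% @lap_sq_pr := @lap_sq_pr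

end Pool.Agent.DN
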