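import Pool.Agent.Lib_helper61.DNF.PL

/-! DN, block Z1: Jensen's inequality on a disc. -/

set_option autoImplicit false

namespace Pool.Agent.DN

open MeasureTheory Complex Finset
open Pool.Agent.SGN Pool.Agent.BX
open Pool.Agent.QG (ew)
open scoped ENNReal

noncomputable section

theorem z1_untop (x : ℕ∞) : ((x.map ((↑) : ℕ → ℤ)).untop₀ : ℤ) = (x.toNat : ℤ) := by
  cases x with
  | top => rfl
  | coe n => rfl

theorem z1_div {f : ℂ → ℂ} {s₀ : ℂ} {R : ℝ} (hf : AnalyticOnNhd ℂ f (Metric.closedBall s₀ R))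
    {u : ℂ} (hu : u ∈ Metric.closedBall s₀ R) :
    MeromorphicOn.divisor f (Metric.closedBall s₀ R) u = (analyticOrderNatAt f u : ℤ) := by
  rw [MeromorphicOn.AnalyticOnNhd.divisor_apply hf hu, z1_untop]
  rfl

theorem z1_log {s₀ u : ℂ} {R : ℝ} (hR : 0 < R) (hu : u ∈ Metric.closedBall s₀ R) :
    0 ≤ Real.log (R * ‖s₀ - u‖⁻¹) := by
  rcases eq_or_ne u s₀ with h | h
  · rw [h, sub_self, norm_zero, inv_zero, mul_zero, Real.log_zero]
  · apply Real.log_nonneg
    have h1 : 0 < ‖s₀ - u‖ := norm_pos_iff.2 (sub_ne_zero.2 h.symm)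
    rw [← div_eq_mul_inv, le_div_iff₀ h1, one_mul, norm_sub_rev]
    simpa [dist_eq_norm] using hu

theorem jensen_disc_pr {f : ℂ → ℂ} {s₀ : ℂ} {R : ℝ} (hR : 0 < R)
    (hf : AnalyticOnNhd ℂ f (Metric.closedBall s₀ R)) (h0 : f s₀ ≠ 0) (S : Finset ℂ)
    (hS : ∀ ρ ∈ S, ρ ∈ Metric.closedBall s₀ R) :
    ∑ ρ ∈ S, (analyticOrderNatAt f ρ : ℝ) * Real.log (R / ‖ρ - s₀‖) ≤
      Real.circleAverage (fun s => Real.log ‖f s‖) s₀ R - Real.log ‖f s₀‖ := by
  classical
  have habs : |R| = R := abs_of_pos hR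
  have hJ := AnalyticOnNhd.circleAverage_log_norm (c := s₀) (R := R) (f := f) hR.ne'
    (by rw [habs]; exact hf) h0
  rw [habs] at hJ
  rw [hJ, add_sub_cancel_right]
  have hfin : (MeromorphicOn.divisor f (Metric.closedBall s₀ R)).support.Finite :=
    (MeromorphicOn.divisor f (Metric.closedBall s₀ R)).finiteSupport (isCompact_closedBall s₀ R)
  have hsupp : Function.support (fun u => (MeromorphicOn.divisor f (Metric.closedBall s₀ R) u : ℝ) *
      Real.log (R * ‖s₀ - u‖⁻¹)) ⊆ ((hfin.toFinset ∪ S : Finset ℂ) : Set ℂ) := by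
    intro u hu
    rw [Finset.coe_union]
    left
    rw [Set.Finite.coe_toFinset, Function.mem_support]
    intro h
    apply hu
    simp [h]
  rw [finsum_eq_sum_of_support_subset _ hsupp]
  have hnn : ∀ u : ℂ, 0 ≤ (MeromorphicOn.divisor f (Metric.closedBall s₀ R) u : ℝ) *
      Real.log (R * ‖s₀ - u‖⁻¹) := by
    intro u
    by_cases hu : u ∈ Metric.closedBall s₀ R
    · rw [z1_div hf hu]
      exact mul_nonneg (by positivity) (z1_log hR hu)
    · rw [Function.locallyFinsuppWithin.apply_eq_zero_of_notMem _ hu]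
      simp
  refine le_trans (le_of_eq ?_) (Finset.sum_le_sum_of_subset_of_nonneg
    (Finset.subset_union_right (s₁ := hfin.toFinset) (s₂ := S)) fun u _ _ => hnn u)
  refine Finset.sum_congr rfl fun ρ hρ => ?_
  rw [z1_div hf (hS ρ hρ), div_eq_mul_inv, norm_sub_rev]
  push_cast
  rfl


end

end Pool.Agent.DN

namespace Pool.Agent.DN

theorem jensen_disc : type_of% @jensen_disc_pr := @jensen_disc_pr

end Pool.Agent.DN
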