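import Pool.Agent.Lib_helper61.DNF.Z1

/-! # DN, block Z2: counting the zeros of one function -/

set_option autoImplicit false

namespace Pool.Agent.DN

open MeasureTheory Complex Finset
open Pool.Agent.SGN Pool.Agent.BX
open Pool.Agent.QG (ew)
open scoped ENNReal

noncomputable section

theorem z2_log_le (z : ℂ) : Real.log ‖z‖ ≤ ‖z - 1‖ := by
  by_cases hz : z = 0
  · subst hz
    simp
  · have h1 : Real.log ‖z‖ ≤ ‖z‖ - 1 := Real.log_le_sub_one_of_pos (norm_pos_iff.2 hz)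
    have h2 : ‖z‖ - ‖(1 : ℂ)‖ ≤ ‖z - 1‖ := norm_sub_norm_le z 1
    rw [norm_one] at h2
    linarith

theorem z2_log_ge (z : ℂ) (h : ‖z - 1‖ ≤ 1 / 2) : -Real.log ‖z‖ ≤ 2 * ‖z - 1‖ := by
  have h2 : ‖(1 : ℂ)‖ - ‖z‖ ≤ ‖(1 : ℂ) - z‖ := norm_sub_norm_le 1 z
  rw [norm_one, norm_sub_rev] at h2
  have h0 : 0 ≤ ‖z - 1‖ := norm_nonneg _
  have hz : 1 / 2 ≤ ‖z‖ := by linarith
  have hzp : 0 < ‖z‖ := by linarith
  rw [← Real.log_inv]
  have h3 : Real.log (‖z‖)⁻¹ ≤ (‖z‖)⁻¹ - 1 := Real.log_le_sub_one_of_pos (inv_pos.2 hzp)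
  refine h3.trans ?_
  have h4 : (‖z‖)⁻¹ - 1 = (1 - ‖z‖) / ‖z‖ := by field_simp
  rw [h4, div_le_iff₀ hzp]
  nlinarith

/-- the geometric estimate -/
theorem z2_geom {R ε : ℝ} (hR : 4 ≤ R) (hε : 0 < ε) (hε1 : ε ≤ 1) {x y : ℝ} (hx1 : ε / 2 < x)
    (hx2 : x ≤ R - ε / 2) (hy : |y| ≤ Real.sqrt ε) {d : ℝ} (hd0 : 0 ≤ d)
    (hd : d ^ 2 = x ^ 2 + y ^ 2) : 0 < d ∧ d ≤ R ∧ ε / (4 * R) ≤ Real.log (R / d) := by
  have hRp : 0 < R := by linarith
  have hy2 : y ^ 2 ≤ ε := by
    have h1 : |y| ^ 2 ≤ Real.sqrt ε ^ 2 := pow_le_pow_left₀ (abs_nonneg _) hy 2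
    rwa [sq_abs, Real.sq_sqrt hε.le] at h1
  have hx0 : 0 < x := by linarith
  have hdp : 0 < d := by
    have : 0 < d ^ 2 := by
      rw [hd]
      positivity
    exact lt_of_le_of_ne hd0 fun h => by
      rw [← h] at this
      norm_num at this
  have hx3 : x ^ 2 ≤ (R - ε / 2) ^ 2 := pow_le_pow_left₀ hx0.le hx2 2
  have hd2 : d ^ 2 ≤ R ^ 2 - R * ε / 2 := by
    rw [hd]
    nlinarith
  have hdR : d ≤ R := by
    have : d ^ 2 ≤ R ^ 2 := by nlinarith
    exact (pow_le_pow_iff_left₀ hd0 hRp.le two_ne_zero).1 this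
  refine ⟨hdp, hdR, ?_⟩
  have h1 : Real.log (d ^ 2 / R ^ 2) ≤ d ^ 2 / R ^ 2 - 1 :=
    Real.log_le_sub_one_of_pos (by positivity)
  have h2 : Real.log (d ^ 2 / R ^ 2) = -(2 * Real.log (R / d)) := by
    rw [Real.log_div (by positivity) (by positivity), Real.log_pow, Real.log_pow,
      Real.log_div (by positivity) (by positivity)]
    push_cast
    ring
  have h3 : d ^ 2 / R ^ 2 - 1 ≤ -(ε / (2 * R)) := by
    have : d ^ 2 / R ^ 2 ≤ (R ^ 2 - R * ε / 2) / R ^ 2 :=
      div_le_div_of_nonneg_right hd2 (by positivity)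
    have h4 : (R ^ 2 - R * ε / 2) / R ^ 2 = 1 - ε / (2 * R) := by
      field_simp
    linarith
  have h5 : ε / (4 * R) = ε / (2 * R) / 2 := by
    field_simp
    norm_num
  rw [h5]
  linarith

/-- the estimate for one disc -/
theorem z2_one {f : ℂ → ℂ} (hf : DifferentiableOn ℂ f {s | 1 / 2 < s.re}) {R ε a b : ℝ}
    (hR : 4 ≤ R) (hε : 0 < ε) (hε1 : ε ≤ 1)
    (hfar : ∀ s : ℂ, 1 / 2 + R ≤ s.re → ‖f s - 1‖ ≤ 1 / 2) (S : Finset ℂ)
    (hS : ∀ ρ ∈ S, 1 / 2 + ε ≤ ρ.re ∧ a ≤ ρ.im ∧ ρ.im ≤ b ∧ f ρ = 0) (t : ℝ) :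
    ε / (4 * R) * ∑ ρ ∈ S, (Set.Icc (ρ.im - Real.sqrt ε) (ρ.im + Real.sqrt ε)).indicator
        (fun _ => (analyticOrderNatAt f ρ : ℝ)) t ≤
      (2 * Real.pi)⁻¹ * (∫ θ in (0 : ℝ)..(2 * Real.pi),
        ‖f (((1 / 2 + ε / 2 + R + R * Real.cos θ : ℝ) : ℂ) +
          ((t + R * Real.sin θ : ℝ) : ℂ) * I) - 1‖) +
      2 * ‖f (((1 / 2 + ε / 2 + R : ℝ) : ℂ) + t * I) - 1‖ := by
  classical
  have hRp : 0 < R := by linarith
  set s₀ : ℂ := ((1 / 2 + ε / 2 + R : ℝ) : ℂ) + t * I with hs₀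
  have hs₀re : s₀.re = 1 / 2 + ε / 2 + R := by simp [hs₀]
  have hs₀im : s₀.im = t := by simp [hs₀]
  have hs₀far : ‖f s₀ - 1‖ ≤ 1 / 2 := hfar s₀ (by rw [hs₀re]; linarith)
  have hs₀ne : f s₀ ≠ 0 := by
    intro h
    rw [h] at hs₀far
    norm_num at hs₀far
  have hopen : IsOpen {s : ℂ | 1 / 2 < s.re} := isOpen_lt continuous_const continuous_re
  have han : AnalyticOnNhd ℂ f (Metric.closedBall s₀ R) := by
    refine (hf.analyticOnNhd hopen).mono ?_
    intro s hs
    rw [Metric.mem_closedBall, Complex.dist_eq] at hs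
    have h1 : |(s - s₀).re| ≤ ‖s - s₀‖ := abs_re_le_norm _
    rw [sub_re, hs₀re] at h1
    have h2 := (abs_le.1 (h1.trans hs)).1
    show 1 / 2 < s.re
    linarith
  set S' : Finset ℂ := S.filter fun ρ => |ρ.im - t| ≤ Real.sqrt ε with hS'
  have hgeo : ∀ ρ ∈ S', 0 < ‖ρ - s₀‖ ∧ ‖ρ - s₀‖ ≤ R ∧ ε / (4 * R) ≤ Real.log (R / ‖ρ - s₀‖) := by
    intro ρ hρ
    rw [hS', mem_filter] at hρ
    obtain ⟨h1, h2, h3, h4⟩ := hS ρ hρ.1
    have h5 : ρ.re < 1 / 2 + R := by
      by_contra hcon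
      push Not at hcon
      have := hfar ρ hcon
      rw [h4] at this
      norm_num at this
    refine z2_geom hR hε hε1 (x := s₀.re - ρ.re) (y := ρ.im - t) ?_ ?_ hρ.2 (norm_nonneg _) ?_
    · rw [hs₀re]; linarith
    · rw [hs₀re]; linarith
    · rw [← Complex.normSq_eq_norm_sq, Complex.normSq_apply, sub_re, sub_im, hs₀im]
      ring
  have hj := jensen_disc hRp han hs₀ne S' fun ρ hρ => by
    rw [Metric.mem_closedBall, Complex.dist_eq]
    exact (hgeo ρ hρ).2.1
  -- left side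
  have hL : ε / (4 * R) * ∑ ρ ∈ S, (Set.Icc (ρ.im - Real.sqrt ε) (ρ.im + Real.sqrt ε)).indicator
        (fun _ => (analyticOrderNatAt f ρ : ℝ)) t ≤
      ∑ ρ ∈ S', (analyticOrderNatAt f ρ : ℝ) * Real.log (R / ‖ρ - s₀‖) := by
    have e1 : ∑ ρ ∈ S, (Set.Icc (ρ.im - Real.sqrt ε) (ρ.im + Real.sqrt ε)).indicator
        (fun _ => (analyticOrderNatAt f ρ : ℝ)) t = ∑ ρ ∈ S', (analyticOrderNatAt f ρ : ℝ) := by
      rw [hS', sum_filter]
      refine sum_congr rfl fun ρ _ => ?_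
      have : t ∈ Set.Icc (ρ.im - Real.sqrt ε) (ρ.im + Real.sqrt ε) ↔
          |ρ.im - t| ≤ Real.sqrt ε := by
        rw [abs_le, Set.mem_Icc]
        constructor
        · rintro ⟨h1, h2⟩
          constructor <;> linarith
        · rintro ⟨h1, h2⟩
          constructor <;> linarith
      rw [Set.indicator_apply]
      simp only [this]
    rw [e1, mul_sum]
    refine sum_le_sum fun ρ hρ => ?_
    rw [mul_comm]
    exact mul_le_mul_of_nonneg_left (hgeo ρ hρ).2.2 (Nat.cast_nonneg _)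
  refine hL.trans (hj.trans ?_)
  -- right side
  have hM : ∀ θ : ℝ, circleMap s₀ R θ = ((1 / 2 + ε / 2 + R + R * Real.cos θ : ℝ) : ℂ) +
          ((t + R * Real.sin θ : ℝ) : ℂ) * I := by
    intro θ
    rw [circleMap, hs₀, Complex.exp_mul_I, ← Complex.ofReal_cos, ← Complex.ofReal_sin]
    push_cast
    ring
  have hcont : Continuous fun θ : ℝ => ‖f (circleMap s₀ R θ) - 1‖ := by
    refine continuous_norm.comp (Continuous.sub ?_ continuous_const)
    refine han.continuousOn.comp_continuous (continuous_circleMap s₀ R) fun θ => ?_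
    exact circleMap_mem_closedBall s₀ hRp.le θ
  have hC : Real.circleAverage (fun s => Real.log ‖f s‖) s₀ R ≤
      (2 * Real.pi)⁻¹ * (∫ θ in (0 : ℝ)..(2 * Real.pi),
        ‖f (((1 / 2 + ε / 2 + R + R * Real.cos θ : ℝ) : ℂ) +
          ((t + R * Real.sin θ : ℝ) : ℂ) * I) - 1‖) := by
    simp only [← hM]
    rw [Real.circleAverage, smul_eq_mul]
    refine mul_le_mul_of_nonneg_left ?_ (by positivity)
    by_cases hint : IntervalIntegrable (fun θ : ℝ => Real.log ‖f (circleMap s₀ R θ)‖) volume 0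
        (2 * Real.pi)
    · exact intervalIntegral.integral_mono_on (by positivity) hint
        (hcont.intervalIntegrable _ _) fun θ _ => z2_log_le _
    · rw [intervalIntegral.integral_undef hint]
      exact intervalIntegral.integral_nonneg (by positivity) fun θ _ => norm_nonneg _
  have hD := z2_log_ge (f s₀) hs₀far
  linarith

/-- exchanging the two averages -/
theorem z2_fubini {R a b T : ℝ} (hR : 0 < R) (hab : a ≤ b) (hT : |a| + |b| + R + 1 ≤ T)
    (H : ℝ → ℝ → ℝ) (hH : Continuous (Function.uncurry H)) (hpos : ∀ θ t, 0 ≤ H θ t) :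
    ∫ t in (a - 1)..(b + 1), ∫ θ in (0 : ℝ)..(2 * Real.pi), H θ (t + R * Real.sin θ) ≤
      ∫ θ in (0 : ℝ)..(2 * Real.pi), ∫ t in (-T)..T, H θ t := by
  have ha := abs_nonneg a
  have hb := abs_nonneg b
  have ha1 := neg_abs_le a
  have hb1 := le_abs_self b
  have hle : a - 1 ≤ b + 1 := by linarith
  have hpi : (0 : ℝ) ≤ 2 * Real.pi := by positivity
  have hG : Continuous (Function.uncurry fun (t θ : ℝ) => H θ (t + R * Real.sin θ)) := by
    have : (Function.uncurry fun (t θ : ℝ) => H θ (t + R * Real.sin θ)) =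
        Function.uncurry H ∘ fun p : ℝ × ℝ => (p.2, p.1 + R * Real.sin p.2) := rfl
    rw [this]
    exact hH.comp (by fun_prop)
  have hG' : Continuous (Function.uncurry fun (θ t : ℝ) => H θ (t + R * Real.sin θ)) := by
    have : (Function.uncurry fun (θ t : ℝ) => H θ (t + R * Real.sin θ)) =
        Function.uncurry H ∘ fun p : ℝ × ℝ => (p.1, p.2 + R * Real.sin p.1) := rfl
    rw [this]
    exact hH.comp (by fun_prop)
  have hH1 : ∀ θ, Continuous (H θ) := by
    intro θ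
    have : H θ = Function.uncurry H ∘ fun t : ℝ => (θ, t) := rfl
    rw [this]
    exact hH.comp (by fun_prop)
  have hsw : ∫ t in (a - 1)..(b + 1), ∫ θ in (0 : ℝ)..(2 * Real.pi), H θ (t + R * Real.sin θ) =
      ∫ θ in (0 : ℝ)..(2 * Real.pi), ∫ t in (a - 1)..(b + 1), H θ (t + R * Real.sin θ) := by
    simp only [intervalIntegral.integral_of_le hle, intervalIntegral.integral_of_le hpi]
    refine integral_integral_swap ?_
    rw [Measure.prod_restrict]
    refine IntegrableOn.mono_set (t := Set.Icc (a - 1) (b + 1) ×ˢ Set.Icc 0 (2 * Real.pi)) ?_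
      (Set.prod_mono Set.Ioc_subset_Icc_self Set.Ioc_subset_Icc_self)
    exact hG.continuousOn.integrableOn_compact (isCompact_Icc.prod isCompact_Icc)
  rw [hsw]
  refine intervalIntegral.integral_mono_on hpi ?_ ?_ fun θ _ => ?_
  · refine Continuous.intervalIntegrable ?_ _ _
    exact intervalIntegral.continuous_parametric_intervalIntegral_of_continuous' hG' _ _
  · refine Continuous.intervalIntegrable ?_ _ _
    exact intervalIntegral.continuous_parametric_intervalIntegral_of_continuous' hH _ _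
  · have hsh := intervalIntegral.integral_comp_add_right (H θ)
      (a := a - 1) (b := b + 1) (R * Real.sin θ)
    rw [hsh]
    have hs1 : R * Real.sin θ ≤ R := by nlinarith [Real.sin_le_one θ]
    have hs2 : -R ≤ R * Real.sin θ := by nlinarith [Real.neg_one_le_sin θ]
    exact intervalIntegral.integral_mono_interval (by linarith) (by linarith) (by linarith)
      (Filter.Eventually.of_forall fun t => hpos θ t) ((hH1 θ).intervalIntegrable _ _)

/-- Z2: Jensen's formula on the discs of radius `R` tangent to the line `Re s = 1/2 + ε/2`,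
averaged over the ordinates of the centres -/
theorem count_one_pr {f : ℂ → ℂ} (hf : DifferentiableOn ℂ f {s | 1 / 2 < s.re}) {R ε a b T : ℝ}
    (hR : 4 ≤ R) (hε : 0 < ε) (hε1 : ε ≤ 1) (hab : a ≤ b) (hT : |a| + |b| + R + 1 ≤ T)
    (hfar : ∀ s : ℂ, 1 / 2 + R ≤ s.re → ‖f s - 1‖ ≤ 1 / 2) (S : Finset ℂ)
    (hS : ∀ ρ ∈ S, 1 / 2 + ε ≤ ρ.re ∧ a ≤ ρ.im ∧ ρ.im ≤ b ∧ f ρ = 0) :
    ε ^ (3 / 2 : ℝ) / (2 * R) * ∑ ρ ∈ S, (analyticOrderNatAt f ρ : ℝ) ≤
      (2 * Real.pi)⁻¹ * (∫ θ in (0 : ℝ)..(2 * Real.pi), ∫ t in (-T)..T,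
        ‖f (((1 / 2 + ε / 2 + R + R * Real.cos θ : ℝ) : ℂ) + t * I) - 1‖) +
      2 * ∫ t in (-T)..T, ‖f (((1 / 2 + ε / 2 + R : ℝ) : ℂ) + t * I) - 1‖ := by
  have hRp : 0 < R := by linarith
  have hsq : 0 < Real.sqrt ε := Real.sqrt_pos.2 hε
  have hsq1 : Real.sqrt ε ≤ 1 := Real.sqrt_le_one.2 hε1
  have ha := abs_nonneg a
  have hb := abs_nonneg b
  have ha1 := neg_abs_le a
  have hb1 := le_abs_self b
  have ha2 := le_abs_self a
  have hb2 := neg_abs_le b
  -- continuity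
  have hcf : ContinuousOn f {s | 1 / 2 < s.re} := hf.continuousOn
  have hG : Continuous (Function.uncurry fun (t θ : ℝ) =>
      ‖f (((1 / 2 + ε / 2 + R + R * Real.cos θ : ℝ) : ℂ) +
          ((t + R * Real.sin θ : ℝ) : ℂ) * I) - 1‖) := by
    refine continuous_norm.comp (Continuous.sub ?_ continuous_const)
    refine hcf.comp_continuous (by fun_prop) fun p => ?_
    show 1 / 2 < Complex.re _
    have h1 : -1 ≤ Real.cos p.2 := Real.neg_one_le_cos _
    have h2 : (((1 / 2 + ε / 2 + R + R * Real.cos p.2 : ℝ) : ℂ) +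
          ((p.1 + R * Real.sin p.2 : ℝ) : ℂ) * I).re = 1 / 2 + ε / 2 + R + R * Real.cos p.2 := by
      simp only [add_re, ofReal_re, mul_re, I_re, mul_zero, ofReal_im, I_im, mul_one, sub_zero,
        add_zero]
    rw [h2]
    nlinarith
  have hH : ∀ θ : ℝ, Continuous fun t : ℝ =>
      ‖f (((1 / 2 + ε / 2 + R + R * Real.cos θ : ℝ) : ℂ) + t * I) - 1‖ := by
    intro θ
    refine continuous_norm.comp (Continuous.sub ?_ continuous_const)
    refine hcf.comp_continuous (by fun_prop) fun t => ?_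
    show 1 / 2 < Complex.re _
    have h1 : -1 ≤ Real.cos θ := Real.neg_one_le_cos _
    have h2 : (((1 / 2 + ε / 2 + R + R * Real.cos θ : ℝ) : ℂ) + (t : ℂ) * I).re =
        1 / 2 + ε / 2 + R + R * Real.cos θ := by
      simp only [add_re, ofReal_re, mul_re, I_re, mul_zero, ofReal_im, I_im, mul_one, sub_zero,
        add_zero]
    rw [h2]
    nlinarith
  have hH0 : Continuous fun t : ℝ =>
      ‖f (((1 / 2 + ε / 2 + R : ℝ) : ℂ) + t * I) - 1‖ := by
    have := hH (Real.pi / 2)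
    simpa only [Real.cos_pi_div_two, mul_zero, add_zero] using this
  have hHj : Continuous (Function.uncurry fun (θ t : ℝ) =>
      ‖f (((1 / 2 + ε / 2 + R + R * Real.cos θ : ℝ) : ℂ) + t * I) - 1‖) := by
    refine continuous_norm.comp (Continuous.sub ?_ continuous_const)
    refine hcf.comp_continuous (by fun_prop) fun p => ?_
    show 1 / 2 < Complex.re _
    have h1 : -1 ≤ Real.cos p.1 := Real.neg_one_le_cos _
    have h2 : (((1 / 2 + ε / 2 + R + R * Real.cos p.1 : ℝ) : ℂ) + (p.2 : ℂ) * I).re =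
        1 / 2 + ε / 2 + R + R * Real.cos p.1 := by
      simp only [add_re, ofReal_re, mul_re, I_re, mul_zero, ofReal_im, I_im, mul_one, sub_zero,
        add_zero]
    rw [h2]
    nlinarith
  have hGI : Continuous fun t : ℝ => ∫ θ in (0 : ℝ)..(2 * Real.pi),
      ‖f (((1 / 2 + ε / 2 + R + R * Real.cos θ : ℝ) : ℂ) +
          ((t + R * Real.sin θ : ℝ) : ℂ) * I) - 1‖ :=
    intervalIntegral.continuous_parametric_intervalIntegral_of_continuous' hG _ _
  -- integrate the pointwise bound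
  have hpt := z2_one hf hR hε hε1 hfar S hS
  have hle : a - 1 ≤ b + 1 := by linarith
  have hmeasI : ∀ ρ : ℂ, IntervalIntegrable
      (fun t => (Set.Icc (ρ.im - Real.sqrt ε) (ρ.im + Real.sqrt ε)).indicator
        (fun _ => (analyticOrderNatAt f ρ : ℝ)) t) volume (a - 1) (b + 1) := by
    intro ρ
    rw [intervalIntegrable_iff_integrableOn_Ioc_of_le hle]
    exact (integrableOn_const (by
      rw [Real.volume_Ioc]; exact ENNReal.ofReal_ne_top)).indicator measurableSet_Icc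
  have hval : ∀ ρ ∈ S, ∫ t in (a - 1)..(b + 1),
      (Set.Icc (ρ.im - Real.sqrt ε) (ρ.im + Real.sqrt ε)).indicator
        (fun _ => (analyticOrderNatAt f ρ : ℝ)) t = (analyticOrderNatAt f ρ : ℝ) *
        (2 * Real.sqrt ε) := by
    intro ρ hρ
    obtain ⟨h1, h2, h3, h4⟩ := hS ρ hρ
    rw [intervalIntegral.integral_of_le hle, ← integral_Icc_eq_integral_Ioc,
      setIntegral_indicator measurableSet_Icc,
      Set.inter_eq_self_of_subset_right (Set.Icc_subset_Icc (by linarith) (by linarith)),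
      setIntegral_const, smul_eq_mul, measureReal_def, Real.volume_Icc,
      ENNReal.toReal_ofReal (by linarith)]
    ring
  have hI1 : ∫ t in (a - 1)..(b + 1), ε / (4 * R) * ∑ ρ ∈ S,
      (Set.Icc (ρ.im - Real.sqrt ε) (ρ.im + Real.sqrt ε)).indicator
        (fun _ => (analyticOrderNatAt f ρ : ℝ)) t =
      ε ^ (3 / 2 : ℝ) / (2 * R) * ∑ ρ ∈ S, (analyticOrderNatAt f ρ : ℝ) := by
    rw [intervalIntegral.integral_const_mul, intervalIntegral.integral_finsetSum
      fun ρ _ => hmeasI ρ, sum_congr rfl hval, ← sum_mul]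
    have e1 : ε ^ (3 / 2 : ℝ) = ε * Real.sqrt ε := by
      rw [Real.sqrt_eq_rpow, show (3 / 2 : ℝ) = 1 + 1 / 2 by norm_num,
        Real.rpow_add hε, Real.rpow_one]
    rw [e1]
    field_simp
    ring
  have hI2 : ∫ t in (a - 1)..(b + 1), ε / (4 * R) * ∑ ρ ∈ S,
      (Set.Icc (ρ.im - Real.sqrt ε) (ρ.im + Real.sqrt ε)).indicator
        (fun _ => (analyticOrderNatAt f ρ : ℝ)) t ≤
      ∫ t in (a - 1)..(b + 1), ((2 * Real.pi)⁻¹ * (∫ θ in (0 : ℝ)..(2 * Real.pi),
        ‖f (((1 / 2 + ε / 2 + R + R * Real.cos θ : ℝ) : ℂ) +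
          ((t + R * Real.sin θ : ℝ) : ℂ) * I) - 1‖) +
      2 * ‖f (((1 / 2 + ε / 2 + R : ℝ) : ℂ) + t * I) - 1‖) := by
    refine intervalIntegral.integral_mono_on hle ?_ ?_ fun t _ => hpt t
    · refine IntervalIntegrable.const_mul ?_ _
      have := IntervalIntegrable.sum S (f := fun ρ => fun t =>
        (Set.Icc (ρ.im - Real.sqrt ε) (ρ.im + Real.sqrt ε)).indicator
        (fun _ => (analyticOrderNatAt f ρ : ℝ)) t) fun ρ _ => hmeasI ρ
      have e : (fun t => ∑ ρ ∈ S, (Set.Icc (ρ.im - Real.sqrt ε) (ρ.im + Real.sqrt ε)).indicator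
          (fun _ => (analyticOrderNatAt f ρ : ℝ)) t) = ∑ ρ ∈ S, fun t =>
          (Set.Icc (ρ.im - Real.sqrt ε) (ρ.im + Real.sqrt ε)).indicator
          (fun _ => (analyticOrderNatAt f ρ : ℝ)) t := by
        funext t
        rw [Finset.sum_apply]
      rw [e]
      exact this
    · exact ((hGI.const_mul _).add (hH0.const_mul _)).intervalIntegrable _ _
  rw [hI1] at hI2
  refine hI2.trans ?_
  rw [intervalIntegral.integral_add ((hGI.const_mul _).intervalIntegrable _ _)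
    ((hH0.const_mul _).intervalIntegrable _ _), intervalIntegral.integral_const_mul,
    intervalIntegral.integral_const_mul]
  refine add_le_add (mul_le_mul_of_nonneg_left ?_ (by positivity))
    (mul_le_mul_of_nonneg_left ?_ (by norm_num))
  · exact z2_fubini hRp hab hT (fun θ t =>
      ‖f (((1 / 2 + ε / 2 + R + R * Real.cos θ : ℝ) : ℂ) + t * I) - 1‖) hHj
      fun θ t => norm_nonneg _
  · exact intervalIntegral.integral_mono_interval (by linarith) (by linarith) (by linarith)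
        (Filter.Eventually.of_forall fun t => norm_nonneg _) (hH0.intervalIntegrable _ _)

end

end Pool.Agent.DN

namespace Pool.Agent.DN

theorem count_one : type_of% @count_one_pr := @count_one_pr

end Pool.Agent.DN
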