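import Pool.Agent.Lib_helper61.DNF.Z2

/-!
# DN block Z3: counting zeros in a family
-/

set_option autoImplicit false

namespace Pool.Agent.DN

open MeasureTheory Complex Finset
open Pool.Agent.SGN Pool.Agent.BX
open Pool.Agent.QG (ew)
open scoped ENNReal

noncomputable section

theorem z3_gauss {x : ℝ} (hx : 0 < x) :
    ∫ θ in (0 : ℝ)..(2 * Real.pi), Real.exp (-(x * (1 + Real.cos θ))) ≤
      Real.pi * √(Real.pi / 2) * (√x)⁻¹ := by
  have hpi := Real.pi_pos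
  have hb : 0 < 2 * x / Real.pi ^ 2 := by positivity
  have h1 : ∫ θ in (0 : ℝ)..(2 * Real.pi), Real.exp (-(x * (1 + Real.cos θ))) ≤
      ∫ θ in (0 : ℝ)..(2 * Real.pi), Real.exp (-(2 * x / Real.pi ^ 2) * (θ - Real.pi) ^ 2) := by
    apply intervalIntegral.integral_mono_on (by positivity)
    · exact (by fun_prop : Continuous fun θ : ℝ =>
        Real.exp (-(x * (1 + Real.cos θ)))).intervalIntegrable _ _
    · exact (by fun_prop : Continuous fun θ : ℝ =>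
        Real.exp (-(2 * x / Real.pi ^ 2) * (θ - Real.pi) ^ 2)).intervalIntegrable _ _
    · intro θ hθ
      apply Real.exp_le_exp.2
      have h2 : |θ - Real.pi| ≤ Real.pi := abs_le.2 ⟨by linarith [hθ.1], by linarith [hθ.2]⟩
      have h3 := Real.cos_le_one_sub_mul_cos_sq h2
      have h4 : Real.cos (θ - Real.pi) = -Real.cos θ := Real.cos_sub_pi θ
      rw [h4] at h3
      have h5 : 2 / Real.pi ^ 2 * (θ - Real.pi) ^ 2 ≤ 1 + Real.cos θ := by linarith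
      have h6 : x * (2 / Real.pi ^ 2 * (θ - Real.pi) ^ 2) ≤ x * (1 + Real.cos θ) :=
        mul_le_mul_of_nonneg_left h5 hx.le
      have h7 : -(2 * x / Real.pi ^ 2) * (θ - Real.pi) ^ 2 =
          -(x * (2 / Real.pi ^ 2 * (θ - Real.pi) ^ 2)) := by ring
      rw [h7]
      linarith
  have h2 : ∫ θ in (0 : ℝ)..(2 * Real.pi), Real.exp (-(2 * x / Real.pi ^ 2) * (θ - Real.pi) ^ 2) =
      ∫ u in (0 - Real.pi)..(2 * Real.pi - Real.pi), Real.exp (-(2 * x / Real.pi ^ 2) * u ^ 2) :=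
    intervalIntegral.integral_comp_sub_right
      (fun u => Real.exp (-(2 * x / Real.pi ^ 2) * u ^ 2)) Real.pi
  have h3 : ∫ u in (0 - Real.pi)..(2 * Real.pi - Real.pi),
      Real.exp (-(2 * x / Real.pi ^ 2) * u ^ 2) ≤ ∫ u : ℝ, Real.exp (-(2 * x / Real.pi ^ 2) * u ^ 2) := by
    rw [intervalIntegral.integral_of_le (by linarith)]
    exact setIntegral_le_integral (integrable_exp_neg_mul_sq hb)
      (Filter.Eventually.of_forall fun u => (Real.exp_pos _).le)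
  rw [integral_gaussian] at h3
  have h4 : √(Real.pi / (2 * x / Real.pi ^ 2)) = Real.pi * √(Real.pi / 2) * (√x)⁻¹ := by
    have e1 : Real.pi / (2 * x / Real.pi ^ 2) = Real.pi ^ 2 * (Real.pi / 2) * x⁻¹ := by
      field_simp
    rw [e1, Real.sqrt_mul (by positivity), Real.sqrt_mul (by positivity),
      Real.sqrt_sq hpi.le, Real.sqrt_inv]
  rw [h4] at h3
  linarith [h1, h2.le, h2.ge, h3]

theorem z3_exp {x : ℝ} (hx : 0 < x) : Real.exp (-x) ≤ (√x)⁻¹ := by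
  have h1 : √x ≤ Real.exp x := by
    have h2 : √x ≤ 1 + x := by
      rw [Real.sqrt_le_left (by linarith)]
      nlinarith
    linarith [Real.add_one_le_exp x]
  rw [Real.exp_neg]
  exact inv_anti₀ (Real.sqrt_pos.2 hx) h1

theorem z3_cont {f : ℂ → ℂ} (hf : DifferentiableOn ℂ f {s | 1 / 2 < s.re}) {R ε T : ℝ}
    (hR : 0 ≤ R) (hε : 0 < ε) :
    Continuous fun θ : ℝ => ∫ t in (-T)..T,
      ‖f (((1 / 2 + ε / 2 + R + R * Real.cos θ : ℝ) : ℂ) + t * I) - 1‖ := by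
  have h1 : Continuous fun p : ℝ × ℝ =>
      ‖f (((1 / 2 + ε / 2 + R + R * Real.cos p.1 : ℝ) : ℂ) + p.2 * I) - 1‖ := by
    apply Continuous.norm
    apply Continuous.sub _ continuous_const
    apply hf.continuousOn.comp_continuous (by fun_prop)
    intro p
    have h2 : -1 ≤ Real.cos p.1 := Real.neg_one_le_cos _
    have h3 : ((((1 / 2 + ε / 2 + R + R * Real.cos p.1 : ℝ) : ℂ) + p.2 * I)).re =
        1 / 2 + ε / 2 + R + R * Real.cos p.1 := by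
      rw [Complex.add_re, Complex.ofReal_re, Complex.re_ofReal_mul, Complex.I_re, mul_zero,
        add_zero]
    rw [Set.mem_ofPred_eq, h3]
    nlinarith
  exact intervalIntegral.continuous_parametric_intervalIntegral_of_continuous' h1 (-T) T

/-- Z3: the same for a family with small mean values -/
theorem count_fam_pr {R κ : ℝ} (hR : 4 ≤ R) (hκ : 0 < κ) : ∃ C : ℝ, 0 < C ∧
    ∀ (ι : Type) [Fintype ι] (om : ι → ℝ) (f : ι → ℂ → ℂ) (a b T LL Φ : ℝ),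
    (∀ i, 0 ≤ om i) → (∀ i, DifferentiableOn ℂ (f i) {s | 1 / 2 < s.re}) → a ≤ b →
    |a| + |b| + R + 1 ≤ T → 2 ≤ LL → 0 ≤ Φ →
    (∀ i, ∀ s : ℂ, 1 / 2 + R ≤ s.re → ‖f i s - 1‖ ≤ 1 / 2) →
    (∀ σ : ℝ, 1 / 2 + 1 / LL ≤ σ → σ ≤ 2 * R + 1 →
      ∑ i, om i * (∫ t in (-T)..T, ‖f i ((σ : ℂ) + t * I) - 1‖) ≤
        Φ * Real.exp (-(κ * (σ - 1 / 2) * LL))) →
    ∀ ε : ℝ, 2 / LL ≤ ε → ε ≤ 1 → ∀ S : ι → Finset ℂ,
    (∀ i, ∀ ρ ∈ S i, 1 / 2 + ε ≤ ρ.re ∧ a ≤ ρ.im ∧ ρ.im ≤ b ∧ f i ρ = 0) →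
      ∑ i, om i * ∑ ρ ∈ S i, (analyticOrderNatAt (f i) ρ : ℝ) ≤
        C * LL * Φ * Real.exp (-(κ / 2 * ε * LL)) := by
  have hR0 : 0 < R := by linarith
  have hpi := Real.pi_pos
  refine ⟨6 * R * (√(κ * R))⁻¹, by positivity, ?_⟩
  intro ι _ om f a b T LL Φ hom hf hab hT hLL hΦ hfar hmean ε hε2 hε1 S hS
  have hLL0 : 0 < LL := by linarith
  have hε : 0 < ε := lt_of_lt_of_le (by positivity) hε2
  have hεL : 1 / LL ≤ ε / 2 := by
    have : 2 / LL = 2 * (1 / LL) := by ring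
    linarith
  have hx : 0 < κ * R * LL := by positivity
  -- the count for one function
  have h1 : ∀ i, ε ^ (3 / 2 : ℝ) / (2 * R) * ∑ ρ ∈ S i, (analyticOrderNatAt (f i) ρ : ℝ) ≤
      (2 * Real.pi)⁻¹ * (∫ θ in (0 : ℝ)..(2 * Real.pi), ∫ t in (-T)..T,
        ‖f i (((1 / 2 + ε / 2 + R + R * Real.cos θ : ℝ) : ℂ) + t * I) - 1‖) +
      2 * ∫ t in (-T)..T, ‖f i (((1 / 2 + ε / 2 + R : ℝ) : ℂ) + t * I) - 1‖ := fun i =>
    count_one (hf i) hR hε hε1 hab hT (hfar i) (S i) (hS i)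
  -- sum
  have h2 : ε ^ (3 / 2 : ℝ) / (2 * R) *
      ∑ i, om i * ∑ ρ ∈ S i, (analyticOrderNatAt (f i) ρ : ℝ) ≤
      (2 * Real.pi)⁻¹ * (∫ θ in (0 : ℝ)..(2 * Real.pi), ∑ i, om i * ∫ t in (-T)..T,
        ‖f i (((1 / 2 + ε / 2 + R + R * Real.cos θ : ℝ) : ℂ) + t * I) - 1‖) +
      2 * ∑ i, om i * ∫ t in (-T)..T, ‖f i (((1 / 2 + ε / 2 + R : ℝ) : ℂ) + t * I) - 1‖ := by
    rw [intervalIntegral.integral_finsetSum]
    · rw [Finset.mul_sum, Finset.mul_sum, Finset.mul_sum, ← Finset.sum_add_distrib]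
      refine Finset.sum_le_sum fun i _ => ?_
      rw [intervalIntegral.integral_const_mul]
      have := mul_le_mul_of_nonneg_left (h1 i) (hom i)
      calc ε ^ (3 / 2 : ℝ) / (2 * R) *
            (om i * ∑ ρ ∈ S i, (analyticOrderNatAt (f i) ρ : ℝ)) =
          om i * (ε ^ (3 / 2 : ℝ) / (2 * R) * ∑ ρ ∈ S i, (analyticOrderNatAt (f i) ρ : ℝ)) := by
            ring
        _ ≤ _ := this
        _ = _ := by ring
    · intro i _
      exact ((z3_cont (hf i) hR0.le hε).const_smul (om i)).intervalIntegrable _ _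
  -- the bounds
  have h3 : ∫ θ in (0 : ℝ)..(2 * Real.pi), ∑ i, om i * ∫ t in (-T)..T,
        ‖f i (((1 / 2 + ε / 2 + R + R * Real.cos θ : ℝ) : ℂ) + t * I) - 1‖ ≤
      ∫ θ in (0 : ℝ)..(2 * Real.pi), Φ * Real.exp (-(κ / 2 * ε * LL)) *
        Real.exp (-(κ * R * LL * (1 + Real.cos θ))) := by
    apply intervalIntegral.integral_mono_on (by positivity)
    · apply Continuous.intervalIntegrable
      refine continuous_finsetSum _ fun i _ => ?_
      exact (z3_cont (hf i) hR0.le hε).const_smul (om i)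
    · exact (by fun_prop : Continuous fun θ : ℝ => Φ * Real.exp (-(κ / 2 * ε * LL)) *
        Real.exp (-(κ * R * LL * (1 + Real.cos θ)))).intervalIntegrable _ _
    · intro θ _
      have c1 : -1 ≤ Real.cos θ := Real.neg_one_le_cos _
      have c2 : Real.cos θ ≤ 1 := Real.cos_le_one _
      have h4 := hmean (1 / 2 + ε / 2 + R + R * Real.cos θ) (by nlinarith) (by nlinarith)
      refine h4.trans (le_of_eq ?_)
      rw [mul_assoc Φ, ← Real.exp_add]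
      congr 2
      ring
  have h5 : ∑ i, om i * ∫ t in (-T)..T,
      ‖f i (((1 / 2 + ε / 2 + R : ℝ) : ℂ) + t * I) - 1‖ ≤
      Φ * Real.exp (-(κ / 2 * ε * LL)) * Real.exp (-(κ * R * LL)) := by
    have h4 := hmean (1 / 2 + ε / 2 + R) (by linarith) (by linarith)
    refine h4.trans (le_of_eq ?_)
    rw [mul_assoc Φ, ← Real.exp_add]
    congr 2
    ring
  rw [intervalIntegral.integral_const_mul] at h3
  have h6 := z3_gauss hx
  have h7 := z3_exp hx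
  have hE : 0 ≤ Φ * Real.exp (-(κ / 2 * ε * LL)) := mul_nonneg hΦ (Real.exp_pos _).le
  have hs2 : √(Real.pi / 2) ≤ 2 := by
    rw [Real.sqrt_le_left (by norm_num)]
    linarith [Real.pi_le_four]
  have hsx : 0 < (√(κ * R * LL))⁻¹ := by positivity
  have h8 : ε ^ (3 / 2 : ℝ) / (2 * R) *
      ∑ i, om i * ∑ ρ ∈ S i, (analyticOrderNatAt (f i) ρ : ℝ) ≤
      3 * (Φ * Real.exp (-(κ / 2 * ε * LL))) * (√(κ * R * LL))⁻¹ := by
    have a1 : (2 * Real.pi)⁻¹ * (∫ θ in (0 : ℝ)..(2 * Real.pi), ∑ i, om i * ∫ t in (-T)..T,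
        ‖f i (((1 / 2 + ε / 2 + R + R * Real.cos θ : ℝ) : ℂ) + t * I) - 1‖) ≤
        (2 * Real.pi)⁻¹ * (Φ * Real.exp (-(κ / 2 * ε * LL)) *
          (Real.pi * √(Real.pi / 2) * (√(κ * R * LL))⁻¹)) := by
      apply mul_le_mul_of_nonneg_left _ (by positivity)
      exact h3.trans (mul_le_mul_of_nonneg_left h6 hE)
    have a2 : (2 * Real.pi)⁻¹ * (Φ * Real.exp (-(κ / 2 * ε * LL)) *
          (Real.pi * √(Real.pi / 2) * (√(κ * R * LL))⁻¹)) =
        (√(Real.pi / 2) / 2) * ((Φ * Real.exp (-(κ / 2 * ε * LL))) * (√(κ * R * LL))⁻¹) := by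
      field_simp
    have a3 : (√(Real.pi / 2) / 2) * ((Φ * Real.exp (-(κ / 2 * ε * LL))) * (√(κ * R * LL))⁻¹) ≤
        1 * ((Φ * Real.exp (-(κ / 2 * ε * LL))) * (√(κ * R * LL))⁻¹) :=
      mul_le_mul_of_nonneg_right (by linarith) (by positivity)
    have a4 : Φ * Real.exp (-(κ / 2 * ε * LL)) * Real.exp (-(κ * R * LL)) ≤
        Φ * Real.exp (-(κ / 2 * ε * LL)) * (√(κ * R * LL))⁻¹ :=
      mul_le_mul_of_nonneg_left h7 hE
    linarith [h2, a1, a2, a3, a4, h5]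
  -- conclusion
  have h9 : 0 ≤ ∑ i, om i * ∑ ρ ∈ S i, (analyticOrderNatAt (f i) ρ : ℝ) :=
    Finset.sum_nonneg fun i _ => mul_nonneg (hom i)
      (Finset.sum_nonneg fun ρ _ => Nat.cast_nonneg _)
  have h10 : LL ^ (-(3 / 2) : ℝ) ≤ ε ^ (3 / 2 : ℝ) := by
    rw [Real.rpow_neg hLL0.le, ← Real.inv_rpow hLL0.le]
    apply Real.rpow_le_rpow (by positivity) _ (by norm_num)
    rw [inv_eq_one_div]
    linarith
  have h11 : LL ^ (-(3 / 2) : ℝ) / (2 * R) *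
      ∑ i, om i * ∑ ρ ∈ S i, (analyticOrderNatAt (f i) ρ : ℝ) ≤
      3 * (Φ * Real.exp (-(κ / 2 * ε * LL))) * (√(κ * R * LL))⁻¹ := by
    refine le_trans ?_ h8
    apply mul_le_mul_of_nonneg_right _ h9
    gcongr
  have h12 : (√(κ * R * LL))⁻¹ = (√(κ * R))⁻¹ * LL ^ (-(1 / 2) : ℝ) := by
    rw [Real.sqrt_mul (by positivity), mul_inv, Real.sqrt_eq_rpow LL, Real.rpow_neg hLL0.le]
  have h13 : LL ^ (-(1 / 2) : ℝ) = LL ^ (-(3 / 2) : ℝ) * LL := by
    rw [← Real.rpow_add_one hLL0.ne']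
    norm_num
  rw [h12, h13] at h11
  have hP : 0 < LL ^ (-(3 / 2) : ℝ) := Real.rpow_pos_of_pos hLL0 _
  have h14 : LL ^ (-(3 / 2) : ℝ) *
      (∑ i, om i * ∑ ρ ∈ S i, (analyticOrderNatAt (f i) ρ : ℝ)) ≤
      LL ^ (-(3 / 2) : ℝ) * (6 * R * (√(κ * R))⁻¹ * LL * Φ * Real.exp (-(κ / 2 * ε * LL))) := by
    have h15 : LL ^ (-(3 / 2) : ℝ) / (2 * R) *
      (∑ i, om i * ∑ ρ ∈ S i, (analyticOrderNatAt (f i) ρ : ℝ)) * (2 * R) =
      LL ^ (-(3 / 2) : ℝ) * (∑ i, om i * ∑ ρ ∈ S i, (analyticOrderNatAt (f i) ρ : ℝ)) := by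
      field_simp
    rw [← h15]
    calc _ ≤ 3 * (Φ * Real.exp (-(κ / 2 * ε * LL))) *
          ((√(κ * R))⁻¹ * (LL ^ (-(3 / 2) : ℝ) * LL)) * (2 * R) :=
          mul_le_mul_of_nonneg_right h11 (by positivity)
      _ = _ := by ring
  exact le_of_mul_le_mul_left h14 hP

end

end Pool.Agent.DN

namespace Pool.Agent.DN

theorem count_fam : type_of% @count_fam_pr := @count_fam_pr

end Pool.Agent.DN
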